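import Mathlib

namespace Pool.Agent.Lib.MP_9cdd18_an.CX

open MeasureTheory Set Real Filter Topology Metric

/-- Twice the `∂̄` derivative. -/
noncomputable def dbar (g : ℂ → ℂ) (ζ : ℂ) : ℂ :=
  fderiv ℝ g ζ 1 + Complex.I * fderiv ℝ g ζ Complex.I

theorem lin_polar (L : ℂ →L[ℝ] ℂ) (θ : ℝ) :
    (L 1 + Complex.I * L Complex.I) / (cos θ + sin θ * Complex.I) =
      L (cos θ + sin θ * Complex.I) + Complex.I * L (-sin θ + cos θ * Complex.I) := by
  have h1 : ∀ a b : ℝ, L (a + b * Complex.I) = a * L 1 + b * L Complex.I := by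
    intro a b
    have : (a + b * Complex.I : ℂ) = a • (1 : ℂ) + b • Complex.I := by simp
    rw [this, map_add, map_smul, map_smul]; simp
  have h2 : (-sin θ + cos θ * Complex.I : ℂ) = ((-sin θ : ℝ) : ℂ) + cos θ * Complex.I := by simp
  have h3 : ((cos θ : ℂ)) ^ 2 + (sin θ : ℂ) ^ 2 = 1 := by exact_mod_cast cos_sq_add_sin_sq θ
  have h4 : (cos θ + sin θ * Complex.I : ℂ) ≠ 0 := by
    intro h
    have : ((cos θ : ℂ)) ^ 2 + (sin θ : ℂ) ^ 2 =
        (cos θ + sin θ * Complex.I) * (cos θ - sin θ * Complex.I) := by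
      linear_combination (sin θ : ℂ) ^ 2 * Complex.I_sq
    rw [h3, h, zero_mul] at this
    exact one_ne_zero this
  rw [h2, h1, h1, div_eq_iff h4]
  push_cast
  simp only [← Complex.ofReal_cos, ← Complex.ofReal_sin]
  linear_combination (-(L 1) - Complex.I * L Complex.I) * h3 +
    (-(cos θ : ℂ) * (sin θ : ℂ) * L Complex.I + (sin θ : ℂ) ^ 2 * L 1) * Complex.I_sq

theorem pompeiu_aux {g : ℂ → ℂ} (hg : ContDiff ℝ 1 g) (hs : HasCompactSupport g) (z : ℂ) :
    ∫ ζ, dbar g ζ / (ζ - z) = -(2 * π) * g z := by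
  obtain ⟨R, hR0, hR⟩ := hs.isCompact.isBounded.subset_ball_lt 0 z
  set e : ℝ → ℂ := fun θ => cos θ + sin θ * Complex.I with he
  set e' : ℝ → ℂ := fun θ => -sin θ + cos θ * Complex.I with he'
  have hen : ∀ θ, ‖e θ‖ = 1 := fun θ => by
    simpa [he] using Complex.norm_cos_add_sin_mul_I θ
  have hdc : Continuous (fderiv ℝ g) := hg.continuous_fderiv one_ne_zero
  have hdiff : Differentiable ℝ g := hg.differentiable one_ne_zero
  set A : ℝ × ℝ → ℂ := fun p => fderiv ℝ g (z + p.1 * e p.2) (e p.2) with hA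
  set B : ℝ × ℝ → ℂ := fun p => fderiv ℝ g (z + p.1 * e p.2) (e' p.2) with hB
  have hAc : Continuous A := by
    simp only [hA, he]
    exact Continuous.clm_apply (hdc.comp (by fun_prop)) (by fun_prop)
  have hBc : Continuous B := by
    simp only [hB, he, he']
    exact Continuous.clm_apply (hdc.comp (by fun_prop)) (by fun_prop)
  have hout : ∀ ρ θ : ℝ, R ≤ ρ → z + ρ * e θ ∉ tsupport g := by
    intro ρ θ h h1
    have := hR h1
    rw [mem_ball, dist_eq_norm, add_sub_cancel_left, norm_mul, hen, Complex.norm_real,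
      norm_eq_abs, mul_one] at this
    linarith [le_abs_self ρ]
  rw [← integral_add_left_eq_self _ z, ← Complex.integral_comp_polarCoord_symm,
    polarCoord_target]
  have h1 : ∫ p in Ioi (0:ℝ) ×ˢ Ioo (-π) π, p.1 • (dbar g (z + Complex.polarCoord.symm p) /
      (z + Complex.polarCoord.symm p - z)) =
      ∫ p in Ioc (0:ℝ) R ×ˢ Ioo (-π) π, (A p + Complex.I * B p) := by
    rw [← setIntegral_eq_of_subset_of_forall_sdiff_eq_zero (t := Ioi (0:ℝ) ×ˢ Ioo (-π) π)
      (measurableSet_Ioi.prod measurableSet_Ioo) (prod_mono Ioc_subset_Ioi_self le_rfl)]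
    · refine setIntegral_congr_fun (measurableSet_Ioi.prod measurableSet_Ioo) fun p hp => ?_
      have hp1 : (p.1 : ℂ) ≠ 0 := by exact_mod_cast (ne_of_gt hp.1)
      simp only [Complex.polarCoord_symm_apply, add_sub_cancel_left, hA, hB, he, he']
      rw [← lin_polar, dbar, Complex.real_smul]
      field_simp
    · intro p hp
      have h2 : R ≤ p.1 := by
        by_contra h
        exact hp.2 ⟨⟨hp.1.1, (not_le.1 h).le⟩, hp.1.2⟩
      have h3 : fderiv ℝ g (z + p.1 * e p.2) = 0 := by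
        by_contra h
        exact hout _ _ h2 (support_fderiv_subset ℝ h)
      simp [hA, hB, h3]
  have hint : ∀ F : ℝ × ℝ → ℂ, Continuous F →
      IntegrableOn F (Ioc (0:ℝ) R ×ˢ Ioo (-π) π) (volume.prod volume) := fun F hF =>
    (hF.continuousOn.integrableOn_compact (isCompact_Icc.prod isCompact_Icc)).mono_set
      (prod_mono Ioc_subset_Icc_self Ioo_subset_Icc_self)
  have h2 : ∫ p in Ioc (0:ℝ) R ×ˢ Ioo (-π) π, B p = 0 := by
    rw [Measure.volume_eq_prod, setIntegral_prod _ (hint B hBc)]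
    refine setIntegral_eq_zero_of_forall_eq_zero fun ρ hρ => ?_
    have hρ' : (ρ : ℂ) ≠ 0 := by exact_mod_cast hρ.1.ne'
    have h3 : ∀ θ, HasDerivAt (fun θ => (ρ : ℂ)⁻¹ * g (z + ρ * e θ)) (B (ρ, θ)) θ := by
      intro θ
      have h4 : HasDerivAt (fun θ => z + ρ * e θ) (ρ • e' θ) θ := by
        have := (((hasDerivAt_cos θ).ofReal_comp.add
          ((hasDerivAt_sin θ).ofReal_comp.mul_const Complex.I)).const_mul (ρ : ℂ)).const_add z
        refine this.congr_deriv ?_
        simp [he']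
        ring
      have h5 := ((hdiff _).hasFDerivAt.comp_hasDerivAt θ h4).const_mul (ρ : ℂ)⁻¹
      refine h5.congr_deriv ?_
      rw [map_smul, Complex.real_smul, ← mul_assoc, inv_mul_cancel₀ hρ', one_mul]
    rw [← integral_Ioc_eq_integral_Ioo, ← intervalIntegral.integral_of_le (by linarith [pi_pos]),
      intervalIntegral.integral_eq_sub_of_hasDerivAt (fun θ _ => h3 θ)
        ((hBc.comp (by fun_prop)).intervalIntegrable _ _)]
    simp [he]
  have h3 : ∫ p in Ioc (0:ℝ) R ×ˢ Ioo (-π) π, A p = -(2 * π) * g z := by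
    have h4 := hint A hAc
    rw [IntegrableOn, ← Measure.prod_restrict] at h4
    rw [Measure.volume_eq_prod, ← Measure.prod_restrict, integral_prod_symm _ h4]
    have h5 : ∀ θ, ∫ ρ in Ioc (0:ℝ) R, A (ρ, θ) = -g z := by
      intro θ
      have h6 : ∀ ρ : ℝ, HasDerivAt (fun ρ : ℝ => g (z + ρ * e θ)) (A (ρ, θ)) ρ := by
        intro ρ
        have h7 : HasDerivAt (fun ρ : ℝ => z + ρ * e θ) (e θ) ρ := by
          simpa using ((hasDerivAt_id ρ).ofReal_comp.mul_const (e θ)).const_add z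
        exact (hdiff _).hasFDerivAt.comp_hasDerivAt ρ h7
      rw [← intervalIntegral.integral_of_le hR0.le,
        intervalIntegral.integral_eq_sub_of_hasDerivAt (fun ρ _ => h6 ρ)
          ((hAc.comp (by fun_prop)).intervalIntegrable _ _),
        image_eq_zero_of_notMem_tsupport (hout R θ le_rfl)]
      simp
    simp only [h5]
    rw [setIntegral_const, Real.volume_real_Ioo_of_le (by linarith [pi_pos]), Complex.real_smul]
    push_cast
    ring
  rw [Measure.volume_eq_prod] at h1 h2 h3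
  rw [Measure.volume_eq_prod, h1, integral_add (hint A hAc) ((hint B hBc).const_mul _),
    integral_const_mul, h2, h3]
  simp

theorem pompeiu {χ Φ : ℂ → ℂ} {W : Set ℂ} (hχ : ContDiff ℝ 1 χ) (hs : HasCompactSupport χ)
    (hW : IsOpen W) (hsW : tsupport χ ⊆ W) (hΦ : DifferentiableOn ℂ Φ W) (z : ℂ) :
    ∫ ζ, Φ ζ * dbar χ ζ / (ζ - z) = -(2 * π) * (χ z * Φ z) := by
  have hoff : ∀ ζ, ζ ∉ tsupport χ → (fun ζ => χ ζ * Φ ζ) =ᶠ[𝓝 ζ] fun _ => 0 := by
    intro ζ h
    filter_upwards [notMem_tsupport_iff_eventuallyEq.1 h] with w hw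
    simp [hw]
  have hg : ContDiff ℝ 1 fun ζ => χ ζ * Φ ζ := by
    refine contDiff_iff_contDiffAt.2 fun ζ => ?_
    by_cases h : ζ ∈ tsupport χ
    · exact hχ.contDiffAt.mul (((hΦ.contDiffOn hW).contDiffAt
        (hW.mem_nhds (hsW h))).restrict_scalars ℝ)
    · exact contDiffAt_const.congr_of_eventuallyEq (hoff ζ h)
  rw [← pompeiu_aux hg hs.mul_right z]
  congr 1
  ext ζ
  congr 1
  by_cases h : ζ ∈ tsupport χ
  · have h1 := (hΦ.differentiableAt (hW.mem_nhds (hsW h))).hasDerivAt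
    have h2 := (hχ.differentiable one_ne_zero ζ).hasFDerivAt.mul
      (h1.hasFDerivAt.restrictScalars ℝ)
    have h3 : fderiv ℝ (fun ζ => χ ζ * Φ ζ) ζ = _ := h2.fderiv
    simp only [dbar, h3]
    simp
    linear_combination (-χ ζ * deriv Φ ζ) * Complex.I_sq
  · have h1 : fderiv ℝ χ ζ = 0 := by
      by_contra h1
      exact h (support_fderiv_subset ℝ h1)
    simp [dbar, h1, (hoff ζ h).fderiv_eq]

end Pool.Agent.Lib.MP_9cdd18_an.CX
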