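import Pool.Agent.Lib.MP_9cdd18_an.Defs

namespace Pool.Agent.Lib.MP_9cdd18_an

open MeasureTheory Set Real

variable {n : ℕ} {U : Set (Fin n → ℂ)} {u w : (Fin n → ℂ) → EReal}

/-- The boundary circle of the disc `a + z • b`. -/
noncomputable def circ (a b : Fin n → ℂ) (θ : ℝ) : Fin n → ℂ :=
  a + Complex.exp ((θ : ℂ) * Complex.I) • b

theorem continuous_circ (a b : Fin n → ℂ) : Continuous (circ a b) := by
  unfold circ
  fun_prop

theorem circ_mem {a b : Fin n → ℂ} (h : ∀ z : ℂ, ‖z‖ ≤ 1 → a + z • b ∈ U) (θ : ℝ) :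
    circ a b θ ∈ U :=
  h _ (by rw [Complex.norm_exp_ofReal_mul_I])

/-- Truncation from below. -/
noncomputable def tr (x : EReal) (M : ℝ) : ℝ := (max x (M : EReal)).toReal

theorem coe_tr {x : EReal} (hx : x ≠ ⊤) (M : ℝ) : (tr x M : EReal) = max x (M : EReal) := by
  unfold tr
  apply EReal.coe_toReal
  · exact (max_lt (lt_top_iff_ne_top.2 hx) (EReal.coe_lt_top M)).ne
  · exact (lt_of_lt_of_le (EReal.bot_lt_coe M) (le_max_right _ _)).ne'

theorem le_tr {x : EReal} (hx : x ≠ ⊤) (M : ℝ) : M ≤ tr x M := by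
  rw [← EReal.coe_le_coe_iff, coe_tr hx]
  exact le_max_right _ _

theorem le_coe_tr {x : EReal} (hx : x ≠ ⊤) (M : ℝ) : x ≤ tr x M := by
  rw [coe_tr hx]
  exact le_max_left _ _

theorem tr_le {x : EReal} {M B : ℝ} (hx : x ≤ B) (hM : M ≤ B) : tr x M ≤ B := by
  have hx' : x ≠ ⊤ := (lt_of_le_of_lt hx (EReal.coe_lt_top B)).ne
  rw [← EReal.coe_le_coe_iff, coe_tr hx']
  exact max_le hx (EReal.coe_le_coe_iff.2 hM)

theorem tr_coe (x M : ℝ) : tr (x : EReal) M = max x M := by
  rw [← EReal.coe_eq_coe_iff, coe_tr (EReal.coe_ne_top x)]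
  rcases le_total x M with h | h
  · rw [max_eq_right h, max_eq_right (EReal.coe_le_coe_iff.2 h)]
  · rw [max_eq_left h, max_eq_left (EReal.coe_le_coe_iff.2 h)]

theorem tr_bot (M : ℝ) : tr ⊥ M = M := by
  simp [tr]

theorem exists_bound {K : Set (Fin n → ℂ)} (hK : IsCompact K) (hKU : K ⊆ U)
    (h1 : UpperSemicontinuousOn u U) (h2 : ∀ x ∈ U, u x ≠ ⊤) :
    ∃ B : ℝ, 0 ≤ B ∧ ∀ x ∈ K, u x ≤ B := by
  rcases K.eq_empty_or_nonempty with rfl | hne
  · exact ⟨0, le_rfl, by simp⟩
  obtain ⟨x0, hx0, hmax⟩ := (h1.mono hKU).exists_isMaxOn hne hK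
  refine ⟨tr (u x0) 0, le_tr (h2 x0 (hKU hx0)) 0, fun x hx => ?_⟩
  exact (hmax hx).trans (le_coe_tr (h2 x0 (hKU hx0)) 0)

theorem exists_bound_circ {a b : Fin n → ℂ} (h : ∀ z : ℂ, ‖z‖ ≤ 1 → a + z • b ∈ U)
    (h1 : UpperSemicontinuousOn u U) (h2 : ∀ x ∈ U, u x ≠ ⊤) :
    ∃ B : ℝ, 0 ≤ B ∧ ∀ θ, u (circ a b θ) ≤ B := by
  have hK : IsCompact ((fun z : ℂ => a + z • b) '' Metric.closedBall 0 1) :=
    (isCompact_closedBall 0 1).image (by fun_prop)
  obtain ⟨B, hB0, hB⟩ := exists_bound hK (by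
    rintro _ ⟨z, hz, rfl⟩
    exact h z (by simpa using hz)) h1 h2
  exact ⟨B, hB0, fun θ => hB _ ⟨_, by simp [Complex.norm_exp_ofReal_mul_I], rfl⟩⟩

theorem measurable_circ {a b : Fin n → ℂ} (h : ∀ z : ℂ, ‖z‖ ≤ 1 → a + z • b ∈ U)
    (h1 : UpperSemicontinuousOn u U) : Measurable (fun θ => u (circ a b θ)) := by
  have : UpperSemicontinuousOn (u ∘ circ a b) univ :=
    h1.comp (continuous_circ a b).continuousOn (fun θ _ => circ_mem h θ)
  exact (upperSemicontinuousOn_univ_iff.1 this).measurable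

theorem integrable_tr {a b : Fin n → ℂ} (h : ∀ z : ℂ, ‖z‖ ≤ 1 → a + z • b ∈ U)
    (h1 : UpperSemicontinuousOn u U) (h2 : ∀ x ∈ U, u x ≠ ⊤) (M : ℝ) :
    IntervalIntegrable (fun θ => tr (u (circ a b θ)) M) volume 0 (2 * π) := by
  obtain ⟨B, hB0, hB⟩ := exists_bound_circ h h1 h2
  have hm : Measurable (fun θ => tr (u (circ a b θ)) M) :=
    ((measurable_circ h h1).max measurable_const).ereal_toReal
  refine (intervalIntegrable_const (c := |M| + B)).mono_fun' hm.aestronglyMeasurable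
    (Filter.Eventually.of_forall fun θ => ?_)
  have h3 := le_tr (h2 _ (circ_mem h θ)) M
  have h4 : tr (u (circ a b θ)) M ≤ |M| + B :=
    tr_le ((hB θ).trans (EReal.coe_le_coe_iff.2 (by have := abs_nonneg M; linarith)))
      (by have := le_abs_self M; linarith)
  have := neg_abs_le M
  simp only [Real.norm_eq_abs]
  exact abs_le.2 ⟨by linarith, h4⟩

theorem PSH.mean (hu : PSH U u) {a b : Fin n → ℂ} (h : ∀ z : ℂ, ‖z‖ ≤ 1 → a + z • b ∈ U)
    (M : ℝ) :
    u a ≤ (((2 * π)⁻¹ * ∫ θ in (0:ℝ)..(2 * π), tr (u (circ a b θ)) M : ℝ) : EReal) :=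
  hu.2.2 a b h M

theorem PSH.mono {V : Set (Fin n → ℂ)} (hu : PSH U u) (hV : V ⊆ U) : PSH V u :=
  ⟨hu.1.mono hV, fun x hx => hu.2.1 x (hV hx), fun a b h M => hu.2.2 a b (fun z hz => hV (h z hz)) M⟩

theorem tr_add_le {x y : EReal} {B M : ℝ} (hx : x ≤ B) (hy : y ≤ B) (hM : M ≤ B) :
    tr x M + tr y M ≤ tr (x + y) (M + B) := by
  have hx' : x ≠ ⊤ := (lt_of_le_of_lt hx (EReal.coe_lt_top B)).ne
  have hy' : y ≠ ⊤ := (lt_of_le_of_lt hy (EReal.coe_lt_top B)).ne
  have hxy : x + y ≠ ⊤ := EReal.add_ne_top hx' hy'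
  have h0 := le_tr hxy (M + B)
  have h1 := tr_le hx hM
  have h2 := tr_le hy hM
  induction x using EReal.rec with
  | top => exact absurd rfl hx'
  | bot => rw [tr_bot]; linarith
  | coe x =>
    induction y using EReal.rec with
    | top => exact absurd rfl hy'
    | bot => rw [tr_bot]; linarith
    | coe y =>
      rw [← EReal.coe_add] at h0 ⊢
      simp only [tr_coe] at h0 h1 h2 ⊢
      rcases le_total x M with h3 | h3
      · rw [max_eq_right h3]; linarith
      rcases le_total y M with h4 | h4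
      · rw [max_eq_right h4]; linarith
      rw [max_eq_left h3, max_eq_left h4]
      exact le_max_left _ _

theorem PSH.add (hu : PSH U u) (hw : PSH U w) : PSH U (fun x => u x + w x) := by
  have husc : UpperSemicontinuousOn (fun x => u x + w x) U :=
    hu.1.add' hw.1 fun x hx =>
      EReal.continuousAt_add (Or.inl (hu.2.1 x hx)) (Or.inr (hw.2.1 x hx))
  have htop : ∀ x ∈ U, u x + w x ≠ ⊤ := fun x hx => EReal.add_ne_top (hu.2.1 x hx) (hw.2.1 x hx)
  refine ⟨husc, htop, fun a b h M => ?_⟩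
  obtain ⟨B1, hB10, hB1⟩ := exists_bound_circ h hu.1 hu.2.1
  obtain ⟨B2, hB20, hB2⟩ := exists_bound_circ h hw.1 hw.2.1
  set B := B1 + B2 + |M| with hB
  have hM := abs_nonneg M
  have hM2 := le_abs_self M
  have h1 := hu.mean h (M - B)
  have h2 := hw.mean h (M - B)
  have i1 := integrable_tr h hu.1 hu.2.1 (M - B)
  have i2 := integrable_tr h hw.1 hw.2.1 (M - B)
  have i3 := integrable_tr (u := fun x => u x + w x) h husc htop M
  refine (add_le_add h1 h2).trans ?_
  rw [← EReal.coe_add, EReal.coe_le_coe_iff, ← mul_add, ← intervalIntegral.integral_add i1 i2]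
  refine mul_le_mul_of_nonneg_left ?_ (by positivity)
  refine intervalIntegral.integral_mono_on (by positivity) (i1.add i2) i3 fun θ _ => ?_
  have := tr_add_le (x := u (circ a b θ)) (y := w (circ a b θ)) (B := B) (M := M - B)
    ((hB1 θ).trans (EReal.coe_le_coe_iff.2 (by linarith)))
    ((hB2 θ).trans (EReal.coe_le_coe_iff.2 (by linarith))) (by linarith)
  rw [sub_add_cancel] at this
  exact this

theorem tr_mul {ε : ℝ} (hε : 0 < ε) {x : EReal} (hx : x ≠ ⊤) (M : ℝ) :
    tr ((ε : EReal) * x) M = ε * tr x (M / ε) := by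
  induction x using EReal.rec with
  | top => exact absurd rfl hx
  | bot =>
    rw [EReal.coe_mul_bot_of_pos hε, tr_bot, tr_bot]
    field_simp
  | coe x =>
    rw [← EReal.coe_mul, tr_coe, tr_coe, mul_max_of_nonneg _ _ hε.le]
    congr 1
    field_simp

theorem mul_ne_top' {ε : ℝ} (hε : 0 < ε) {x : EReal} (hx : x ≠ ⊤) : (ε : EReal) * x ≠ ⊤ := by
  induction x using EReal.rec with
  | top => exact absurd rfl hx
  | bot => rw [EReal.coe_mul_bot_of_pos hε]; simp
  | coe x => rw [← EReal.coe_mul]; exact EReal.coe_ne_top _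

theorem PSH.smul (hu : PSH U u) {ε : ℝ} (hε : 0 < ε) : PSH U (fun x => (ε : EReal) * u x) := by
  have hε' : (0 : EReal) ≤ ε := EReal.coe_nonneg.2 hε.le
  have hmono : Monotone (fun x : EReal => (ε : EReal) * x) := fun x y h =>
    mul_le_mul_of_nonneg_left h hε'
  have hcont : Continuous (fun x : EReal => (ε : EReal) * x) := by
    rw [continuous_iff_continuousAt]
    intro x
    have hne : (ε : EReal) ≠ 0 := by exact_mod_cast hε.ne'
    exact (EReal.continuousAt_mul (p := ((ε : EReal), x)) (Or.inl hne) (Or.inl hne)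
      (Or.inl (EReal.coe_ne_bot ε)) (Or.inl (EReal.coe_ne_top ε))).comp
      (f := fun y : EReal => ((ε : EReal), y)) (by fun_prop)
  refine ⟨hcont.comp_upperSemicontinuousOn hu.1 hmono,
    fun x hx => mul_ne_top' hε (hu.2.1 x hx), fun a b h M => ?_⟩
  have h1 := hmono (hu.mean h (M / ε))
  refine le_trans h1 (le_of_eq ?_)
  simp only
  rw [← EReal.coe_mul, EReal.coe_eq_coe_iff, mul_left_comm,
    ← intervalIntegral.integral_const_mul]
  congr 1
  refine intervalIntegral.integral_congr fun θ _ => ?_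
  exact (tr_mul hε (hu.2.1 _ (circ_mem h θ)) M).symm

theorem psh_affine (L : (Fin n → ℂ) →L[ℂ] ℂ) (c : ℝ) :
    PSH U (fun x => (((L x).re + c : ℝ) : EReal)) := by
  have hc : Continuous (fun x : Fin n → ℂ => (((L x).re + c : ℝ) : EReal)) :=
    continuous_coe_real_ereal.comp (by fun_prop)
  refine ⟨hc.continuousOn.upperSemicontinuousOn, fun x _ => EReal.coe_ne_top _, fun a b h M => ?_⟩
  have i1 := integrable_tr (u := fun x => (((L x).re + c : ℝ) : EReal)) h
    hc.continuousOn.upperSemicontinuousOn (fun x _ => EReal.coe_ne_top _) M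
  have hf : ∀ θ : ℝ, (L (circ a b θ)).re + c =
      ((L a).re + c) + ((L b).re * cos θ - (L b).im * sin θ) := by
    intro θ
    simp only [circ, map_add, map_smul, smul_eq_mul, Complex.add_re, Complex.mul_re,
      Complex.exp_ofReal_mul_I_re, Complex.exp_ofReal_mul_I_im]
    ring
  have h2 : ∫ θ in (0:ℝ)..(2 * π), ((L (circ a b θ)).re + c) = 2 * π * ((L a).re + c) := by
    simp only [hf]
    rw [intervalIntegral.integral_add (by simp) (Continuous.intervalIntegrable (by fun_prop) _ _),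
      intervalIntegral.integral_sub (Continuous.intervalIntegrable (by fun_prop) _ _)
        (Continuous.intervalIntegrable (by fun_prop) _ _)]
    simp
    ring
  have h3 : ∫ θ in (0:ℝ)..(2 * π), ((L (circ a b θ)).re + c) ≤
      ∫ θ in (0:ℝ)..(2 * π), tr (((L (circ a b θ)).re + c : ℝ) : EReal) M := by
    refine intervalIntegral.integral_mono_on (by positivity)
      (Continuous.intervalIntegrable ?_ _ _) i1 fun θ _ => ?_
    · have := continuous_circ a b
      fun_prop
    · rw [tr_coe]; exact le_max_left _ _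
  rw [EReal.coe_le_coe_iff]
  rw [h2] at h3
  have hpi : 0 < 2 * π := by positivity
  calc (L a).re + c = (2 * π)⁻¹ * (2 * π * ((L a).re + c)) := by field_simp
    _ ≤ _ := mul_le_mul_of_nonneg_left h3 (by positivity)

theorem PSH.le_of_ae (hu : PSH U u) {a b : Fin n → ℂ} (h : ∀ z : ℂ, ‖z‖ ≤ 1 → a + z • b ∈ U)
    {c : ℝ} (hc : ∀ᵐ θ ∂(volume.restrict (Ioc 0 (2 * π))), u (circ a b θ) ≤ c) : u a ≤ c := by
  refine (hu.mean h c).trans (le_of_eq ?_)
  have : ∫ θ in (0:ℝ)..(2 * π), tr (u (circ a b θ)) c = ∫ θ in (0:ℝ)..(2 * π), c := by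
    rw [intervalIntegral.integral_of_le (by positivity),
      intervalIntegral.integral_of_le (by positivity)]
    refine integral_congr_ae ?_
    filter_upwards [hc] with θ hθ
    simp [tr, max_eq_right hθ]
  rw [this, EReal.coe_eq_coe_iff]
  simp
  field_simp

theorem PSH.ae_ne_bot (hu : PSH U u) {a b : Fin n → ℂ} (h : ∀ z : ℂ, ‖z‖ ≤ 1 → a + z • b ∈ U)
    (ha : u a ≠ ⊥) : ∀ᵐ θ ∂(volume.restrict (Ioc 0 (2 * π))), u (circ a b θ) ≠ ⊥ := by
  obtain ⟨B, hB0, hB⟩ := exists_bound_circ h hu.1 hu.2.1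
  set Z : Set ℝ := {θ | u (circ a b θ) = ⊥} with hZ
  have hZm : MeasurableSet Z := measurable_circ h hu.1 (measurableSet_singleton ⊥)
  set μ : Measure ℝ := volume.restrict (Ioc 0 (2 * π)) with hμ
  have hfin : IsFiniteMeasure μ := by rw [hμ]; infer_instance
  have ha0 : a ∈ U := by simpa using h 0 (by simp)
  lift u a to ℝ using ⟨hu.2.1 a ha0, ha⟩ with A hA
  have key : ∀ M : ℝ, M ≤ B → 2 * π * A ≤ 2 * π * B + (M - B) * μ.real Z := by
    intro M hM
    have h1 := hu.mean h M
    rw [← hA, EReal.coe_le_coe_iff] at h1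
    have i1 := integrable_tr h hu.1 hu.2.1 M
    have h2 : ∫ θ in (0:ℝ)..(2 * π), tr (u (circ a b θ)) M ≤
        2 * π * B + (M - B) * μ.real Z := by
      rw [intervalIntegral.integral_of_le (by positivity)]
      have i2 : Integrable (Z.indicator fun _ => M - B) μ := (integrable_const _).indicator hZm
      calc ∫ θ, tr (u (circ a b θ)) M ∂μ ≤ ∫ θ, (B + Z.indicator (fun _ => M - B) θ) ∂μ := by
            refine integral_mono i1.1 ((integrable_const _).add i2) fun θ => ?_
            by_cases hθ : θ ∈ Z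
            · have : u (circ a b θ) = ⊥ := hθ
              simp [this, tr_bot, indicator_of_mem hθ]
            · simp only [indicator_of_notMem hθ, add_zero]
              exact tr_le (hB θ) hM
        _ = 2 * π * B + (M - B) * μ.real Z := by
            rw [integral_add (integrable_const _) i2, integral_indicator_const _ hZm,
              integral_const]
            simp [hμ, Measure.real, mul_comm, pi_pos.le]
    have hpi : 0 < 2 * π := by positivity
    calc 2 * π * A ≤ 2 * π * ((2 * π)⁻¹ * ∫ θ in (0:ℝ)..(2 * π), tr (u (circ a b θ)) M) :=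
          mul_le_mul_of_nonneg_left h1 hpi.le
      _ = ∫ θ in (0:ℝ)..(2 * π), tr (u (circ a b θ)) M := by field_simp
      _ ≤ _ := h2
  have hz : μ.real Z = 0 := by
    by_contra hne
    have hpos : 0 < μ.real Z := lt_of_le_of_ne measureReal_nonneg (Ne.symm hne)
    have h3 := key (B - (|2 * π * B - 2 * π * A| + 1) / μ.real Z) (by
      have : 0 ≤ (|2 * π * B - 2 * π * A| + 1) / μ.real Z := by positivity
      linarith)
    have h4 : (B - (|2 * π * B - 2 * π * A| + 1) / μ.real Z - B) * μ.real Z =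
        -(|2 * π * B - 2 * π * A| + 1) := by field_simp; ring
    have := le_abs_self (2 * π * B - 2 * π * A)
    linarith
  rw [ae_iff]
  simp only [not_not]
  exact (measureReal_eq_zero_iff (measure_ne_top _ _)).1 hz

end Pool.Agent.Lib.MP_9cdd18_an
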