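import Pool.Agent.Lib.MP_9cdd18_an.CXGreen

namespace Pool.Agent.Lib.MP_9cdd18_an.CX

open MeasureTheory Set Real Filter Topology Metric

/-- Parameters of one step that do not depend on the large integer `n`. -/
structure Pre extends Data where
  o : ℂ
  ρ : ℝ
  RK : ℝ
  σ0 : ℝ
  θ0 : ℝ
  C0 : ℝ
  Cv : ℝ
  xs : ℂ × ℂ
  H : IH toData o ρ RK σ0 θ0 C0 Cv xs
  hRK : RK < 1
  hxs : xs ∈ closedBall (0 : ℂ × ℂ) 1
  b : ℂ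
  r : ℝ
  ρ2 : ℝ
  γ0 : ℝ
  hr : 0 < r
  hr1 : r ≤ 1
  hρ2 : ρ2 < ‖a - o‖
  hb : ‖b - o‖ + r ≤ ρ2
  hγ0 : 0 < γ0
  hγ1 : γ0 ≤ 1
  hS : SchZ ρ ‖a - o‖ γ0
  C : ℕ
  hC1 : 1 ≤ C
  θ : ℝ
  hθ : θ * (γ0 * M) = 40 * C * h
  hθ1 : θ ≤ γ0 / (32 * log (4 / r))
  k1 : ℕ
  hk1 : 1 ≤ k1
  uB : ℂ → ℂ
  uB_diff : DifferentiableOn ℂ uB toData.Vout
  uB_ne : ∀ z ∈ toData.Vout, uB z ≠ 0
  G1 : ∀ z ∈ toData.Vout, r ≤ ‖z - b‖ → (r / 4) ^ (M * k1) ≤ ‖(z - b) ^ (M * k1) * uB z‖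
  G2 : ∀ z ∈ closedBall o ‖a - o‖, ‖(z - b) ^ (M * k1) * uB z‖ ≤ exp (-(M * k1 * γ0 / 2))
  G3 : ∀ z ∈ V, ‖toData.s z‖ ≤ exp (-(h + 2 * (h / 20))) →
    ‖(z - b) ^ (M * k1) * uB z‖ ≤ exp (C * k1 * (h / 20))
  G4 : ∀ z ∈ toData.Vout, r ≤ ‖z - b‖ →
    ‖toData.s z‖ ^ (C * k1) * exp (C * k1 * h) ≤ ‖(z - b) ^ (M * k1) * uB z‖
  D : ℕ
  hD : 40 * σ / h + 2 ≤ D
  β : ℂ
  hβ : ‖β‖ = exp ((D - 1) * h)
  hβx : ‖β‖ * ‖P xs‖ ^ D ≤ ‖sh xs - P xs + β * P xs ^ D‖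
  um : ℝ
  ul : ℝ
  uu : ℝ
  um_pos : 0 < um
  um_le : um ≤ 1
  ul_pos : 0 < ul
  uu_ge : 1 ≤ uu
  hum : ∀ z ∈ toData.KV, um ≤ ‖uF z‖
  hul : ∀ z ∈ toData.KV, ul ≤ ‖u z‖
  huu : ∀ z ∈ toData.KV, ‖u z‖ ≤ uu
  ϱ1 : ℝ
  ϱ1_pos : 0 < ϱ1
  ϱ1_le : ϱ1 ≤ exp (-h) / 100
  ϱ1_g : ϱ1 ≤ ‖a - o‖ - ρ2
  ball_KV : closedBall a ϱ1 ⊆ toData.KV
  box_U : ∀ x ∈ toData.cBox ϱ1 ϱ1, U x = nn (P x) (toData.F x.1) * exp (-τ x)
  box_L : ∀ x ∈ toData.cBox ϱ1 ϱ1, ‖toData.F x.1‖ * exp (-Λ - 1) * exp (-E) ≤ L x ∧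
    L x ≤ max ‖P x‖ (‖toData.F x.1‖ * exp (-Λ + 1)) * exp (-E)
  Lip : ℝ
  Lip_nn : 0 ≤ Lip
  G5 : ∀ z, ‖z - a‖ ≤ ϱ1 → |log ‖(z - b) ^ (M * k1) * uB z‖ - log ‖(a - b) ^ (M * k1) * uB a‖| ≤
    Lip * ‖z - a‖
  mU : ℝ
  mU_pos : 0 < mU
  hmU : ∀ x ∈ closedBall (0 : ℂ × ℂ) 1, x ∉ toData.Box ϱ1 ϱ1 → mU ≤ U x

namespace Pre

variable (c : Pre)

noncomputable def Q (x : ℂ × ℂ) : ℂ := c.sh x - c.P x + c.β * c.P x ^ c.D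

noncomputable def LQ : ℝ := 6 * exp ((c.D - 1) * c.h)

noncomputable def Qb (x : ℂ × ℂ) : ℂ := c.Q x / c.LQ

noncomputable def B (z : ℂ) : ℂ := (z - c.b) ^ (c.M * c.k1) * c.uB z

noncomputable def C1 : ℝ := log (4 / c.r)

end Pre

/-- All parameters of one step. -/
structure Ctx extends Pre where
  n : ℕ
  y : ℝ
  ς : ℝ
  N0 : ℝ
  ν : ℕ
  μ : ℕ
  κ : ℕ
  x2 : ℝ
  η : ℝ
  Hh : ℝ
  X : ℝ
  hx2 : x2 = exp (-(2 * y))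
  hη : η = um * (x2 ^ 4) ^ M
  hHh : η = exp (-Hh)
  hX : X = ν * n * Hh
  hς : 100 ≤ ς
  hy3 : 3 ≤ y
  hyΛ : Λ ≤ y
  hs2 : uu * x2 ≤ ϱ1 / 4
  hs3 : uu * x2 ≤ exp (-(2 * h))
  hH1 : Hh + D * h + 5 ≤ n
  hH2 : 20 * h + 20 ≤ Hh
  hH3 : 5 / 8 * Hh ≤ M * (6 * y - 1)
  hηU : η ≤ mU
  hN0 : uu * x2 ^ 4 ≤ exp (-N0)
  hν1 : θ * n ≤ ν
  hν2 : ν ≤ 2 * θ * n
  hν3 : 30 ≤ ν
  hμ1 : X ≤ μ * (15 * (h / 20))
  hμ2 : μ * (15 * (h / 20)) ≤ X + 15 * (h / 20)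
  hκ1 : n ^ 2 * Hh + X / 4 ≤ κ * -log ‖toPre.B a‖
  hκ2 : κ * -log ‖toPre.B a‖ ≤ n ^ 2 * Hh + X / 4 + M * k1 * toPre.C1
  hY : κ * Lip * x2 ≤ n
  hX1 : 32 * n * (log (8 * α) + Λ + 3 + 27 * ς) ≤ X
  hX2 : 8 * (n ^ 2 * (2 * h + 1) + M * k1 * toPre.C1) ≤ X

theorem exp_ge_lin (x : ℝ) : x + 1 ≤ exp x := add_one_le_exp x

theorem exp_neg_le {x c : ℝ} (hc : 0 < c) (h : c ≤ x + 1) : exp (-x) ≤ 1 / c := by
  rw [exp_neg, ← one_div]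
  exact one_div_le_one_div_of_le hc (h.trans (add_one_le_exp x))

theorem two_le_e : (2:ℝ) ≤ exp 1 := by linarith [add_one_le_exp (1:ℝ)]

theorem e_le_three : exp 1 ≤ (3:ℝ) := by linarith [exp_one_lt_d9]

theorem le_exp_two : (7:ℝ) ≤ exp 2 := by
  have : exp 2 = exp 1 * exp 1 := by rw [← exp_add]; norm_num
  nlinarith [exp_one_gt_d9]

theorem le_exp_three : (20:ℝ) ≤ exp 3 := by
  have : exp 3 = exp 1 * exp 1 * exp 1 := by rw [← exp_add, ← exp_add]; norm_num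
  have h := exp_one_gt_d9
  have h2 : (7.389:ℝ) ≤ exp 1 * exp 1 := by nlinarith
  nlinarith

namespace Pre

variable (c : Pre)

theorem D_ge : (2:ℝ) ≤ c.D := by
  have := c.hD
  have : 0 ≤ 40 * c.σ / c.h := div_nonneg (by linarith [c.H.σ_nn]) (by linarith [c.H.h_ge])
  linarith

theorem LQ_ge : 6 ≤ c.LQ := by
  have : 1 ≤ exp ((c.D - 1) * c.h) := one_le_exp (by nlinarith [c.D_ge, c.H.h_ge])
  simp only [LQ]; linarith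

theorem LQ_le : c.LQ ≤ exp (c.D * c.h) := by
  have h1 : exp (c.D * c.h) = exp ((c.D - 1) * c.h) * exp c.h := by rw [← exp_add]; ring_nf
  have := exp_ge_lin c.h
  have := c.H.h_ge
  rw [h1, LQ, mul_comm]
  gcongr; linarith

theorem LQ_pos : 0 < c.LQ := by linarith [c.LQ_ge]

theorem norm_Qb (x : ℂ × ℂ) : ‖c.Qb x‖ = ‖c.Q x‖ / c.LQ := by
  rw [Qb, norm_div, Complex.norm_real, norm_eq_abs, abs_of_pos c.LQ_pos]

theorem Q_pol : c.Q ∈ Pol :=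
  pol_add (pol_sub c.H.hsh c.H.hP) (pol_mul (const_mem _) (pol_pow c.H.hP _))

theorem Qb_pol : c.Qb ∈ Pol := by
  have := pol_mul c.Q_pol (const_mem (c.LQ : ℂ)⁻¹)
  simp only [← div_eq_mul_inv] at this
  exact this

theorem T_ball {x : ℂ × ℂ} (hx : x ∈ c.T) : x ∈ ball (0 : ℂ × ℂ) 1 :=
  closedBall_subset_ball c.hRK (c.H.T_sub hx)

theorem T_cball {x : ℂ × ℂ} (hx : x ∈ c.T) : x ∈ closedBall (0 : ℂ × ℂ) 1 :=
  ball_subset_closedBall (c.T_ball hx)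

theorem E_nn : 0 ≤ c.E := (c.H.τ_nn 0).trans (c.H.τ_le 0 (by simp))

theorem C1_ge : 1 ≤ c.C1 := by
  rw [C1, le_log_iff_exp_le (by have := c.hr; positivity), le_div_iff₀ c.hr]
  nlinarith [e_le_three, c.hr1, c.hr]

theorem θ_pos : 0 < c.θ := by
  have h1 : (1:ℝ) ≤ c.C := by exact_mod_cast c.hC1
  have h2 : (1:ℝ) ≤ c.M := by exact_mod_cast c.H.M_pos
  have h3 : 0 < c.θ * (c.γ0 * c.M) := by rw [c.hθ]; nlinarith [c.H.h_ge]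
  exact pos_of_mul_pos_left h3 (by nlinarith [c.hγ0])

theorem θ_C1 : 32 * (c.θ * c.C1) ≤ c.γ0 := by
  have := c.hθ1
  rw [le_div_iff₀ (by have := c.C1_ge; simp only [C1] at this; linarith)] at this
  simp only [C1]; linarith

theorem θ_le : c.θ ≤ 1 / 32 := by
  nlinarith [c.θ_C1, c.hγ1, c.C1_ge, c.θ_pos]

theorem Q_near {x : ℂ × ℂ} (hx : x ∈ c.T) (hp : ‖c.P x‖ ≤ exp (-c.h) / 100) :
    ‖c.Q x - (c.s x.1 - c.P x)‖ ≤ ‖c.P x‖ / 50 := by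
  have h1 := c.H.flat x hx
  obtain ⟨k, hk⟩ : ∃ k, c.D = k + 2 := ⟨c.D - 2, by
    have : 2 ≤ c.D := by exact_mod_cast c.D_ge
    omega⟩
  have h2 : ‖c.β * c.P x ^ c.D‖ ≤ ‖c.P x‖ / 100 := by
    rw [norm_mul, norm_pow, c.hβ, hk]
    have h3 : exp c.h * ‖c.P x‖ ≤ 1 / 100 := by
      calc exp c.h * ‖c.P x‖ ≤ exp c.h * (exp (-c.h) / 100) := by gcongr
        _ = 1 / 100 := by rw [mul_div_assoc', ← exp_add]; simp
    have h4 : exp ((((k + 2 : ℕ) : ℝ) - 1) * c.h) = exp c.h ^ (k + 1) := by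
      rw [← exp_nat_mul]; push_cast; ring_nf
    have h5 : (exp c.h * ‖c.P x‖) ^ (k + 1) ≤ 1 / 100 :=
      (pow_le_of_le_one (by positivity) (by linarith) (by omega)).trans h3
    calc _ = (exp c.h * ‖c.P x‖) ^ (k + 1) * ‖c.P x‖ := by rw [h4, mul_pow]; ring
      _ ≤ 1 / 100 * ‖c.P x‖ := by gcongr
      _ = _ := by ring
  have h3 : c.Q x - (c.s x.1 - c.P x) = (c.sh x - c.s x.1) + c.β * c.P x ^ c.D := by
    simp only [Q]; ring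
  rw [h3]
  linarith [norm_add_le (c.sh x - c.s x.1) (c.β * c.P x ^ c.D)]

theorem Q_up {x : ℂ × ℂ} (hx : x ∈ c.T) (hp : ‖c.P x‖ ≤ exp (-c.h) / 100) :
    ‖c.Q x‖ ≤ ‖c.P x - c.s x.1‖ + ‖c.P x‖ / 50 := by
  have h1 := c.Q_near hx hp
  have h2 := norm_le_norm_add_norm_sub' (c.Q x) (c.s x.1 - c.P x)
  rw [norm_sub_rev (c.s x.1)] at h2
  linarith

theorem Qα_up {x : ℂ × ℂ} (hx : x ∈ c.T) (hp : ‖c.P x‖ ≤ exp (-c.h) / 100) :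
    ‖c.Q x / c.α‖ ≤ 2 * ‖c.F x.1‖ + ‖c.P x‖ / 50 := by
  have h1 := c.Q_up hx hp
  have h2 := norm_sub_le (c.P x) (c.s x.1)
  have h3 := c.H.s_le (c.H.Ψ_left x hx).1
  have h4 := c.H.α_ge
  rw [norm_div, Complex.norm_real, norm_eq_abs, abs_of_pos (by linarith), div_le_iff₀ (by linarith)]
  nlinarith [norm_nonneg (c.P x)]

theorem Q_low {x : ℂ × ℂ} (hx : x ∈ c.T) (hp : ‖c.P x‖ ≤ exp (-c.h) / 100)
    (hw : 1 / 3 * ‖c.s x.1‖ ≤ ‖c.P x - c.s x.1‖) :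
    ‖c.s x.1‖ ≤ 8 * ‖c.Q x‖ ∧ ‖c.P x‖ ≤ 8 * ‖c.Q x‖ := by
  have h1 := c.Q_near hx hp
  have h2 := norm_sub_norm_le (c.s x.1 - c.P x) (c.Q x)
  rw [norm_sub_rev (c.s x.1), norm_sub_rev _ (c.Q x)] at h2
  have h3 := norm_le_norm_add_norm_sub' (c.P x) (c.s x.1)
  constructor <;> linarith [norm_nonneg (c.P x - c.s x.1)]

theorem Qα_low {x : ℂ × ℂ} (hx : x ∈ c.T) (hp : ‖c.P x‖ ≤ exp (-c.h) / 100)
    (hw : 1 / 3 * ‖c.s x.1‖ ≤ ‖c.P x - c.s x.1‖) :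
    ‖c.F x.1‖ / 16 ≤ ‖c.Q x / c.α‖ ∧ ‖c.P x‖ / (8 * c.α) ≤ ‖c.Q x / c.α‖ := by
  obtain ⟨h1, h2⟩ := c.Q_low hx hp hw
  have h3 := c.H.F_le (c.H.Ψ_left x hx).1
  have h4 := c.H.α_ge
  rw [norm_div, Complex.norm_real, norm_eq_abs, abs_of_pos (by linarith)]
  constructor
  · rw [le_div_iff₀ (by linarith)]; linarith
  · rw [← div_div]; gcongr; linarith

theorem Qb_le {x : ℂ × ℂ} (hx : x ∈ closedBall (0 : ℂ × ℂ) 1) : ‖c.Qb x‖ ≤ 1 / 2 := by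
  have h1 := c.H.P_le x hx
  have h2 := c.H.sh_le x hx
  have hh := c.H.h_ge
  have h3 : c.σ - c.h ≤ (c.D - 1) * c.h := by
    have := c.hD
    have h4 : 40 * c.σ / c.h * c.h = 40 * c.σ := by field_simp
    nlinarith [c.H.σ_nn]
  have h4 := exp_le_exp.2 h3
  have h5 : 1 ≤ exp ((c.D - 1) * c.h) := one_le_exp (by nlinarith [c.D_ge])
  have h6 : ‖c.β * c.P x ^ c.D‖ ≤ exp ((c.D - 1) * c.h) := by
    rw [norm_mul, norm_pow, c.hβ]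
    exact mul_le_of_le_one_right (by positivity) (pow_le_one₀ (norm_nonneg _) h1)
  rw [c.norm_Qb, div_le_iff₀ c.LQ_pos, Q, LQ]
  linarith [norm_add_le (c.sh x - c.P x) (c.β * c.P x ^ c.D), norm_sub_le (c.sh x) (c.P x)]

theorem Q_far {x : ℂ × ℂ} (hx : x ∈ closedBall (0 : ℂ × ℂ) 1)
    (hp : exp (-c.h + c.h / 20) ≤ ‖c.P x‖) : exp (-c.h) ≤ ‖c.Q x‖ := by
  have hh := c.H.h_ge
  have h2 := c.H.sh_le x hx
  obtain ⟨k, hk⟩ : ∃ k, c.D = k + 1 := ⟨c.D - 1, by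
    have : 2 ≤ c.D := by exact_mod_cast c.D_ge
    omega⟩
  have hk' : 40 * c.σ / c.h + 1 ≤ k := by have := c.hD; rw [hk] at this; push_cast at this; linarith
  have h3 : 2 * c.σ + c.h / 20 ≤ k * (c.h / 20) := by
    have h4 : 40 * c.σ / c.h * c.h = 40 * c.σ := by field_simp
    nlinarith
  have h4 : ‖c.P x‖ * (exp c.σ * 10) ≤ ‖c.β * c.P x ^ c.D‖ := by
    rw [norm_mul, norm_pow, c.hβ, hk, pow_succ, ← mul_assoc (exp _), mul_comm ‖c.P x‖]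
    refine mul_le_mul_of_nonneg_right ?_ (norm_nonneg _)
    calc exp c.σ * 10 ≤ exp c.σ * exp (c.σ + c.h / 20) := by
          gcongr; linarith [exp_ge_lin (c.σ + c.h / 20), c.H.σ_nn]
      _ ≤ exp ((((k + 1 : ℕ) : ℝ) - 1) * c.h) * exp (-c.h + c.h / 20) ^ k := by
          rw [← exp_add, ← exp_nat_mul, ← exp_add, exp_le_exp]; push_cast; linarith
      _ ≤ _ := by gcongr
  have h5 : exp (c.σ - c.h) ≤ ‖c.P x‖ * exp c.σ := by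
    rw [sub_eq_add_neg, exp_add, mul_comm]
    gcongr
    exact (exp_le_exp.2 (by linarith)).trans hp
  have h6 : ‖c.P x‖ ≤ ‖c.P x‖ * exp c.σ :=
    le_mul_of_one_le_right (norm_nonneg _) (one_le_exp c.H.σ_nn)
  have h7 : exp (-c.h) ≤ ‖c.P x‖ := (exp_le_exp.2 (by linarith)).trans hp
  have h8 := norm_sub_norm_le (c.β * c.P x ^ c.D) (-(c.sh x - c.P x))
  rw [norm_neg, sub_neg_eq_add, add_comm (c.β * _)] at h8
  rw [Q]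
  linarith [norm_sub_le (c.sh x) (c.P x), norm_nonneg (c.P x)]

theorem s_up {z : ℂ} (hz : ‖z - c.a‖ ≤ c.ϱ1) : ‖c.s z‖ ≤ c.uu * ‖z - c.a‖ := by
  have h1 := c.huu z (c.ball_KV (by simpa [dist_eq_norm] using hz))
  have h2 : c.ϱ1 ≤ 1 := by
    have := c.ϱ1_le
    have := exp_le_one_iff.2 (show -c.h ≤ 0 by linarith [c.H.h_ge])
    linarith
  have h3 : ‖z - c.a‖ ^ c.M ≤ ‖z - c.a‖ :=
    pow_le_of_le_one (norm_nonneg _) (hz.trans h2) (by have := c.H.M_pos; omega)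
  rw [Data.s, norm_mul, norm_pow, mul_comm]
  gcongr
  linarith [c.uu_ge]

theorem str_good {x : ℂ × ℂ} {t : ℝ} (ht : c.h + c.h / 20 ≤ t) (h1 : ‖c.s x.1‖ ≤ exp (-t))
    (h2 : ‖c.P x - c.s x.1‖ ≤ 3 / 4 * ‖c.s x.1‖) : ‖c.P x‖ ≤ exp (-c.h) / 100 := by
  have h3 := norm_le_norm_add_norm_sub' (c.P x) (c.s x.1)
  have h4 : exp (-t) ≤ exp (-c.h) * exp (-(c.h / 20)) := by
    rw [← exp_add, exp_le_exp]; linarith
  have h5 : exp (-(c.h / 20)) ≤ 1 / 400 := by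
    have h6 : exp (-(c.h / 20)) ≤ exp (-3) * exp (-3) := by
      rw [← exp_add, exp_le_exp]; linarith [c.H.h_ge]
    have h7 : exp (-3) ≤ 1 / 20 := by
      rw [exp_neg, ← one_div]; exact one_div_le_one_div_of_le (by norm_num) le_exp_three
    nlinarith [exp_pos (-3)]
  nlinarith [exp_pos (-c.h)]

theorem a_ne_b : c.r < ‖c.a - c.b‖ := by
  have := norm_sub_le_norm_sub_add_norm_sub c.a c.b c.o
  linarith [c.hρ2, c.hb]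

theorem a_Vout : c.a ∈ c.Vout := ⟨c.H.a_V, by rw [c.H.s_a, norm_zero]; exact exp_pos _⟩

theorem B_diff : DifferentiableOn ℂ c.B c.Vout := DifferentiableOn.mul (by fun_prop) c.uB_diff

theorem B_ne {z : ℂ} (hz : z ∈ c.Vout) (h : z ≠ c.b) : c.B z ≠ 0 :=
  mul_ne_zero (pow_ne_zero _ (sub_ne_zero.2 h)) (c.uB_ne z hz)

theorem Ba_ne : c.B c.a ≠ 0 := c.B_ne c.a_Vout fun h => by
  have := c.a_ne_b
  rw [h, sub_self, norm_zero] at this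
  linarith [c.hr]

end Pre

namespace Ctx

variable (c : Ctx)

noncomputable def Pn (x : ℂ × ℂ) : ℂ := c.Qb x * c.P x ^ c.n + c.η ^ c.n

noncomputable def S : ℝ := c.n * c.ς

noncomputable def x1 : ℝ := c.x2 ^ 2

noncomputable def x0 : ℝ := c.x2 ^ 4

noncomputable def lR (x : ℂ × ℂ) : ℝ :=
  3 * c.S / c.y * log (max 1 (max (c.x1⁻¹ * ‖x.1 - c.a‖) (c.x1⁻¹ * ‖c.P x‖)))

theorem x2_pos : 0 < c.x2 := c.hx2 ▸ exp_pos _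

theorem x2_le : c.x2 ≤ 1 / 400 := by
  have h6 : c.x2 ≤ exp (-3) * exp (-3) := by
    rw [c.hx2, ← exp_add, exp_le_exp]; linarith [c.hy3]
  have h7 : exp (-3) ≤ 1 / 20 := by
    rw [exp_neg, ← one_div]; exact one_div_le_one_div_of_le (by norm_num) le_exp_three
  nlinarith [exp_pos (-3)]

theorem x1_pos : 0 < c.x1 := pow_pos c.x2_pos _

theorem x0_pos : 0 < c.x0 := pow_pos c.x2_pos _

theorem x1_le : c.x1 ≤ c.x2 / 400 := by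
  have := c.x2_le; have := c.x2_pos; simp only [x1]; nlinarith

theorem x0_le : c.x0 ≤ c.x1 / 400 := by
  have h1 := c.x1_le; have := c.x2_le; have := c.x1_pos
  have : c.x0 = c.x1 * c.x1 := by simp only [x0, x1]; ring
  nlinarith

theorem x2_ϱ : c.x2 ≤ c.ϱ1 / 4 := by nlinarith [c.hs2, c.uu_ge, c.x2_pos]

theorem η_pos : 0 < c.η := c.hHh ▸ exp_pos _

theorem η_le : c.η ≤ c.x0 := by
  have h1 : c.x0 ≤ 1 := by linarith [c.x0_le, c.x1_le, c.x2_le]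
  have h2 : c.x0 ^ c.M ≤ c.x0 := pow_le_of_le_one c.x0_pos.le h1 (by have := c.H.M_pos; omega)
  rw [c.hη]
  exact (mul_le_of_le_one_left (pow_pos c.x0_pos _).le c.um_le).trans h2

theorem Hh_ge : 4000 ≤ c.Hh := by linarith [c.hH2, c.H.h_ge]

theorem n_ge : (4000:ℝ) ≤ c.n := by
  have := c.hH1; have := c.Hh_ge; nlinarith [c.D_ge, c.H.h_ge]

theorem n_pos : 1 ≤ c.n := by have := c.n_ge; exact_mod_cast (show (1:ℝ) ≤ c.n by linarith)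

theorem S_ge : 100 * c.n ≤ c.S := by have := c.n_ge; simp only [S]; nlinarith [c.hς]

theorem ηn_pos : 0 < c.η ^ c.n := pow_pos c.η_pos _

theorem ηn_eq : c.η ^ c.n = exp (-(c.n * c.Hh)) := by rw [c.hHh, ← exp_nat_mul]; ring_nf

theorem norm_ηn : ‖(c.η : ℂ) ^ c.n‖ = c.η ^ c.n := by
  rw [norm_pow, Complex.norm_real, norm_eq_abs, abs_of_pos c.η_pos]

theorem Pn_pol : c.Pn ∈ Pol := pol_add (pol_mul c.Qb_pol (pol_pow c.H.hP _)) (const_mem _)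

theorem Pn_ge (x : ℂ × ℂ) : ‖c.Qb x‖ * ‖c.P x‖ ^ c.n - c.η ^ c.n ≤ ‖c.Pn x‖ := by
  have := norm_sub_norm_le (c.Qb x * c.P x ^ c.n) (-(c.η : ℂ) ^ c.n)
  rwa [norm_neg, norm_ηn, sub_neg_eq_add, norm_mul, norm_pow] at this

theorem Pn_ge' (x : ℂ × ℂ) : c.η ^ c.n - ‖c.Qb x‖ * ‖c.P x‖ ^ c.n ≤ ‖c.Pn x‖ := by
  have := norm_sub_norm_le ((c.η : ℂ) ^ c.n) (-(c.Qb x * c.P x ^ c.n))
  rwa [norm_neg, norm_ηn, sub_neg_eq_add, norm_mul, norm_pow, add_comm] at this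

theorem Pn_up (x : ℂ × ℂ) : ‖c.Pn x‖ ≤ ‖c.Qb x‖ * ‖c.P x‖ ^ c.n + c.η ^ c.n := by
  have := norm_add_le (c.Qb x * c.P x ^ c.n) ((c.η : ℂ) ^ c.n)
  rwa [norm_ηn, norm_mul, norm_pow] at this

theorem Pn_up' {x : ℂ × ℂ} (hx : x ∈ closedBall (0 : ℂ × ℂ) 1) :
    ‖c.Pn x‖ ≤ ‖c.P x‖ ^ c.n / 2 + c.η ^ c.n := by
  have := c.Pn_up x
  have := c.Qb_le hx
  nlinarith [pow_nonneg (norm_nonneg (c.P x)) c.n]

theorem Pn_le {x : ℂ × ℂ} (hx : x ∈ closedBall (0 : ℂ × ℂ) 1) : ‖c.Pn x‖ ≤ 1 := by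
  have h1 := c.Pn_up' hx
  have h2 := pow_le_one₀ (n := c.n) (norm_nonneg _) (c.H.P_le x hx)
  have h3 : c.η ≤ 1 / 2 := by linarith [c.η_le, c.x0_le, c.x1_le, c.x2_le]
  have h4 := pow_le_of_le_one c.η_pos.le (by linarith) (show c.n ≠ 0 by have := c.n_pos; omega)
  linarith

theorem confine {x : ℂ × ℂ} (hx : x ∈ closedBall (0 : ℂ × ℂ) 1) (hm : ‖c.Pn x‖ < c.η ^ c.n) :
    ‖c.P x‖ ≤ exp (-c.h + c.h / 20) := by
  by_contra h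
  push Not at h
  have hh := c.H.h_ge
  have h1 := c.Q_far hx h.le
  have h2 : exp (-c.h) / exp (c.D * c.h) ≤ ‖c.Qb x‖ := by
    rw [c.norm_Qb]; gcongr
    · exact c.LQ_pos
    · exact c.LQ_le
  have h3 : exp (-c.h) ≤ ‖c.P x‖ := (exp_le_exp.2 (by linarith)).trans h.le
  have h4 : 2 * c.η ^ c.n ≤ ‖c.Qb x‖ * ‖c.P x‖ ^ c.n := by
    calc 2 * c.η ^ c.n ≤ exp 1 * exp (-(c.n * c.Hh)) := by rw [ηn_eq]; gcongr; exact two_le_e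
      _ ≤ exp (-c.h) / exp (c.D * c.h) * exp (-c.h) ^ c.n := by
          rw [← exp_add, ← exp_sub, ← exp_nat_mul, ← exp_add, exp_le_exp]
          nlinarith [c.hH1, c.hH2, c.n_ge, c.Hh_ge]
      _ ≤ _ := by gcongr
  linarith [c.Pn_ge x]

theorem Qb_low {x : ℂ × ℂ} (hx : x ∈ c.T) (hp : ‖c.P x‖ ≤ exp (-c.h) / 100)
    (hw : 1 / 3 * ‖c.s x.1‖ ≤ ‖c.P x - c.s x.1‖) (h4 : c.η ≤ ‖c.P x‖) :
    2 * exp (-c.n) ≤ ‖c.Qb x‖ := by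
  have h1 := (c.Q_low hx hp hw).2
  rw [c.norm_Qb, le_div_iff₀ c.LQ_pos]
  have h2 : exp (-c.n) * c.LQ * exp 3 ≤ c.η := by
    calc _ ≤ exp (-c.n) * exp (c.D * c.h) * exp 3 := by gcongr; exact c.LQ_le
      _ ≤ _ := by rw [← exp_add, ← exp_add, c.hHh, exp_le_exp]; linarith [c.hH1]
  have h3 : 0 < exp (-c.n) * c.LQ := mul_pos (exp_pos _) c.LQ_pos
  nlinarith [le_exp_three]

theorem big {x : ℂ × ℂ} (hx : x ∈ c.T) (hp : ‖c.P x‖ ≤ exp (-c.h) / 100)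
    (hw : 1 / 3 * ‖c.s x.1‖ ≤ ‖c.P x - c.s x.1‖) (h4 : 4 * c.η ≤ ‖c.P x‖) :
    c.η ^ c.n ≤ ‖c.Pn x‖ ∧ ‖c.P x‖ ^ c.n * exp (-c.n) ≤ ‖c.Pn x‖ := by
  have h1 := c.Qb_low hx hp hw (by linarith [c.η_pos])
  have h2 : c.η ^ c.n ≤ ‖c.P x‖ ^ c.n * exp (-c.n) := by
    calc c.η ^ c.n = (exp 1 * c.η) ^ c.n * exp (-c.n) := by
          rw [mul_pow, ← exp_nat_mul, mul_right_comm, ← exp_add]; simp
      _ ≤ _ := by
          have := c.η_pos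
          gcongr
          nlinarith [e_le_three]
  have h3 := c.Pn_ge x
  have h5 := mul_le_mul_of_nonneg_right h1 (pow_nonneg (norm_nonneg (c.P x)) c.n)
  constructor <;> nlinarith

theorem glob {x : ℂ × ℂ} (hx : x ∈ closedBall (0 : ℂ × ℂ) 1) (hm : c.η ^ c.n / 8 ≤ ‖c.Pn x‖) :
    ‖c.P x‖ ^ c.n * ‖c.Qb x‖ ^ c.ν ≤ 9 * ‖c.Pn x‖ := by
  have h1 : ‖c.Qb x‖ ^ c.ν ≤ ‖c.Qb x‖ :=
    pow_le_of_le_one (norm_nonneg _) (by linarith [c.Qb_le hx]) (by have := c.hν3; omega)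
  have h2 := c.Pn_ge x
  have h3 := mul_le_mul_of_nonneg_left h1 (pow_nonneg (norm_nonneg (c.P x)) c.n)
  linarith

theorem low_p {x : ℂ × ℂ} (hx : x ∈ closedBall (0 : ℂ × ℂ) 1) (hm : ‖c.Pn x‖ ≤ c.η ^ c.n / 2) :
    c.η ≤ ‖c.P x‖ := by
  have h1 := c.Pn_ge' x
  have h2 := mul_le_mul_of_nonneg_right (c.Qb_le hx) (pow_nonneg (norm_nonneg (c.P x)) c.n)
  exact (pow_le_pow_iff_left₀ c.η_pos.le (norm_nonneg _)
    (show c.n ≠ 0 by have := c.n_pos; omega)).1 (by linarith)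

theorem F_lowM {z : ℂ} (hz : z ∈ c.KV) {t : ℝ} (ht : 0 ≤ t) (h : t * c.x0 ≤ ‖z - c.a‖) :
    t ^ c.M * c.η ≤ ‖c.F z‖ := by
  have h1 := c.hum z hz
  have := c.x0_pos
  have := c.um_pos
  rw [c.hη, Data.F, norm_mul, norm_pow]
  calc _ = (t * c.x0) ^ c.M * c.um := by rw [mul_pow, x0]; ring
    _ ≤ _ := by gcongr

theorem F_low {z : ℂ} (hz : z ∈ c.KV) {t : ℝ} (ht : 1 ≤ t) (h : t * c.x0 ≤ ‖z - c.a‖) :
    t * c.η ≤ ‖c.F z‖ := by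
  refine le_trans ?_ (c.F_lowM hz (by linarith) h)
  have := c.η_pos
  gcongr
  exact le_self_pow₀ ht (by have := c.H.M_pos; omega)

theorem near_KV {z : ℂ} (hz : ‖z - c.a‖ ≤ c.x2) : z ∈ c.KV :=
  c.ball_KV (by rw [mem_closedBall, dist_eq_norm]; linarith [c.x2_ϱ, c.ϱ1_pos])

theorem s_x2 {z : ℂ} (hz : ‖z - c.a‖ ≤ c.x2) :
    ‖c.s z‖ ≤ c.ϱ1 / 4 ∧ ‖c.s z‖ ≤ exp (-(2 * c.h)) := by
  have h1 := c.s_up (z := z) (by linarith [c.x2_ϱ, c.ϱ1_pos])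
  have h2 : c.uu * ‖z - c.a‖ ≤ c.uu * c.x2 := by gcongr; linarith [c.uu_ge]
  exact ⟨by linarith [c.hs2], by linarith [c.hs3]⟩

theorem s_x0 {z : ℂ} (hz : ‖z - c.a‖ ≤ 2 * c.x0) : ‖c.s z‖ ≤ c.x1 / 2 := by
  have h0 := c.x2_pos
  have h1 := c.s_up (z := z) (by linarith [c.x2_ϱ, c.ϱ1_pos, c.x0_le, c.x1_le])
  have h2 : c.uu * ‖z - c.a‖ ≤ c.uu * (2 * c.x0) := by gcongr; linarith [c.uu_ge]
  have h3 : c.uu * c.x2 ≤ 1 := by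
    have := exp_le_one_iff.2 (show -(2 * c.h) ≤ 0 by linarith [c.H.h_ge])
    linarith [c.hs3]
  have h4 : c.uu * (2 * c.x0) = (c.uu * c.x2) * (2 * c.x2) * c.x1 := by simp only [x0, x1]; ring
  have h5 : (c.uu * c.x2) * (2 * c.x2) ≤ 1 * (1 / 2) := by gcongr; linarith [c.x2_le]
  nlinarith [c.x1_pos]

theorem S_pos : 0 < c.S := by linarith [c.S_ge, c.n_ge]

theorem lR_SM (x : ℂ × ℂ) : SM c.lR x := by
  have h1 : LP (fun x : ℂ × ℂ => max 1 (max (c.x1⁻¹ * ‖x.1 - c.a‖) (c.x1⁻¹ * ‖c.P x‖))) x :=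
    (LP.const zero_le_one x).max (((LP.const (inv_pos.2 c.x1_pos).le x).mul
      (LP.norm (Eventually.of_forall fun y => by fun_prop))).max
      ((LP.const (inv_pos.2 c.x1_pos).le x).mul
        (LP.norm (Eventually.of_forall fun y => pol_diff c.H.hP y))))
  exact (h1.2.2 (lt_of_lt_of_le one_pos (le_max_left _ _))).mul
    (div_nonneg (by linarith [c.S_pos]) (by linarith [c.hy3]))

theorem lR_nn (x : ℂ × ℂ) : 0 ≤ c.lR x :=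
  mul_nonneg (div_nonneg (by linarith [c.S_pos]) (by linarith [c.hy3]))
    (log_nonneg (le_max_left _ _))

theorem x1_inv : c.x1⁻¹ = exp (4 * c.y) := by
  rw [x1, c.hx2, ← exp_nat_mul, ← exp_neg]; ring_nf

theorem lR_le {x : ℂ × ℂ} (hx : x ∈ closedBall (0 : ℂ × ℂ) 1) : c.lR x ≤ 15 * c.S := by
  have hy := c.hy3
  have h1 : ‖x.1 - c.a‖ ≤ 2 := by
    have := (norm_fst_le x).trans (mem_closedBall_zero_iff.1 hx)
    have := (c.H.V_sub c.H.a_V).trans c.hRK.le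
    linarith [norm_sub_le x.1 c.a]
  have h2 := c.H.P_le x hx
  have h3 : exp (5 * c.y) = exp (4 * c.y) * exp c.y := by rw [← exp_add]; ring_nf
  have h4 := exp_ge_lin c.y
  have h5 := exp_pos (4 * c.y)
  have h6 : log (max 1 (max (c.x1⁻¹ * ‖x.1 - c.a‖) (c.x1⁻¹ * ‖c.P x‖))) ≤ 5 * c.y := by
    rw [log_le_iff_le_exp (lt_of_lt_of_le one_pos (le_max_left _ _)), x1_inv]
    exact max_le (one_le_exp (by linarith)) (max_le (by nlinarith) (by nlinarith))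
  calc c.lR x ≤ 3 * c.S / c.y * (5 * c.y) := by
        unfold lR; gcongr; exact div_nonneg (by linarith [c.S_pos]) (by linarith)
    _ = _ := by field_simp; ring

theorem lR_zero {x : ℂ × ℂ} (h1 : ‖x.1 - c.a‖ ≤ c.x1) (h2 : ‖c.P x‖ ≤ c.x1) : c.lR x = 0 := by
  have h0 := c.x1_pos
  rw [lR, max_eq_left (max_le (by rwa [inv_mul_le_iff₀ h0, mul_one])
    (by rwa [inv_mul_le_iff₀ h0, mul_one])), log_one, mul_zero]

theorem lR_ge {x : ℂ × ℂ} (h : c.x2 / 2 ≤ ‖x.1 - c.a‖ ∨ c.ϱ1 / 2 ≤ ‖c.P x‖) : 5 * c.S ≤ c.lR x := by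
  have hy := c.hy3
  have h1 : exp (5 / 3 * c.y) ≤ c.x1⁻¹ * (c.x2 / 2) := by
    rw [x1_inv, c.hx2, mul_div_assoc', ← exp_add, le_div_iff₀ two_pos]
    calc _ ≤ exp (5 / 3 * c.y) * exp 1 := by gcongr; exact two_le_e
      _ ≤ _ := by rw [← exp_add, exp_le_exp]; linarith
  have h0 := (inv_pos.2 c.x1_pos).le
  have h6 : 5 / 3 * c.y ≤ log (max 1 (max (c.x1⁻¹ * ‖x.1 - c.a‖) (c.x1⁻¹ * ‖c.P x‖))) := by
    rw [le_log_iff_exp_le (lt_of_lt_of_le one_pos (le_max_left _ _))]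
    refine h1.trans (le_max_of_le_right ?_)
    rcases h with h | h
    · exact le_max_of_le_left (by gcongr)
    · exact le_max_of_le_right (by gcongr; linarith [c.x2_ϱ, c.ϱ1_pos])
  calc 5 * c.S = 3 * c.S / c.y * (5 / 3 * c.y) := by field_simp
    _ ≤ _ := by unfold lR; gcongr; exact div_nonneg (by linarith [c.S_pos]) (by linarith)

theorem U_low {x : ℂ × ℂ} (hx : x ∈ closedBall (0 : ℂ × ℂ) 1) (h : x ∉ c.cBox c.x0 c.η) :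
    c.η * exp (-c.E) ≤ c.U x := by
  by_cases h1 : x ∈ c.Box c.ϱ1 c.ϱ1
  · rw [c.box_U x ⟨h1.1, h1.2.1.le, h1.2.2.le⟩]
    have h2 : c.η ≤ nn (c.P x) (c.F x.1) := by
      by_cases h3 : ‖x.1 - c.a‖ ≤ c.x0
      · have : c.η < ‖c.P x‖ := not_le.1 fun h4 => h ⟨h1.1, h3, h4⟩
        exact this.le.trans (le_nn_left _ _)
      · have := c.F_low (c.ball_KV (by simpa [dist_eq_norm] using h1.2.1.le)) le_rfl
          (by linarith)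
        linarith [le_nn_right (c.P x) (c.F x.1)]
    have := nn_nonneg (c.P x) (c.F x.1)
    gcongr
    exact c.H.τ_le x hx
  · have := exp_le_one_iff.2 (neg_nonpos.2 c.E_nn)
    nlinarith [c.hmU x hx h1, c.hηU, c.η_pos]

end Ctx

end Pool.Agent.Lib.MP_9cdd18_an.CX
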