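import Mathlib

namespace Pool.Agent.Lib.MP_9cdd18_an.CX

open MeasureTheory Set Real Filter Topology Metric

theorem glue_min {X ι : Type*} [TopologicalSpace X] [Finite ι] {S : Set X} {G C : ι → Set X}
    {f : ι → X → ℝ} (hC : ∀ i, IsClosed (C i)) (hG : ∀ i, IsOpen (G i))
    (hCG : ∀ i, ∀ x ∈ S, x ∈ C i → x ∈ G i) (hf : ∀ i, ∀ x ∈ S, x ∈ G i → ContinuousAt (f i) x)
    (hcov : ∀ x ∈ S, ∃ i, x ∈ C i)
    (hcol : ∀ i, ∀ x ∈ S, x ∈ G i → x ∉ C i → ∃ l, x ∈ C l ∧ f l x ≤ f i x) :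
    ∃ g : X → ℝ, (∀ x ∈ S, ∀ i, x ∈ G i → g x ≤ f i x) ∧ (∀ x ∈ S, ∃ i, x ∈ C i ∧ g x = f i x) ∧
      ContinuousOn g S := by
  have h1 : ∀ x, ∃ y : ℝ, x ∈ S → ∃ i, x ∈ C i ∧ y = f i x ∧ ∀ l, x ∈ C l → y ≤ f l x := by
    intro x
    by_cases hx : x ∈ S
    · obtain ⟨i, hi, h⟩ := Set.exists_min_image {i | x ∈ C i} (fun i => f i x) (toFinite _)
        (hcov x hx)
      exact ⟨f i x, fun _ => ⟨i, hi, rfl, h⟩⟩
    · exact ⟨0, fun h => absurd h hx⟩
  choose g hg using h1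
  have h2 : ∀ x ∈ S, ∀ i, x ∈ G i → g x ≤ f i x := by
    intro x hx i hi
    obtain ⟨j, -, -, h⟩ := hg x hx
    by_cases hc : x ∈ C i
    · exact h i hc
    · obtain ⟨l, hl, h'⟩ := hcol i x hx hi hc
      exact (h l hl).trans h'
  refine ⟨g, h2, fun x hx => ?_, fun x hx => ?_⟩
  · obtain ⟨j, h3, h4, -⟩ := hg x hx
    exact ⟨j, h3, h4⟩
  · obtain ⟨j, h3, h4, h5⟩ := hg x hx
    refine tendsto_order.2 ⟨fun a ha => ?_, fun a ha => ?_⟩
    · have h6 : ∀ᶠ y in 𝓝 x, ∀ l, y ∈ C l → a < f l y := by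
        refine eventually_all.2 fun l => ?_
        by_cases hl : x ∈ C l
        · filter_upwards [(hf l x hx (hCG l x hx hl)).eventually
            (lt_mem_nhds (ha.trans_le (h5 l hl)))] with y hy _ using hy
        · filter_upwards [(hC l).isOpen_compl.mem_nhds hl] with y hy h using absurd h hy
      filter_upwards [nhdsWithin_le_nhds h6, self_mem_nhdsWithin] with y h7 hy
      obtain ⟨l, h8, h9, -⟩ := hg y hy
      rw [h9]; exact h7 l h8
    · have h6 := (hf j x hx (hCG j x hx h3)).eventually (gt_mem_nhds (h4 ▸ ha))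
      filter_upwards [nhdsWithin_le_nhds h6, self_mem_nhdsWithin,
        nhdsWithin_le_nhds ((hG j).mem_nhds (hCG j x hx h3))] with y h7 hy h8
      exact (h2 y hy j h8).trans_lt h7

theorem glue_max {X ι : Type*} [TopologicalSpace X] [Finite ι] {S : Set X} {G C : ι → Set X}
    {f : ι → X → ℝ} (hC : ∀ i, IsClosed (C i)) (hG : ∀ i, IsOpen (G i))
    (hCG : ∀ i, ∀ x ∈ S, x ∈ C i → x ∈ G i) (hf : ∀ i, ∀ x ∈ S, x ∈ G i → ContinuousAt (f i) x)
    (hcov : ∀ x ∈ S, ∃ i, x ∈ C i)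
    (hcol : ∀ i, ∀ x ∈ S, x ∈ G i → x ∉ C i → ∃ l, x ∈ C l ∧ f i x ≤ f l x) :
    ∃ g : X → ℝ, (∀ x ∈ S, ∀ i, x ∈ G i → f i x ≤ g x) ∧ (∀ x ∈ S, ∃ i, x ∈ C i ∧ g x = f i x) ∧
      ContinuousOn g S := by
  obtain ⟨g, h1, h2, h3⟩ := glue_min (S := S) (f := fun i x => -f i x) hC hG hCG
    (fun i x hx hi => (hf i x hx hi).neg) hcov (fun i x hx h1 h2 => by
      obtain ⟨l, h3, h4⟩ := hcol i x hx h1 h2
      exact ⟨l, h3, neg_le_neg h4⟩)
  refine ⟨fun x => -g x, fun x hx i hi => le_neg_of_le_neg (h1 x hx i hi), fun x hx => ?_, h3.neg⟩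
  obtain ⟨i, h4, h5⟩ := h2 x hx
  exact ⟨i, h4, by simp [h5]⟩

theorem maxmod_ball {f : ℂ → ℂ} {c : ℂ} {R B : ℝ} (hR : 0 < R)
    (hd : DifferentiableOn ℂ f (closedBall c R)) (hB : ∀ z ∈ sphere c R, ‖f z‖ ≤ B) :
    ∀ z ∈ closedBall c R, ‖f z‖ ≤ B := fun z hz =>
  Complex.norm_le_of_forall_mem_frontier_norm_le isBounded_ball (hd.diffContOnCl_ball le_rfl)
    (by rwa [frontier_ball c hR.ne']) (by rwa [closure_ball c hR.ne'])

theorem maxmod_open {f : ℂ → ℂ} {U K : Set ℂ} {B : ℝ} (hU : IsOpen U) (hK : IsCompact K)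
    (hUK : U ⊆ K) (hd : DifferentiableOn ℂ f K) (hB : ∀ z ∈ K, z ∉ U → ‖f z‖ ≤ B) :
    ∀ z ∈ K, ‖f z‖ ≤ B := by
  intro z hz
  by_cases hzU : z ∈ U
  · have hcl : closure U ⊆ K := closure_minimal hUK hK.isClosed
    refine Complex.norm_le_of_forall_mem_frontier_norm_le (hK.isBounded.subset hUK)
      (hd.mono hcl).diffContOnCl (fun w hw => ?_) (subset_closure hzU)
    rw [hU.frontier_eq] at hw
    exact hB w (hcl hw.1) hw.2
  · exact hB z hz hzU

theorem schwarz_zero {ρ ρ' : ℝ} (h0 : 0 ≤ ρ') (h1 : ρ' < ρ) : ∃ γ : ℝ, 0 < γ ∧ γ ≤ 1 ∧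
    ∀ (o y : ℂ) (u : ℂ → ℂ) (m : ℕ) (B : ℝ), DifferentiableOn ℂ u (closedBall o ρ) →
      y ∈ closedBall o ρ' → (∀ z ∈ sphere o ρ, ‖(z - y) ^ m * u z‖ ≤ B) →
      ∀ z ∈ closedBall o ρ', ‖(z - y) ^ m * u z‖ ≤ B * exp (-(γ * m)) := by
  have hρ : 0 < ρ := h0.trans_lt h1
  set κ : ℝ := (ρ ^ 2 - ρ' ^ 2) / (2 * ρ ^ 2) with hκ
  have hd : 0 < ρ ^ 2 - ρ' ^ 2 := by nlinarith
  have hκ0 : 0 < κ := by positivity
  have hκ1 : κ ≤ 1 := by rw [hκ, div_le_one (by positivity)]; nlinarith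
  refine ⟨κ ^ 2 / 2, by positivity, by nlinarith, fun o y u m B hu hy hB z hz => ?_⟩
  set g : ℂ → ℂ := fun z => ((ρ : ℂ) ^ 2 - (starRingEnd ℂ (y - o)) * (z - o)) / ρ with hg
  have hid : ∀ z, ‖g z‖ ^ 2 * ρ ^ 2 - ρ ^ 2 * ‖z - y‖ ^ 2 =
      (ρ ^ 2 - ‖y - o‖ ^ 2) * (ρ ^ 2 - ‖z - o‖ ^ 2) := by
    intro z
    simp only [hg, norm_div, Complex.norm_real, norm_eq_abs, div_pow, sq_abs]
    rw [div_mul_cancel₀ _ (by positivity)]
    simp only [Complex.sq_norm, Complex.normSq_apply]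
    simp [pow_two]
    ring
  have hy' : ‖y - o‖ ≤ ρ' := by simpa [dist_eq_norm] using hy
  have hz' : ‖z - o‖ ≤ ρ' := by simpa [dist_eq_norm] using hz
  have h2 := maxmod_ball (f := fun z => g z ^ m * u z) (B := B) hρ
    (DifferentiableOn.mul (by simp only [hg]; fun_prop) hu) (fun w hw => by
      have h3 : ‖w - o‖ = ρ := by simpa [dist_eq_norm] using hw
      have h4 := hid w
      rw [h3] at h4
      have h5 : ‖g w‖ ^ 2 = ‖w - y‖ ^ 2 := by
        have : (‖g w‖ ^ 2 - ‖w - y‖ ^ 2) * ρ ^ 2 = 0 := by linarith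
        have := (mul_eq_zero.1 this).resolve_right (by positivity)
        linarith
      have h6 : ‖g w‖ = ‖w - y‖ := (sq_eq_sq₀ (norm_nonneg _) (norm_nonneg _)).1 h5
      have := hB w hw
      rwa [norm_mul, norm_pow, ← h6, ← norm_pow, ← norm_mul] at this) z
    (closedBall_subset_closedBall h1.le hz)
  have h3 : ‖g z‖ ≤ 2 * ρ := by
    simp only [hg, norm_div, Complex.norm_real, norm_eq_abs, abs_of_pos hρ]
    rw [div_le_iff₀ hρ]
    refine (norm_sub_le _ _).trans ?_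
    rw [norm_pow, Complex.norm_real, norm_eq_abs, abs_of_pos hρ, norm_mul, Complex.norm_conj]
    have : ‖y - o‖ * ‖z - o‖ ≤ ρ * ρ := by gcongr <;> linarith
    nlinarith
  have h4 : ‖z - y‖ ≤ exp (-(κ ^ 2 / 2)) * ‖g z‖ := by
    refine (sq_le_sq₀ (norm_nonneg _) (by positivity)).1 ?_
    have h5 : (ρ ^ 2 - ρ' ^ 2) ^ 2 ≤ (ρ ^ 2 - ‖y - o‖ ^ 2) * (ρ ^ 2 - ‖z - o‖ ^ 2) := by
      rw [pow_two]
      have := pow_le_pow_left₀ (norm_nonneg _) hy' 2
      have := pow_le_pow_left₀ (norm_nonneg _) hz' 2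
      gcongr
      linarith
    have h6 : (ρ ^ 2 - ρ' ^ 2) ^ 2 = κ ^ 2 * (2 * ρ) ^ 2 * ρ ^ 2 := by rw [hκ]; field_simp
    have h7 : κ ^ 2 * ‖g z‖ ^ 2 * ρ ^ 2 ≤ κ ^ 2 * (2 * ρ) ^ 2 * ρ ^ 2 := by gcongr
    have h8 : ‖z - y‖ ^ 2 * ρ ^ 2 ≤ (1 - κ ^ 2) * ‖g z‖ ^ 2 * ρ ^ 2 := by nlinarith [hid z]
    have h9 := le_of_mul_le_mul_right h8 (by positivity)
    have h10 : exp (-(κ ^ 2 / 2)) ^ 2 = exp (-κ ^ 2) := by rw [← exp_nat_mul]; congr 1; ring
    rw [mul_pow, h10]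
    have := add_one_le_exp (-κ ^ 2)
    exact h9.trans (by gcongr; linarith)
  rw [norm_mul, norm_pow] at h2 ⊢
  calc ‖z - y‖ ^ m * ‖u z‖ ≤ (exp (-(κ ^ 2 / 2)) * ‖g z‖) ^ m * ‖u z‖ := by gcongr
    _ = (‖g z‖ ^ m * ‖u z‖) * exp (-(κ ^ 2 / 2 * m)) := by
        rw [mul_pow, ← exp_nat_mul]; ring_nf
    _ ≤ _ := by gcongr

theorem taylor_split {U : Set ℂ} (hU : IsOpen U) {b : ℂ} {r : ℝ} (hr : 0 < r) (hr1 : r ≤ 1)
    (hbU : closedBall b r ⊆ U) (A : ℕ) : ∀ (f : ℂ → ℂ) (e : ℝ), DifferentiableOn ℂ f U →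
    (∀ z ∈ sphere b r, ‖f z‖ ≤ e) → ∃ (T : Polynomial ℂ) (g : ℂ → ℂ), DifferentiableOn ℂ g U ∧
      (∀ z, f z = T.eval z + (z - b) ^ A * g z) ∧
      ∀ z, ‖z - b‖ ≤ 2 → ‖T.eval z‖ ≤ e * (8 / r) ^ A := by
  induction A with
  | zero =>
    intro f e hf he
    refine ⟨0, f, hf, by simp, fun z _ => ?_⟩
    obtain ⟨w, hw⟩ := NormedSpace.sphere_nonempty (x := b) |>.2 hr.le
    simpa using (norm_nonneg _).trans (he w hw)
  | succ A ih =>
    intro f e hf he
    have hb : ‖f b‖ ≤ e := maxmod_ball hr (hf.mono hbU) he b (mem_closedBall_self hr.le)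
    have he0 : 0 ≤ e := (norm_nonneg _).trans hb
    obtain ⟨T, g, h1, h2, h3⟩ := ih (dslope f b) (2 * e / r) ((Complex.differentiableOn_dslope
      (hU.mem_nhds (hbU (mem_closedBall_self hr.le)))).2 hf) (fun z hz => by
        have h1 : ‖z - b‖ = r := by simpa [dist_eq_norm] using hz
        have h2 := sub_smul_dslope f b z
        have h3 : r * ‖dslope f b z‖ ≤ 2 * e := by
          rw [← h1, ← norm_smul, h2]
          linarith [norm_sub_le (f z) (f b), he z hz]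
        rw [le_div_iff₀ hr]; linarith)
    refine ⟨Polynomial.C (f b) + (Polynomial.X - Polynomial.C b) * T, g, h1, fun z => ?_,
      fun z hz => ?_⟩
    · have := sub_smul_dslope f b z
      rw [h2 z, smul_eq_mul] at this
      simp only [Polynomial.eval_add, Polynomial.eval_C, Polynomial.eval_mul, Polynomial.eval_sub,
        Polynomial.eval_X]
      linear_combination -this
    · simp only [Polynomial.eval_add, Polynomial.eval_C, Polynomial.eval_mul, Polynomial.eval_sub,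
        Polynomial.eval_X]
      have h4 : 1 ≤ 4 / r := by rw [le_div_iff₀ hr]; linarith
      have h5 : 1 ≤ (8 / r) ^ A := one_le_pow₀ (by rw [le_div_iff₀ hr]; linarith)
      have h6 : 1 ≤ 4 / r * (8 / r) ^ A := one_le_mul_of_one_le_of_one_le h4 h5
      calc ‖f b + (z - b) * T.eval z‖ ≤ e + 2 * (2 * e / r * (8 / r) ^ A) := by
            refine (norm_add_le _ _).trans ?_
            rw [norm_mul]
            gcongr
            exact h3 z hz
        _ = e * 1 + e * (4 / r * (8 / r) ^ A) := by ring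
        _ ≤ e * (4 / r * (8 / r) ^ A) + e * (4 / r * (8 / r) ^ A) := by gcongr
        _ = e * (8 / r) ^ (A + 1) := by ring

theorem fekete {E : Set ℂ} (hE : IsCompact E) (hinf : E.Infinite) (hE1 : E ⊆ closedBall 0 1)
    {b : ℂ} (hb : b ∉ E) (k : ℕ) : ∃ N : ℂ → ℂ, Differentiable ℂ N ∧ (∀ z, N z = 0 → z ∈ E) ∧
      (∀ z ∈ E, ‖N z‖ ≤ 2 * ‖z - b‖ ^ k) ∧
      ∀ (z : ℂ) (d : ℝ), 0 < d → (∀ e ∈ E, d ≤ ‖z - e‖) → d * ‖z - b‖ ^ k ≤ (k + 1) * ‖N z‖ := by
  classical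
  set row : ℂ → Fin (k + 1) → ℂ := fun z j => ((z - b) ^ k)⁻¹ * z ^ (j : ℕ) with hrow
  set D : (Fin (k + 1) → ℂ) → ℂ := fun v => (Matrix.of fun i => row (v i)).det with hD
  have hne : ∀ z ∈ E, z - b ≠ 0 := fun z hz h => hb (sub_eq_zero.1 h ▸ hz)
  have hDc : ContinuousOn D (Set.pi univ fun _ => E) := by
    have : Continuous fun A : Matrix (Fin (k + 1)) (Fin (k + 1)) ℂ => A.det :=
      continuous_id.matrix_det
    refine this.comp_continuousOn (continuousOn_pi.2 fun i => continuousOn_pi.2 fun j => ?_)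
    simp only [hrow, Matrix.of_apply]
    exact ContinuousOn.mul (ContinuousOn.inv₀ (by fun_prop)
      fun v hv => pow_ne_zero _ (hne _ (hv i trivial))) (by fun_prop)
  have hDv : ∀ v, D v = (∏ i, ((v i - b) ^ k)⁻¹) * (Matrix.vandermonde v).det := by
    intro v
    rw [← Matrix.det_mul_column]
    rfl
  obtain ⟨v0, hv0⟩ : ∃ v0 : Fin (k + 1) ↪ ℂ, ∀ i, v0 i ∈ E :=
    ⟨⟨fun i => hinf.natEmbedding E i, fun i j h => Fin.ext
      ((hinf.natEmbedding E).injective (Subtype.ext h))⟩, fun i => (hinf.natEmbedding E i).2⟩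
  obtain ⟨v, hv, hmax⟩ := (isCompact_univ_pi fun _ => hE).exists_isMaxOn ⟨v0, fun i _ => hv0 i⟩
    hDc.norm
  have hvE : ∀ i, v i ∈ E := fun i => hv i trivial
  have hD0 : D v ≠ 0 := by
    have h1 : D v0 ≠ 0 := by
      rw [hDv]
      exact mul_ne_zero (Finset.prod_ne_zero_iff.2 fun i _ =>
        inv_ne_zero (pow_ne_zero _ (hne _ (hv0 i))))
        (Matrix.det_vandermonde_ne_zero_iff.2 v0.injective)
    have h2 : ‖D v0‖ ≤ ‖D v‖ := hmax (fun i _ => hv0 i)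
    exact norm_pos_iff.1 ((norm_pos_iff.2 h1).trans_le h2)
  have hinj : Function.Injective v := by
    rw [hDv] at hD0
    exact Matrix.det_vandermonde_ne_zero_iff.1 (right_ne_zero_of_mul hD0)
  set nod : ℂ → ℂ := fun z => ∏ i, (z - v i) with hnod
  set c : Fin (k + 1) → ℂ := fun i => Lagrange.nodalWeight Finset.univ v i * (v i - b) ^ k with hc
  have hint : ∀ p : Polynomial ℂ, p.degree < (k + 1 : ℕ) → ∀ z, (∀ i, z ≠ v i) → p.eval z =
      nod z * ∑ i, Lagrange.nodalWeight Finset.univ v i * (z - v i)⁻¹ * p.eval (v i) := by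
    intro p hp z hz
    conv_lhs => rw [Lagrange.eq_interpolate (f := p) (s := Finset.univ) (v := v) hinj.injOn
      (by simpa using hp)]
    rw [Lagrange.eval_interpolate_not_at_node _ fun i _ => hz i, Lagrange.eval_nodal]
  obtain ⟨i0, hi0⟩ := Finite.exists_max fun i => ‖c i‖
  have hc0 : c i0 ≠ 0 := mul_ne_zero (Lagrange.nodalWeight_ne_zero hinj.injOn (Finset.mem_univ _))
    (pow_ne_zero _ (hne _ (hvE i0)))
  refine ⟨fun z => c i0 * nod z, by simp only [hnod]; fun_prop, fun z hz => ?_, fun z hz => ?_,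
    fun z d hd hz => ?_⟩
  · obtain ⟨i, -, hi⟩ := Finset.prod_eq_zero_iff.1 ((mul_eq_zero.1 hz).resolve_left hc0)
    exact sub_eq_zero.1 hi ▸ hvE i
  · by_cases h : ∃ i, z = v i
    · obtain ⟨i, rfl⟩ := h
      have : nod (v i) = 0 := Finset.prod_eq_zero (Finset.mem_univ i) (sub_self _)
      simp only [this, mul_zero, norm_zero]; positivity
    push Not at h
    set co : Fin (k + 1) → ℂ := fun i => nod z * c i * (z - v i)⁻¹ * ((z - b) ^ k)⁻¹ with hco
    have h1 : row z = ∑ i, co i • (Matrix.of fun i => row (v i)) i := by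
      ext j
      have := hint (Polynomial.X ^ (j : ℕ)) (by
        rw [Polynomial.degree_X_pow]; exact_mod_cast j.2) z h
      simp only [Polynomial.eval_pow, Polynomial.eval_X] at this
      simp only [hrow, hco, hc, Finset.sum_apply, Pi.smul_apply, Matrix.of_apply, smul_eq_mul]
      rw [this, Finset.mul_sum, Finset.mul_sum]
      refine Finset.sum_congr rfl fun i _ => ?_
      have := pow_ne_zero k (hne _ (hvE i))
      field_simp
    have h2 : D (Function.update v i0 z) = co i0 * D v := by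
      have := Matrix.det_updateRow_sum (Matrix.of fun i => row (v i)) i0 co
      rw [← h1, smul_eq_mul] at this
      rw [← this]
      simp only [hD]
      congr 1
      ext i j
      by_cases hi : i = i0
      · subst hi; simp
      · simp [Matrix.updateRow_ne hi, Function.update_of_ne hi]
    have h3 : ‖D (Function.update v i0 z)‖ ≤ ‖D v‖ := hmax (fun i _ => by
      by_cases hi : i = i0
      · subst hi; simpa using hz
      · simpa [Function.update_of_ne hi] using hvE i)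
    rw [h2, norm_mul] at h3
    have h4 : ‖co i0‖ ≤ 1 := (mul_le_iff_le_one_left (norm_pos_iff.2 hD0)).1 h3
    have h5 : c i0 * nod z = co i0 * (z - v i0) * (z - b) ^ k := by
      have := pow_ne_zero k (hne _ hz)
      have := sub_ne_zero.2 (h i0)
      simp only [hco]; field_simp
    have h6 : ‖z - v i0‖ ≤ 2 := by
      have := mem_closedBall_zero_iff.1 (hE1 hz)
      have := mem_closedBall_zero_iff.1 (hE1 (hvE i0))
      linarith [norm_sub_le z (v i0)]
    simp only [h5, norm_mul, norm_pow]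
    calc _ ≤ 1 * 2 * ‖z - b‖ ^ k := by gcongr
      _ = _ := by ring
  · have h : ∀ i, z ≠ v i := fun i h => by
      have := hz _ (hvE i)
      rw [h, sub_self, norm_zero] at this
      linarith
    have h1 := hint ((Polynomial.X - Polynomial.C b) ^ k) (by
      rw [Polynomial.degree_pow, Polynomial.degree_X_sub_C]; simp; exact_mod_cast k.lt_succ_self)
      z h
    simp only [Polynomial.eval_pow, Polynomial.eval_sub, Polynomial.eval_X,
      Polynomial.eval_C] at h1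
    rw [← norm_pow, h1, norm_mul]
    have h2 : ‖∑ i, Lagrange.nodalWeight Finset.univ v i * (z - v i)⁻¹ * (v i - b) ^ k‖ ≤
        (k + 1) * (‖c i0‖ * d⁻¹) := by
      refine (norm_sum_le _ _).trans ((Finset.sum_le_card_nsmul _ _ (‖c i0‖ * d⁻¹)
        fun i _ => ?_).trans (by simp))
      rw [mul_right_comm, norm_mul, norm_inv]
      gcongr
      · exact hi0 i
      · exact hz _ (hvE i)
    calc _ ≤ d * (‖nod z‖ * ((k + 1) * (‖c i0‖ * d⁻¹))) := by gcongr
      _ = _ := by rw [norm_mul (c i0)]; field_simp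

theorem root_fix {Θ : ℂ → ℂ} {s : ℂ} {R : ℝ} (hR : 0 < R)
    (hd : DifferentiableOn ℂ Θ (closedBall s (3 * R)))
    (hb : ∀ p ∈ closedBall s (3 * R), ‖Θ p - s‖ ≤ R / 5) :
    (∀ p ∈ closedBall s (2 * R), ∀ q ∈ closedBall s (2 * R), ‖Θ p - Θ q‖ ≤ ‖p - q‖ / 5) ∧
    (∀ p ∈ closedBall s (2 * R), ∃ d : ℂ, HasDerivAt Θ d p ∧ ‖d‖ ≤ 1 / 5) ∧
    ∃ p ∈ closedBall s (R / 5), Θ p = p := by
  have h1 : ∀ p ∈ closedBall s (2 * R), DifferentiableAt ℂ Θ p ∧ ‖deriv Θ p‖ ≤ 1 / 5 := by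
    intro p hp
    have hsub : closedBall p R ⊆ closedBall s (3 * R) :=
      closedBall_subset_closedBall' (by rw [mem_closedBall] at hp; linarith)
    refine ⟨hd.differentiableAt (mem_of_superset (closedBall_mem_nhds p hR) hsub), ?_⟩
    have := Complex.norm_deriv_le_of_forall_mem_sphere_norm_le (f := fun p => Θ p - s) hR
      ((hd.sub_const s).diffContOnCl_ball hsub)
      (fun z hz => hb z (hsub (sphere_subset_closedBall hz)))
    rw [deriv_sub_const] at this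
    refine this.trans (le_of_eq ?_)
    field_simp
  have h2 : ∀ p ∈ closedBall s (2 * R), ∀ q ∈ closedBall s (2 * R),
      ‖Θ p - Θ q‖ ≤ ‖p - q‖ / 5 := by
    intro p hp q hq
    have := (convex_closedBall s (2 * R)).norm_image_sub_le_of_norm_deriv_le
      (fun p hp => (h1 p hp).1) (fun p hp => (h1 p hp).2) hq hp
    linarith
  refine ⟨h2, fun p hp => ⟨_, (h1 p hp).1.hasDerivAt, (h1 p hp).2⟩, ?_⟩
  have hs1 : closedBall s (R / 5) ⊆ closedBall s (2 * R) := closedBall_subset_closedBall (by linarith)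
  have hs2 : closedBall s (R / 5) ⊆ closedBall s (3 * R) := closedBall_subset_closedBall (by linarith)
  have hm : MapsTo Θ (closedBall s (R / 5)) (closedBall s (R / 5)) := fun p hp => by
    simpa [dist_eq_norm] using hb p (hs2 hp)
  have hc : ContractingWith (1 / 5 : NNReal) (hm.restrict Θ _ _) := by
    refine ⟨by norm_num, LipschitzWith.of_dist_le_mul fun p q => ?_⟩
    have := h2 p (hs1 p.2) q (hs1 q.2)
    simp only [Subtype.dist_eq, MapsTo.val_restrict_apply, dist_eq_norm]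
    push_cast
    linarith
  obtain ⟨p, hp, h, -⟩ := hc.exists_fixedPoint' isClosed_closedBall.isComplete hm
    (mem_closedBall_self (x := s) (by positivity)) (edist_ne_top _ _)
  exact ⟨p, hp, h⟩

end Pool.Agent.Lib.MP_9cdd18_an.CX
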