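import Mathlib

namespace Pool.Agent.Lib.MP_9cdd18_an.CX

open MeasureTheory Set Filter Topology Metric

/-- Polynomial functions on `ℂ²`. -/
noncomputable def Pol : Subalgebra ℂ (ℂ × ℂ → ℂ) := Algebra.adjoin ℂ {Prod.fst, Prod.snd}

theorem fst_mem : Prod.fst ∈ Pol := Algebra.subset_adjoin (by simp)

theorem snd_mem : Prod.snd ∈ Pol := Algebra.subset_adjoin (by simp)

theorem const_mem (c : ℂ) : (fun _ => c) ∈ Pol := Pol.algebraMap_mem c

theorem pol_add {f g : ℂ × ℂ → ℂ} (hf : f ∈ Pol) (hg : g ∈ Pol) : (fun x => f x + g x) ∈ Pol :=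
  Pol.add_mem hf hg

theorem pol_sub {f g : ℂ × ℂ → ℂ} (hf : f ∈ Pol) (hg : g ∈ Pol) : (fun x => f x - g x) ∈ Pol :=
  Pol.sub_mem hf hg

theorem pol_mul {f g : ℂ × ℂ → ℂ} (hf : f ∈ Pol) (hg : g ∈ Pol) : (fun x => f x * g x) ∈ Pol :=
  Pol.mul_mem hf hg

theorem pol_pow {f : ℂ × ℂ → ℂ} (hf : f ∈ Pol) (n : ℕ) : (fun x => f x ^ n) ∈ Pol :=
  Pol.pow_mem hf n

theorem pol_contDiff {f : ℂ × ℂ → ℂ} (hf : f ∈ Pol) : ContDiff ℂ 1 f := by
  induction hf using Algebra.adjoin_induction with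
  | mem x hx =>
    rcases hx with rfl | rfl
    · exact contDiff_fst
    · exact contDiff_snd
  | algebraMap r => exact contDiff_const
  | add x y _ _ h1 h2 => exact h1.add h2
  | mul x y _ _ h1 h2 => exact h1.mul h2

theorem pol_diff {f : ℂ × ℂ → ℂ} (hf : f ∈ Pol) : Differentiable ℂ f :=
  (pol_contDiff hf).differentiable one_ne_zero

theorem pol_cont {f : ℂ × ℂ → ℂ} (hf : f ∈ Pol) : Continuous f := (pol_contDiff hf).continuous

theorem pol_eval (T : Polynomial ℂ) : (fun x : ℂ × ℂ => T.eval x.1) ∈ Pol := by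
  induction T using Polynomial.induction_on' with
  | add p q hp hq => simpa using pol_add hp hq
  | monomial n a => simpa using pol_mul (const_mem a) (pol_pow fst_mem n)

/-- Finite sums of products `a t * p x` with `a ∈ A` and `p` polynomial. -/
inductive Ker {T : Type} (A : Set (T → ℂ)) : (T → ℂ × ℂ → ℂ) → Prop
  | gen (a : T → ℂ) (p : ℂ × ℂ → ℂ) : a ∈ A → p ∈ Pol → Ker A (fun t x => a t * p x)
  | add (f g : T → ℂ × ℂ → ℂ) : Ker A f → Ker A g → Ker A (fun t x => f t x + g t x)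

variable {T : Type} {A : Subalgebra ℂ (T → ℂ)}

theorem Ker.par {a : T → ℂ} (ha : a ∈ A) : Ker (A : Set (T → ℂ)) (fun t _ => a t) := by
  simpa using Ker.gen a (fun _ => 1) (show a ∈ (A : Set (T → ℂ)) from ha) (const_mem 1)

theorem Ker.pol {p : ℂ × ℂ → ℂ} (hp : p ∈ Pol) : Ker (A : Set (T → ℂ)) (fun _ x => p x) := by
  simpa using Ker.gen (fun _ => 1) p (show _ ∈ (A : Set (T → ℂ)) from A.one_mem) hp

theorem Ker.const (c : ℂ) : Ker (A : Set (T → ℂ)) (fun _ _ => c) := Ker.pol (const_mem c)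

theorem Ker.mul {f g : T → ℂ × ℂ → ℂ} (hf : Ker (A : Set (T → ℂ)) f)
    (hg : Ker (A : Set (T → ℂ)) g) : Ker (A : Set (T → ℂ)) (fun t x => f t x * g t x) := by
  induction hf with
  | gen a p ha hp =>
    induction hg with
    | gen a' p' ha' hp' =>
      have := Ker.gen (fun t => a t * a' t) (fun x => p x * p' x)
        (show _ ∈ (A : Set (T → ℂ)) from A.mul_mem ha ha') (pol_mul hp hp')
      simpa only [mul_mul_mul_comm] using this
    | add f g _ _ h1 h2 => simpa only [mul_add] using Ker.add _ _ h1 h2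
  | add f g _ _ h1 h2 => simpa only [add_mul] using Ker.add _ _ h1 h2

theorem Ker.sub {f g : T → ℂ × ℂ → ℂ} (hf : Ker (A : Set (T → ℂ)) f)
    (hg : Ker (A : Set (T → ℂ)) g) : Ker (A : Set (T → ℂ)) (fun t x => f t x - g t x) := by
  simpa [sub_eq_add_neg] using Ker.add _ _ hf ((Ker.const (-1)).mul hg)

theorem Ker.pow {f : T → ℂ × ℂ → ℂ} (hf : Ker (A : Set (T → ℂ)) f) (n : ℕ) :
    Ker (A : Set (T → ℂ)) (fun t x => f t x ^ n) := by
  induction n with
  | zero => simpa using Ker.const 1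
  | succ n ih => simpa only [pow_succ] using ih.mul hf

theorem Ker.sum {f : ℕ → T → ℂ × ℂ → ℂ} (hf : ∀ i, Ker (A : Set (T → ℂ)) (f i)) (n : ℕ) :
    Ker (A : Set (T → ℂ)) (fun t x => ∑ i ∈ Finset.range n, f i t x) := by
  induction n with
  | zero => simpa using Ker.const 0
  | succ n ih => simpa only [Finset.sum_range_succ] using Ker.add _ _ ih (hf n)

/-- Functions continuous on `S`. -/
def COn [TopologicalSpace T] (S : Set T) : Subalgebra ℂ (T → ℂ) where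
  carrier := {a | ContinuousOn a S}
  mul_mem' ha hb := ContinuousOn.mul ha hb
  add_mem' ha hb := ContinuousOn.add ha hb
  algebraMap_mem' _ := continuousOn_const

theorem Ker.diff {h : ℂ × ℂ → ℂ × ℂ → ℂ} (hh : Ker (Pol : Set (ℂ × ℂ → ℂ)) h) :
    Differentiable ℂ fun q : (ℂ × ℂ) × (ℂ × ℂ) => h q.1 q.2 := by
  induction hh with
  | gen a p ha hp =>
    exact ((pol_diff ha).comp differentiable_fst).mul ((pol_diff hp).comp differentiable_snd)
  | add f g _ _ h1 h2 => exact h1.add h2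

theorem Ker.comp [TopologicalSpace T] {S : Set T} {h : ℂ × ℂ → ℂ × ℂ → ℂ}
    (hh : Ker (Pol : Set (ℂ × ℂ → ℂ)) h) {ξ : T → ℂ × ℂ} (hξ : ContinuousOn ξ S) :
    Ker (COn S : Set (T → ℂ)) (fun t x => h (ξ t) x) := by
  induction hh with
  | gen a p ha hp => exact Ker.gen (fun t => a (ξ t)) p ((pol_cont ha).comp_continuousOn hξ) hp
  | add f g _ _ h1 h2 => exact Ker.add _ _ h1 h2

theorem Ker.integral [TopologicalSpace T] [T2Space T] [MeasurableSpace T] [OpensMeasurableSpace T]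
    {μ : Measure T} [IsFiniteMeasureOnCompacts μ] {S : Set T} (hS : IsCompact S)
    {k : T → ℂ × ℂ → ℂ} (hk : Ker (COn S : Set (T → ℂ)) k) :
    (∀ x, IntegrableOn (fun t => k t x) S μ) ∧ (fun x => ∫ t in S, k t x ∂μ) ∈ Pol := by
  induction hk with
  | gen a p ha hp =>
    have h1 : IntegrableOn a S μ := ContinuousOn.integrableOn_compact hS ha
    refine ⟨fun x => h1.mul_const _, ?_⟩
    simp only [integral_mul_const]
    exact pol_mul (const_mem _) hp
  | add f g _ _ h1 h2 =>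
    refine ⟨fun x => (h1.1 x).add (h2.1 x), ?_⟩
    simp only [fun x => integral_add (h1.1 x) (h2.1 x)]
    exact pol_add h1.2 h2.2

theorem hefer {f : ℂ × ℂ → ℂ} (hf : f ∈ Pol) : ∃ h1 h2 : ℂ × ℂ → ℂ × ℂ → ℂ,
    Ker (Pol : Set (ℂ × ℂ → ℂ)) h1 ∧ Ker (Pol : Set (ℂ × ℂ → ℂ)) h2 ∧
    ∀ ξ x, f ξ - f x = (ξ.1 - x.1) * h1 ξ x + (ξ.2 - x.2) * h2 ξ x := by
  induction hf using Algebra.adjoin_induction with
  | mem x hx =>
    rcases hx with rfl | rfl
    · exact ⟨_, _, Ker.const 1, Ker.const 0, by simp⟩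
    · exact ⟨_, _, Ker.const 0, Ker.const 1, by simp⟩
  | algebraMap r => exact ⟨_, _, Ker.const 0, Ker.const 0, by simp⟩
  | add f g _ _ h1 h2 =>
    obtain ⟨a1, a2, h3, h4, h5⟩ := h1
    obtain ⟨b1, b2, h6, h7, h8⟩ := h2
    refine ⟨_, _, Ker.add _ _ h3 h6, Ker.add _ _ h4 h7, fun ξ x => ?_⟩
    simp only [Pi.add_apply]
    linear_combination h5 ξ x + h8 ξ x
  | mul f g hf hg h1 h2 =>
    obtain ⟨a1, a2, h3, h4, h5⟩ := h1
    obtain ⟨b1, b2, h6, h7, h8⟩ := h2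
    refine ⟨_, _, Ker.add _ _ (h3.mul (Ker.par hg)) ((Ker.pol hf).mul h6),
      Ker.add _ _ (h4.mul (Ker.par hg)) ((Ker.pol hf).mul h7), fun ξ x => ?_⟩
    simp only [Pi.mul_apply]
    linear_combination g ξ * h5 ξ x + f x * h8 ξ x

theorem inverse_diff {P : ℂ × ℂ → ℂ} (hP : P ∈ Pol) {Ψ : ℂ × ℂ → ℂ × ℂ} {x : ℂ × ℂ}
    (hΨ : ∀ᶠ y in 𝓝 x, Ψ (y.1, P y) = y) (hd : fderiv ℂ P x (0, 1) ≠ 0) :
    DifferentiableAt ℂ Ψ (x.1, P x) := by
  set L := fderiv ℂ P x with hL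
  have hLe : ∀ v : ℂ × ℂ, L v = v.1 * L (1, 0) + v.2 * L (0, 1) := by
    intro v
    have : v = v.1 • ((1, 0) : ℂ × ℂ) + v.2 • (0, 1) := by simp
    conv_lhs => rw [this, map_add, map_smul, map_smul]
    simp
  set e : (ℂ × ℂ) ≃L[ℂ] (ℂ × ℂ) := ContinuousLinearEquiv.equivOfInverse
    ((ContinuousLinearMap.fst ℂ ℂ ℂ).prod L)
    ((ContinuousLinearMap.fst ℂ ℂ ℂ).prod ((L (0, 1))⁻¹ •
      (ContinuousLinearMap.snd ℂ ℂ ℂ - L (1, 0) • ContinuousLinearMap.fst ℂ ℂ ℂ)))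
    (fun v => by
      ext
      · simp
      · simp [hLe v]; field_simp; ring)
    (fun v => by
      ext
      · simp
      · simp only [ContinuousLinearMap.prod_apply]
        rw [hLe]
        simp; field_simp; ring) with he
  have h1 : HasStrictFDerivAt (fun y : ℂ × ℂ => (y.1, P y)) (e : (ℂ × ℂ) →L[ℂ] (ℂ × ℂ)) x :=
    hasStrictFDerivAt_fst.prodMk ((pol_contDiff hP).contDiffAt.hasStrictFDerivAt one_ne_zero)
  exact (h1.to_local_left_inverse hΨ).differentiableAt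

end Pool.Agent.Lib.MP_9cdd18_an.CX
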