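import Pool.Agent.Lib.MP_9cdd18_an.CXMean
import Pool.Agent.Lib.MP_9cdd18_an.CXOneVar
import Pool.Agent.Lib.MP_9cdd18_an.CXPoly

namespace Pool.Agent.Lib.MP_9cdd18_an.CX

open MeasureTheory Set Real Filter Topology Metric

/-- Data of one stage of the construction. -/
structure Data where
  P : ℂ × ℂ → ℂ
  sh : ℂ × ℂ → ℂ
  M : ℕ
  N : ℕ
  h : ℝ
  σ : ℝ
  α : ℝ
  ϱ : ℝ
  E : ℝ
  Λ : ℝ
  a : ℂ
  V : Set ℂ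
  T : Set (ℂ × ℂ)
  Ψ : ℂ × ℂ → ℂ × ℂ
  u : ℂ → ℂ
  uF : ℂ → ℂ
  U : ℂ × ℂ → ℝ
  L : ℂ × ℂ → ℝ
  W : ℂ × ℂ → ℝ
  τ : ℂ × ℂ → ℝ

namespace Data

variable (d : Data)

noncomputable def s (z : ℂ) : ℂ := (z - d.a) ^ d.M * d.u z

noncomputable def F (z : ℂ) : ℂ := (z - d.a) ^ d.M * d.uF z

def KV : Set ℂ := {z ∈ d.V | ‖d.s z‖ ≤ exp (-d.h)}

def ah : ℂ × ℂ := d.Ψ (d.a, 0)

def Box (r p : ℝ) : Set (ℂ × ℂ) := {x ∈ d.T | ‖x.1 - d.a‖ < r ∧ ‖d.P x‖ < p}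

def cBox (r p : ℝ) : Set (ℂ × ℂ) := {x ∈ d.T | ‖x.1 - d.a‖ ≤ r ∧ ‖d.P x‖ ≤ p}

def Str (r t w : ℝ) : Set (ℂ × ℂ) :=
  {x ∈ d.T | r < ‖x.1 - d.a‖ ∧ ‖d.s x.1‖ < exp (-t) ∧ ‖d.P x - d.s x.1‖ < w * ‖d.s x.1‖}

def cStr (r t w : ℝ) : Set (ℂ × ℂ) :=
  {x ∈ d.T | r ≤ ‖x.1 - d.a‖ ∧ ‖d.s x.1‖ ≤ exp (-t) ∧ ‖d.P x - d.s x.1‖ ≤ w * ‖d.s x.1‖}

end Data

/-- Induction hypothesis. -/
structure IH (d : Data) (o : ℂ) (ρ RK σ0 θ0 C0 Cv : ℝ) (xs : ℂ × ℂ) : Prop where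
  hP : d.P ∈ Pol
  hsh : d.sh ∈ Pol
  P_le : ∀ x ∈ closedBall (0 : ℂ × ℂ) 1, ‖d.P x‖ ≤ 1
  sh_le : ∀ x ∈ closedBall (0 : ℂ × ℂ) 1, ‖d.sh x‖ ≤ exp (d.σ - d.h)
  M_pos : 1 ≤ d.M
  N_pos : 1 ≤ d.N
  h_ge : 200 ≤ d.h
  σ_nn : 0 ≤ d.σ
  σ_le : d.σ ≤ σ0 * d.M
  h_le : d.h ≤ θ0 * d.M
  α_ge : 100 ≤ d.α
  ϱ_ge : 2 * exp (-d.h) ≤ d.ϱ
  Λ_nn : 0 ≤ d.Λ
  V_open : IsOpen d.V
  T_open : IsOpen d.T
  T_sub : d.T ⊆ closedBall 0 RK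
  Ψ_diff : DifferentiableOn ℂ d.Ψ (d.V ×ˢ ball 0 d.ϱ)
  Ψ_right : ∀ z ∈ d.V, ∀ p : ℂ, ‖p‖ < d.ϱ →
    d.Ψ (z, p) ∈ d.T ∧ (d.Ψ (z, p)).1 = z ∧ d.P (d.Ψ (z, p)) = p
  Ψ_left : ∀ x ∈ d.T, x.1 ∈ d.V ∧ ‖d.P x‖ < d.ϱ ∧ d.Ψ (x.1, d.P x) = x
  u_diff : DifferentiableOn ℂ d.u d.V
  uF_diff : DifferentiableOn ℂ d.uF d.V
  uF_ne : ∀ z ∈ d.V, d.uF z ≠ 0
  u_ge : ∀ z ∈ d.V, d.α * ‖d.uF z‖ ≤ 2 * ‖d.u z‖
  u_le : ∀ z ∈ d.V, ‖d.u z‖ ≤ 2 * d.α * ‖d.uF z‖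
  flat : ∀ x ∈ d.T, ‖d.sh x - d.s x.1‖ ≤ ‖d.P x‖ / 100
  KV_compact : IsCompact d.KV
  a_mem : ‖d.a - o‖ < ρ
  ball_sub : ∀ z ∈ closedBall o ρ, z ∈ d.V ∧ ‖d.s z‖ ≤ exp (-(3 * d.h))
  U_cont : Continuous d.U
  U_nn : ∀ x, 0 ≤ d.U x
  U_S : ∀ x, x ≠ d.ah → 0 < d.U x ∧ SS (fun y => log (d.U y)) x
  τ_SM : ∀ x, SM d.τ x
  τ_nn : ∀ x, 0 ≤ d.τ x
  τ_le : ∀ x ∈ closedBall (0 : ℂ × ℂ) 1, d.τ x ≤ d.E
  U_ge : ∀ x ∈ closedBall (0 : ℂ × ℂ) 1, ‖d.P x‖ * exp (-d.E) ≤ d.U x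
  U_le : ∀ x ∈ d.T, d.U x ≤ nn (d.P x) (d.F x.1) * exp (-d.τ x)
  U_eq : ∀ᶠ x in 𝓝 d.ah, d.U x = nn (d.P x) (d.F x.1) * exp (-d.τ x)
  L_LP : ∀ x ∈ ball (0 : ℂ × ℂ) 1, LP d.L x
  L_le_U : ∀ x ∈ ball (0 : ℂ × ℂ) 1, d.L x ≤ d.U x
  L_le : ∀ x ∈ d.T, d.L x ≤ max ‖d.P x‖ ‖d.F x.1‖ * exp (-d.E)
  L_near : ∀ᶠ x in 𝓝 d.ah, ‖d.F x.1‖ * exp (-d.Λ - 1) * exp (-d.E) ≤ d.L x ∧
    d.L x ≤ max ‖d.P x‖ (‖d.F x.1‖ * exp (-d.Λ + 1)) * exp (-d.E)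
  W_LP : ∀ x ∈ ball (0 : ℂ × ℂ) 1, LP d.W x
  W_le : ∀ x ∈ ball (0 : ℂ × ℂ) 1, x ∉ closedBall (0 : ℂ × ℂ) RK → d.W x ≤ d.L x
  W_xs : exp (-(d.N * Cv)) ≤ d.W xs
  P_xs : exp (-(d.N * C0)) ≤ ‖d.P xs‖

theorem isOpen_lt_on {X : Type*} [TopologicalSpace X] {U : Set X} (hU : IsOpen U) {f g : X → ℝ}
    (hf : ContinuousOn f U) (hg : ContinuousOn g U) : IsOpen {x ∈ U | f x < g x} := by
  have := (hg.sub hf).isOpen_inter_preimage hU (isOpen_Ioi (a := (0:ℝ)))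
  have h : {x ∈ U | f x < g x} = U ∩ (fun x => g x - f x) ⁻¹' Ioi 0 := by
    ext x; simp
  rwa [h]

namespace IH

variable {d : Data} {o : ℂ} {ρ RK σ0 θ0 C0 Cv : ℝ} {xs : ℂ × ℂ}
  (H : IH d o ρ RK σ0 θ0 C0 Cv xs)
include H

theorem s_diff : DifferentiableOn ℂ d.s d.V :=
  DifferentiableOn.mul (by fun_prop) H.u_diff

theorem F_diff : DifferentiableOn ℂ d.F d.V :=
  DifferentiableOn.mul (by fun_prop) H.uF_diff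

theorem u_ne {z : ℂ} (hz : z ∈ d.V) : d.u z ≠ 0 := by
  have h1 := H.u_ge z hz
  have h2 := norm_pos_iff.2 (H.uF_ne z hz)
  have := H.α_ge
  exact norm_pos_iff.1 (by nlinarith)

theorem F_le {z : ℂ} (hz : z ∈ d.V) : d.α * ‖d.F z‖ ≤ 2 * ‖d.s z‖ := by
  simp only [Data.s, Data.F, norm_mul]
  nlinarith [mul_le_mul_of_nonneg_left (H.u_ge z hz) (norm_nonneg ((z - d.a) ^ d.M))]

theorem s_le {z : ℂ} (hz : z ∈ d.V) : ‖d.s z‖ ≤ 2 * d.α * ‖d.F z‖ := by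
  simp only [Data.s, Data.F, norm_mul]
  nlinarith [mul_le_mul_of_nonneg_left (H.u_le z hz) (norm_nonneg ((z - d.a) ^ d.M))]

theorem F50 {z : ℂ} (hz : z ∈ d.V) : 50 * ‖d.F z‖ ≤ ‖d.s z‖ := by
  have := H.F_le hz
  nlinarith [H.α_ge, norm_nonneg (d.F z)]

theorem ϱ_pos : 0 < d.ϱ := lt_of_lt_of_le (by positivity) H.ϱ_ge

theorem a_V : d.a ∈ d.V := (H.ball_sub _ (by simpa [dist_eq_norm] using H.a_mem.le)).1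

theorem s_a : d.s d.a = 0 := by
  have := H.M_pos
  simp [Data.s, zero_pow (by omega : d.M ≠ 0)]

theorem F_a : d.F d.a = 0 := by
  have := H.M_pos
  simp [Data.F, zero_pow (by omega : d.M ≠ 0)]

theorem ah_spec : d.ah ∈ d.T ∧ d.ah.1 = d.a ∧ d.P d.ah = 0 :=
  H.Ψ_right _ H.a_V 0 (by simpa using H.ϱ_pos)

theorem eq_ah {x : ℂ × ℂ} (hx : x ∈ d.T) (h1 : x.1 = d.a) (h2 : d.P x = 0) : x = d.ah := by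
  rw [← (H.Ψ_left x hx).2.2, h1, h2]; rfl

theorem s_ne {z : ℂ} (hz : z ∈ d.V) (h : z ≠ d.a) : d.s z ≠ 0 :=
  mul_ne_zero (pow_ne_zero _ (sub_ne_zero.2 h)) (H.u_ne hz)

theorem P_cont : Continuous d.P := pol_cont H.hP

theorem s_fst : ContinuousOn (fun x : ℂ × ℂ => d.s x.1) d.T :=
  H.s_diff.continuousOn.comp continuousOn_fst fun x hx => (H.Ψ_left x hx).1

theorem tube_compact {S : Set (ℂ × ℂ)} (hS : IsCompact S) (hsub : S ⊆ d.V ×ˢ ball 0 d.ϱ) :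
    IsCompact {x ∈ d.T | (x.1, d.P x) ∈ S} := by
  have : {x ∈ d.T | (x.1, d.P x) ∈ S} = d.Ψ '' S := by
    ext x
    constructor
    · rintro ⟨h1, h2⟩
      exact ⟨_, h2, (H.Ψ_left x h1).2.2⟩
    · rintro ⟨⟨z, p⟩, hq, rfl⟩
      obtain ⟨h1, h2, h3⟩ := H.Ψ_right z (hsub hq).1 p (by simpa using (hsub hq).2)
      exact ⟨h1, by rw [h2, h3]; exact hq⟩
  rw [this]
  exact hS.image_of_continuousOn (H.Ψ_diff.continuousOn.mono hsub)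

theorem Box_open (r p : ℝ) : IsOpen (d.Box r p) := by
  have := H.P_cont
  have h1 : IsOpen {x : ℂ × ℂ | ‖x.1 - d.a‖ < r} := isOpen_lt (by fun_prop) continuous_const
  have h2 : IsOpen {x : ℂ × ℂ | ‖d.P x‖ < p} := isOpen_lt (by fun_prop) continuous_const
  exact H.T_open.inter (h1.inter h2)

theorem cBox_compact {r p : ℝ} (hr : closedBall d.a r ⊆ d.V) (hp : p < d.ϱ) :
    IsCompact (d.cBox r p) := by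
  have := H.tube_compact ((isCompact_closedBall d.a r).prod (isCompact_closedBall 0 p))
    (prod_mono hr (closedBall_subset_ball hp))
  simpa [Data.cBox, dist_eq_norm] using this

theorem Str_open (r t w : ℝ) : IsOpen (d.Str r t w) := by
  have h1 := isOpen_lt_on H.T_open (f := fun _ => r) (g := fun x => ‖x.1 - d.a‖)
    continuousOn_const (by fun_prop)
  have h2 := isOpen_lt_on H.T_open H.s_fst.norm (g := fun _ => exp (-t)) continuousOn_const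
  have h3 := isOpen_lt_on H.T_open (H.P_cont.continuousOn.sub H.s_fst).norm
    (g := fun x => w * ‖d.s x.1‖) (continuousOn_const.mul H.s_fst.norm)
  have : d.Str r t w = _ ∩ (_ ∩ _) := Set.ext fun x =>
    ⟨fun ⟨a, b, c, e⟩ => ⟨(⟨a, b⟩ : x ∈ {x ∈ d.T | r < ‖x.1 - d.a‖}),
      (⟨a, c⟩ : x ∈ {x ∈ d.T | ‖d.s x.1‖ < exp (-t)}),
      (⟨a, e⟩ : x ∈ {x ∈ d.T | ‖d.P x - d.s x.1‖ < w * ‖d.s x.1‖})⟩,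
      fun ⟨a, b, c⟩ => ⟨a.1, a.2, b.2, c.2⟩⟩
  rw [this]
  exact h1.inter (h2.inter h3)

theorem lev_compact {t : ℝ} (ht : d.h ≤ t) (r : ℝ) :
    IsCompact {z ∈ d.V | r ≤ ‖z - d.a‖ ∧ ‖d.s z‖ ≤ exp (-t)} := by
  have h1 := H.KV_compact.isClosed.isClosed_le
    (H.s_diff.continuousOn.mono fun z hz => hz.1).norm (g := fun _ => exp (-t)) continuousOn_const
  have h2 : IsClosed {z : ℂ | r ≤ ‖z - d.a‖} := isClosed_le continuous_const (by fun_prop)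
  have h3 := H.KV_compact.of_isClosed_subset (h1.inter h2) fun z hz => hz.1.1
  have : {z ∈ d.V | r ≤ ‖z - d.a‖ ∧ ‖d.s z‖ ≤ exp (-t)} =
      {z ∈ d.KV | ‖d.s z‖ ≤ exp (-t)} ∩ {z : ℂ | r ≤ ‖z - d.a‖} := Set.ext fun z =>
    ⟨fun ⟨a, b, c⟩ => ⟨⟨⟨a, c.trans (exp_le_exp.2 (by linarith))⟩, c⟩, b⟩,
      fun ⟨a, b⟩ => ⟨a.1.1, b, a.2⟩⟩
  rwa [this]

theorem cStr_compact {t w : ℝ} (ht : d.h ≤ t) (hw0 : 0 ≤ w) (hw : w ≤ 1 / 2) (r : ℝ) :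
    IsCompact (d.cStr r t w) := by
  obtain ⟨K, hKd⟩ : ∃ K : Set (ℂ × ℂ), K = {z ∈ d.V | r ≤ ‖z - d.a‖ ∧ ‖d.s z‖ ≤ exp (-t)} ×ˢ
    closedBall (0 : ℂ) (3 / 2 * exp (-d.h)) := ⟨_, rfl⟩
  have hK : IsCompact K := hKd ▸ (H.lev_compact ht r).prod (isCompact_closedBall _ _)
  have hKm : ∀ q, q ∈ K ↔ (q.1 ∈ d.V ∧ r ≤ ‖q.1 - d.a‖ ∧ ‖d.s q.1‖ ≤ exp (-t)) ∧
      ‖q.2‖ ≤ 3 / 2 * exp (-d.h) := by
    intro q; rw [hKd, mem_prod, mem_closedBall_zero_iff]; rfl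
  have hs : ContinuousOn (fun q : ℂ × ℂ => d.s q.1) K :=
    H.s_diff.continuousOn.comp continuousOn_fst fun q hq => ((hKm q).1 hq).1.1
  have h1 : IsClosed {q ∈ K | ‖q.2 - d.s q.1‖ ≤ w * ‖d.s q.1‖} :=
    hK.isClosed.isClosed_le (continuousOn_snd.sub hs).norm (continuousOn_const.mul hs.norm)
  have h2 := H.tube_compact (hK.of_isClosed_subset h1 fun q hq => hq.1) fun q hq =>
    ⟨((hKm q).1 hq.1).1.1, mem_ball_zero_iff.2 (by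
      linarith [H.ϱ_ge, exp_pos (-d.h), ((hKm q).1 hq.1).2])⟩
  have : d.cStr r t w =
      {x ∈ d.T | (x.1, d.P x) ∈ {q ∈ K | ‖q.2 - d.s q.1‖ ≤ w * ‖d.s q.1‖}} := by
    ext x
    constructor
    · rintro ⟨a, b, c, e⟩
      refine ⟨a, (hKm _).2 ⟨⟨(H.Ψ_left x a).1, b, c⟩, ?_⟩, e⟩
      have h3 : ‖d.s x.1‖ ≤ exp (-d.h) := c.trans (exp_le_exp.2 (by linarith))
      have h4 := norm_le_norm_add_norm_sub' (d.P x) (d.s x.1)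
      have h5 : w * ‖d.s x.1‖ ≤ 1 / 2 * exp (-d.h) := by gcongr
      linarith
    · rintro ⟨a, b, c⟩
      exact ⟨a, ((hKm _).1 b).1.2.1, ((hKm _).1 b).1.2.2, c⟩
  rwa [this]

theorem exists_box {p : ℂ × ℂ → Prop} (hp : ∀ᶠ x in 𝓝 d.ah, p x) :
    ∀ᶠ r in 𝓝[>] (0:ℝ), ∀ x ∈ d.cBox r r, p x := by
  have h1 : ContinuousAt d.Ψ (d.a, 0) := H.Ψ_diff.continuousOn.continuousAt
    ((H.V_open.prod isOpen_ball).mem_nhds ⟨H.a_V, by simpa using H.ϱ_pos⟩)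
  obtain ⟨ε, hε, h2⟩ := Metric.eventually_nhds_iff.1 (h1.eventually hp)
  filter_upwards [Ioo_mem_nhdsGT hε] with r hr x hx
  rw [← (H.Ψ_left x hx.1).2.2]
  refine h2 ?_
  rw [Prod.dist_eq, dist_eq_norm, dist_zero_right]
  exact max_lt (hx.2.1.trans_lt hr.2) (hx.2.2.trans_lt hr.2)

theorem U_lower {G : Set (ℂ × ℂ)} (hG : IsOpen G) (hah : d.ah ∈ G) :
    ∃ m > 0, ∀ x ∈ closedBall (0 : ℂ × ℂ) 1, x ∉ G → m ≤ d.U x := by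
  have hK := (isCompact_closedBall (0 : ℂ × ℂ) 1).diff hG
  rcases (closedBall (0 : ℂ × ℂ) 1 \ G).eq_empty_or_nonempty with h | h
  · exact ⟨1, one_pos, fun x h1 h2 => absurd (show x ∈ closedBall 0 1 \ G from ⟨h1, h2⟩)
      (by rw [h]; simp)⟩
  · obtain ⟨x0, h1, h2⟩ := hK.exists_isMinOn h H.U_cont.continuousOn
    exact ⟨_, (H.U_S x0 fun h => h1.2 (h ▸ hah)).1, fun x h3 h4 => h2 ⟨h3, h4⟩⟩

end IH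

end Pool.Agent.Lib.MP_9cdd18_an.CX
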