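import Pool.Agent.Lib.MP_9cdd18_an.Defs

namespace Pool.Agent.Lib.MP_9cdd18_an.CX

/-- Plurisubharmonic on `U` and not the constant `-∞` on `U`. -/
def PSHne {n : ℕ} (U : Set (Fin n → ℂ)) (u : (Fin n → ℂ) → EReal) : Prop :=
  PSH U u ∧ ∃ x ∈ U, u x ≠ ⊥

/-- Maximal in `U`, with the constant `-∞` excluded from the plurisubharmonic functions. -/
def MaximalNe {n : ℕ} (U : Set (Fin n → ℂ)) (φ : (Fin n → ℂ) → EReal) : Prop :=
  PSHne U φ ∧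
    ∀ v : (Fin n → ℂ) → EReal, PSHne U v →
      (∃ K : Set (Fin n → ℂ), IsCompact K ∧ K ⊆ U ∧ ∀ x ∈ U \ K, v x ≤ φ x) →
      ∀ x ∈ U, v x ≤ φ x

/-- The open Euclidean ball with centre `a` and radius `r`. -/
def EBall {n : ℕ} (a : Fin n → ℂ) (r : ℝ) : Set (Fin n → ℂ) :=
  {y | ∑ i, ‖y i - a i‖ ^ 2 < r ^ 2}

end Pool.Agent.Lib.MP_9cdd18_an.CX
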