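import Pool.Agent.Lib.MP_9cdd18_an.CXData

namespace Pool.Agent.Lib.MP_9cdd18_an.CX

open MeasureTheory Set Real Filter Topology Metric

/-- Schwarz lemma with a multiple zero, with rate `γ`. -/
def SchZ (ρ ρ' γ : ℝ) : Prop :=
  ∀ (o y : ℂ) (u : ℂ → ℂ) (m : ℕ) (B : ℝ), DifferentiableOn ℂ u (closedBall o ρ) →
    y ∈ closedBall o ρ' → (∀ z ∈ sphere o ρ, ‖(z - y) ^ m * u z‖ ≤ B) →
    ∀ z ∈ closedBall o ρ', ‖(z - y) ^ m * u z‖ ≤ B * exp (-(γ * m))

def Data.Vout (d : Data) : Set ℂ := {z ∈ d.V | ‖d.s z‖ < exp (-(d.h + d.h / 20))}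

namespace IH

variable {d : Data} {o : ℂ} {ρ RK σ0 θ0 C0 Cv : ℝ} {xs : ℂ × ℂ}
  (H : IH d o ρ RK σ0 θ0 C0 Cv xs)
include H

theorem V_sub {z : ℂ} (hz : z ∈ d.V) : ‖z‖ ≤ RK := by
  obtain ⟨h1, h2, -⟩ := H.Ψ_right z hz 0 (by simpa using H.ϱ_pos)
  have := mem_closedBall_zero_iff.1 (H.T_sub h1)
  rw [← h2]
  exact (norm_fst_le _).trans this

theorem Vout_open : IsOpen d.Vout :=
  isOpen_lt_on H.V_open H.s_diff.continuousOn.norm continuousOn_const

theorem ball_Vout {z : ℂ} (hz : z ∈ closedBall o ρ) : z ∈ d.Vout :=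
  ⟨(H.ball_sub z hz).1, (H.ball_sub z hz).2.trans_lt (exp_lt_exp.2 (by linarith [H.h_ge]))⟩

theorem s_small {γ : ℝ} (hS : SchZ ρ ‖d.a - o‖ γ) {z : ℂ} (hz : z ∈ closedBall o ‖d.a - o‖) :
    ‖d.s z‖ ≤ exp (-(3 * d.h)) * exp (-(γ * d.M)) :=
  hS o d.a d.u d.M _ (H.u_diff.mono fun z hz => (H.ball_sub z hz).1) (by simp [dist_eq_norm])
    (fun z hz => (H.ball_sub z (sphere_subset_closedBall hz)).2) z hz

theorem exists_green (hRK : RK < 1) {b : ℂ} {r γ : ℝ} (hr : 0 < r)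
    (hb : ‖b - o‖ + r ≤ ‖d.a - o‖) (hS : SchZ ρ ‖d.a - o‖ γ) {C : ℕ} (hC1 : 1 ≤ C)
    (hC : 4 / r ≤ exp (C * γ)) (hε : C * (d.h / 20) ≤ d.M * γ / 2) :
    ∃ k1 : ℕ, 1 ≤ k1 ∧ ∃ uB : ℂ → ℂ, DifferentiableOn ℂ uB d.Vout ∧ (∀ z ∈ d.Vout, uB z ≠ 0) ∧
      (∀ z ∈ d.Vout, r ≤ ‖z - b‖ → (r / 4) ^ (d.M * k1) ≤ ‖(z - b) ^ (d.M * k1) * uB z‖) ∧
      (∀ z ∈ closedBall o ‖d.a - o‖,
        ‖(z - b) ^ (d.M * k1) * uB z‖ ≤ exp (-(d.M * k1 * γ / 2))) ∧
      (∀ z ∈ d.V, ‖d.s z‖ ≤ exp (-(d.h + 2 * (d.h / 20))) →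
        ‖(z - b) ^ (d.M * k1) * uB z‖ ≤ exp (C * k1 * (d.h / 20))) ∧
      (∀ z ∈ d.Vout, r ≤ ‖z - b‖ →
        ‖d.s z‖ ^ (C * k1) * exp (C * k1 * d.h) ≤ ‖(z - b) ^ (d.M * k1) * uB z‖) := by
  have hh := H.h_ge
  set E : Set ℂ := closedBall 0 1 \ d.Vout with hE
  have hEc : IsCompact E := (isCompact_closedBall 0 1).diff H.Vout_open
  have hRK0 : 0 ≤ RK := (norm_nonneg _).trans (H.V_sub H.a_V)
  have hEi : E.Infinite := by
    refine ((Set.Ioc_infinite hRK).image Complex.ofReal_injective.injOn).mono ?_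
    rintro _ ⟨x, hx, rfl⟩
    have h1 : ‖(x : ℂ)‖ = x := by rw [Complex.norm_real, norm_eq_abs, abs_of_pos (by linarith [hx.1])]
    exact ⟨by rw [mem_closedBall_zero_iff, h1]; exact hx.2, fun h => by
      have := H.V_sub h.1
      rw [h1] at this
      linarith [hx.1]⟩
  have hsub : closedBall o ‖d.a - o‖ ⊆ closedBall o ρ := closedBall_subset_closedBall H.a_mem.le
  have hbo : b ∈ closedBall o ‖d.a - o‖ := by rw [mem_closedBall, dist_eq_norm]; linarith
  have hbV := H.ball_Vout (hsub hbo)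
  have hb1 : ‖b‖ ≤ 1 := (H.V_sub hbV.1).trans hRK.le
  have hK2 := H.lev_compact (t := d.h + 2 * (d.h / 20)) (by linarith) 0
  obtain ⟨δ, hδ, hth⟩ := hK2.exists_cthickening_subset_open H.Vout_open
    fun z hz => ⟨hz.1, hz.2.2.trans_lt (exp_lt_exp.2 (by linarith))⟩
  obtain ⟨k1, hk1⟩ := exists_nat_ge (max 1 ((d.M + 1) / δ))
  have hk11 : (1:ℝ) ≤ k1 := (le_max_left _ _).trans hk1
  have hk12 : (d.M + 1) / δ ≤ k1 := (le_max_right _ _).trans hk1
  have hC1' : (1:ℝ) ≤ C := by exact_mod_cast hC1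
  have hCk : 1 ≤ (C:ℝ) * k1 := one_le_mul_of_one_le_of_one_le hC1' hk11
  obtain ⟨N, hN1, hN2, hN3, hN4⟩ := fekete hEc hEi sdiff_subset (fun h => h.2 hbV) (d.M * k1)
  have hNne : ∀ z ∈ d.Vout, N z ≠ 0 := fun z hz h => (hN2 z h).2 hz
  have hk0 : 1 ≤ d.M * k1 := Nat.mul_pos H.M_pos (by exact_mod_cast hk11)
  have hNup : ∀ z ∈ closedBall (0:ℂ) 1, ‖N z‖ ≤ 4 ^ (d.M * k1) := by
    refine maxmod_ball one_pos hN1.differentiableOn fun z hz => ?_
    have h1 : ‖z‖ = 1 := by simpa using hz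
    refine (hN3 z ⟨by simp [h1], fun h => by linarith [H.V_sub h.1]⟩).trans ?_
    have h2 : ‖z - b‖ ≤ 2 := by linarith [norm_sub_le z b]
    have h3 : (2:ℝ) ≤ 2 ^ (d.M * k1) := le_self_pow₀ one_le_two (by omega)
    calc 2 * ‖z - b‖ ^ (d.M * k1) ≤ 2 ^ (d.M * k1) * 2 ^ (d.M * k1) := by gcongr
      _ = _ := by rw [← mul_pow]; norm_num
  have hG3 : ∀ z ∈ d.V, ‖d.s z‖ ≤ exp (-(d.h + 2 * (d.h / 20))) →
      ‖(z - b) ^ (d.M * k1) * (N z)⁻¹‖ ≤ exp (C * k1 * (d.h / 20)) := by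
    intro z hz hs
    have h1 := hN4 z δ hδ fun e he => by
      by_contra h
      exact he.2 (hth (mem_cthickening_of_dist_le e z δ _ ⟨hz, norm_nonneg _, hs⟩
        (by rw [dist_comm, dist_eq_norm]; linarith)))
    have h2 := norm_pos_iff.2 (hNne z ⟨hz, hs.trans_lt (exp_lt_exp.2 (by linarith))⟩)
    rw [norm_mul, norm_pow, norm_inv, ← div_eq_mul_inv, div_le_iff₀ h2]
    have h3 : ((d.M * k1 : ℕ) + 1 : ℝ) ≤ δ * exp (C * k1 * (d.h / 20)) := by
      have h4 : (d.M + 1 : ℝ) ≤ k1 * δ := (div_le_iff₀ hδ).1 hk12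
      have h5 : (k1 + 1 : ℝ) ^ 2 ≤ exp (C * k1 * (d.h / 20)) := by
        calc (k1 + 1 : ℝ) ^ 2 ≤ exp k1 ^ 2 := by gcongr; exact add_one_le_exp _
          _ = exp (2 * k1) := by rw [← exp_nat_mul]; norm_num
          _ ≤ _ := by
              have h6 := mul_le_mul hC1' (show (2:ℝ) ≤ d.h / 20 by linarith) (by norm_num)
                (by linarith)
              exact exp_le_exp.2 (by nlinarith)
      push_cast
      have : (0:ℝ) ≤ d.M := Nat.cast_nonneg _
      calc (d.M * k1 + 1 : ℝ) ≤ (d.M + 1) * k1 := by nlinarith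
        _ ≤ k1 * δ * k1 := by gcongr
        _ ≤ δ * (k1 + 1) ^ 2 := by nlinarith
        _ ≤ _ := by gcongr
    have h4 : δ * ‖z - b‖ ^ (d.M * k1) ≤ δ * (exp (C * k1 * (d.h / 20)) * ‖N z‖) := by
      rw [← mul_assoc]
      exact h1.trans (by gcongr)
    exact le_of_mul_le_mul_left h4 hδ
  have hud : DifferentiableOn ℂ (fun z => (N z)⁻¹) d.Vout := hN1.differentiableOn.inv hNne
  refine ⟨k1, by exact_mod_cast hk11, fun z => (N z)⁻¹, hud, fun z hz => inv_ne_zero (hNne z hz),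
    fun z hz h => ?_, fun z hz => ?_, hG3, fun z hz h => ?_⟩
  · have h2 := norm_pos_iff.2 (hNne z hz)
    rw [norm_mul, norm_pow, norm_inv, ← div_eq_mul_inv, div_pow]
    gcongr
    exact hNup z (mem_closedBall_zero_iff.2 ((H.V_sub hz.1).trans hRK.le))
  · refine (hS o b _ (d.M * k1) (exp (C * k1 * (d.h / 20))) (hud.mono fun z hz => H.ball_Vout hz)
      hbo (fun z hz => ?_) z hz).trans ?_
    · have := H.ball_sub z (sphere_subset_closedBall hz)
      exact hG3 z this.1 (this.2.trans (exp_le_exp.2 (by linarith)))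
    · rw [← exp_add, exp_le_exp]
      push_cast
      nlinarith
  · have hK1 := (H.lev_compact (t := d.h + d.h / 20) (by linarith) 0).diff (isOpen_ball (x := b) (ε := r))
    have hne : ∀ w, w ∉ ball b r → w - b ≠ 0 := fun w hw h => hw (by
      rw [mem_ball, dist_eq_norm, h, norm_zero]; exact hr)
    have key := maxmod_open (f := fun w => d.s w ^ (C * k1) * (N w / (w - b) ^ (d.M * k1)))
      (B := exp (-(C * k1 * d.h))) (H.Vout_open.sdiff (isClosed_closedBall (x := b) (ε := r))) hK1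
      (fun w hw => ⟨⟨hw.1.1, norm_nonneg _, hw.1.2.le⟩, fun h => hw.2 (ball_subset_closedBall h)⟩)
      (((H.s_diff.mono fun w hw => hw.1.1).pow _).mul (hN1.differentiableOn.div (by fun_prop)
        fun w hw => pow_ne_zero _ (hne w hw.2))) (fun w hw hw2 => by
        have h0 := pow_pos (norm_pos_iff.2 (hne w hw.2)) (d.M * k1)
        have hw1 := mem_closedBall_zero_iff.2 ((H.V_sub hw.1.1).trans hRK.le)
        rw [norm_mul, norm_pow, norm_div, norm_pow]
        by_cases h1 : w ∈ d.Vout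
        · have h2 : w ∈ closedBall b r := by
            by_contra h2
            exact hw2 ⟨h1, h2⟩
          have h3 : ‖w - b‖ = r := le_antisymm (by simpa [dist_eq_norm] using h2)
            (by simpa [dist_eq_norm] using hw.2)
          have h4 := H.s_small hS (z := w) (by
            rw [mem_closedBall, dist_eq_norm]
            linarith [norm_sub_le_norm_sub_add_norm_sub w b o])
          calc _ ≤ (exp (-(3 * d.h)) * exp (-(γ * d.M))) ^ (C * k1) *
                (4 ^ (d.M * k1) / r ^ (d.M * k1)) := by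
                rw [h3]; gcongr; exact hNup w hw1
            _ ≤ (exp (-(3 * d.h)) * exp (-(γ * d.M))) ^ (C * k1) * exp (C * γ) ^ (d.M * k1) := by
                rw [← div_pow]; gcongr
            _ ≤ _ := by
                rw [← exp_add, ← exp_nat_mul, ← exp_nat_mul, ← exp_add, exp_le_exp]
                push_cast
                nlinarith
        · have h2 := hN3 w ⟨hw1, h1⟩
          calc _ ≤ exp (-(d.h + d.h / 20)) ^ (C * k1) * 2 := by
                gcongr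
                · exact hw.1.2.2
                · rwa [div_le_iff₀ h0]
            _ ≤ exp (-(d.h + d.h / 20)) ^ (C * k1) * exp (C * k1 * (d.h / 20)) := by
                gcongr
                have := add_one_le_exp (C * k1 * (d.h / 20))
                nlinarith
            _ = _ := by
                rw [← exp_nat_mul, ← exp_add]
                push_cast
                ring_nf) z ⟨⟨hz.1, norm_nonneg _, hz.2.le⟩, by simpa [dist_eq_norm] using h⟩
    have h0 : 0 < ‖z - b‖ ^ (d.M * k1) := pow_pos (hr.trans_le h) _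
    have h2 := norm_pos_iff.2 (hNne z hz)
    simp only [norm_mul, norm_pow, norm_div, norm_inv] at key ⊢
    have h3 := mul_le_mul_of_nonneg_right key
      (show 0 ≤ exp (C * k1 * d.h) * (‖z - b‖ ^ (d.M * k1) * ‖N z‖⁻¹) by positivity)
    rw [← mul_assoc (exp (-_)), ← exp_add, neg_add_cancel, exp_zero, one_mul] at h3
    refine le_trans (le_of_eq ?_) h3
    field_simp

end IH

end Pool.Agent.Lib.MP_9cdd18_an.CX
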