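import Pool.Agent.Lib.MP_9cdd18_an.CXIter
import Pool.Agent.Lib.MP_9cdd18_an.CXDefs

namespace Pool.Agent.Lib.MP_9cdd18_an.CX

open MeasureTheory Set Real Filter Topology Metric

variable {n : ℕ} {U : Set (Fin n → ℂ)} {φ : (Fin n → ℂ) → EReal}

theorem maximal_mono {B : Set (Fin n → ℂ)} (hU : IsOpen U) (hB : IsOpen B) (hBU : B ⊆ U)
    (h : Maximal U φ) : Maximal B φ := by
  refine ⟨h.1.mono hBU, fun v hv ⟨K, h1, h2, h3⟩ x hx => ?_⟩
  have h4 := h.2 _ (psh_glue hU hB hBU h1.isClosed h2 h.1 hv h3) ⟨K, h1, h2.trans hBU,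
    fun y hy => by
      split_ifs with h5
      · exact max_le (h3 y ⟨h5, hy.2⟩) le_rfl
      · exact le_rfl⟩ x (hBU hx)
  simp only [hx, if_true] at h4
  exact (le_max_left _ _).trans h4

theorem ne_bot_dense (hU : IsOpen U) (hc : IsPreconnected U) (h : PSHne U φ)
    {B : Set (Fin n → ℂ)} (hB : IsOpen B) (hBU : B ⊆ U) (hne : B.Nonempty) :
    ∃ y ∈ B, φ y ≠ ⊥ := by
  by_contra hcon
  push Not at hcon
  obtain ⟨x0, h1, h2⟩ := h.2
  refine h2 (interior_subset (s := {y | φ y = ⊥})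
    (hc.subset_of_closure_inter_subset (u := interior {y | φ y = ⊥})
    isOpen_interior ⟨_, hBU hne.some_mem, interior_maximal hcon hB hne.some_mem⟩ ?_ h1))
  rintro x ⟨h3, h4⟩
  obtain ⟨ε, hε, h5⟩ := Metric.isOpen_iff.1 hU x h4
  obtain ⟨y, h6, h7⟩ := Metric.mem_closure_iff.1 h3 (ε / 3) (by linarith)
  refine interior_maximal (fun w hw => ?_) isOpen_ball (mem_ball_self (show 0 < ε / 3 by linarith))
  by_contra h8
  have h9 := h.1.ae_ne_bot (a := w) (b := y - w) (fun z hz => h5 (by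
    rw [mem_ball, dist_eq_norm] at hw ⊢
    rw [dist_comm, dist_eq_norm] at h7
    have h9 : ‖z • (y - w)‖ ≤ ‖y - w‖ := by
      rw [norm_smul]; exact mul_le_of_le_one_left (norm_nonneg _) hz
    have h10 := norm_sub_le_norm_sub_add_norm_sub y x w
    rw [norm_sub_rev x w] at h10
    rw [add_sub_right_comm]
    linarith [norm_add_le (w - x) (z • (y - w))])) h8
  have h10 : ∀ᶠ θ in 𝓝[>] (0:ℝ), φ (circ w (y - w) θ) = ⊥ ∧ θ ∈ Ioc 0 (2 * π) := by
    refine Eventually.and (nhdsWithin_le_nhds ?_) (Ioc_mem_nhdsGT (by positivity))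
    have h10 : circ w (y - w) 0 = y := by simp [circ]
    exact (continuous_circ w (y - w)).continuousAt.eventually (p := fun y => φ y = ⊥)
      (by rw [h10]; exact mem_interior_iff_mem_nhds.1 h6)
  obtain ⟨δ, hδ, h11⟩ := mem_nhdsGT_iff_exists_Ioo_subset.1 h10
  rw [ae_restrict_iff' measurableSet_Ioc] at h9
  have h12 : volume (Ioo (0:ℝ) δ) = 0 := by
    refine measure_mono_null (fun θ hθ => ?_) (ae_iff.1 h9)
    exact fun h => h (h11 hθ).2 (h11 hθ).1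
  rw [Real.volume_Ioo, ENNReal.ofReal_eq_zero] at h12
  linarith [mem_Ioi.1 hδ]

theorem EBall_open (a : Fin n → ℂ) (r : ℝ) : IsOpen (EBall a r) :=
  isOpen_lt (by fun_prop) continuous_const

theorem EBall_sub (a : Fin n → ℂ) {r : ℝ} (hr : 0 < r) : EBall a r ⊆ ball a r := fun y hy => by
  rw [mem_ball, dist_eq_norm, pi_norm_lt_iff hr]
  exact fun i => lt_of_pow_lt_pow_left₀ 2 hr.le (lt_of_le_of_lt (Finset.single_le_sum
    (f := fun i => ‖y i - a i‖ ^ 2) (fun _ _ => sq_nonneg _) (Finset.mem_univ i)) hy)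

theorem not_local : ∃ (Ω : Set (Fin 2 → ℂ)) (φ : (Fin 2 → ℂ) → EReal), IsOpen Ω ∧ IsConnected Ω ∧
    PSHne Ω φ ∧ (∀ a ∈ Ω, ∃ r : ℝ, 0 < r ∧ closure (EBall a r) ⊆ Ω ∧ MaximalNe (EBall a r) φ) ∧
    ¬ MaximalNe Ω φ := by
  obtain ⟨φ, h1, h2, K, h3, h4, v, h5, h6, x, h7, h8⟩ := counter
  have hc : IsConnected (ball (0 : Fin 2 → ℂ) 1) := isConnected_ball one_pos
  have hv : PSHne (ball 0 1) v := ⟨h5, x, h7, ne_bot_of_gt h8⟩
  have hφ : PSHne (ball 0 1) φ := by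
    obtain ⟨y, h9, h10⟩ := ne_bot_dense isOpen_ball hc.2 hv (isOpen_ball.sdiff h3.isClosed)
      sdiff_subset (by
        rw [nonempty_iff_ne_empty, Ne, sdiff_eq_empty]
        intro h
        have h9 : IsClopen (ball (0 : Fin 2 → ℂ) 1) :=
          ⟨h4.antisymm h ▸ h3.isClosed, isOpen_ball⟩
        have h10 := h9.eq_univ ⟨x, h7⟩
        have h11 : (fun _ => 1 : Fin 2 → ℂ) ∈ ball (0 : Fin 2 → ℂ) 1 := h10 ▸ mem_univ _
        simp at h11)
    exact ⟨h1, y, h9.1, ne_bot_of_le_ne_bot h10 (h6 y h9)⟩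
  refine ⟨_, φ, isOpen_ball, hc, hφ, fun a ha => ?_, fun h =>
    absurd (h.2 v hv ⟨K, h3, h4, h6⟩ x h7) (not_le.2 h8)⟩
  obtain ⟨W, w1, w2, w3, w4⟩ := h2 a ha
  obtain ⟨r, hr, h9⟩ := nhds_basis_closedBall.mem_iff.1 (w1.mem_nhds w2)
  have h10 : EBall a r ⊆ W := (EBall_sub a hr).trans (ball_subset_closedBall.trans h9)
  have h11 := maximal_mono w1 (EBall_open a r) h10 w4
  refine ⟨r, hr, (closure_minimal ((EBall_sub a hr).trans ball_subset_closedBall)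
    isClosed_closedBall).trans (h9.trans w3), ⟨h11.1, ne_bot_dense isOpen_ball hc.2 hφ
    (EBall_open a r) (h10.trans w3) ⟨a, ?_⟩⟩, fun u hu => h11.2 u hu.1⟩
  simpa [EBall] using pow_pos hr 2

end Pool.Agent.Lib.MP_9cdd18_an.CX
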