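import Pool.Agent.Lib.MP_9cdd18_an.Basic

namespace Pool.Agent.Lib.MP_9cdd18_an

open MeasureTheory Set Real

variable {n : ℕ}

theorem ereal_shift {a b : EReal} {s t : ℝ} (h : a ≤ b + s) (hst : s + t ≤ 0) : a + t ≤ b := by
  calc a + t ≤ b + s + t := add_le_add h le_rfl
    _ = b + ((s + t : ℝ) : EReal) := by rw [add_assoc, EReal.coe_add]
    _ ≤ b + 0 := add_le_add le_rfl (EReal.coe_nonpos.2 hst)
    _ = b := add_zero b

/-- The squared Euclidean norm. -/
noncomputable def nsq (z : Fin n → ℂ) : ℝ := ∑ i, Complex.normSq (z i)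

theorem continuous_nsq : Continuous (nsq (n := n)) := by
  unfold nsq
  fun_prop

theorem sq_norm_le_nsq (z : Fin n → ℂ) : ‖z‖ ^ 2 ≤ nsq z := by
  have h0 : 0 ≤ nsq z := Finset.sum_nonneg fun i _ => Complex.normSq_nonneg _
  have : ‖z‖ ≤ √(nsq z) := by
    refine (pi_norm_le_iff_of_nonneg (sqrt_nonneg _)).2 fun i => ?_
    refine le_sqrt_of_sq_le ?_
    rw [Complex.sq_norm]
    exact Finset.single_le_sum (f := fun i => Complex.normSq (z i))
      (fun i _ => Complex.normSq_nonneg _) (Finset.mem_univ i)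
  calc ‖z‖ ^ 2 ≤ √(nsq z) ^ 2 := by gcongr
    _ = nsq z := sq_sqrt h0

theorem exists_functional (x0 : Fin n → ℂ) : ∃ L : (Fin n → ℂ) →L[ℂ] ℂ,
    ∀ z, nsq z = nsq x0 + 2 * ((L z).re - (L x0).re) + nsq (z - x0) := by
  refine ⟨∑ i, (starRingEnd ℂ (x0 i)) • ContinuousLinearMap.proj i, fun z => ?_⟩
  simp only [nsq, sum_apply, smul_apply,
    ContinuousLinearMap.proj_apply, smul_eq_mul, Complex.re_sum, ← Finset.sum_sub_distrib,
    Finset.mul_sum, ← Finset.sum_add_distrib, Pi.sub_apply]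
  refine Finset.sum_congr rfl fun i _ => ?_
  simp [Complex.normSq_apply]
  ring

theorem core {U K : Set (Fin n → ℂ)} {φ w : (Fin n → ℂ) → EReal} (hK : IsCompact K)
    (hw : PSH U w) (hφ : ∀ x ∈ K, φ x ≠ ⊤) (hKU : K ⊆ U)
    (hloc : ∀ x ∈ K, ∃ V, IsOpen V ∧ x ∈ V ∧ V ⊆ U ∧ Bornology.IsBounded V ∧ Maximal V φ ∧
      ∀ z ∈ V \ K, w z ≤ φ z)
    {C : ℝ} (hC : ∀ x ∈ K, w x ≤ φ x + C) : ∀ x ∈ K, w x ≤ φ x := by
  by_contra hcon
  push Not at hcon
  obtain ⟨x1, hx1, hlt⟩ := hcon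
  have fin : ∀ x ∈ K, ∀ t : ℝ, φ x + t < w x → ∃ p q : ℝ, φ x = p ∧ w x = q := by
    intro x hx t ht
    have h1 : w x ≠ ⊥ := (lt_of_le_of_lt bot_le ht).ne'
    have h2 : φ x ≠ ⊥ := by
      intro h
      have := hC x hx
      rw [h, EReal.bot_add] at this
      exact h1 (le_bot_iff.1 this)
    exact ⟨_, _, (EReal.coe_toReal (hφ x hx) h2).symm,
      (EReal.coe_toReal (hw.2.1 x (hKU hx)) h1).symm⟩
  set T : Set ℝ := {t | ∀ x ∈ K, w x ≤ φ x + t} with hT
  obtain ⟨p1, q1, hp1, hq1⟩ := fin x1 hx1 0 (by simpa using hlt)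
  have hpq : p1 < q1 := by rw [hp1, hq1] at hlt; exact_mod_cast hlt
  have hlow : ∀ t ∈ T, q1 - p1 ≤ t := by
    intro t ht
    have := ht x1 hx1
    rw [hp1, hq1, ← EReal.coe_add, EReal.coe_le_coe_iff] at this
    linarith
  have hbdd : BddBelow T := ⟨_, hlow⟩
  set m := sInf T with hm
  have hm0 : 0 < m := lt_of_lt_of_le (by linarith) (le_csInf ⟨C, hC⟩ hlow)
  have hmT : ∀ x ∈ K, w x ≤ φ x + m := by
    intro x hx
    by_contra h
    obtain ⟨p, q, hp, hq⟩ := fin x hx m (not_le.1 h)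
    apply h
    rw [hp, hq, ← EReal.coe_add, EReal.coe_le_coe_iff]
    have : q - p ≤ m := le_csInf ⟨C, hC⟩ fun t ht => by
      have := ht x hx
      rw [hp, hq, ← EReal.coe_add, EReal.coe_le_coe_iff] at this
      linarith
    linarith
  set S : ℕ → Set (Fin n → ℂ) := fun k =>
    {x ∈ K | φ x + ((m - 1 / ((k : ℝ) + 1) : ℝ) : EReal) < w x} with hS
  have hSne : ∀ k, (S k).Nonempty := by
    intro k
    by_contra h
    have h1 : m - 1 / ((k : ℝ) + 1) ∈ T := fun x hx => by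
      by_contra h2
      exact h ⟨x, hx, not_le.1 h2⟩
    have h2 := csInf_le hbdd h1
    have : (0 : ℝ) < 1 / ((k : ℝ) + 1) := Nat.one_div_pos_of_nat
    linarith
  have hSanti : Antitone S := by
    intro k l hkl x hx
    refine ⟨hx.1, lt_of_le_of_lt (add_le_add le_rfl (EReal.coe_le_coe_iff.2 ?_)) hx.2⟩
    have := Nat.one_div_le_one_div (α := ℝ) hkl
    linarith
  have hSK : ∀ k, closure (S k) ⊆ K := fun k =>
    closure_minimal (fun x hx => hx.1) hK.isClosed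
  have hcomp : ∀ k, IsCompact (closure (S k)) := fun k =>
    hK.of_isClosed_subset isClosed_closure (hSK k)
  have hne : (⋂ k, closure (S k)).Nonempty :=
    IsCompact.nonempty_iInter_of_sequence_nonempty_isCompact_isClosed _
      (fun k => closure_mono (hSanti (Nat.le_succ k))) (fun k => (hSne k).closure) (hcomp 0)
      (fun k => isClosed_closure)
  have hKi : IsCompact (⋂ k, closure (S k)) :=
    (hcomp 0).of_isClosed_subset (isClosed_iInter fun k => isClosed_closure) (iInter_subset _ 0)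
  obtain ⟨x0, hx0, hmax⟩ := hKi.exists_isMaxOn hne continuous_nsq.continuousOn
  have hx0K : x0 ∈ K := hSK 0 (mem_iInter.1 hx0 0)
  obtain ⟨V, hVo, hxV, hVU, hVb, hVmax, hVK⟩ := hloc x0 hx0K
  obtain ⟨r, hr, hball⟩ : ∃ r > 0, Metric.closedBall x0 r ⊆ V :=
    Metric.nhds_basis_closedBall.mem_iff.1 (hVo.mem_nhds hxV)
  obtain ⟨L, hL⟩ := exists_functional x0
  set ℓ : (Fin n → ℂ) → ℝ := fun z => (L z).re - (L x0).re + r ^ 2 / 4 with hℓ
  have hℓc : Continuous ℓ := by simp only [hℓ]; fun_prop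
  set F : Set (Fin n → ℂ) := K ∩ ({z | r ≤ dist z x0} ∩ {z | 0 ≤ ℓ z}) with hF
  have hFc : IsCompact F := hK.inter_right
    ((isClosed_le continuous_const (by fun_prop)).inter (isClosed_le continuous_const hℓc))
  have hFdisj : F ∩ ⋂ k, closure (S k) = ∅ := by
    refine eq_empty_of_forall_notMem fun z hz => ?_
    have h1 : nsq z ≤ nsq x0 := hmax hz.2
    have h2 := hL z
    have h3 := sq_norm_le_nsq (z - x0)
    have h4 : r ≤ ‖z - x0‖ := by rw [← dist_eq_norm]; exact hz.1.2.1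
    have h5 : 0 ≤ (L z).re - (L x0).re + r ^ 2 / 4 := hz.1.2.2
    have h6 : r ^ 2 ≤ ‖z - x0‖ ^ 2 := by gcongr
    nlinarith
  obtain ⟨k, hk⟩ := hFc.elim_directed_family_closed (fun k => closure (S k))
    (fun k => isClosed_closure) hFdisj
    (directed_of_isDirected_le fun k l hkl => closure_mono (hSanti hkl))
  set η : ℝ := 1 / ((k : ℝ) + 1) with hη
  have hη0 : 0 < η := Nat.one_div_pos_of_nat
  have hFw : ∀ z ∈ F, w z ≤ φ z + ((m - η : ℝ) : EReal) := by
    intro z hz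
    by_contra h
    have : z ∈ F ∩ closure (S k) := ⟨hz, subset_closure ⟨hz.1, not_le.1 h⟩⟩
    rw [hk] at this
    exact this
  obtain ⟨B, hB0, hB⟩ : ∃ B : ℝ, 0 < B ∧ ∀ z ∈ V, ℓ z ≤ B := by
    obtain ⟨B, hB⟩ := (hVb.isCompact_closure.image hℓc).bddAbove
    refine ⟨|B| + 1, by positivity, fun z hz => ?_⟩
    have := hB ⟨z, subset_closure hz, rfl⟩
    have := le_abs_self B
    linarith
  set δ := min η m / B with hδ
  have hmin0 : 0 < min η m := lt_min hη0 hm0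
  have hδ0 : 0 < δ := by positivity
  have hδB : ∀ z ∈ V, δ * ℓ z ≤ min η m := fun z hz => by
    calc δ * ℓ z ≤ δ * B := mul_le_mul_of_nonneg_left (hB z hz) hδ0.le
      _ = min η m := by rw [hδ]; field_simp
  have hpsh : PSH V (fun z => w z + ((δ * ℓ z - m : ℝ) : EReal)) := by
    have h1 := (hw.mono hVU).add
      (psh_affine (U := V) ((δ : ℂ) • L) (δ * (-(L x0).re + r ^ 2 / 4) - m))
    convert h1 using 4 with z
    simp only [hℓ, smul_apply, smul_eq_mul, Complex.re_ofReal_mul]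
    ring
  have hle := hVmax.2 _ hpsh ⟨Metric.closedBall x0 r, isCompact_closedBall _ _, hball, by
    intro z hz
    have h1 := hδB z hz.1
    have h2 := min_le_left η m
    have h3 := min_le_right η m
    by_cases hzK : z ∈ K
    · by_cases hzF : 0 ≤ ℓ z
      · have h4 : r ≤ dist z x0 := (not_le.1 (fun h => hz.2 h)).le
        exact ereal_shift (hFw z ⟨hzK, h4, hzF⟩) (by linarith)
      · have : δ * ℓ z ≤ 0 := mul_nonpos_of_nonneg_of_nonpos hδ0.le (not_le.1 hzF).le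
        exact ereal_shift (hmT z hzK) (by linarith)
    · exact ereal_shift (s := 0) (by simpa using hVK z ⟨hz.1, hzK⟩) (by linarith)⟩
  obtain ⟨k', hk'⟩ := exists_nat_one_div_lt (show 0 < δ * (r ^ 2 / 8) by positivity)
  have hW : IsOpen (V ∩ {z | r ^ 2 / 8 < ℓ z}) := hVo.inter (isOpen_lt continuous_const hℓc)
  have hxW : x0 ∈ V ∩ {z | r ^ 2 / 8 < ℓ z} := ⟨hxV, by
    simp only [hℓ, mem_ofPred_eq]
    nlinarith⟩
  obtain ⟨z, hzW, hzS⟩ := mem_closure_iff.1 (mem_iInter.1 hx0 k') _ hW hxW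
  obtain ⟨p, q, hp, hq⟩ := fin z hzS.1 _ hzS.2
  have h1 := hle z hzW.1
  have h2 := hzS.2
  rw [hp, hq, ← EReal.coe_add] at h1 h2
  rw [EReal.coe_le_coe_iff] at h1
  rw [EReal.coe_lt_coe_iff] at h2
  have h3 : δ * (r ^ 2 / 8) ≤ δ * ℓ z := mul_le_mul_of_nonneg_left hzW.2.le hδ0.le
  linarith

end Pool.Agent.Lib.MP_9cdd18_an
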