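import Pool.Agent.Lib.MP_9cdd18_an.CXRot
import Pool.Agent.Lib.MP_9cdd18_an.Core

namespace Pool.Agent.Lib.MP_9cdd18_an.CX

open MeasureTheory Set Real Filter Topology Metric

variable {n : ℕ} {U : Set (Fin n → ℂ)} {u v : (Fin n → ℂ) → EReal}

/-- Truncated circular mean. -/
noncomputable def mean (u : (Fin n → ℂ) → EReal) (a b : Fin n → ℂ) (M : ℝ) : ℝ :=
  (2 * π)⁻¹ * ∫ θ in (0:ℝ)..(2 * π), tr (u (circ a b θ)) M

/-- Local sub-mean property. -/
def LocSM (u : (Fin n → ℂ) → EReal) (x : Fin n → ℂ) : Prop :=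
  ∀ (b : Fin n → ℂ) (M : ℝ), ∀ᶠ ρ : ℝ in 𝓝[>] 0, u x ≤ mean u x ((ρ : ℂ) • b) M

theorem tr_mono {x y : EReal} (h : x ≤ y) (hy : y ≠ ⊤) (M : ℝ) : tr x M ≤ tr y M :=
  tr_le (h.trans (le_coe_tr hy M)) (le_tr hy M)

theorem tr_lt {x : EReal} {M B : ℝ} (hx : x < B) (hM : M < B) : tr x M < B := by
  have hx' : x ≠ ⊤ := (hx.trans (EReal.coe_lt_top B)).ne
  rw [← EReal.coe_lt_coe_iff, coe_tr hx']
  exact max_lt hx (EReal.coe_lt_coe_iff.2 hM)

theorem mean_mono {V : Set (Fin n → ℂ)} {a a' b : Fin n → ℂ}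
    (h : ∀ z : ℂ, ‖z‖ ≤ 1 → a + z • b ∈ U) (h1 : UpperSemicontinuousOn u U)
    (h2 : ∀ x ∈ U, u x ≠ ⊤) (h' : ∀ z : ℂ, ‖z‖ ≤ 1 → a' + z • b ∈ V)
    (h3 : UpperSemicontinuousOn v V) (h4 : ∀ x ∈ V, v x ≠ ⊤)
    (hle : ∀ θ, u (circ a b θ) ≤ v (circ a' b θ)) (M : ℝ) : mean u a b M ≤ mean v a' b M := by
  refine mul_le_mul_of_nonneg_left ?_ (by positivity)
  exact intervalIntegral.integral_mono_on (by positivity) (integrable_tr h h1 h2 M)
    (integrable_tr h' h3 h4 M) fun θ _ => tr_mono (hle θ) (h4 _ (circ_mem h' θ)) M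

theorem le_mean {a b : Fin n → ℂ} (h : ∀ z : ℂ, ‖z‖ ≤ 1 → a + z • b ∈ U)
    (h1 : UpperSemicontinuousOn u U) (h2 : ∀ x ∈ U, u x ≠ ⊤) (M : ℝ) : M ≤ mean u a b M := by
  have h3 : ∫ θ in (0:ℝ)..(2 * π), M ≤ ∫ θ in (0:ℝ)..(2 * π), tr (u (circ a b θ)) M :=
    intervalIntegral.integral_mono_on (by positivity) intervalIntegrable_const
      (integrable_tr h h1 h2 M) fun θ _ => le_tr (h2 _ (circ_mem h θ)) M
  simp only [intervalIntegral.integral_const, sub_zero, smul_eq_mul] at h3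
  calc M = (2 * π)⁻¹ * (2 * π * M) := by field_simp
    _ ≤ _ := mul_le_mul_of_nonneg_left h3 (by positivity)

theorem psh_of_loc (h1 : UpperSemicontinuousOn u U) (h2 : ∀ x ∈ U, u x ≠ ⊤)
    (h3 : ∀ x ∈ U, LocSM u x) : PSH U u := by
  refine ⟨h1, h2, fun a b h M => ?_⟩
  have hK : IsCompact ((fun z : ℂ => a + z • b) '' closedBall 0 1) :=
    (isCompact_closedBall 0 1).image (by fun_prop)
  obtain ⟨B, hB0, hB⟩ := exists_bound hK (by
    rintro _ ⟨z, hz, rfl⟩
    exact h z (by simpa using hz)) h1 h2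
  set w : ℂ → ℝ := fun ζ => tr (u (a + ζ • b)) M with hw
  have hwu : UpperSemicontinuousOn w (closedBall 0 1) := by
    intro ζ hζ y hy
    have hζ' := h ζ (by simpa using hζ)
    have h4 : UpperSemicontinuousOn (u ∘ fun z : ℂ => a + z • b) (closedBall 0 1) :=
      h1.comp (by fun_prop) (fun z hz => h z (by simpa using hz))
    have h5 : u (a + ζ • b) < y :=
      lt_of_le_of_lt (le_coe_tr (h2 _ hζ') M) (EReal.coe_lt_coe_iff.2 hy)
    filter_upwards [h4 ζ hζ y h5] with z hz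
    exact tr_lt hz (lt_of_le_of_lt (le_tr (h2 _ hζ') M) hy)
  have hwB : ∀ ζ, ‖ζ‖ ≤ 1 → |w ζ| ≤ |M| + B := by
    intro ζ hζ
    have h4 := le_tr (h2 _ (h ζ hζ)) M
    have h5 : w ζ ≤ |M| + B := tr_le ((hB _ ⟨ζ, by simpa using hζ, rfl⟩).trans
      (EReal.coe_le_coe_iff.2 (by have := abs_nonneg M; linarith)))
      (by have := le_abs_self M; linarith)
    have := neg_abs_le M
    exact abs_le.2 ⟨by simp only [hw]; linarith, h5⟩
  have key := rot_mean hwu hwB fun ζ c hζ => by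
    have hd : ∀ᶠ y in 𝓝 ζ, ‖y‖ ≤ 1 :=
      (continuous_norm.continuousAt.eventually (gt_mem_nhds hζ)).mono fun _ h => h.le
    filter_upwards [h3 _ (h ζ hζ.le) (c • b) M, ev_disc hd c] with ρ h4 h5
    have h6 : ∀ z : ℂ, ‖z‖ ≤ 1 → a + ζ • b + z • (ρ : ℂ) • c • b ∈ U := by
      intro z hz
      have := h _ (h5 z hz)
      rwa [add_smul, smul_assoc, smul_assoc, ← add_assoc] at this
    have h7 : w ζ ≤ mean u (a + ζ • b) ((ρ : ℂ) • c • b) M := tr_le h4 (le_mean h6 h1 h2 M)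
    have h8 : ∀ θ : ℝ, w (ζ + Complex.exp (θ * Complex.I) * (ρ * c)) =
        tr (u (circ (a + ζ • b) ((ρ : ℂ) • c • b) θ)) M := by
      intro θ
      simp only [hw, circ, add_smul, mul_smul, add_assoc]
    simp only [h8]
    calc 2 * π * w ζ ≤ 2 * π * mean u (a + ζ • b) ((ρ : ℂ) • c • b) M := by gcongr
      _ = _ := by simp only [mean]; field_simp
  have ha : a ∈ U := by simpa using h 0 (by simp)
  refine (le_coe_tr (h2 a ha) M).trans (EReal.coe_le_coe_iff.2 ?_)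
  have h4 : w 0 = tr (u a) M := by simp [hw]
  rw [← h4]
  calc w 0 = (2 * π)⁻¹ * (2 * π * w 0) := by field_simp
    _ ≤ _ := mul_le_mul_of_nonneg_left key (by positivity)

theorem psh_locSM (hu : PSH U u) {x : Fin n → ℂ} (hx : U ∈ 𝓝 x) : LocSM u x := by
  intro b M
  filter_upwards [ev_disc (p := fun y => y ∈ U) hx b] with ρ hρ
  exact hu.mean hρ M

theorem LocSM.congr {x : Fin n → ℂ} (h : LocSM u x) (huv : u =ᶠ[𝓝 x] v) : LocSM v x := by
  intro b M
  filter_upwards [h b M, ev_disc huv b] with ρ h1 h2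
  rw [← huv.self_of_nhds]
  refine h1.trans (le_of_eq ?_)
  simp only [mean, circ]
  congr 2
  refine intervalIntegral.integral_congr fun θ _ => ?_
  simp only [h2 _ (Complex.norm_exp_ofReal_mul_I θ).le]

theorem psh_max (hu : PSH U u) (hv : PSH U v) : PSH U (fun x => max (u x) (v x)) := by
  have h1 : UpperSemicontinuousOn (fun x => max (u x) (v x)) U := hu.1.sup hv.1
  have h2 : ∀ x ∈ U, max (u x) (v x) ≠ ⊤ := fun x hx =>
    (max_lt (lt_top_iff_ne_top.2 (hu.2.1 x hx)) (lt_top_iff_ne_top.2 (hv.2.1 x hx))).ne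
  refine ⟨h1, h2, fun a b h M => max_le ?_ ?_⟩
  · exact (hu.mean h M).trans (EReal.coe_le_coe_iff.2
      (mean_mono h hu.1 hu.2.1 h h1 h2 (fun θ => le_max_left _ _) M))
  · exact (hv.mean h M).trans (EReal.coe_le_coe_iff.2
      (mean_mono h hv.1 hv.2.1 h h1 h2 (fun θ => le_max_right _ _) M))

open Classical in
theorem psh_glue {W K : Set (Fin n → ℂ)} (hU : IsOpen U) (hW : IsOpen W) (hWU : W ⊆ U)
    (hK : IsClosed K) (hKW : K ⊆ W) (hu : PSH U u) (hv : PSH W v)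
    (hle : ∀ x ∈ W \ K, v x ≤ u x) : PSH U (fun x => if x ∈ W then max (v x) (u x) else u x) := by
  have key : ∀ x ∈ U, ∃ V : Set (Fin n → ℂ), V ∈ 𝓝 x ∧ ∃ g, PSH V g ∧
      g =ᶠ[𝓝 x] fun x => if x ∈ W then max (v x) (u x) else u x := by
    intro x hx
    by_cases hxW : x ∈ W
    · refine ⟨W, hW.mem_nhds hxW, _, psh_max hv (hu.mono hWU), ?_⟩
      filter_upwards [hW.mem_nhds hxW] with y hy
      simp [hy]
    · refine ⟨U, hU.mem_nhds hx, u, hu, ?_⟩
      filter_upwards [hK.isOpen_compl.mem_nhds (fun h => hxW (hKW h))] with y hy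
      by_cases hyW : y ∈ W
      · simp [hyW, hle y ⟨hyW, hy⟩]
      · simp [hyW]
  refine psh_of_loc (fun x hx => ?_) (fun x hx => ?_) (fun x hx => ?_)
  · obtain ⟨V, hV, g, hg, he⟩ := key x hx
    intro y hy
    have h1 := hg.1 x (mem_of_mem_nhds hV) y (lt_of_eq_of_lt he.self_of_nhds hy)
    rw [nhdsWithin_eq_nhds.2 hV] at h1
    filter_upwards [nhdsWithin_le_nhds h1, nhdsWithin_le_nhds he] with z h2 h3
    exact lt_of_eq_of_lt h3.symm h2
  · obtain ⟨V, hV, g, hg, he⟩ := key x hx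
    exact fun h => hg.2.1 x (mem_of_mem_nhds hV) (he.self_of_nhds.trans h)
  · obtain ⟨V, hV, g, hg, he⟩ := key x hx
    exact (psh_locSM hg hV).congr he

theorem avg_eq (f : (Fin n → ℂ) → ℝ) (x b : Fin n → ℂ) :
    avg f x b = (2 * π)⁻¹ * ∫ θ in (0:ℝ)..(2 * π), f (circ x b θ) := by
  simp [avg, circleAverage, circ, circleMap]

theorem int_nsq (x b : Fin n → ℂ) :
    ∫ θ in (0:ℝ)..(2 * π), nsq (circ x b θ) = 2 * π * (nsq x + nsq b) := by
  simp only [nsq, circ, Pi.add_apply, Pi.smul_apply, smul_eq_mul]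
  rw [intervalIntegral.integral_finsetSum
    (f := fun i (θ : ℝ) => Complex.normSq (x i + Complex.exp (θ * Complex.I) * b i))
    fun i _ => Continuous.intervalIntegrable (Complex.continuous_normSq.comp (by fun_prop)) _ _]
  simp only [int_normSq]
  rw [← Finset.mul_sum, Finset.sum_add_distrib]

theorem nsq_smul (ρ : ℝ) (b : Fin n → ℂ) : nsq ((ρ : ℂ) • b) = ρ ^ 2 * nsq b := by
  simp only [nsq, Pi.smul_apply, smul_eq_mul, map_mul, Complex.normSq_ofReal, Finset.mul_sum]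
  refine Finset.sum_congr rfl fun i _ => by ring

theorem comparison {W K : Set (Fin n → ℂ)} {f : (Fin n → ℂ) → ℝ} (hW : IsOpen W)
    (hWb : Bornology.IsBounded W) (hf : ∀ x ∈ W, SS f x) (hv : PSH W v) (hK : IsCompact K)
    (hKW : K ⊆ W) (hle : ∀ x ∈ W \ K, v x ≤ f x) : ∀ x ∈ W, v x ≤ f x := by
  by_contra hcon
  push Not at hcon
  obtain ⟨x1, hx1, hlt⟩ := hcon
  have hfc : ContinuousOn f W := fun x hx => (hf x hx).1.at.continuousWithinAt
  obtain ⟨R, hR⟩ : ∃ R : ℝ, ∀ x ∈ W, nsq x ≤ R := by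
    obtain ⟨R, hR⟩ := (hWb.isCompact_closure.image continuous_nsq).bddAbove
    exact ⟨R, fun x hx => hR ⟨x, subset_closure hx, rfl⟩⟩
  obtain ⟨c, hc1, hc2⟩ := EReal.lt_iff_exists_real_btwn.1 hlt
  have hc1' : f x1 < c := EReal.coe_lt_coe_iff.1 hc1
  have hn0 : ∀ x : Fin n → ℂ, 0 ≤ nsq x := fun x => le_trans (sq_nonneg _) (sq_norm_le_nsq x)
  have hR0 : 0 ≤ R := (hn0 x1).trans (hR x1 hx1)
  set ε : ℝ := (c - f x1) / (R + 1) with hε
  have hεp : 0 < ε := div_pos (by linarith) (by linarith)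
  set k : (Fin n → ℂ) → ℝ := fun x => ε * (nsq x - R) - f x with hk
  have hkc : ContinuousOn k W :=
    (continuousOn_const.mul (continuous_nsq.continuousOn.sub continuousOn_const)).sub hfc
  have hg : UpperSemicontinuousOn (fun x => v x + (k x : EReal)) K :=
    (hv.1.mono hKW).add' ((continuous_coe_real_ereal.comp_continuousOn
      (hkc.mono hKW)).upperSemicontinuousOn) fun x hx =>
      EReal.continuousAt_add (Or.inr (EReal.coe_ne_bot _)) (Or.inr (EReal.coe_ne_top _))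
  have hx1K : x1 ∈ K := by
    by_contra h
    exact absurd (hle x1 ⟨hx1, h⟩) (not_le.2 hlt)
  obtain ⟨x0, hx0, hmax⟩ := hg.exists_isMaxOn ⟨x1, hx1K⟩ hK
  have hpos : (0 : EReal) < v x0 + k x0 := by
    refine lt_of_lt_of_le ?_ (hmax hx1K)
    have h1 : (0:ℝ) < c + k x1 := by
      have : ε * (R + 1) = c - f x1 := by rw [hε]; field_simp
      have := mul_nonneg hεp.le (hn0 x1)
      simp only [hk]; nlinarith
    calc (0 : EReal) < ((c + k x1 : ℝ) : EReal) := EReal.coe_pos.2 h1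
      _ = c + k x1 := EReal.coe_add _ _
      _ ≤ v x1 + k x1 := add_le_add hc2.le le_rfl
  have hx0W := hKW hx0
  have hb : v x0 ≠ ⊥ := by
    intro h
    rw [h, EReal.bot_add] at hpos
    exact not_lt_bot hpos
  obtain ⟨A, hA⟩ : ∃ A : ℝ, v x0 = A := ⟨_, (EReal.coe_toReal (hv.2.1 x0 hx0W) hb).symm⟩
  rw [hA, ← EReal.coe_add, EReal.coe_pos] at hpos
  have hglob : ∀ x ∈ W, v x ≤ ((A + k x0 - k x : ℝ) : EReal) := by
    intro x hx
    by_cases hxK : x ∈ K
    · have h1 : v x + k x ≤ v x0 + k x0 := hmax hxK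
      rw [hA, ← EReal.coe_add] at h1
      rw [EReal.coe_sub]
      exact (EReal.le_sub_iff_add_le (Or.inl (EReal.coe_ne_bot _))
        (Or.inl (EReal.coe_ne_top _))).2 h1
    · refine (hle x ⟨hx, hxK⟩).trans (EReal.coe_le_coe_iff.2 ?_)
      have := mul_nonneg hεp.le (sub_nonneg.2 (hR x hx))
      simp only [hk] at hpos ⊢
      nlinarith
  obtain ⟨hcn, e, he, hS⟩ := hf x0 hx0W
  have hne : 0 < nsq e := lt_of_lt_of_le (by positivity) (sq_norm_le_nsq e)
  obtain ⟨ρ, h1, h2, h3⟩ := ((hS (ε * nsq e / 2) (by positivity)).and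
    ((ev_disc (p := fun y => y ∈ W) (hW.mem_nhds hx0W) e).and self_mem_nhdsWithin)).exists
  have hρ : 0 < ρ := h3
  have hcc : Continuous fun θ => f (circ x0 ((ρ : ℂ) • e) θ) :=
    hfc.comp_continuous (continuous_circ _ _) (circ_mem h2)
  have hcn' : Continuous fun θ => nsq (circ x0 ((ρ : ℂ) • e) θ) :=
    continuous_nsq.comp (continuous_circ _ _)
  have hkk : Continuous fun θ => A + k x0 - k (circ x0 ((ρ : ℂ) • e) θ) :=
    continuous_const.sub (hkc.comp_continuous (continuous_circ _ _) (circ_mem h2))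
  obtain ⟨θ0, -, hθ0⟩ := isCompact_Icc.exists_isMinOn (s := Icc (0:ℝ) (2 * π))
    ⟨0, by simp; positivity⟩ hkk.continuousOn
  set M := A + k x0 - k (circ x0 ((ρ : ℂ) • e) θ0)
  have h4 := hv.mean h2 M
  rw [hA, EReal.coe_le_coe_iff] at h4
  have h5 : ∫ θ in (0:ℝ)..(2 * π), tr (v (circ x0 ((ρ : ℂ) • e) θ)) M ≤
      ∫ θ in (0:ℝ)..(2 * π), (A + k x0 - k (circ x0 ((ρ : ℂ) • e) θ)) :=
    intervalIntegral.integral_mono_on (by positivity) (integrable_tr h2 hv.1 hv.2.1 M)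
      (hkk.intervalIntegrable _ _) fun θ hθ => tr_le (hglob _ (circ_mem h2 θ)) (hθ0 hθ)
  have h6 : ∫ θ in (0:ℝ)..(2 * π), (A + k x0 - k (circ x0 ((ρ : ℂ) • e) θ)) =
      2 * π * (A + k x0 + ε * R) - ε * (2 * π * (nsq x0 + ρ ^ 2 * nsq e)) +
        ∫ θ in (0:ℝ)..(2 * π), f (circ x0 ((ρ : ℂ) • e) θ) := by
    have : ∀ θ, A + k x0 - k (circ x0 ((ρ : ℂ) • e) θ) = ((A + k x0 + ε * R) -
        ε * nsq (circ x0 ((ρ : ℂ) • e) θ)) + f (circ x0 ((ρ : ℂ) • e) θ) := by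
      intro θ; simp only [hk]; ring
    simp only [this]
    rw [intervalIntegral.integral_add (Continuous.intervalIntegrable (by fun_prop) _ _)
      (hcc.intervalIntegrable _ _), intervalIntegral.integral_sub intervalIntegrable_const
      (Continuous.intervalIntegrable (by fun_prop) _ _), intervalIntegral.integral_const_mul,
      int_nsq, nsq_smul]
    simp
    ring
  rw [avg_eq] at h1
  have hpi : 0 < 2 * π := by positivity
  have h7 := mul_le_mul_of_nonneg_left h1 hpi.le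
  have h8 := mul_le_mul_of_nonneg_left h4 hpi.le
  rw [← mul_assoc, mul_inv_cancel₀ hpi.ne', one_mul] at h7 h8
  have h9 : 0 < 2 * π * (ε * nsq e * ρ ^ 2) := by positivity
  simp only [hk] at h5 h6
  nlinarith

theorem psh_iInf {φ : ℕ → (Fin n → ℂ) → EReal} (hφ : ∀ j, PSH U (φ j))
    (hanti : ∀ x ∈ U, Antitone fun j => φ j x) : PSH U (fun x => ⨅ j, φ j x) := by
  have h1 : UpperSemicontinuousOn (fun x => ⨅ j, φ j x) U :=
    upperSemicontinuousOn_iInf fun j => (hφ j).1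
  have h2 : ∀ x ∈ U, ⨅ j, φ j x ≠ ⊤ := fun x hx =>
    (lt_of_le_of_lt (iInf_le _ 0) (lt_top_iff_ne_top.2 ((hφ 0).2.1 x hx))).ne
  refine ⟨h1, h2, fun a b h M => ?_⟩
  obtain ⟨B, hB0, hB⟩ := exists_bound_circ h (hφ 0).1 (hφ 0).2.1
  have bd : ∀ (g : (Fin n → ℂ) → EReal), (∀ x ∈ U, g x ≤ φ 0 x) → ∀ θ,
      |tr (g (circ a b θ)) M| ≤ |M| + B := by
    intro g hg θ
    have h3 := (hg _ (circ_mem h θ)).trans (hB θ)
    have h4 := le_tr (lt_of_le_of_lt h3 (EReal.coe_lt_top B)).ne M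
    have h5 : tr (g (circ a b θ)) M ≤ |M| + B := tr_le (h3.trans
      (EReal.coe_le_coe_iff.2 (by have := abs_nonneg M; linarith)))
      (by have := le_abs_self M; linarith)
    have := neg_abs_le M
    exact abs_le.2 ⟨by linarith, h5⟩
  refine EReal.le_of_forall_lt_iff_le.1 fun y hy => ?_
  have hy' : mean (fun x => ⨅ j, φ j x) a b M < y := EReal.coe_lt_coe_iff.1 hy
  obtain ⟨j, hj⟩ := (rev_fatou (l := atTop) (F := fun j θ => tr (φ j (circ a b θ)) M)
    (f := fun θ => tr (⨅ j, φ j (circ a b θ)) M) (B := |M| + B)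
    (Eventually.of_forall fun j => ⟨((measurable_circ h (hφ j).1).max
      measurable_const).ereal_toReal, bd _ fun x hx => hanti x hx (Nat.zero_le j)⟩)
    ((measurable_circ h h1).max measurable_const).ereal_toReal
    (bd (fun x => ⨅ j, φ j x) fun x hx => iInf_le _ 0) (fun θ ε hε => by
      have h3 : ⨅ j, φ j (circ a b θ) < ((tr (⨅ j, φ j (circ a b θ)) M + ε : ℝ) : EReal) :=
        lt_of_le_of_lt (le_coe_tr (h2 _ (circ_mem h θ)) M) (EReal.coe_lt_coe_iff.2 (by linarith))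
      obtain ⟨j, hj⟩ := iInf_lt_iff.1 h3
      filter_upwards [eventually_ge_atTop j] with i hi
      have := le_tr (h2 _ (circ_mem h θ)) M
      exact tr_le ((hanti _ (circ_mem h θ) hi).trans hj.le) (by linarith))
    (ε := 2 * π * (y - mean (fun x => ⨅ j, φ j x) a b M)) (by
      have := sub_pos.2 hy'; positivity)).exists
  refine (iInf_le _ j).trans (((hφ j).mean h M).trans (EReal.coe_le_coe_iff.2 ?_))
  have h3 := mul_le_mul_of_nonneg_left hj (show 0 ≤ (2 * π)⁻¹ by positivity)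
  have h4 : (2 * π)⁻¹ * (2 * π * (y - mean (fun x => ⨅ j, φ j x) a b M)) =
      y - mean (fun x => ⨅ j, φ j x) a b M := by field_simp
  rw [mul_add, h4] at h3
  simp only [mean] at h3
  linarith

theorem exists_envelope (hU : IsOpen U) {f : (Fin n → ℂ) → ℝ} (hf : ContinuousOn f U) :
    ∃ φ : (Fin n → ℂ) → EReal, PSH U φ ∧ (∀ x ∈ U, φ x ≤ f x) ∧
      ∀ ψ, PSH U ψ → (∀ x ∈ U, ψ x ≤ f x) → ∀ x ∈ U, ψ x ≤ φ x := by
  set g : (Fin n → ℂ) → EReal :=
    fun x => ⨆ ψ : {ψ // PSH U ψ ∧ ∀ x ∈ U, ψ x ≤ f x}, ψ.1 x with hg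
  set φ : (Fin n → ℂ) → EReal := fun x => limsup g (𝓝 x) with hφ
  have hgφ : ∀ x, g x ≤ φ x := fun x =>
    le_limsup_of_frequently_le
      ((Eventually.frequently (f := pure x) (by simp)).filter_mono (pure_le_nhds x))
  have hlt : ∀ x (y : EReal), φ x < y → ∀ᶠ z in 𝓝 x, φ z < y := by
    intro x y hy
    obtain ⟨y', h1, h2⟩ := exists_between hy
    filter_upwards [(eventually_lt_of_limsup_lt h1).eventually_nhds] with z hz
    exact lt_of_le_of_lt (limsup_le_of_le (h := hz.mono fun _ h => h.le)) h2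
  have husc : UpperSemicontinuousOn φ U := fun x _ y hy => nhdsWithin_le_nhds (hlt x y hy)
  have hφf : ∀ x ∈ U, φ x ≤ f x := by
    intro x hx
    refine EReal.le_of_forall_lt_iff_le.1 fun y hy => ?_
    have hy' : f x < y := EReal.coe_lt_coe_iff.1 hy
    refine limsup_le_of_le (h := ?_)
    filter_upwards [(hf.continuousAt (hU.mem_nhds hx)).eventually (gt_mem_nhds hy'),
      hU.mem_nhds hx] with z h1 h2
    exact iSup_le fun ψ => (ψ.2.2 z h2).trans (EReal.coe_le_coe_iff.2 h1.le)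
  have htop : ∀ x ∈ U, φ x ≠ ⊤ := fun x hx =>
    (lt_of_le_of_lt (hφf x hx) (EReal.coe_lt_top _)).ne
  refine ⟨φ, ⟨husc, htop, fun a b h M => ?_⟩, hφf, fun ψ h1 h2 x _ =>
    (le_iSup (fun ψ : {ψ // PSH U ψ ∧ ∀ x ∈ U, ψ x ≤ f x} => ψ.1 x) ⟨ψ, h1, h2⟩).trans (hgφ x)⟩
  have hK : IsCompact ((fun z : ℂ => a + z • b) '' closedBall 0 1) :=
    (isCompact_closedBall 0 1).image (by fun_prop)
  obtain ⟨δ, hδ, hth⟩ := hK.exists_cthickening_subset_open hU (by
    rintro _ ⟨z, hz, rfl⟩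
    exact h z (by simpa using hz))
  obtain ⟨B, hB0, hB⟩ := exists_bound hK.cthickening hth husc htop
  have hin : ∀ a' ∈ closedBall a δ, ∀ z : ℂ, ‖z‖ ≤ 1 → a' + z • b ∈
      cthickening δ ((fun z : ℂ => a + z • b) '' closedBall 0 1) := fun a' ha' z hz =>
    mem_cthickening_of_dist_le _ (a + z • b) _ _ ⟨z, by simpa using hz, rfl⟩ (by simpa using ha')
  have bd : ∀ a' ∈ closedBall a δ, ∀ θ, |tr (φ (circ a' b θ)) M| ≤ |M| + B := by
    intro a' ha' θ
    have h3 : φ (circ a' b θ) ≤ B := hB _ (hin a' ha' _ (Complex.norm_exp_ofReal_mul_I θ).le)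
    have h4 := le_tr (lt_of_le_of_lt h3 (EReal.coe_lt_top B)).ne M
    have h5 : tr (φ (circ a' b θ)) M ≤ |M| + B := tr_le (h3.trans
      (EReal.coe_le_coe_iff.2 (by have := abs_nonneg M; linarith)))
      (by have := le_abs_self M; linarith)
    have := neg_abs_le M
    exact abs_le.2 ⟨by linarith, h5⟩
  refine EReal.le_of_forall_lt_iff_le.1 fun y hy => ?_
  have hy' : mean φ a b M < y := EReal.coe_lt_coe_iff.1 hy
  have hRF := rev_fatou (l := 𝓝 a) (F := fun a' θ => tr (φ (circ a' b θ)) M)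
    (f := fun θ => tr (φ (circ a b θ)) M) (B := |M| + B) (by
      filter_upwards [closedBall_mem_nhds a hδ] with a' ha'
      exact ⟨((measurable_circ (fun z hz => hth (hin a' ha' z hz)) husc).max
        measurable_const).ereal_toReal, bd a' ha'⟩)
    ((measurable_circ h husc).max measurable_const).ereal_toReal
    (bd a (mem_closedBall_self hδ.le)) (fun θ ε hε => by
      have h3 : φ (circ a b θ) < ((tr (φ (circ a b θ)) M + ε : ℝ) : EReal) :=
        lt_of_le_of_lt (le_coe_tr (htop _ (circ_mem h θ)) M) (EReal.coe_lt_coe_iff.2 (by linarith))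
      have hc : ContinuousAt (fun a' => circ a' b θ) a := by unfold circ; fun_prop
      filter_upwards [hc.eventually (hlt _ _ h3)] with a' ha'
      have := le_tr (htop _ (circ_mem h θ)) M
      exact tr_le ha'.le (by linarith))
    (ε := 2 * π * (y - mean φ a b M)) (by have := sub_pos.2 hy'; positivity)
  refine limsup_le_of_le (h := ?_)
  filter_upwards [hRF, closedBall_mem_nhds a hδ] with a' h1 ha'
  refine iSup_le fun ψ => ?_
  have h2 : ∀ z : ℂ, ‖z‖ ≤ 1 → a' + z • b ∈ U := fun z hz => hth (hin a' ha' z hz)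
  refine (ψ.2.1.mean h2 M).trans (EReal.coe_le_coe_iff.2 ?_)
  refine (mean_mono h2 ψ.2.1.1 ψ.2.1.2.1 h2 husc htop (fun θ =>
    (le_iSup (fun ψ : {ψ // PSH U ψ ∧ ∀ x ∈ U, ψ x ≤ f x} => ψ.1 _) ψ).trans (hgφ _)) M).trans ?_
  have h3 := mul_le_mul_of_nonneg_left h1 (show 0 ≤ (2 * π)⁻¹ by positivity)
  have h4 : (2 * π)⁻¹ * (2 * π * (y - mean φ a b M)) = y - mean φ a b M := by field_simp
  rw [mul_add, h4] at h3
  simp only [mean] at h3 ⊢
  linarith

/-- Logarithm with value `⊥` at `0`. -/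
noncomputable def elog (t : ℝ) : EReal := ENNReal.log (ENNReal.ofReal t)

theorem elog_pos {t : ℝ} (ht : 0 < t) : elog t = (log t : ℝ) := ENNReal.log_ofReal_of_pos ht

theorem elog_mono {s t : ℝ} (h : s ≤ t) : elog s ≤ elog t :=
  ENNReal.log_monotone (ENNReal.ofReal_le_ofReal h)

theorem psh_of_LP {f : (Fin n → ℂ) → ℝ} (hf : ∀ x ∈ U, LP f x) : PSH U (fun x => elog (f x)) := by
  have hc : Continuous elog := ENNReal.continuous_log.comp ENNReal.continuous_ofReal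
  refine psh_of_loc (fun x hx => ?_)
    (fun x _ h => ENNReal.ofReal_ne_top (ENNReal.log_eq_top_iff.1 h)) (fun x hx b M => ?_)
  · exact (hc.continuousAt.comp (hf x hx).1.at).continuousWithinAt.upperSemicontinuousWithinAt
  · obtain ⟨h1, h2, h3⟩ := hf x hx
    rcases h2.self_of_nhds.eq_or_lt with h | h
    · refine Eventually.of_forall fun ρ => ?_
      simp [elog, ← h]
    · have h4 := h3 h
      have h5 : ∀ᶠ y in 𝓝 x, ContinuousAt (fun y => log (f y)) y ∧ 0 < f y :=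
        h4.1.and (h1.at.eventually (lt_mem_nhds h))
      filter_upwards [h4.2 b, ev_disc h5 b] with ρ h6 h7
      simp only [elog_pos h, EReal.coe_le_coe_iff]
      refine h6.trans ?_
      rw [avg_eq]
      refine mul_le_mul_of_nonneg_left ?_ (by positivity)
      have h8 : ∀ θ, ContinuousAt (fun y => log (f y)) (circ x ((ρ : ℂ) • b) θ) ∧
          0 < f (circ x ((ρ : ℂ) • b) θ) := fun θ => h7 _ (Complex.norm_exp_ofReal_mul_I θ).le
      have h9 : Continuous fun θ => log (f (circ x ((ρ : ℂ) • b) θ)) :=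
        continuous_iff_continuousAt.2 fun θ => ContinuousAt.comp (f := circ x ((ρ : ℂ) • b))
          (h8 θ).1 (continuous_circ _ _).continuousAt
      simp only [elog_pos (h8 _).2, tr_coe]
      exact intervalIntegral.integral_mono_on (by positivity) (h9.intervalIntegrable _ _)
        ((h9.max continuous_const).intervalIntegrable _ _) fun θ _ => le_max_left _ _

theorem abstract_main (hU : IsOpen U) {K : Set (Fin n → ℂ)} (hK : IsCompact K) (hKU : K ⊆ U)
    {uu ll vv : ℕ → (Fin n → ℂ) → ℝ} (hu : ∀ j, ContinuousOn (uu j) U)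
    (hup : ∀ j, ∀ x ∈ U, 0 < uu j x) (hua : ∀ j, ∀ x ∈ U, uu (j + 1) x ≤ uu j x)
    (hS : ∀ x ∈ U, ∃ W, IsOpen W ∧ x ∈ W ∧ W ⊆ U ∧ Bornology.IsBounded W ∧
      ∃ᶠ j in atTop, ∀ y ∈ W, SS (fun y => log (uu j y)) y)
    (hl : ∀ j, ∀ x ∈ U, LP (ll j) x) (hlu : ∀ j, ∀ x ∈ U, ll j x ≤ uu j x)
    (hv : ∀ j, ∀ x ∈ U, LP (vv j) x) (hva : ∀ j, ∀ x ∈ U, vv (j + 1) x ≤ vv j x)
    (hvl : ∀ j, ∀ x ∈ U \ K, vv j x ≤ ll j x) {xs : Fin n → ℂ} (hxs : xs ∈ U) {c : ℝ}
    (hc : uu 0 xs < c) (hcv : ∀ j, c ≤ vv j xs) :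
    ∃ φ, PSH U φ ∧ (∀ x ∈ U, ∃ W, IsOpen W ∧ x ∈ W ∧ W ⊆ U ∧ Maximal W φ) ∧
      ∃ v, PSH U v ∧ (∀ x ∈ U \ K, v x ≤ φ x) ∧ φ xs < v xs := by
  have henv := fun j => exists_envelope hU (f := fun x => log (uu j x))
    ((hu j).log fun x hx => (hup j x hx).ne')
  choose φ hφ1 hφ2 hφ3 using henv
  have hanti : ∀ x ∈ U, Antitone fun j => φ j x := fun x hx =>
    antitone_nat_of_succ_le fun j => hφ3 j _ (hφ1 (j + 1)) (fun y hy => (hφ2 _ y hy).trans
      (EReal.coe_le_coe_iff.2 (log_le_log (hup _ y hy) (hua j y hy)))) x hx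
  have hP := psh_iInf hφ1 hanti
  refine ⟨fun x => ⨅ j, φ j x, hP, fun x hx => ?_, fun x => ⨅ j, elog (vv j x),
    psh_iInf (fun j => psh_of_LP (hv j)) fun x hx =>
      antitone_nat_of_succ_le fun j => elog_mono (hva j x hx), fun x hx => ?_, ?_⟩
  · obtain ⟨W, hW, hxW, hWU, hWb, hfr⟩ := hS x hx
    refine ⟨W, hW, hxW, hWU, hP.mono hWU, fun ψ hψ ⟨K', hK', hK'W, hle⟩ y hy => ?_⟩
    refine le_iInf fun i => ?_
    obtain ⟨j, hj, hij⟩ := (hfr.and_eventually (eventually_ge_atTop i)).exists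
    refine le_trans ?_ (hanti y (hWU hy) hij)
    have h1 : ∀ z ∈ W \ K', ψ z ≤ φ j z := fun z hz => (hle z hz).trans (iInf_le _ j)
    have h2 := comparison hW hWb hj hψ hK' hK'W fun z hz =>
      (h1 z hz).trans (hφ2 j z (hWU hz.1))
    have h3 := hφ3 j _ (psh_glue hU hW hWU hK'.isClosed hK'W (hφ1 j) hψ h1) (fun z hz => by
      split_ifs with h
      · exact max_le (h2 z h) (hφ2 j z hz)
      · exact hφ2 j z hz) y (hWU hy)
    simp only [hy, if_true] at h3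
    exact (le_max_left _ _).trans h3
  · refine le_iInf fun j => (iInf_le _ j).trans ((elog_mono (hvl j x hx)).trans ?_)
    exact hφ3 j _ (psh_of_LP (hl j)) (fun y hy =>
      (elog_mono (hlu j y hy)).trans (elog_pos (hup j y hy)).le) x hx.1
  · have h0 := hup 0 xs hxs
    calc ⨅ j, φ j xs ≤ φ 0 xs := iInf_le _ 0
      _ ≤ (log (uu 0 xs) : ℝ) := hφ2 0 xs hxs
      _ < (log c : ℝ) := EReal.coe_lt_coe_iff.2 (log_lt_log h0 hc)
      _ = elog c := (elog_pos (h0.trans hc)).symm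
      _ ≤ ⨅ j, elog (vv j xs) := le_iInf fun j => elog_mono (hcv j)

end Pool.Agent.Lib.MP_9cdd18_an.CX
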