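import Pool.Agent.Lib.MP_9cdd18_an.CXStep
import Pool.Agent.Lib.MP_9cdd18_an.CXPsh

namespace Pool.Agent.Lib.MP_9cdd18_an.CX

open MeasureTheory Set Real Filter Topology Metric

theorem base {σ θ : ℝ} (hσ : 0 < σ) (hσ1 : σ ≤ 1 / 100) (hθ : 0 < θ) (Nm : ℕ) :
    ∃ (d : Data) (RK : ℝ) (xs : ℂ × ℂ), IH d (1 / 4) (5 / 16) RK σ θ 1 (1 / 4) xs ∧ RK < 1 ∧
      xs ∈ ball (0 : ℂ × ℂ) 1 ∧ d.a = 0 ∧ Nm ≤ d.N ∧ d.U xs = exp (-d.N) := by
  obtain ⟨M, m1, m2, m3⟩ := ((ev_lin hθ 200).and ((ev_lin one_pos 1000).and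
    (eventually_ge_atTop Nm))).exists
  rw [one_mul] at m2
  have hM : 1 ≤ M := by exact_mod_cast (show (1:ℝ) ≤ M by linarith)
  obtain ⟨u, hu⟩ : ∃ u : ℝ, u = exp (σ * M - 200) := ⟨_, rfl⟩
  have hu0 : 0 < u := hu ▸ exp_pos _
  have hun : ‖(u : ℂ)‖ = u := by rw [Complex.norm_real, norm_eq_abs, abs_of_pos hu0]
  have hs : ∀ z : ℂ, ‖(z - 0) ^ M * u‖ = (exp σ * ‖z‖) ^ M * exp (-200) := fun z => by
    rw [norm_mul, norm_pow, hun, hu, sub_zero, mul_pow, ← exp_nat_mul, sub_eq_add_neg, exp_add]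
    ring_nf
  have hF : ∀ z : ℂ, ‖(z - 0) ^ M * (u / 100)‖ = (exp σ * ‖z‖) ^ M * exp (-200) / 100 := fun z => by
    rw [← mul_div_assoc, norm_div, hs]; simp
  have hR : 99 / 100 ≤ exp (-σ) := by linarith [add_one_le_exp (-σ)]
  have hR1 : exp (-σ) < exp (-(σ / 2)) := exp_lt_exp.2 (by linarith)
  have hR2 : exp (-(σ / 2)) < 1 := exp_lt_one_iff.2 (by linarith)
  have he : exp (-200) ≤ 1 / 4 := exp_neg_le four_pos (by norm_num)
  have hinv : exp σ * exp (-σ) = 1 := by rw [← exp_add]; simp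
  have hd : Differentiable ℂ fun x : ℂ × ℂ => (x.1 - 0) ^ M * ((u : ℂ) / 100) := by fun_prop
  have hx : ‖((0, exp (-M)) : ℂ × ℂ).2‖ = exp (-M) := by
    rw [Complex.norm_real, norm_eq_abs, abs_of_pos (exp_pos _)]
  refine ⟨⟨Prod.snd, fun x => (x.1 - 0) ^ M * u, M, M, 200, σ * M, 100, exp (-(σ / 2)), 0, 0, 0,
    ball 0 (exp (-(σ / 2))), ball 0 (exp (-(σ / 2))), id, fun _ => u, fun _ => u / 100,
    fun x => nn x.2 ((x.1 - 0) ^ M * (u / 100)), fun x => max ‖x.2‖ ‖(x.1 - 0) ^ M * (u / 100)‖,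
    fun _ => exp (-200) / 100, fun _ => 0⟩, exp (-(σ / 2)), (0, exp (-M)),
    ⟨snd_mem, pol_mul (pol_pow (pol_sub fst_mem (const_mem _)) _) (const_mem _),
    fun x hx => (norm_snd_le x).trans (mem_closedBall_zero_iff.1 hx), fun x hx => ?_, hM, hM, le_rfl,
    by simp only; positivity, le_rfl, m1, le_rfl, by simp only; linarith, le_rfl, isOpen_ball,
    isOpen_ball, ball_subset_closedBall, differentiableOn_id, fun z hz p hp => ⟨?_, rfl, rfl⟩,
    fun x hx => ⟨?_, ?_, rfl⟩, differentiableOn_const _, differentiableOn_const _,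
    fun z _ => div_ne_zero (by exact_mod_cast hu0.ne') (by norm_num), fun z _ => ?_, fun z _ => ?_,
    fun x _ => by simp only [Data.s, sub_self, norm_zero]; positivity, ?_, by norm_num, fun z hz => ?_,
    continuous_nn.comp (continuous_snd.prodMk hd.continuous), fun x => nn_nonneg _ _,
    fun x hx => ?_, SM.const 0, fun _ => le_rfl, fun _ _ => le_rfl,
    fun x _ => by simpa using le_nn_left _ _, fun x _ => by simp [Data.F],
    Eventually.of_forall fun x => by simp [Data.F], fun x _ => (LP.norm (Eventually.of_forall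
      fun _ => differentiableAt_snd)).max (LP.norm (Eventually.of_forall hd)), fun x _ => max_le_nn _ _,
    fun x _ => by simp [Data.F], Eventually.of_forall fun x => ?_,
    fun x _ => LP.const (c := exp (-200) / 100) (by positivity) x, fun x _ hx => ?_, ?_, by simp only [hx, mul_one, le_refl]⟩,
    hR2, ?_, rfl, m3, ?_⟩
  · have h1 := (norm_fst_le x).trans (mem_closedBall_zero_iff.1 hx)
    simp only [norm_mul, norm_pow, hun, sub_zero, ← hu]
    exact mul_le_of_le_one_left hu0.le (pow_le_one₀ (norm_nonneg _) h1)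
  · rw [mem_ball_zero_iff] at hz ⊢
    exact max_lt hz hp
  · exact mem_ball_zero_iff.2 ((norm_fst_le x).trans_lt (mem_ball_zero_iff.1 hx))
  · exact (norm_snd_le x).trans_lt (mem_ball_zero_iff.1 hx)
  · simp only [norm_div, hun, Complex.norm_ofNat]; linarith
  · simp only [norm_div, hun, Complex.norm_ofNat]; linarith
  · refine (congrArg IsCompact (Set.ext fun z => ?_)).mp (isCompact_closedBall 0 (exp (-σ)))
    have h1 : ‖z‖ ≤ exp (-σ) ↔ (exp σ * ‖z‖) ^ M * exp (-200) ≤ exp (-200) := by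
      rw [mul_le_iff_le_one_left (exp_pos _), pow_le_one_iff_of_nonneg (by positivity) (by omega),
        ← hinv, mul_le_mul_iff_right₀ (exp_pos _)]
    rw [mem_closedBall_zero_iff]
    exact ⟨fun h => ⟨mem_ball_zero_iff.2 (h.trans_lt hR1), (hs z).trans_le (h1.1 h)⟩,
      fun h => h1.2 ((hs z).symm.trans_le h.2)⟩
  · have h1 : ‖z‖ ≤ 9 / 16 := by
      rw [mem_closedBall, dist_eq_norm] at hz
      have := norm_le_norm_add_norm_sub' z (1 / 4)
      norm_num at this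
      linarith
    refine ⟨mem_ball_zero_iff.2 (by linarith), (hs z).trans_le ?_⟩
    have h2 : exp σ * ‖z‖ ≤ exp (-(2 / 5)) := by
      nlinarith [add_one_le_exp (-(2 / 5 : ℝ)), exp_pos σ]
    calc _ ≤ exp (-(2 / 5)) ^ M * exp (-200) := by gcongr
      _ ≤ _ := by rw [← exp_nat_mul, ← exp_add, exp_le_exp]; simp only; linarith
  · have h1 : 0 < nn x.2 ((x.1 - 0) ^ M * (u / 100)) := by
      by_cases h : x.2 = 0
      · have h2 : x.1 - 0 ≠ 0 := fun h2 => hx (Prod.ext (sub_eq_zero.1 h2) h)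
        exact (norm_pos_iff.2 (mul_ne_zero (pow_ne_zero _ h2) (div_ne_zero
          (by exact_mod_cast hu0.ne') (by norm_num)))).trans_le (le_nn_right _ _)
      · exact (norm_pos_iff.2 h).trans_le (le_nn_left _ _)
    exact ⟨h1, SS.log_nn (Eventually.of_forall fun _ => differentiableAt_snd)
      (Eventually.of_forall hd) h1⟩
  · simp only [Data.F, neg_zero, exp_zero, mul_one]
    exact ⟨le_max_of_le_right (mul_le_of_le_one_right (norm_nonneg _)
      (exp_le_one_iff.2 (by norm_num))), max_le_max le_rfl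
      (le_mul_of_one_le_right (norm_nonneg _) (one_le_exp (by norm_num)))⟩
  · rw [mem_closedBall_zero_iff, not_le, Prod.norm_def, lt_max_iff] at hx
    rcases hx with h | h
    · refine le_max_of_le_right ((hF x.1).symm ▸ ?_)
      have : 1 ≤ (exp σ * ‖x.1‖) ^ M := one_le_pow₀ (by nlinarith [exp_pos σ])
      nlinarith [exp_pos (-200)]
    · exact le_max_of_le_left (by linarith [exp_pos (-200)])
  · simp only
    rw [le_div_iff₀ (by norm_num)]
    calc _ ≤ exp (-(M * (1 / 4))) * (exp 3 * exp 3) := by gcongr; nlinarith [le_exp_three]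
      _ ≤ _ := by rw [← exp_add, ← exp_add, exp_le_exp]; linarith
  · rw [mem_ball_zero_iff, Prod.norm_def, hx]
    exact max_lt (by simp) (exp_lt_one_iff.2 (by linarith))
  · refine le_antisymm ((nn_le_add _ _).trans ?_) (hx.ge.trans (le_nn_left _ _))
    rw [hx]
    simp [zero_pow (by omega : M ≠ 0)]

theorem LP.rpow {E : Type*} [NormedAddCommGroup E] [NormedSpace ℂ E] {f : E → ℝ} {x : E}
    (h : LP f x) {c : ℝ} (hc : 0 < c) : LP (fun y => f y ^ c) x := by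
  refine ⟨?_, ?_, fun h1 => ?_⟩
  · filter_upwards [h.1] with y hy using hy.rpow_const (Or.inr hc.le)
  · filter_upwards [h.2.1] with y hy using rpow_nonneg hy _
  · have h2 : 0 < f x := h.2.1.self_of_nhds.lt_of_ne fun h2 => by
      simp only [← h2, zero_rpow hc.ne', lt_self_iff_false] at h1
    refine ((h.2.2 h2).mul hc.le).congr ?_
    filter_upwards [h.1.at.eventually (lt_mem_nhds h2)] with y hy using (log_rpow hy c).symm

theorem IH.exists_N0 {d : Data} {o : ℂ} {ρ RK σ0 θ0 C0 Cv : ℝ} {xs : ℂ × ℂ}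
    (H : IH d o ρ RK σ0 θ0 C0 Cv xs) (B : ℝ) : ∃ N0, B ≤ N0 ∧ ∀ y ∈ closedBall (0 : ℂ × ℂ) 1,
      d.U y ≤ exp (-N0) → ‖y.1 - d.a‖ < 1 / 16 := by
  obtain ⟨m, h1, h2⟩ := H.U_lower (G := {y | ‖y.1 - d.a‖ < 1 / 16})
    (isOpen_lt (by fun_prop) continuous_const) (by simp [H.ah_spec.2.1])
  refine ⟨max B (1 - log m), le_max_left _ _, fun y hy h => not_not.1 fun h3 => ?_⟩
  have h4 : exp (-max B (1 - log m)) < m := by
    rw [← lt_log_iff_exp_lt h1]; linarith [le_max_right B (1 - log m)]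
  linarith [h2 y hy h3]

noncomputable def rr (j : ℕ) : ℝ := 1 / 8 + (1 / 2) ^ j / 8

noncomputable def aa (j : ℕ) : ℂ := 1 / 4 - (((-1) ^ j * rr j : ℝ) : ℂ)

theorem aa_dist (j : ℕ) : ‖aa j - 1 / 4‖ = rr j := by
  have : 0 < rr j := by unfold rr; positivity
  simp [aa, abs_of_pos this]

theorem chain : ∃ (d : ℕ → Data) (N0 : ℕ → ℝ) (RK : ℝ) (xs : ℂ × ℂ), RK < 1 ∧
    xs ∈ ball (0 : ℂ × ℂ) 1 ∧ max ((d 0).U xs) (exp (-N0 0)) = exp (-(d 0).N) ∧ ∀ j,
    (∃ ρ σ θ C0, IH (d j) (1 / 4) ρ RK σ θ C0 (1 / 2) xs) ∧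
    (∀ y ∈ closedBall (0 : ℂ × ℂ) 1, (d j).U y ≤ exp (-N0 j) → ‖y.1 - aa j‖ < 1 / 16) ∧
    ∃ n : ℕ, 1 ≤ n ∧ (d (j + 1)).N = (d j).N * n ∧
      (∀ x, max ((d (j + 1)).U x) (exp (-N0 (j + 1))) ≤ max ((d j).U x) (exp (-N0 j)) ^ n) ∧
      ∀ x ∈ ball (0 : ℂ × ℂ) 1, (d (j + 1)).W x ≤ (d j).W x ^ n := by
  have hq : ∀ j : ℕ, 0 < (1 / 2 : ℝ) ^ j ∧ (1 / 2 : ℝ) ^ j ≤ 1 := fun j =>
    ⟨by positivity, pow_le_one₀ (by norm_num) (by norm_num)⟩
  have hq1 : ∀ j : ℕ, (1 / 2 : ℝ) ^ (j + 1) = (1 / 2) ^ j / 2 := fun j => by rw [pow_succ]; ring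
  choose G hG1 hG using fun j : ℕ => step (ρ := 1 / 8 + 3 / 16 * (1 / 2) ^ j) (ρ1 := rr j)
    (r := (1 / 2) ^ j / 32) (by unfold rr; positivity) (by unfold rr; linarith [hq j])
    (by positivity) (by linarith [hq j])
  have hG0 : ∀ j, 0 < G j := fun j => by linarith [hG1 j]
  obtain ⟨θ, hθ0, hθ⟩ : ∃ θ : ℕ → ℝ, (∀ j, 0 < θ j) ∧
      ∀ j, G (j - 1) * G j * G (j + 1) * θ j = (1 / 2) ^ j / 1000 :=
    ⟨fun j => (1 / 2) ^ j / 1000 / (G (j - 1) * G j * G (j + 1)),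
      fun j => by have := hG0 (j - 1); have := hG0 j; have := hG0 (j + 1); positivity, fun j => by
        have := hG0 (j - 1); have := hG0 j; have := hG0 (j + 1); field_simp⟩
  have key : ∀ j, G j * G (j + 1) * θ j ≤ (1 / 2) ^ j / 1000 ∧ G j * θ j ≤ (1 / 2) ^ j / 1000 ∧
      G (j - 1) * θ j ≤ (1 / 2) ^ j / 1000 := fun j => by
    have h1 := hG1 (j - 1)
    have h2 := hG1 j
    have h3 := hG1 (j + 1)
    have h4 := hθ0 j
    rw [← hθ j]
    refine ⟨?_, ?_, ?_⟩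
    · calc _ = 1 * G j * G (j + 1) * θ j := by ring
        _ ≤ _ := by gcongr
    · calc _ = 1 * G j * 1 * θ j := by ring
        _ ≤ _ := by gcongr
    · calc _ = G (j - 1) * 1 * 1 * θ j := by ring
        _ ≤ _ := by gcongr
  obtain ⟨d0, RK, xs, b1, b2, b3, b4, b5, b6⟩ := base (σ := 3 / 1000 / G 0)
    (by have := hG0 0; positivity) (by rw [div_le_iff₀ (hG0 0)]; linarith [hG1 0]) (hθ0 0) 100000
  obtain ⟨N00, b7, b8⟩ := b1.exists_N0 d0.N
  obtain ⟨Inv, hInv⟩ : ∃ Inv : ℕ → Data × ℝ → Prop, ∀ j p, Inv j p ↔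
    IH p.1 (1 / 4) (1 / 8 + 3 / 16 * (1 / 2) ^ j) RK (3 * ((1 / 2) ^ j / 1000) / G j) (θ j)
      (2 - (1 / 2) ^ j) (1 / 2 - (1 / 2) ^ j / 4) xs ∧ p.1.a = aa j ∧
      100 ≤ (1 / 2) ^ j / 1000 * (p.1.N : ℝ) ∧
      ∀ y ∈ closedBall (0 : ℂ × ℂ) 1, p.1.U y ≤ exp (-p.2) → ‖y.1 - aa j‖ < 1 / 16 :=
    ⟨_, fun _ _ => Iff.rfl⟩
  have ha0 : aa 0 = 0 := by simp [aa, rr]; norm_num
  have i0 : Inv 0 (d0, N00) := (hInv _ _).2 ⟨by norm_num at b1 ⊢; exact b1, b4.trans ha0.symm, by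
    have : (100000:ℝ) ≤ d0.N := by exact_mod_cast b5
    simp only [pow_zero]; linarith, by rw [ha0, ← b4]; exact b8⟩
  have st : ∀ j (p : Data × ℝ), ∃ p' : Data × ℝ, Inv j p → Inv (j + 1) p' ∧
      ∃ n : ℕ, 1 ≤ n ∧ p'.1.N = p.1.N * n ∧
      (∀ x, max (p'.1.U x) (exp (-p'.2)) ≤ max (p.1.U x) (exp (-p.2)) ^ n) ∧
      ∀ x ∈ ball (0 : ℂ × ℂ) 1, p'.1.W x ≤ p.1.W x ^ n := by
    intro j p
    by_cases hp : Inv j p
    swap
    · exact ⟨p, fun h => absurd h hp⟩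
    obtain ⟨h1, h2, h3, -⟩ := (hInv _ _).1 hp
    obtain ⟨k1, k2, -⟩ := key j
    obtain ⟨-, k3, k4⟩ := key (j + 1)
    obtain ⟨q0, q1⟩ := hq j
    rw [hq1] at k3 k4
    rw [Nat.add_sub_cancel] at k4
    obtain ⟨d', n, s1, s2, s3, s4, s5, s6⟩ := hG j p.1 _ (aa (j + 1))
      (1 / 8 + 3 / 16 * (1 / 2) ^ (j + 1)) RK _ _ _ _ (θ (j + 1)) ((1 / 2) ^ j / 1000) p.2 xs 2 h1 b2
      (ball_subset_closedBall b3) (h2 ▸ aa_dist j) (by rw [hq1, rr]; linarith)
      (by rw [aa_dist, rr, hq1]; linarith) (by linarith) (hθ0 _) (by linarith) h3 (by linarith)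
    obtain ⟨N1, n1, n2⟩ := s1.exists_N0 (n * p.2)
    refine ⟨(d', N1), fun _ => ⟨(hInv _ _).2 ⟨s1.mono ?_ ?_ ?_, s2, ?_, s2 ▸ n2⟩, n, by omega, s3,
      fun x => max_le (s5 x) ?_, s6⟩⟩
    · rw [le_div_iff₀ (hG0 _), hq1]; linarith
    · rw [hq1]; linarith
    · rw [hq1, mul_add, mul_div_cancel₀ _ (hG0 j).ne']; linarith
    · have : (2:ℝ) ≤ n := by exact_mod_cast s4
      simp only [s3, hq1]
      push_cast
      nlinarith
    · calc exp (-N1) ≤ exp (-p.2) ^ n := by rw [← exp_nat_mul, exp_le_exp]; linarith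
        _ ≤ _ := by gcongr; exact le_max_right _ _
  choose f hf using st
  obtain ⟨S, S0, S1⟩ : ∃ S : ℕ → Data × ℝ, S 0 = (d0, N00) ∧ ∀ j, S (j + 1) = f j (S j) :=
    ⟨fun j => Nat.rec (d0, N00) f j, rfl, fun _ => rfl⟩
  have hS : ∀ j, Inv j (S j) := fun j => by
    induction j with
    | zero => exact S0 ▸ i0
    | succ j ih => exact S1 j ▸ (hf j _ ih).1
  refine ⟨fun j => (S j).1, fun j => (S j).2, RK, xs, b2, b3, ?_, fun j => ⟨⟨_, _, _, _,
    ((hInv _ _).1 (hS j)).1.mono le_rfl le_rfl (by linarith [hq j])⟩, ((hInv _ _).1 (hS j)).2.2.2, ?_⟩⟩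
  · simp only [S0, b6]
    exact max_eq_left (exp_le_exp.2 (by linarith))
  · simp only [S1]
    exact (hf j _ (hS j)).2

theorem root_le {a b : ℝ} (ha : 0 ≤ a) (hb : 0 ≤ b) {n : ℕ} (hn : 1 ≤ n) (N : ℕ) (h : a ≤ b ^ n) :
    a ^ ((N * n : ℕ) : ℝ)⁻¹ ≤ b ^ (N : ℝ)⁻¹ := by
  refine (rpow_le_rpow ha h (by positivity)).trans (le_of_eq ?_)
  have : (n : ℝ) ≠ 0 := by positivity
  rw [← rpow_natCast, ← rpow_mul hb]
  push_cast
  rw [mul_inv, mul_left_comm, mul_inv_cancel₀ this, mul_one]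

theorem counter : ∃ φ : (Fin 2 → ℂ) → EReal, PSH (ball 0 1) φ ∧
    (∀ x ∈ ball (0 : Fin 2 → ℂ) 1, ∃ W, IsOpen W ∧ x ∈ W ∧ W ⊆ ball 0 1 ∧ Maximal W φ) ∧
    ∃ K, IsCompact K ∧ K ⊆ ball 0 1 ∧ ∃ v, PSH (ball 0 1) v ∧ (∀ x ∈ ball 0 1 \ K, v x ≤ φ x) ∧
      ∃ x ∈ ball (0 : Fin 2 → ℂ) 1, φ x < v x := by
  obtain ⟨d, N0, RK, xs, h1, h2, h3, h4⟩ := chain
  choose ρ σ θ C0 H using fun j => (h4 j).1
  set L := ContinuousLinearEquiv.finTwoArrow ℂ ℂ
  have hL : ∀ x : Fin 2 → ℂ, ‖L x‖ = ‖x‖ := fun x => by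
    rw [Pi.norm_def, Finset.univ_fin2]
    simp [L, Prod.norm_def]
  have hb : ∀ x ∈ ball (0 : Fin 2 → ℂ) 1, L x ∈ ball (0 : ℂ × ℂ) 1 := fun x hx => by
    rwa [mem_ball_zero_iff, hL, ← mem_ball_zero_iff]
  have hN : ∀ j, (0:ℝ) < ((d j).N : ℝ)⁻¹ := fun j => by have := (H j).N_pos; positivity
  have hm : ∀ j x, 0 < max ((d j).U x) (exp (-N0 j)) := fun j x => lt_max_of_lt_right (exp_pos _)
  have hxs : L.symm xs ∈ ball (0 : Fin 2 → ℂ) 1 := by
    rwa [mem_ball_zero_iff, ← hL, L.apply_symm_apply, ← mem_ball_zero_iff]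
  obtain ⟨φ, p1, p2, v, p3, p4, p5⟩ := abstract_main (U := ball (0 : Fin 2 → ℂ) 1) isOpen_ball
    (isCompact_closedBall 0 RK) (closedBall_subset_ball h1)
    (uu := fun j x => max ((d j).U (L x)) (exp (-N0 j)) ^ ((d j).N : ℝ)⁻¹)
    (ll := fun j x => (d j).L (L x) ^ ((d j).N : ℝ)⁻¹)
    (vv := fun j x => (d j).W (L x) ^ ((d j).N : ℝ)⁻¹)
    (fun j => ((((H j).U_cont.comp L.continuous).max continuous_const).rpow_const
      fun _ => Or.inr (hN j).le).continuousOn) (fun j x _ => rpow_pos_of_pos (hm _ _) _)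
    (fun j x _ => by
      obtain ⟨n, n1, n2, n3, -⟩ := (h4 j).2.2
      simp only [n2]
      exact root_le (hm _ _).le (hm _ _).le n1 _ (n3 _))
    (fun x hx => by
      obtain ⟨i, hi⟩ : ∃ i : ℕ, -(1 / 16) < (-1) ^ i * ((x 0).re - 1 / 4) := by
        rcases le_total (x 0).re (1 / 4) with h | h
        · exact ⟨1, by linarith⟩
        · exact ⟨0, by linarith⟩
      refine ⟨ball 0 1 ∩ {y | -(1 / 16) < (-1) ^ i * ((y 0).re - 1 / 4)},
        isOpen_ball.inter (isOpen_lt continuous_const (by fun_prop)), ⟨hx, hi⟩, inter_subset_left,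
        isBounded_ball.subset inter_subset_left, frequently_atTop.2 fun m =>
        ⟨2 * m + i, by omega, fun y hy => ?_⟩⟩
      set j := 2 * m + i
      have h5 : exp (-N0 j) < (d j).U (L y) := not_le.1 fun h => by
        have h5 := (h4 j).2.1 _ (ball_subset_closedBall (hb y hy.1)) h
        have h6 : |(y 0).re - (1 / 4 - (-1) ^ i * rr j)| < 1 / 16 := by
          have := (Complex.abs_re_le_norm _).trans_lt h5
          rw [aa, Complex.sub_re, Complex.sub_re, Complex.ofReal_re] at this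
          simpa [L, j, pow_add, pow_mul] using this
        have h7 : 1 / 8 ≤ rr j := by unfold rr; linarith [pow_pos (one_half_pos (α := ℝ)) j]
        have h8 : -(1 / 16) < (-1) ^ i * ((y 0).re - 1 / 4) := hy.2
        rcases neg_one_pow_eq_or ℝ i with h9 | h9 <;> rw [h9] at h6 h8 <;>
          linarith [abs_lt.1 h6]
      have h6 : L y ≠ (d j).ah := fun h => by
        have := (H j).U_le _ (H j).ah_spec.1
        rw [(H j).ah_spec.2.2, (H j).ah_spec.2.1, (H j).F_a] at this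
        simp only [nn, norm_zero] at this
        rw [h] at h5
        norm_num at this
        linarith [exp_pos (-N0 j)]
      refine SS.comp (u := fun y => log (max ((d j).U y) (exp (-N0 j)) ^ ((d j).N : ℝ)⁻¹)) L
        ((((H j).U_S _ h6).2.mul (hN j)).congr ?_)
      filter_upwards [(H j).U_cont.continuousAt.eventually (lt_mem_nhds h5)] with w hw
      rw [log_rpow (hm _ _), max_eq_left hw.le])
    (fun j x hx => (((H j).L_LP _ (hb x hx)).rpow (hN j)).comp L)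
    (fun j x hx => rpow_le_rpow ((H j).L_LP _ (hb x hx)).2.1.self_of_nhds
      (le_max_of_le_left ((H j).L_le_U _ (hb x hx))) (hN j).le)
    (fun j x hx => (((H j).W_LP _ (hb x hx)).rpow (hN j)).comp L)
    (fun j x hx => by
      obtain ⟨n, n1, n2, -, n3⟩ := (h4 j).2.2
      simp only [n2]
      exact root_le ((H _).W_LP _ (hb x hx)).2.1.self_of_nhds
        ((H j).W_LP _ (hb x hx)).2.1.self_of_nhds n1 _ (n3 _ (hb x hx)))
    (fun j x hx => rpow_le_rpow ((H j).W_LP _ (hb x hx.1)).2.1.self_of_nhds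
      ((H j).W_le _ (hb x hx.1) (by
        rw [mem_closedBall_zero_iff, hL, ← mem_closedBall_zero_iff]; exact hx.2)) (hN j).le)
    hxs (c := exp (-(1 / 2))) (by
      simp only [L.apply_symm_apply, h3]
      rw [← exp_mul, exp_lt_exp, neg_mul, mul_inv_cancel₀ (inv_pos.1 (hN 0)).ne']
      norm_num)
    (fun j => by
      simp only [L.apply_symm_apply]
      refine le_trans (le_of_eq ?_) (rpow_le_rpow (exp_pos _).le (H j).W_xs (hN j).le)
      rw [← exp_mul, neg_mul, mul_right_comm, mul_inv_cancel₀ (inv_pos.1 (hN j)).ne', one_mul])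
  exact ⟨φ, p1, p2, _, isCompact_closedBall 0 RK, closedBall_subset_ball h1, v, p3, p4, _, hxs, p5⟩

end Pool.Agent.Lib.MP_9cdd18_an.CX
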