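import Pool.Agent.Lib.MP_9cdd18_an.CXUpper

namespace Pool.Agent.Lib.MP_9cdd18_an.CX

open MeasureTheory Set Real Filter Topology Metric

theorem pow_le_exp' {a k : ℝ} (ha : 0 ≤ a) (h : a ≤ exp k) (n : ℕ) : a ^ n ≤ exp (n * k) := by
  rw [exp_nat_mul]; gcongr

theorem exp_le_pow {a k : ℝ} (h : exp k ≤ a) (n : ℕ) : exp (n * k) ≤ a ^ n := by
  rw [exp_nat_mul]; gcongr

namespace Ctx

variable (c : Ctx)

noncomputable def fB (x : ℂ × ℂ) : ℝ := ‖c.Q x / c.α‖ ^ c.n * ‖c.Y x.1‖ * ‖c.Qb x‖ ^ c.ν *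
  exp (-(c.n * c.Λ + c.n * c.E + 67 * c.S))

noncomputable def fC (x : ℂ × ℂ) : ℝ :=
  c.L x ^ c.n * ‖c.Qb x‖ ^ c.ν * exp (2 * c.lR x + -(72 * c.S))

noncomputable def fD (x : ℂ × ℂ) : ℝ :=
  ‖c.P x‖ ^ c.μ * exp (c.μ * (c.h - 2 * (c.h / 20)) - c.En)

def mlt (t : ℝ) : Set (ℂ × ℂ) := {x | ‖c.Pn x‖ < t * c.η ^ c.n}

def mle (t : ℝ) : Set (ℂ × ℂ) := {x | ‖c.Pn x‖ ≤ t * c.η ^ c.n}

theorem mem_mle {x : ℂ × ℂ} {t : ℝ} (h : ‖c.Pn x‖ ≤ t * c.η ^ c.n) : x ∈ c.mle t := h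

theorem mem_mlt {x : ℂ × ℂ} {t : ℝ} (h : ‖c.Pn x‖ < t * c.η ^ c.n) : x ∈ c.mlt t := h

def CB : Set (ℂ × ℂ) := c.cBox (c.x2 / 2) (c.ϱ1 / 2) ∪
  c.cStr (2 * c.x0) (c.h + 3 * (c.h / 20)) (1 / 3) ∩ c.mle (1 / 4)

def CC : Set (ℂ × ℂ) := (c.Box c.x1 c.x1 ∪
  c.Str (-1) (c.h + 18 * (c.h / 20)) (1 / 2) ∩ c.mlt (1 / 4))ᶜ

def CD : Set (ℂ × ℂ) := c.mle (1 / 4) \ c.Str (-1) (c.h + 18 * (c.h / 20)) (1 / 2)

theorem nΛ_nn : 0 ≤ c.n * c.Λ := mul_nonneg (Nat.cast_nonneg _) c.H.Λ_nn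

theorem X1 : 32 * (c.n * log (8 * c.α) + c.n * c.Λ + 3 * c.n + 27 * c.S) ≤ c.X := by
  have := c.hX1; simp only [S]; linarith

theorem nlog_nn : 0 ≤ c.n * log (8 * c.α) :=
  mul_nonneg (Nat.cast_nonneg _) (by linarith [c.logα.1, c.logα.2])

theorem ν_le : 4000 * (c.ν : ℝ) ≤ c.X := by
  have := c.X_νn
  have h : (0:ℝ) ≤ c.ν := Nat.cast_nonneg _
  nlinarith [c.n_ge]

theorem Qbν_le {x : ℂ × ℂ} (hx : x ∈ closedBall (0 : ℂ × ℂ) 1) : ‖c.Qb x‖ ^ c.ν ≤ 1 :=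
  pow_le_one₀ (norm_nonneg _) (by linarith [c.Qb_le hx])

theorem leA {x : ℂ × ℂ} (hx : x ∈ closedBall (0 : ℂ × ℂ) 1) (hm : c.η ^ c.n / 8 ≤ ‖c.Pn x‖)
    {t : ℝ} (ht : 3 + t ≤ -c.En) : ‖c.P x‖ ^ c.n * ‖c.Qb x‖ ^ c.ν * exp t ≤ c.fA x :=
  key_le (norm_nonneg _) ((c.glob hx hm).trans (by gcongr; linarith [le_exp_three])) ht

theorem A_low {x : ℂ × ℂ} (hm : 1 / 4 * c.η ^ c.n ≤ ‖c.Pn x‖) :
    exp (-(c.n * c.Hh) - 2 - c.En) ≤ c.fA x := by
  have := key_le (a := c.η ^ c.n) (b := ‖c.Pn x‖) (s := 2) (t := -2 - c.En) (u := -c.En)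
    (norm_nonneg _) (by nlinarith [le_exp_two, norm_nonneg (c.Pn x)]) (by linarith)
  rw [ηn_eq, ← exp_add] at this
  exact le_trans (le_of_eq (by ring_nf)) this

theorem fB_near {x : ℂ × ℂ} (hr : ‖x.1 - c.a‖ ≤ c.x2) :
    c.fB x ≤ ‖c.Q x / c.α‖ ^ c.n * ‖c.Qb x‖ ^ c.ν *
      exp (c.n - (c.n * c.Λ + c.n * c.E + 67 * c.S)) ∧
    ‖c.Q x / c.α‖ ^ c.n * ‖c.Qb x‖ ^ c.ν *
      exp (-c.n - (c.n * c.Λ + c.n * c.E + 67 * c.S)) ≤ c.fB x := by
  obtain ⟨h1, h2⟩ := c.Y_near hr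
  constructor
  · refine key_le (s := c.n) (by positivity) ?_ (by linarith)
    calc _ ≤ ‖c.Q x / c.α‖ ^ c.n * exp c.n * ‖c.Qb x‖ ^ c.ν := by gcongr
      _ = _ := by ring
  · rw [sub_eq_add_neg, exp_add, ← mul_assoc]
    refine mul_le_mul_of_nonneg_right ?_ (exp_pos _).le
    calc _ = ‖c.Q x / c.α‖ ^ c.n * exp (-c.n) * ‖c.Qb x‖ ^ c.ν := by ring
      _ ≤ _ := by gcongr

theorem fB_str {x : ℂ × ℂ} (hx : x ∈ c.T) (hz : x.1 ∈ c.V1)
    (hw : ‖c.P x - c.s x.1‖ ≤ 1 / 2 * ‖c.s x.1‖) (hm : ‖c.Pn x‖ ≤ c.η ^ c.n / 2) :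
    c.fB x ≤ ‖c.Fn x.1‖ * ‖c.Qb x‖ ^ c.ν * exp (2 * c.n - (c.n * c.Λ + c.n * c.E + 67 * c.S)) ∧
    ‖c.Fn x.1‖ * ‖c.Qb x‖ ^ c.ν * exp (-(2 * c.n) - (c.n * c.Λ + c.n * c.E + 67 * c.S)) ≤
      c.fB x := by
  obtain ⟨h1, h2⟩ := c.close_Fn hx hz hw hm
  constructor
  · refine key_le (s := 2 * c.n) (by positivity) ?_ (by linarith)
    rw [← mul_assoc]; gcongr
  · refine key_le (s := 2 * c.n) (by positivity) ?_ (by linarith)
    rw [← mul_assoc]; gcongr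

theorem L_nn {x : ℂ × ℂ} (hx : x ∈ ball (0 : ℂ × ℂ) 1) : 0 ≤ c.L x :=
  (c.H.L_LP x hx).2.1.self_of_nhds

theorem fC_le {x : ℂ × ℂ} (hx : x ∈ ball (0 : ℂ × ℂ) 1) {a k t : ℝ} (ha : 0 ≤ a)
    (h : c.L x ≤ exp k * a) (ht : k * c.n + (2 * c.lR x + -(72 * c.S)) ≤ t) :
    c.fC x ≤ a ^ c.n * ‖c.Qb x‖ ^ c.ν * exp t := by
  refine key_le (by positivity) ?_ ht
  rw [← mul_assoc]
  gcongr
  exact pow_le_exp (c.L_nn hx) h c.n

theorem fC_T {x : ℂ × ℂ} (hx : x ∈ c.T) : c.fC x ≤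
    max ‖c.P x‖ ‖c.F x.1‖ ^ c.n * ‖c.Qb x‖ ^ c.ν * exp (-(c.n * c.E) - 42 * c.S) :=
  c.fC_le (c.T_ball hx) (k := -c.E) (le_max_of_le_left (norm_nonneg _))
    (by rw [mul_comm]; exact c.H.L_le x hx) (by linarith [c.lR_le (c.T_cball hx)])

theorem Bstar {x : ℂ × ℂ} (h1 : x ∈ c.Str c.x0 (c.h + 2 * (c.h / 20)) (1 / 2))
    (hm : ‖c.Pn x‖ ≤ c.η ^ c.n / 2) (hr : c.x2 / 2 ≤ ‖x.1 - c.a‖) :
    c.fB x ≤ exp (-(c.n * c.Hh) - 2 - c.En) := by
  have hz := c.str_V1 h1 le_rfl (by linarith [c.H.h_ge])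
  obtain ⟨hx, -, ht, hw⟩ := h1
  obtain ⟨h2, h3, h4⟩ := c.log_Qb hm
  have h5 := c.F_lowM (c.V1_KV hz) (t := exp (6 * c.y - 1)) (exp_pos _).le (by
    refine le_trans ?_ hr
    rw [x0, c.hx2, ← exp_nat_mul, ← exp_add, le_div_iff₀ two_pos]
    calc _ ≤ exp (6 * c.y - 1 + (4:ℕ) * -(2 * c.y)) * exp 1 := by gcongr; exact two_le_e
      _ = _ := by rw [← exp_add]; push_cast; ring_nf)
  have h6 : c.M * (6 * c.y - 1) - c.Hh ≤ log ‖c.P x‖ := by
    rw [le_log_iff_exp_le h3, sub_eq_add_neg, exp_add, exp_nat_mul, ← c.hHh]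
    linarith [c.H.F50 hz.1.1, (c.str_p hw.le).1, norm_nonneg (c.F x.1)]
  have h7 : ‖c.Qb x‖ ≤ exp (1 - 5 / 8 * (c.n * c.Hh)) := by
    rw [← log_le_iff_le_exp h2]
    nlinarith [(abs_le.1 h4).2, c.hH3, c.n_ge]
  have h8 := pow_le_exp' h2.le h7 c.ν
  calc c.fB x ≤ _ := (c.fB_str hx hz hw.le hm).1
    _ ≤ exp (c.X / 2) * exp (c.ν * (1 - 5 / 8 * (c.n * c.Hh))) *
        exp (2 * c.n - (c.n * c.Λ + c.n * c.E + 67 * c.S)) := by gcongr; exact c.Fup hz ht.le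
    _ ≤ _ := by
        rw [← exp_add, ← exp_add, exp_le_exp, En]
        have : c.ν * (1 - 5 / 8 * (c.n * c.Hh)) = c.ν - 5 / 8 * c.X := by rw [c.hX]; ring
        linarith [c.X_nH, c.ν_le, c.nΛ_nn, c.S_ge, c.n_ge, c.nH_ge]

theorem fD_le {x : ℂ × ℂ} {k : ℝ} (h : ‖c.P x‖ ≤ exp k) :
    c.fD x ≤ exp (c.μ * (k + c.h - 2 * (c.h / 20)) - c.En) := by
  calc c.fD x ≤ exp (c.μ * k) * exp (c.μ * (c.h - 2 * (c.h / 20)) - c.En) := by
        unfold fD; gcongr; exact pow_le_exp' (norm_nonneg _) h _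
    _ = _ := by rw [← exp_add]; ring_nf

theorem fD_glob {x : ℂ × ℂ} (hx : x ∈ closedBall (0 : ℂ × ℂ) 1) (hm : ‖c.Pn x‖ < c.η ^ c.n) :
    c.fD x ≤ exp (-(c.X / 15) - c.En) :=
  (c.fD_le (c.confine hx hm)).trans (exp_le_exp.2 (by linarith [c.hμ1]))

theorem collar_B1 {x : ℂ × ℂ} (h1 : x ∈ c.Box c.x2 c.ϱ1) (h2 : x ∉ c.CB) :
    c.fB x ≤ c.fA x ∨ (x ∈ c.CC ∧ c.fB x ≤ c.fC x) := by
  obtain ⟨s0, s1, s2, s3, s4, s5, s6⟩ := c.scales
  obtain ⟨h3, h4, h5, h6⟩ := c.half_box h1 fun h => h2 (Or.inl h)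
  obtain ⟨hx, hr, hp⟩ := h1
  have hS := c.S_ge
  have hn := c.n_ge
  have h7 := (c.fB_near hr.le).1
  have h8 := c.Qα_up hx (by linarith)
  have h0 := c.ηn_pos
  rcases le_or_gt (5 * ‖c.F x.1‖) ‖c.P x‖ with h9 | h9
  · left
    rcases le_or_gt (c.η ^ c.n / 8) ‖c.Pn x‖ with hm | hm
    · refine h7.trans (le_trans ?_ (c.leA (c.T_cball hx) hm (t := c.n - (c.n * c.Λ + c.n * c.E +
        67 * c.S)) (by simp only [En]; linarith [c.nΛ_nn])))
      gcongr; linarith [norm_nonneg (c.P x)]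
    · exfalso
      rw [max_eq_left (by linarith [norm_nonneg (c.F x.1)])] at h4
      rcases le_or_gt (1 / 3 * ‖c.s x.1‖) ‖c.P x - c.s x.1‖ with hw | hw
      · linarith [(c.big hx (by linarith) hw h4).1]
      · exact h2 (Or.inr ⟨(h6 hw).1, c.mem_mle (by linarith)⟩)
  · have h10 := c.H.F50 (c.H.Ψ_left x hx).1
    have h11 := norm_sub_norm_le (c.s x.1) (c.P x)
    rw [norm_sub_rev] at h11
    refine Or.inr ⟨fun h => h.elim h5 fun h => by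
      linarith [h.1.2.2.2, norm_nonneg (c.s x.1)], h7.trans (key_le (s := (c.Λ + c.E + 3) * c.n)
        (mul_nonneg (pow_nonneg (c.L_nn (c.T_ball hx)) _) (by positivity)) ?_ (by linarith))⟩
    rw [← mul_assoc]
    gcongr
    refine pow_le_exp (norm_nonneg _) ?_ _
    calc ‖c.Q x / c.α‖ ≤ exp 2 * ‖c.F x.1‖ := by nlinarith [le_exp_two, norm_nonneg (c.F x.1)]
      _ = exp (c.Λ + c.E + 3) * (‖c.F x.1‖ * exp (-c.Λ - 1) * exp (-c.E)) := by
          rw [mul_assoc ‖c.F x.1‖, mul_left_comm, ← exp_add, ← exp_add, mul_comm]; ring_nf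
      _ ≤ _ := by gcongr; exact (c.box_L x ⟨hx, by linarith, hp.le⟩).1

theorem collar_B2 {x : ℂ × ℂ} (h1 : x ∈ c.Str c.x0 (c.h + 2 * (c.h / 20)) (1 / 2))
    (hm : x ∈ c.mlt (1 / 2)) (h3 : x ∉ c.Box c.x2 c.ϱ1) (h2 : x ∉ c.CB) :
    c.fB x ≤ c.fA x ∨ (x ∈ c.CD ∧ c.fB x ≤ c.fD x) := by
  obtain ⟨s0, s1, s2, s3, s4, s5, s6⟩ := c.scales
  have hh := c.H.h_ge
  have hz := c.str_V1 h1 le_rfl (by linarith)
  have hm' : ‖c.Pn x‖ < 1 / 2 * c.η ^ c.n := hm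
  have h0 := c.ηn_pos
  obtain ⟨h4, h5⟩ := c.str_p h1.2.2.2.le
  have hr : c.x2 ≤ ‖x.1 - c.a‖ := not_lt.1 fun h => h3 ⟨h1.1, h, by linarith [(c.s_x2 h.le).1]⟩
  rcases le_or_gt (1 / 4 * c.η ^ c.n) ‖c.Pn x‖ with h6 | h6
  · exact Or.inl ((c.Bstar h1 (by linarith) (by linarith)).trans (c.A_low h6))
  obtain ⟨hx, -, ht, hw⟩ := h1
  obtain ⟨h7, -, h8⟩ := c.disc_facts hz (p := c.P x) (by linarith [norm_nonneg (c.s x.1)])
  have h9 : ‖c.P x - c.s x.1‖ ≤ 1 / 3 * ‖c.s x.1‖ :=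
    not_lt.1 fun h => by linarith [(c.big hx h8 h.le (by linarith)).1]
  have h10 : exp (-(c.h + 3 * (c.h / 20))) < ‖c.s x.1‖ :=
    not_le.1 fun h => h2 (Or.inr ⟨⟨hx, by linarith, h, h9⟩, h6.le⟩)
  refine Or.inr ⟨⟨h6.le, fun h => by
    linarith [h.2.2.1, exp_le_exp.2 (show -(c.h + 18 * (c.h / 20)) ≤ -(c.h + 3 * (c.h / 20)) by
      linarith)]⟩, ?_⟩
  obtain ⟨h11, h12, h13⟩ := c.log_Qb (x := x) (by linarith)
  have h14 : exp (-(c.h + 3 * (c.h / 20)) - 1) ≤ ‖c.P x‖ := by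
    have : exp (-(c.h + 3 * (c.h / 20)) - 1) * exp 1 = exp (-(c.h + 3 * (c.h / 20))) := by
      rw [← exp_add]; ring_nf
    nlinarith [two_le_e, exp_pos (-(c.h + 3 * (c.h / 20)) - 1)]
  have h15 := (le_log_iff_exp_le h12).2 h14
  have h16 : ‖c.Qb x‖ ≤ exp (1 - 9 / 10 * (c.n * c.Hh)) := by
    rw [← log_le_iff_le_exp h11]
    nlinarith [(abs_le.1 h13).2, c.hH2, c.n_ge]
  have h17 := pow_le_exp' h11.le h16 c.ν
  calc c.fB x ≤ _ := (c.fB_str hx hz hw.le (by linarith)).1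
    _ ≤ exp (c.X / 2) * exp (c.ν * (1 - 9 / 10 * (c.n * c.Hh))) *
        exp (2 * c.n - (c.n * c.Λ + c.n * c.E + 67 * c.S)) := by gcongr; exact c.Fup hz ht.le
    _ ≤ exp (c.μ * (-(c.h + 3 * (c.h / 20)) - 1)) *
        exp (c.μ * (c.h - 2 * (c.h / 20)) - c.En) := by
        rw [← exp_add, ← exp_add, ← exp_add, exp_le_exp, En]
        have h18 : c.ν * (1 - 9 / 10 * (c.n * c.Hh)) = c.ν - 9 / 10 * c.X := by rw [c.hX]; ring
        have h19 : (c.μ : ℝ) * 200 ≤ c.μ * c.h := by gcongr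
        have h20 : 4000 * c.Hh ≤ c.n * c.Hh := by gcongr; linarith [c.Hh_ge]; exact c.n_ge
        nlinarith [c.X_nH, c.ν_le, c.nΛ_nn, c.S_ge, c.n_ge, c.hμ2, c.hH2]
    _ ≤ _ := by unfold fD; gcongr; exact exp_le_pow h14 _

theorem collar_C1 {x : ℂ × ℂ} (h1 : x ∈ c.Box c.x1 c.x1) (h2 : x ∉ c.cBox (c.x1 / 2) (c.x1 / 2))
    (h3 : x ∉ c.cStr 0 (c.h + 19 * (c.h / 20)) (1 / 3) ∩ c.mle (1 / 8)) :
    c.fC x ≤ c.fA x ∨ (x ∈ c.CB ∧ c.fC x ≤ c.fB x) := by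
  obtain ⟨s0, s1, s2, s3, s4, s5, s6⟩ := c.scales
  have hh := c.H.h_ge
  obtain ⟨hx, hr, hp⟩ := h1
  have hS := c.S_ge
  have hn := c.n_ge
  have h0 := c.ηn_pos
  have h4 := (c.box_L x ⟨hx, by linarith, by linarith⟩).2
  have h5 := c.lR_zero hr.le hp.le
  rcases le_total (‖c.F x.1‖ * exp (-c.Λ + 1)) ‖c.P x‖ with h6 | h6
  · left
    rw [max_eq_left h6, mul_comm] at h4
    rcases le_or_gt (c.η ^ c.n / 8) ‖c.Pn x‖ with hm | hm
    · exact (c.fC_le (c.T_ball hx) (norm_nonneg _) h4 le_rfl).trans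
        (c.leA (c.T_cball hx) hm (by simp only [En]; linarith))
    · exfalso
      have h7 : 1 / 3 * ‖c.s x.1‖ < ‖c.P x - c.s x.1‖ := not_le.1 fun h => h3 ⟨⟨hx, norm_nonneg _,
        (c.s_x2 (by linarith)).2.trans (exp_le_exp.2 (by linarith)), h⟩, c.mem_mle (by linarith)⟩
      have h8 : 4 * c.η ≤ ‖c.P x‖ := by
        rcases le_or_gt ‖c.P x‖ (c.x1 / 2) with h8 | h8
        · have h9 : c.x1 / 2 < ‖x.1 - c.a‖ := not_le.1 fun h => h2 ⟨hx, h, h8⟩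
          have h10 := c.F_low (c.near_KV (z := x.1) (by linarith)) (t := exp (4 * c.y - 1))
            (one_le_exp (by linarith [c.hy3])) (by
              refine le_trans ?_ h9.le
              rw [x0, x1, c.hx2, ← exp_nat_mul, ← exp_nat_mul, ← exp_add, le_div_iff₀ two_pos]
              calc _ ≤ exp (4 * c.y - 1 + (4:ℕ) * -(2 * c.y)) * exp 1 := by
                    gcongr; exact two_le_e
                _ = _ := by rw [← exp_add]; push_cast; ring_nf)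
          have h11 : 4 ≤ exp (4 * c.y - 1) * exp (-c.Λ + 1) := by
            rw [← exp_add]
            linarith [exp_ge_lin (4 * c.y - 1 + (-c.Λ + 1)), c.hy3, c.hyΛ]
          nlinarith [mul_le_mul_of_nonneg_right h10 (exp_pos (-c.Λ + 1)).le]
        · linarith
      linarith [(c.big hx (by linarith) h7.le h8).1]
  · rw [max_eq_right h6] at h4
    have h7 : exp (-c.Λ + 1) ≤ 3 := (exp_le_exp.2 (by linarith [c.H.Λ_nn])).trans e_le_three
    have h8 := c.H.F50 (c.H.Ψ_left x hx).1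
    have h9 := norm_sub_norm_le (c.s x.1) (c.P x)
    rw [norm_sub_rev] at h9
    have h10 := (c.Qα_low hx (by linarith) (by nlinarith [norm_nonneg (c.F x.1)])).1
    refine Or.inr ⟨Or.inl ⟨hx, by linarith, by linarith⟩, (c.fC_le (c.T_ball hx)
      (k := 4 - c.Λ - c.E) (norm_nonneg _) (h4.trans ?_) (by linarith)).trans
      (c.fB_near (by linarith)).2⟩
    calc _ ≤ exp 3 * ‖c.Q x / c.α‖ * exp (-c.Λ + 1) * exp (-c.E) := by
          gcongr; nlinarith [le_exp_three, norm_nonneg (c.Q x / c.α)]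
      _ = _ := by rw [mul_comm (exp 3), mul_assoc, mul_assoc, ← exp_add, ← exp_add, mul_comm]; ring_nf

theorem str_max {x : ℂ × ℂ} (hx : x ∈ c.T) (hw : ‖c.P x - c.s x.1‖ ≤ 1 / 2 * ‖c.s x.1‖) :
    max ‖c.P x‖ ‖c.F x.1‖ = ‖c.P x‖ :=
  max_eq_left (by linarith [c.H.F50 (c.H.Ψ_left x hx).1, (c.str_p hw).1, norm_nonneg (c.F x.1)])

theorem Pn_pow_le {x : ℂ × ℂ} (hx : x ∈ c.T) : ‖c.P x‖ ^ c.n ≤ 1 :=
  pow_le_one₀ (norm_nonneg _) (c.H.P_le x (c.T_cball hx))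

theorem collar_C2 {x : ℂ × ℂ} (h1 : x ∈ c.Str (-1) (c.h + 18 * (c.h / 20)) (1 / 2))
    (h2 : x ∉ c.Box c.x1 c.x1)
    (h3 : x ∉ c.cStr 0 (c.h + 19 * (c.h / 20)) (1 / 3) ∩ c.mle (1 / 8)) :
    c.fC x ≤ c.fA x ∨ (x ∈ c.CB ∧ c.fC x ≤ c.fB x) := by
  obtain ⟨s0, s1, s2, s3, s4, s5, s6⟩ := c.scales
  have hh := c.H.h_ge
  obtain ⟨hx, -, ht, hw⟩ := h1
  have hS := c.S_ge
  have hn := c.n_ge
  have h0 := c.ηn_pos
  have h4 := c.fC_T hx
  rw [c.str_max hx hw.le] at h4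
  rcases le_or_gt (c.η ^ c.n / 8) ‖c.Pn x‖ with hm | hm
  · exact Or.inl (h4.trans (c.leA (c.T_cball hx) hm (by simp only [En]; linarith)))
  have hr : 2 * c.x0 ≤ ‖x.1 - c.a‖ := not_lt.1 fun h =>
    h2 ⟨hx, by linarith, by linarith [c.s_x0 h.le, (c.str_p hw.le).2]⟩
  have hz : x.1 ∈ c.V1 := ⟨⟨(c.H.Ψ_left x hx).1, ht.trans (exp_lt_exp.2 (by linarith))⟩, by linarith⟩
  obtain ⟨h7, -, h8⟩ := c.disc_facts hz (p := c.P x) (by linarith [norm_nonneg (c.s x.1)])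
  have h9 : ‖c.P x - c.s x.1‖ ≤ 1 / 3 * ‖c.s x.1‖ :=
    not_lt.1 fun h => by linarith [(c.big hx h8 h.le (by linarith)).1]
  have h10 : exp (-(c.h + 19 * (c.h / 20))) < ‖c.s x.1‖ :=
    not_le.1 fun h => h3 ⟨⟨hx, norm_nonneg _, h, h9⟩, c.mem_mle (by linarith)⟩
  have h11 := c.Flow hz.1 ((exp_lt_exp.2 (by linarith)).trans h10)
  refine Or.inr ⟨Or.inr ⟨⟨hx, hr, ht.le.trans (exp_le_exp.2 (by linarith)), h9⟩,
    c.mem_mle (by linarith)⟩, h4.trans (le_trans (key_le (s := -(c.X / 16)) (by positivity) ?_ ?_)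
      (c.fB_str hx hz hw.le (by linarith)).2)⟩
  · rw [← mul_assoc]
    gcongr
    calc _ ≤ exp (-(c.X / 16)) * exp (c.X / 16) := by rw [← exp_add]; simpa using c.Pn_pow_le hx
      _ ≤ _ := by gcongr
  · linarith [c.X1, c.nlog_nn, c.nΛ_nn]

theorem collar_D {x : ℂ × ℂ} (h1 : x ∈ c.Str (-1) (c.h + 18 * (c.h / 20)) (1 / 2))
    (hm : ‖c.Pn x‖ ≤ 1 / 4 * c.η ^ c.n) (h3 : x ∉ c.cStr 0 (c.h + 19 * (c.h / 20)) (1 / 3)) :
    x ∈ c.CB ∧ c.fD x ≤ c.fB x := by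
  obtain ⟨s0, s1, s2, s3, s4, s5, s6⟩ := c.scales
  have hh := c.H.h_ge
  obtain ⟨hx, -, ht, hw⟩ := h1
  have hS := c.S_ge
  have hn := c.n_ge
  have h0 := c.ηn_pos
  have hV : x.1 ∈ c.Vout := ⟨(c.H.Ψ_left x hx).1, ht.trans (exp_lt_exp.2 (by linarith))⟩
  have h4 := c.str_good (x := x) (by linarith) ht.le (by linarith [norm_nonneg (c.s x.1)])
  obtain ⟨h5, h6⟩ := c.str_p hw.le
  have hμ : (0:ℝ) ≤ c.μ := Nat.cast_nonneg _
  rcases le_or_gt ‖c.P x - c.s x.1‖ (1 / 3 * ‖c.s x.1‖) with h9 | h9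
  · have h10 : exp (-(c.h + 19 * (c.h / 20))) < ‖c.s x.1‖ :=
      not_le.1 fun h => h3 ⟨hx, norm_nonneg _, h, h9⟩
    have h11 := (exp_lt_exp.2 (show -(2 * c.h) < -(c.h + 19 * (c.h / 20)) by linarith)).trans h10
    have hr := (c.far_of_s h11).1
    have hz : x.1 ∈ c.V1 := ⟨hV, by linarith⟩
    have h12 := (one_le_exp (show 0 ≤ c.X / 16 by linarith [c.X_pos])).trans (c.Flow hV h11)
    refine ⟨Or.inr ⟨⟨hx, by linarith, ht.le.trans (exp_le_exp.2 (by linarith)), h9⟩, hm⟩,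
      (c.fD_le (k := -(c.h + 18 * (c.h / 20)) + 1) ?_).trans
        (le_trans ?_ (c.fB_str hx hz hw.le (by linarith)).2)⟩
    · rw [exp_add]; nlinarith [two_le_e, exp_pos (-(c.h + 18 * (c.h / 20)))]
    obtain ⟨h13, h14, h15⟩ := c.log_Qb (x := x) (by linarith)
    have h16 : log ‖c.P x‖ ≤ 0 := log_nonpos h14.le (c.H.P_le x (c.T_cball hx))
    have h17 : exp (-1 - c.n * c.Hh) ≤ ‖c.Qb x‖ := by
      rw [← le_log_iff_exp_le h13]; nlinarith [(abs_le.1 h15).1]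
    calc _ ≤ 1 * exp (c.ν * (-1 - c.n * c.Hh)) *
          exp (-(2 * c.n) - (c.n * c.Λ + c.n * c.E + 67 * c.S)) := by
          rw [one_mul, ← exp_add, exp_le_exp, En]
          have h18 : c.ν * (-1 - c.n * c.Hh) = -c.ν - c.X := by rw [c.hX]; ring
          have h19 : (c.μ : ℝ) * 200 ≤ c.μ * c.h := by gcongr
          nlinarith [c.ν_le, c.X1, c.nlog_nn, c.hμ1]
      _ ≤ _ := by gcongr; exact exp_le_pow h17 _
  · have h10 : ‖c.P x‖ < 4 * c.η := not_le.1 fun h => by linarith [(c.big hx h4 h9.le h).1]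
    have hr : ‖x.1 - c.a‖ ≤ c.x0 := not_lt.1 fun h => by linarith [c.V1_s (z := x.1) ⟨hV, h⟩]
    have h11 := c.low_p (c.T_cball hx) (by linarith)
    have h12 := c.Qb_low hx h4 h9.le h11
    have h13 := (c.Qα_low hx h4 h9.le).2
    have hα := c.H.α_ge
    refine ⟨Or.inl ⟨hx, by linarith, by linarith⟩, (c.fD_le (k := 2 - c.Hh) ?_).trans
      (le_trans ?_ (c.fB_near (by linarith)).2)⟩
    · rw [sub_eq_add_neg, exp_add, ← c.hHh]; nlinarith [le_exp_two]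
    have h14 : exp (-c.Hh - log (8 * c.α)) ≤ ‖c.Q x / c.α‖ := by
      rw [exp_sub, exp_log (by linarith), ← c.hHh]
      exact le_trans (by gcongr) h13
    calc _ ≤ exp (c.n * (-c.Hh - log (8 * c.α))) * exp (c.ν * -c.n) *
          exp (-c.n - (c.n * c.Λ + c.n * c.E + 67 * c.S)) := by
          rw [← exp_add, ← exp_add, exp_le_exp, En]
          have h19 : c.μ * (2 - c.Hh + c.h - 2 * (c.h / 20)) ≤ c.μ * -(15 * (c.h / 20)) := by
            gcongr; linarith [c.hH2]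
          nlinarith [c.X_νn, c.X1, c.X_nH, c.hμ1, c.X_pos]
      _ ≤ _ := by
          gcongr
          · exact exp_le_pow h14 _
          · exact exp_le_pow (by linarith [exp_pos (-(c.n : ℝ))]) _

theorem below_B {x : ℂ × ℂ} (h : x ∈ c.CB) : c.Below x (c.fB x) := by
  obtain ⟨s0, s1, s2, s3, s4, s5, s6⟩ := c.scales
  have hh := c.H.h_ge
  have hS := c.S_ge
  have hn := c.n_ge
  have h0 := c.ηn_pos
  have hΛ := c.nΛ_nn
  have hx : x ∈ c.T := h.elim (fun h => h.1) fun h => h.1.1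
  have hc := c.T_cball hx
  have key : x ∈ c.cBox (c.x2 / 2) (c.ϱ1 / 2) →
      c.fB x ≤ ‖c.Q x / c.α‖ ^ c.n * exp (c.n - (c.n * c.E + 67 * c.S)) := fun h1 =>
    (c.fB_near (by linarith [h1.2.1])).1.trans (key_le (s := 0) (by positivity)
      (by simpa using mul_le_of_le_one_right (by positivity) (c.Qbν_le hc)) (by linarith))
  refine ⟨fun h1 => ?_, fun h1 => (key h1).trans (le_trans (key_le (s := 0) (nn_nonneg _ _)
    (by rw [← norm_pow, exp_zero, one_mul]; exact le_nn_right _ _) (by linarith)) (c.W1_ge hc)),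
    fun h1 => ?_⟩
  · by_cases h2 : x ∈ c.cBox (c.x2 / 2) (c.ϱ1 / 2)
    · refine (key h2).trans (le_trans (key_le (s := 2 * c.n) (pow_nonneg (nn_nonneg _ _) _)
        (pow_le_exp (norm_nonneg _) ?_ _) (by linarith))
        (c.U0_ge hc (a := nn (c.P x) (c.F x.1)) (nn_nonneg _ _) ?_))
      · nlinarith [c.Qα_up hx (by linarith [h2.2.2]), le_exp_two, le_nn_left (c.P x) (c.F x.1),
          le_nn_right (c.P x) (c.F x.1), nn_nonneg (c.P x) (c.F x.1)]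
      · rw [c.box_U x ⟨hx, by linarith [h2.2.1], by linarith [h2.2.2]⟩]
        have := nn_nonneg (c.P x) (c.F x.1)
        gcongr
        exact c.H.τ_le x hc
    · obtain ⟨h3, h4⟩ := h.resolve_left h2
      have h4' : ‖c.Pn x‖ ≤ 1 / 4 * c.η ^ c.n := h4
      have h5 := c.core_str h3
      have hr : c.x2 / 2 ≤ ‖x.1 - c.a‖ := not_lt.1 fun h6 => h2 ⟨hx, h6.le, by
        linarith [(c.s_x2 (z := x.1) (by linarith)).1, (c.str_p h5.2.2.2.le).2]⟩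
      refine (c.Bstar h5 (by linarith) hr).trans (le_trans ?_
        (c.U0_ge hc s0.le (c.U_low hc (c.out_box h1))))
      rw [ηn_eq, ← exp_add, exp_le_exp, En]; linarith
  · have h5 := c.core_str h1
    have hz := c.str_V1 h5 le_rfl (by linarith)
    refine le_trans ?_ (c.W2_ge hc)
    rcases le_or_gt ‖c.Pn x‖ (c.η ^ c.n / 2) with hm | hm
    · exact (c.fB_str hx hz h5.2.2.2.le hm).1.trans (key_le (s := 0) (nn_nonneg _ _)
        (by simpa using (mul_le_of_le_one_right (norm_nonneg _) (c.Qbν_le hc)).trans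
              (le_nn_right _ _)) (by linarith))
    · have h2 : x ∈ c.cBox (c.x2 / 2) (c.ϱ1 / 2) := h.resolve_right fun h => by
        have : ‖c.Pn x‖ ≤ 1 / 4 * c.η ^ c.n := h.2
        linarith
      exact (key h2).trans (key_le (s := c.n) (nn_nonneg _ _)
        ((c.Qα_Pn hx hz h5.2.2.2.le hm.le).trans (by gcongr; exact le_nn_left _ _)) (by linarith))

theorem core_Flow {x : ℂ × ℂ} (h1 : x ∈ c.cStr (2 * c.x0) (c.h + 3 * (c.h / 20)) (1 / 3))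
    (h2 : x ∉ c.Str (-1) (c.h + 18 * (c.h / 20)) (1 / 2)) :
    exp (-(c.n * c.E + 16 * c.S)) ≤ c.W2 x := by
  have hh := c.H.h_ge
  have h5 := c.core_str h1
  have hz := c.str_V1 h5 le_rfl (by linarith)
  have h6 : exp (-(c.h + 18 * (c.h / 20))) ≤ ‖c.s x.1‖ := not_lt.1 fun h =>
    h2 ⟨h1.1, by linarith [norm_nonneg (x.1 - c.a)], h, h5.2.2.2⟩
  have h7 := (one_le_exp (show 0 ≤ c.X / 16 by linarith [c.X_pos])).trans
    (c.Flow hz.1 ((exp_lt_exp.2 (by linarith)).trans_le h6))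
  exact le_trans (le_mul_of_one_le_left (exp_pos _).le (h7.trans (le_nn_right _ _)))
    (c.W2_ge (c.T_cball h1.1))

theorem box_w {x : ℂ × ℂ} (h1 : x ∈ c.cBox (c.x2 / 2) (c.ϱ1 / 2))
    (h2 : x ∉ c.Str (-1) (c.h + 18 * (c.h / 20)) (1 / 2)) :
    1 / 3 * ‖c.s x.1‖ ≤ ‖c.P x - c.s x.1‖ := by
  have h3 : 1 / 2 * ‖c.s x.1‖ ≤ ‖c.P x - c.s x.1‖ := not_lt.1 fun h =>
    h2 ⟨h1.1, by linarith [norm_nonneg (x.1 - c.a)], (c.s_x2 (by
      linarith [h1.2.1, c.x2_pos])).2.trans_lt (exp_lt_exp.2 (by linarith [c.H.h_ge])), h⟩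
  linarith [norm_nonneg (c.s x.1)]

theorem below_C {x : ℂ × ℂ} (hb : x ∈ ball (0 : ℂ × ℂ) 1) (h : x ∈ c.CC) : c.Below x (c.fC x) := by
  obtain ⟨s0, s1, s2, s3, s4, s5, s6⟩ := c.scales
  have hh := c.H.h_ge
  have hS := c.S_ge
  have hn := c.n_ge
  have h0 := c.ηn_pos
  have hc := ball_subset_closedBall hb
  have hstr : ‖c.Pn x‖ < c.η ^ c.n / 8 → x ∉ c.Str (-1) (c.h + 18 * (c.h / 20)) (1 / 2) :=
    fun hm h1 => h (Or.inr ⟨h1, c.mem_mlt (by linarith)⟩)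
  refine ⟨fun _ => ?_, fun h1 => ?_, fun h1 => ?_⟩
  · refine (c.fC_le hb (k := 0) (c.H.U_nn x) (by simpa using c.H.L_le_U x hb) le_rfl).trans
      (key_le (s := 0) (pow_nonneg (c.H.U_nn x) _) ?_ (by linarith [c.lR_le hc]))
    simpa using mul_le_of_le_one_right (pow_nonneg (c.H.U_nn x) _) (c.Qbν_le hc)
  · have hx := h1.1
    have h4 := c.fC_T hx
    have hp : ‖c.P x‖ ≤ exp (-c.h) / 100 := by linarith [h1.2.2]
    rcases le_total ‖c.F x.1‖ ‖c.P x‖ with h5 | h5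
    · have h6 := c.nn_low hx (by linarith [h1.2.1]) (t := 4) (by norm_num) fun h6 =>
        h (Or.inl ⟨hx, by linarith [h6.2.1], by linarith [h6.2.2]⟩)
      rw [max_eq_left h5] at h4 h6
      rcases le_or_gt (c.η ^ c.n / 8) ‖c.Pn x‖ with hm | hm
      · exact h4.trans ((c.leA hc hm (by simp only [En]; linarith)).trans ((c.below_A hc).2.1 h1))
      · linarith [(c.big hx hp (c.box_w h1 (hstr hm)) h6).1]
    · rw [max_eq_right h5] at h4
      have h8 := c.H.F50 (c.H.Ψ_left x hx).1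
      have h9 := norm_sub_norm_le (c.s x.1) (c.P x)
      rw [norm_sub_rev] at h9
      have h10 := (c.Qα_low hx hp (by linarith [norm_nonneg (c.F x.1)])).1
      refine h4.trans (le_trans (key_le (s := 3 * c.n) (nn_nonneg _ _) ?_ (by linarith))
        (c.W1_ge hc))
      refine (mul_le_of_le_one_right (by positivity) (c.Qbν_le hc)).trans ((pow_le_exp
        (b := ‖c.Q x / c.α‖) (k := 3) (norm_nonneg _)
        (by nlinarith [le_exp_three, norm_nonneg (c.Q x / c.α)]) _).trans ?_)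
      gcongr
      rw [← norm_pow]; exact le_nn_right _ _
  · have hx := h1.1
    have h4 := c.fC_T hx
    rw [c.str_max hx (c.core_str h1).2.2.2.le] at h4
    rcases le_or_gt (c.η ^ c.n / 8) ‖c.Pn x‖ with hm | hm
    · exact h4.trans ((c.leA hc hm (by simp only [En]; linarith)).trans ((c.below_A hc).2.2 h1))
    · refine h4.trans (le_trans ?_ (c.core_Flow h1 (hstr hm)))
      exact (mul_le_of_le_one_left (exp_pos _).le (mul_le_one₀ (c.Pn_pow_le hx) (by positivity)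
        (c.Qbν_le hc))).trans (exp_le_exp.2 (by linarith))

theorem below_D {x : ℂ × ℂ} (hc : x ∈ closedBall (0 : ℂ × ℂ) 1) (h : x ∈ c.CD) :
    c.Below x (c.fD x) := by
  obtain ⟨s0, s1, s2, s3, s4, s5, s6⟩ := c.scales
  have hS := c.S_ge
  have hn := c.n_ge
  have h0 := c.ηn_pos
  have hm : ‖c.Pn x‖ ≤ 1 / 4 * c.η ^ c.n := h.1
  have h1 := c.fD_glob hc (by linarith)
  refine ⟨fun h2 => h1.trans (le_trans ?_ (c.U0_ge hc s0.le (c.U_low hc (c.out_box h2)))),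
    fun h2 => h1.trans (le_trans ?_ (c.W1_ge hc)),
    fun h2 => h1.trans (le_trans (exp_le_exp.2 ?_) (c.core_Flow h2 h.2))⟩
  · rw [ηn_eq, ← exp_add, exp_le_exp, En]; linarith [c.X_nH, c.nH_ge]
  · have h11 := c.low_p hc (by linarith)
    have h13 := (c.Qα_low h2.1 (by linarith [h2.2.2]) (c.box_w h2 h.2)).2
    have hα := c.H.α_ge
    have h14 : exp (-c.Hh - log (8 * c.α)) ≤ ‖c.Q x / c.α‖ := by
      rw [exp_sub, exp_log (by linarith), ← c.hHh]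
      exact le_trans (by gcongr) h13
    calc _ ≤ exp (c.n * (-c.Hh - log (8 * c.α))) * exp (-(c.n * c.E + 4 * c.S)) := by
          rw [← exp_add, exp_le_exp, En]
          nlinarith [c.X1, c.X_nH, c.nΛ_nn, c.X_pos]
      _ ≤ _ := by
          gcongr
          refine (exp_le_pow h14 _).trans ?_
          rw [← norm_pow]; exact le_nn_right _ _
  · simp only [En]; linarith [c.X_pos]

theorem core4 {x : ℂ × ℂ} (h : x ∈ c.cStr 0 (c.h + 19 * (c.h / 20)) (1 / 3))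
    (hm : ‖c.Pn x‖ ≤ c.η ^ c.n / 2) : x ∈ c.Str (-1) (c.h + 18 * (c.h / 20)) (1 / 2) := by
  have h1 := c.low_p (c.T_cball h.1) hm
  have h2 := norm_sub_norm_le (c.P x) (c.s x.1)
  exact ⟨h.1, by linarith [h.2.1], h.2.2.1.trans_lt (exp_lt_exp.2 (by linarith [c.H.h_ge])),
    by linarith [h.2.2.2, c.η_pos]⟩

theorem fA_LP (x : ℂ × ℂ) : LP c.fA x :=
  (LP.norm (Eventually.of_forall (pol_diff c.Pn_pol))).mul (LP.const (exp_pos _).le x)

theorem fB_LP {x : ℂ × ℂ} (hz : x.1 ∈ c.Vout) : LP c.fB x := by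
  have h1 : LP (fun x => ‖c.Q x / c.α‖) x := by
    refine LP.norm (Eventually.of_forall ?_)
    simp only [div_eq_mul_inv]
    exact (pol_diff c.Q_pol).mul_const _
  have h2 : LP (fun x : ℂ × ℂ => ‖c.Y x.1‖) x := by
    refine LP.norm ?_
    filter_upwards [continuous_fst.continuousAt.eventually (c.H.Vout_open.mem_nhds hz)] with y hy
    exact (c.Y_diff.differentiableAt (c.H.Vout_open.mem_nhds hy)).comp y differentiableAt_fst
  have h3 : LP (fun x => ‖c.Qb x‖) x := LP.norm (Eventually.of_forall (pol_diff c.Qb_pol))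
  exact (((h1.pow c.n).mul h2).mul (h3.pow c.ν)).mul (LP.const (exp_pos _).le x)

theorem fC_LP {x : ℂ × ℂ} (hx : x ∈ ball (0 : ℂ × ℂ) 1) : LP c.fC x :=
  (((c.H.L_LP x hx).pow _).mul ((LP.norm (Eventually.of_forall (pol_diff c.Qb_pol))).pow _)).mul
    (LP.exp (((c.lR_SM x).mul two_pos.le).add (SM.const _ x)))

theorem fD_LP (x : ℂ × ℂ) : LP c.fD x :=
  ((LP.norm (Eventually.of_forall (pol_diff c.H.hP))).pow _).mul (LP.const (exp_pos _).le x)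

theorem lower : ∃ (g : ℂ × ℂ → ℝ) (Λn : ℝ), 0 ≤ Λn ∧ (∀ x ∈ ball (0 : ℂ × ℂ) 1, LP g x) ∧
    (∀ x ∈ ball (0 : ℂ × ℂ) 1, c.Below x (g x)) ∧
    (∀ x ∈ c.Str c.x0 (c.h + 19 * (c.h / 20)) (1 / 2), ‖c.Pn x‖ ≤ c.η ^ c.n / 8 →
      g x ≤ max ‖c.Pn x‖ ‖c.Fn x.1‖ * exp (-c.En)) ∧
    (∀ᶠ x in 𝓝 c.bh, ‖c.Fn x.1‖ * exp (-Λn - 1) * exp (-c.En) ≤ g x ∧
      g x ≤ max ‖c.Pn x‖ (‖c.Fn x.1‖ * exp (-Λn + 1)) * exp (-c.En)) ∧
    ∀ x ∈ ball (0 : ℂ × ℂ) 1, x ∉ c.T → c.fC x ≤ g x := by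
  obtain ⟨s0, s1, s2, s3, s4, s5, s6⟩ := c.scales
  have hh := c.H.h_ge
  have h0 := c.ηn_pos
  have hS := c.S_ge
  have hn := c.n_ge
  have hΛ := c.nΛ_nn
  have hmo : ∀ t, IsOpen (c.mlt t) := fun t => isOpen_lt (pol_cont c.Pn_pol).norm continuous_const
  have hmc : ∀ t, IsClosed (c.mle t) :=
    fun t => isClosed_le (pol_cont c.Pn_pol).norm continuous_const
  set G : Fin 4 → Set (ℂ × ℂ) := ![univ,
    c.Box c.x2 c.ϱ1 ∪ c.Str c.x0 (c.h + 2 * (c.h / 20)) (1 / 2) ∩ c.mlt (1 / 2),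
    (c.cBox (c.x1 / 2) (c.x1 / 2) ∪ c.cStr 0 (c.h + 19 * (c.h / 20)) (1 / 3) ∩ c.mle (1 / 8))ᶜ,
    c.mlt (1 / 2) \ c.cStr 0 (c.h + 19 * (c.h / 20)) (1 / 3)] with hG
  set C : Fin 4 → Set (ℂ × ℂ) := ![univ, c.CB, c.CC, c.CD] with hC
  set f : Fin 4 → ℂ × ℂ → ℝ := ![c.fA, c.fB, c.fC, c.fD] with hf
  have hGo : ∀ i, IsOpen (G i) := by
    intro i
    fin_cases i
    · exact isOpen_univ
    · exact (c.H.Box_open _ _).union ((c.H.Str_open _ _ _).inter (hmo _))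
    · exact ((c.cBox_closed (by linarith) (by linarith)).union
        ((c.cStr_closed _ (by linarith)).inter (hmc _))).isOpen_compl
    · exact (hmo _).sdiff (c.cStr_closed _ (by linarith))
  have hCG : ∀ i, ∀ x ∈ ball (0 : ℂ × ℂ) 1, x ∈ C i → x ∈ G i := by
    intro i x _ hx
    fin_cases i
    · trivial
    · rcases hx with hx | hx
      · exact Or.inl ⟨hx.1, by linarith [hx.2.1], by linarith [hx.2.2]⟩
      · have : ‖c.Pn x‖ ≤ 1 / 4 * c.η ^ c.n := hx.2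
        exact Or.inr ⟨c.core_str hx.1, c.mem_mlt (by linarith)⟩
    · rintro (h | h)
      · exact hx (Or.inl ⟨h.1, by linarith [h.2.1], by linarith [h.2.2]⟩)
      · have : ‖c.Pn x‖ ≤ 1 / 8 * c.η ^ c.n := h.2
        exact hx (Or.inr ⟨c.core4 h.1 (by linarith), c.mem_mlt (by linarith)⟩)
    · have : ‖c.Pn x‖ ≤ 1 / 4 * c.η ^ c.n := hx.1
      exact ⟨c.mem_mlt (by linarith), fun h => hx.2 (c.core4 h (by linarith))⟩
  have hLP : ∀ i, ∀ x ∈ ball (0 : ℂ × ℂ) 1, x ∈ G i → LP (f i) x := by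
    intro i x hx hi
    fin_cases i
    · exact c.fA_LP x
    · exact c.fB_LP (hi.elim (fun h => c.near_Vout h.2.1.le)
        fun h => (c.str_V1 h.1 le_rfl (by linarith)).1)
    · exact c.fC_LP hx
    · exact c.fD_LP x
  obtain ⟨g, h1, h2, h3⟩ := glue_max (S := ball 0 1) (G := G) (C := C) (f := f) (by
    intro i
    fin_cases i
    · exact isClosed_univ
    · exact (c.cBox_closed (by linarith) (by linarith)).union
        ((c.cStr_closed _ (by linarith)).inter (hmc _))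
    · exact ((c.H.Box_open _ _).union ((c.H.Str_open _ _ _).inter (hmo _))).isClosed_compl
    · exact (hmc _).sdiff (c.H.Str_open _ _ _)) hGo hCG (fun i x hx hi => (hLP i x hx hi).1.at)
    (fun x _ => ⟨0, trivial⟩) (by
    intro i x hb hx hx'
    fin_cases i
    · exact absurd trivial hx'
    · by_cases h : x ∈ c.Box c.x2 c.ϱ1
      · rcases c.collar_B1 h hx' with h | h
        · exact ⟨0, trivial, h⟩
        · exact ⟨2, h⟩
      · rcases c.collar_B2 (hx.resolve_left h).1 (hx.resolve_left h).2 h hx' with h | h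
        · exact ⟨0, trivial, h⟩
        · exact ⟨3, h⟩
    · by_cases h : x ∈ c.Box c.x1 c.x1
      · rcases c.collar_C1 h (fun h => hx (Or.inl h)) (fun h => hx (Or.inr h)) with h | h
        · exact ⟨0, trivial, h⟩
        · exact ⟨1, h⟩
      · rcases c.collar_C2 ((not_not.1 hx').resolve_left h).1 h (fun h => hx (Or.inr h)) with h | h
        · exact ⟨0, trivial, h⟩
        · exact ⟨1, h⟩
    · have hm : ‖c.Pn x‖ < 1 / 2 * c.η ^ c.n := hx.1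
      rcases le_or_gt ‖c.Pn x‖ (1 / 4 * c.η ^ c.n) with h | h
      · exact ⟨1, c.collar_D (not_not.1 fun h4 => hx' ⟨h, h4⟩) h hx.2⟩
      · exact ⟨0, trivial, (c.fD_glob (ball_subset_closedBall hb) (by linarith)).trans
          (le_trans (exp_le_exp.2 (by linarith [c.X_nH, c.nH_ge])) (c.A_low h.le))⟩)
  have hAB : ∀ x ∈ c.Str c.x0 (c.h + 19 * (c.h / 20)) (1 / 2), ‖c.Pn x‖ ≤ c.η ^ c.n / 8 →
      g x = c.fA x ∨ g x = c.fB x := by
    intro x hx hm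
    have hz := c.str_V1 hx le_rfl (by linarith)
    obtain ⟨h7, -, h8⟩ := c.disc_facts hz (p := c.P x)
      (by linarith [norm_nonneg (c.s x.1), hx.2.2.2])
    have h9 : x ∈ c.cStr 0 (c.h + 19 * (c.h / 20)) (1 / 3) := ⟨hx.1, norm_nonneg _, hx.2.2.1.le,
      not_lt.1 fun h => by linarith [(c.big hx.1 h8 h.le (by linarith)).1]⟩
    obtain ⟨i, h4, h5⟩ := h2 x (c.T_ball hx.1)
    have h6 := hCG i x (c.T_ball hx.1) h4
    fin_cases i
    · exact Or.inl h5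
    · exact Or.inr h5
    · exact absurd (Or.inr ⟨h9, c.mem_mle (by linarith)⟩) h6
    · exact absurd h9 h6.2
  obtain ⟨b1, b2, b3⟩ := c.bh_spec
  set gf : ℂ × ℂ → ℝ := fun x => ‖c.Q x / c.α‖ ^ c.n * ‖c.Qb x‖ ^ c.ν / ‖c.G0 x.1‖ *
    exp (-(c.n * c.Λ + 27 * c.S)) with hgf
  have hbV : c.bh.1 ∈ c.V1 := b2.symm ▸ c.b_V1
  have hbw : ‖c.P c.bh - c.s c.bh.1‖ ≤ 1 / 2 * ‖c.s c.bh.1‖ := by
    linarith [b1.2.2.2, norm_nonneg (c.s c.bh.1)]
  have hbm : ‖c.Pn c.bh‖ ≤ c.η ^ c.n / 2 := by rw [b3, norm_zero]; linarith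
  have hG0 := c.G0_pos hbV
  have hgp : 0 < gf c.bh := by
    have h4 := (c.log_Qb hbm).1
    have h5 : 0 < ‖c.Q c.bh / c.α‖ := by
      have := c.LQ_pos
      have : 0 < c.α := by linarith [c.H.α_ge]
      rw [c.norm_Qα]; positivity
    simp only [hgf]; positivity
  have hg1 : gf c.bh ≤ 1 := by
    have h4 := key_le (a := ‖c.Q c.bh / c.α‖ ^ c.n * ‖c.Qb c.bh‖ ^ c.ν / ‖c.G0 c.bh.1‖) (b := 1)
      (s := 2 * c.n) (t := -(c.n * c.Λ + 27 * c.S)) (u := 0) zero_le_one (by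
        rw [mul_one, div_le_iff₀ hG0]
        exact (mul_le_of_le_one_right (by positivity) (c.Qbν_le (c.T_cball b1.1))).trans
          (c.close b1.1 hbV hbw hbm).1) (by linarith)
    rwa [exp_zero, one_mul] at h4
  have hgc : ContinuousAt gf c.bh := by
    refine ContinuousAt.mul (ContinuousAt.div (ContinuousAt.mul (ContinuousAt.pow ?_ _)
      ((pol_cont c.Qb_pol).continuousAt.norm.pow _)) (ContinuousAt.norm ?_) hG0.ne')
      continuousAt_const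
    · exact ((pol_cont c.Q_pol).continuousAt.div_const _).norm
    · exact ContinuousAt.comp (f := Prod.fst)
        (c.G0_diff.continuousOn.continuousAt (c.V1_open.mem_nhds hbV)) continuousAt_fst
  refine ⟨g, -log (gf c.bh), neg_nonneg.2 (log_nonpos hgp.le hg1), fun x hx => ?_, fun x hx => ?_,
    fun x hx hm => ?_, ?_, fun x hx hT => h1 x hx 2 fun h => hT (h.elim (fun h => h.1)
      fun h => h.1.1)⟩
  · obtain ⟨i, h4, h5⟩ := h2 x hx
    refine (hLP i x hx (hCG i x hx h4)).of_ge (CN.of_continuousOn h3 isOpen_ball hx) ?_ h5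
    filter_upwards [(hGo i).mem_nhds (hCG i x hx h4), isOpen_ball.mem_nhds hx] with y h6 h7
    exact h1 y h7 i h6
  · obtain ⟨i, h4, h5⟩ := h2 x hx
    rw [h5]
    fin_cases i
    · exact c.below_A (ball_subset_closedBall hx)
    · exact c.below_B h4
    · exact c.below_C hx h4
    · exact c.below_D (ball_subset_closedBall hx) h4
  · rcases hAB x hx hm with h | h <;> rw [h]
    · unfold fA; gcongr; exact le_max_left _ _
    · exact (c.fB_str hx.1 (c.str_V1 hx le_rfl (by linarith)) hx.2.2.2.le (by linarith)).1.trans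
        (key_le (s := 0) (le_max_of_le_left (norm_nonneg _)) (by
          simpa using Or.inr (mul_le_of_le_one_right (norm_nonneg _)
            (c.Qbν_le (c.T_cball hx.1)))) (by simp only [En]; linarith))
  · have e1 : exp (- -log (gf c.bh) - 1) < gf c.bh := by
      rw [neg_neg, ← lt_log_iff_exp_lt hgp]; linarith
    have e2 : gf c.bh < exp (- -log (gf c.bh) + 1) := by
      rw [neg_neg, ← log_lt_iff_lt_exp hgp]; linarith
    filter_upwards [hgc.eventually (lt_mem_nhds e1), hgc.eventually (gt_mem_nhds e2),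
      (c.H.Str_open _ _ _).mem_nhds b1, (pol_cont c.Pn_pol).norm.continuousAt.eventually
        (gt_mem_nhds (show ‖c.Pn c.bh‖ < c.η ^ c.n / 8 by rw [b3, norm_zero]; linarith))]
      with x h4 h5 h6 h7
    have hw : ‖c.P x - c.s x.1‖ < 1 / 2 * ‖c.s x.1‖ := by
      linarith [h6.2.2.2, norm_nonneg (c.s x.1)]
    have h8 : x ∈ c.Str c.x0 (c.h + 19 * (c.h / 20)) (1 / 2) :=
      ⟨h6.1, by linarith [h6.2.1], h6.2.2.1.trans (exp_lt_exp.2 (by linarith)), hw⟩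
    have hz := c.str_V1 h8 le_rfl (by linarith)
    have h9 : c.fB x = ‖c.Fn x.1‖ * gf x * exp (-c.En) := by
      have := (c.G0_pos hz).ne'
      have h10 : exp (-(c.n * c.Λ + c.n * c.E + 67 * c.S)) =
          exp (-(c.n * c.Λ + 27 * c.S)) * exp (-c.En) := by rw [← exp_add, En]; ring_nf
      rw [fB, c.Fn_eq, norm_mul, h10]
      simp only [hgf]
      field_simp
    constructor
    · refine le_trans ?_ (h1 x (c.T_ball h6.1) 1 (Or.inr ⟨⟨h6.1, h8.2.1,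
        h6.2.2.1.trans (exp_lt_exp.2 (by linarith)), hw⟩, c.mem_mlt (by linarith)⟩))
      change _ ≤ c.fB x
      rw [h9]; gcongr
    · rcases hAB x h8 h7.le with h | h <;> rw [h]
      · unfold fA; gcongr; exact le_max_left _ _
      · rw [h9]
        refine mul_le_mul_of_nonneg_right (le_max_of_le_right ?_) (exp_pos _).le
        gcongr

end Ctx

end Pool.Agent.Lib.MP_9cdd18_an.CX
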