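import Mathlib

namespace Pool.Agent.Lib.MP_9cdd18_an.CX

open MeasureTheory Set Real Filter Topology Metric

variable {E : Type*} [NormedAddCommGroup E] [NormedSpace ℂ E]

/-- Mean of `u` over the circle `x + e^{iθ} • b`. -/
noncomputable def avg (u : E → ℝ) (x b : E) : ℝ :=
  circleAverage (fun ζ : ℂ => u (x + ζ • b)) 0 1

/-- Continuous near `x`. -/
def CN (u : E → ℝ) (x : E) : Prop := ∀ᶠ y in 𝓝 x, ContinuousAt u y

/-- Local sub-mean property at `x`. -/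
def SM (u : E → ℝ) (x : E) : Prop :=
  CN u x ∧ ∀ b : E, ∀ᶠ ρ : ℝ in 𝓝[>] 0, u x ≤ avg u x ((ρ : ℂ) • b)

/-- Second order super-mean property at `x` in one direction. -/
def SS (u : E → ℝ) (x : E) : Prop :=
  CN u x ∧ ∃ e : E, e ≠ 0 ∧ ∀ ε : ℝ, 0 < ε → ∀ᶠ ρ : ℝ in 𝓝[>] 0,
    avg u x ((ρ : ℂ) • e) ≤ u x + ε * ρ ^ 2

/-- The logarithm has the local sub-mean property at `x`. -/
def LP (f : E → ℝ) (x : E) : Prop :=
  CN f x ∧ (∀ᶠ y in 𝓝 x, 0 ≤ f y) ∧ (0 < f x → SM (fun y => log (f y)) x)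

theorem ev_disc {p : E → Prop} {x : E} (h : ∀ᶠ y in 𝓝 x, p y) (b : E) :
    ∀ᶠ ρ : ℝ in 𝓝[>] 0, ∀ ζ : ℂ, ‖ζ‖ ≤ 1 → p (x + ζ • (ρ : ℂ) • b) := by
  obtain ⟨ε, hε, hb⟩ := Metric.eventually_nhds_iff.1 h
  have h1 : ∀ᶠ ρ : ℝ in 𝓝 0, |ρ| * ‖b‖ < ε := by
    have : ContinuousAt (fun ρ : ℝ => |ρ| * ‖b‖) 0 := by fun_prop
    exact this.eventually (gt_mem_nhds (by simpa using hε))
  filter_upwards [nhdsWithin_le_nhds h1] with ρ hρ ζ hζ
  apply hb
  rw [dist_eq_norm, add_sub_cancel_left, norm_smul, norm_smul, Complex.norm_real, norm_eq_abs]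
  calc ‖ζ‖ * (|ρ| * ‖b‖) ≤ 1 * (|ρ| * ‖b‖) := by gcongr
    _ < ε := by simpa using hρ

theorem CN.int {u : E → ℝ} {x : E} (h : CN u x) (b : E) :
    ∀ᶠ ρ : ℝ in 𝓝[>] 0, CircleIntegrable (fun ζ : ℂ => u (x + ζ • (ρ : ℂ) • b)) 0 1 := by
  filter_upwards [ev_disc h b] with ρ hρ
  refine ContinuousOn.circleIntegrable zero_le_one fun ζ hζ => ?_
  have h1 : ‖ζ‖ ≤ 1 := by simpa using (le_of_eq (mem_sphere_zero_iff_norm.1 hζ))
  exact (ContinuousAt.comp (f := fun ζ : ℂ => x + ζ • (ρ : ℂ) • b) (hρ ζ h1)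
    (by fun_prop)).continuousWithinAt

theorem CN.at {u : E → ℝ} {x : E} (h : CN u x) : ContinuousAt u x := h.self_of_nhds

theorem CN.of_continuous {u : E → ℝ} (h : Continuous u) (x : E) : CN u x :=
  Eventually.of_forall fun _ => h.continuousAt

theorem CN.of_continuousOn {u : E → ℝ} {s : Set E} {x : E} (h : ContinuousOn u s)
    (hs : IsOpen s) (hx : x ∈ s) : CN u x := by
  filter_upwards [hs.mem_nhds hx] with y hy using h.continuousAt (hs.mem_nhds hy)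

theorem CN.congr {u v : E → ℝ} {x : E} (h : CN u x) (huv : u =ᶠ[𝓝 x] v) : CN v x := by
  filter_upwards [h, huv.eventually_nhds] with y h1 h2 using h1.congr h2

theorem CN.add {u v : E → ℝ} {x : E} (h : CN u x) (h' : CN v x) : CN (fun y => u y + v y) x := by
  filter_upwards [h, h'] with y h1 h2 using h1.add h2

theorem CN.sub {u v : E → ℝ} {x : E} (h : CN u x) (h' : CN v x) : CN (fun y => u y - v y) x := by
  filter_upwards [h, h'] with y h1 h2 using h1.sub h2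

theorem CN.mul {u v : E → ℝ} {x : E} (h : CN u x) (h' : CN v x) : CN (fun y => u y * v y) x := by
  filter_upwards [h, h'] with y h1 h2 using h1.mul h2

theorem CN.max {u v : E → ℝ} {x : E} (h : CN u x) (h' : CN v x) :
    CN (fun y => max (u y) (v y)) x := by
  filter_upwards [h, h'] with y h1 h2 using h1.max h2

theorem CN.const (c : ℝ) (x : E) : CN (fun _ => c) x := CN.of_continuous continuous_const x

theorem CN.log {u : E → ℝ} {x : E} (h : CN u x) (hx : 0 < u x) : CN (fun y => log (u y)) x := by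
  filter_upwards [h, h.at.eventually (lt_mem_nhds hx)] with y h1 h2 using h1.log h2.ne'

theorem avg_le {u v : E → ℝ} {x : E} (hu : CN u x) (hv : CN v x)
    (h : ∀ᶠ y in 𝓝 x, u y ≤ v y) (b : E) :
    ∀ᶠ ρ : ℝ in 𝓝[>] 0, avg u x ((ρ : ℂ) • b) ≤ avg v x ((ρ : ℂ) • b) := by
  filter_upwards [hu.int b, hv.int b, ev_disc h b] with ρ h1 h2 h3
  exact circleAverage_mono h1 h2 fun ζ hζ => h3 ζ (by simpa using (le_of_eq (mem_sphere_zero_iff_norm.1 hζ)))

theorem avg_add {u v : E → ℝ} {x : E} (hu : CN u x) (hv : CN v x) (b : E) :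
    ∀ᶠ ρ : ℝ in 𝓝[>] 0, avg (fun y => u y + v y) x ((ρ : ℂ) • b) =
      avg u x ((ρ : ℂ) • b) + avg v x ((ρ : ℂ) • b) := by
  filter_upwards [hu.int b, hv.int b] with ρ h1 h2
  exact circleAverage_fun_add h1 h2

theorem avg_sub {u v : E → ℝ} {x : E} (hu : CN u x) (hv : CN v x) (b : E) :
    ∀ᶠ ρ : ℝ in 𝓝[>] 0, avg (fun y => u y - v y) x ((ρ : ℂ) • b) =
      avg u x ((ρ : ℂ) • b) - avg v x ((ρ : ℂ) • b) := by
  filter_upwards [hu.int b, hv.int b] with ρ h1 h2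
  exact circleAverage_fun_sub h1 h2

theorem avg_mul (c : ℝ) (u : E → ℝ) (x b : E) : avg (fun y => c * u y) x b = c * avg u x b :=
  circleAverage_fun_smul (a := c) (f := fun ζ : ℂ => u (x + ζ • b))

theorem avg_const (c : ℝ) (x b : E) : avg (fun _ => c) x b = c := circleAverage_const c 0 1

theorem SM.of_ge {u v : E → ℝ} {x : E} (h : SM u x) (hv : CN v x)
    (hle : ∀ᶠ y in 𝓝 x, u y ≤ v y) (hx : v x = u x) : SM v x := by
  refine ⟨hv, fun b => ?_⟩
  filter_upwards [h.2 b, avg_le h.1 hv hle b] with ρ h1 h2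
  linarith

theorem SM.congr {u v : E → ℝ} {x : E} (h : SM u x) (huv : u =ᶠ[𝓝 x] v) : SM v x :=
  h.of_ge (h.1.congr huv) (huv.mono fun _ hy => hy.le) huv.self_of_nhds.symm

theorem SM.const (c : ℝ) (x : E) : SM (fun _ => c) x :=
  ⟨CN.const c x, fun b => Eventually.of_forall fun ρ => (avg_const c x _).ge⟩

theorem SM.add {u v : E → ℝ} {x : E} (h : SM u x) (h' : SM v x) : SM (fun y => u y + v y) x := by
  refine ⟨h.1.add h'.1, fun b => ?_⟩
  filter_upwards [h.2 b, h'.2 b, avg_add h.1 h'.1 b] with ρ h1 h2 h3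
  linarith

theorem SM.mul {u : E → ℝ} {x : E} (h : SM u x) {c : ℝ} (hc : 0 ≤ c) :
    SM (fun y => c * u y) x := by
  refine ⟨(CN.const c x).mul h.1, fun b => ?_⟩
  filter_upwards [h.2 b] with ρ h1
  rw [avg_mul]
  exact mul_le_mul_of_nonneg_left h1 hc

theorem SM.max {u v : E → ℝ} {x : E} (h : SM u x) (h' : SM v x) :
    SM (fun y => max (u y) (v y)) x := by
  rcases le_total (u x) (v x) with h1 | h1
  · exact h'.of_ge (h.1.max h'.1) (Eventually.of_forall fun y => le_max_right _ _)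
      (max_eq_right h1)
  · exact h.of_ge (h.1.max h'.1) (Eventually.of_forall fun y => le_max_left _ _)
      (max_eq_left h1)

theorem avg_log_norm {f : E → ℂ} {x : E} (hf : ∀ᶠ y in 𝓝 x, DifferentiableAt ℂ f y)
    (hx : f x ≠ 0) (b : E) :
    ∀ᶠ ρ : ℝ in 𝓝[>] 0, avg (fun y => log ‖f y‖) x ((ρ : ℂ) • b) = log ‖f x‖ := by
  have h1 : ∀ᶠ y in 𝓝 x, (∀ᶠ y' in 𝓝 y, DifferentiableAt ℂ f y') ∧ f y ≠ 0 :=
    hf.eventually_nhds.and (hf.self_of_nhds.continuousAt.eventually_ne hx)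
  filter_upwards [ev_disc h1 b] with ρ hρ
  have h2 : InnerProductSpace.HarmonicOnNhd (fun ζ : ℂ => log ‖f (x + ζ • (ρ : ℂ) • b)‖)
      (closedBall 0 |1|) := by
    intro ζ hζ
    have h3 := hρ ζ (by simpa using hζ)
    refine AnalyticAt.harmonicAt_log_norm (f := fun ζ : ℂ => f (x + ζ • (ρ : ℂ) • b)) ?_ h3.2
    rw [Complex.analyticAt_iff_eventually_differentiableAt]
    have h4 : ContinuousAt (fun ζ : ℂ => x + ζ • (ρ : ℂ) • b) ζ := by fun_prop
    filter_upwards [h4.eventually h3.1] with ξ hξ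
    exact DifferentiableAt.comp (f := fun ζ : ℂ => x + ζ • (ρ : ℂ) • b) ξ hξ (by fun_prop)
  have := h2.circleAverage_eq
  simpa [avg] using this

theorem CN.norm {f : E → ℂ} {x : E} (hf : ∀ᶠ y in 𝓝 x, DifferentiableAt ℂ f y) :
    CN (fun y => ‖f y‖) x := by
  filter_upwards [hf] with y hy using hy.continuousAt.norm

theorem SM.log_norm {f : E → ℂ} {x : E} (hf : ∀ᶠ y in 𝓝 x, DifferentiableAt ℂ f y)
    (hx : f x ≠ 0) : SM (fun y => log ‖f y‖) x := by
  refine ⟨(CN.norm hf).log (norm_pos_iff.2 hx), fun b => ?_⟩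
  filter_upwards [avg_log_norm hf hx b] with ρ h using h.ge

theorem LP.norm {f : E → ℂ} {x : E} (hf : ∀ᶠ y in 𝓝 x, DifferentiableAt ℂ f y) :
    LP (fun y => ‖f y‖) x :=
  ⟨CN.norm hf, Eventually.of_forall fun _ => norm_nonneg _,
    fun h => SM.log_norm hf (norm_pos_iff.1 h)⟩

theorem LP.exp {u : E → ℝ} {x : E} (h : SM u x) : LP (fun y => exp (u y)) x := by
  refine ⟨?_, Eventually.of_forall fun _ => (exp_pos _).le, fun _ => by simpa using h⟩
  filter_upwards [h.1] with y hy using hy.rexp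

theorem LP.const {c : ℝ} (hc : 0 ≤ c) (x : E) : LP (fun _ => c) x :=
  ⟨CN.const c x, Eventually.of_forall fun _ => hc, fun _ => SM.const _ x⟩

theorem LP.mul {f g : E → ℝ} {x : E} (hf : LP f x) (hg : LP g x) : LP (fun y => f y * g y) x := by
  refine ⟨hf.1.mul hg.1, ?_, fun h => ?_⟩
  · filter_upwards [hf.2.1, hg.2.1] with y h1 h2 using mul_nonneg h1 h2
  · have h1 : 0 < f x := pos_of_mul_pos_left h hg.2.1.self_of_nhds
    have h2 : 0 < g x := pos_of_mul_pos_right h hf.2.1.self_of_nhds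
    refine ((hf.2.2 h1).add (hg.2.2 h2)).congr ?_
    filter_upwards [hf.1.at.eventually (lt_mem_nhds h1), hg.1.at.eventually (lt_mem_nhds h2)]
      with y h3 h4
    rw [log_mul h3.ne' h4.ne']

theorem LP.pow {f : E → ℝ} {x : E} (hf : LP f x) (n : ℕ) : LP (fun y => f y ^ n) x := by
  induction n with
  | zero => simpa using LP.const zero_le_one x
  | succ n ih => simpa [pow_succ] using ih.mul hf

theorem LP.of_ge {f g : E → ℝ} {x : E} (hf : LP f x) (hg : CN g x)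
    (hle : ∀ᶠ y in 𝓝 x, f y ≤ g y) (hx : g x = f x) : LP g x := by
  refine ⟨hg, ?_, fun h => ?_⟩
  · filter_upwards [hf.2.1, hle] with y h1 h2 using h1.trans h2
  · have h1 : 0 < f x := hx ▸ h
    refine (hf.2.2 h1).of_ge (hg.log h) ?_ (by simp only [hx])
    filter_upwards [hf.1.at.eventually (lt_mem_nhds h1), hle] with y h2 h3
    exact log_le_log h2 h3

theorem LP.max {f g : E → ℝ} {x : E} (hf : LP f x) (hg : LP g x) :
    LP (fun y => max (f y) (g y)) x := by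
  rcases le_total (f x) (g x) with h1 | h1
  · exact hg.of_ge (hf.1.max hg.1) (Eventually.of_forall fun y => le_max_right _ _)
      (max_eq_right h1)
  · exact hf.of_ge (hf.1.max hg.1) (Eventually.of_forall fun y => le_max_left _ _)
      (max_eq_left h1)

theorem SS.of_le {u v : E → ℝ} {x : E} (h : SS u x) (hv : CN v x)
    (hle : ∀ᶠ y in 𝓝 x, v y ≤ u y) (hx : v x = u x) : SS v x := by
  obtain ⟨h0, e, he, h1⟩ := h
  refine ⟨hv, e, he, fun ε hε => ?_⟩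
  filter_upwards [h1 ε hε, avg_le hv h0 hle e] with ρ h2 h3
  linarith

theorem SS.congr {u v : E → ℝ} {x : E} (h : SS u x) (huv : u =ᶠ[𝓝 x] v) : SS v x :=
  h.of_le (h.1.congr huv) (huv.mono fun _ hy => hy.ge) huv.self_of_nhds.symm

theorem SS.sub {u v : E → ℝ} {x : E} (h : SS u x) (hv : SM v x) : SS (fun y => u y - v y) x := by
  obtain ⟨h0, e, he, h1⟩ := h
  refine ⟨h0.sub hv.1, e, he, fun ε hε => ?_⟩
  filter_upwards [h1 ε hε, hv.2 e, avg_sub h0 hv.1 e] with ρ h2 h3 h4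
  linarith

theorem SS.mul {u : E → ℝ} {x : E} (h : SS u x) {c : ℝ} (hc : 0 < c) :
    SS (fun y => c * u y) x := by
  obtain ⟨h0, e, he, h1⟩ := h
  refine ⟨(CN.const c x).mul h0, e, he, fun ε hε => ?_⟩
  filter_upwards [h1 (ε / c) (by positivity)] with ρ h2
  rw [avg_mul]
  have := mul_le_mul_of_nonneg_left h2 hc.le
  have h3 : c * (ε / c * ρ ^ 2) = ε * ρ ^ 2 := by field_simp
  linarith

/-- Euclidean norm of a pair. -/
noncomputable def nn (a b : ℂ) : ℝ := √(‖a‖ ^ 2 + ‖b‖ ^ 2)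

theorem nn_nonneg (a b : ℂ) : 0 ≤ nn a b := sqrt_nonneg _

theorem le_nn_left (a b : ℂ) : ‖a‖ ≤ nn a b :=
  le_sqrt_of_sq_le (by nlinarith [sq_nonneg ‖b‖])

theorem le_nn_right (a b : ℂ) : ‖b‖ ≤ nn a b :=
  le_sqrt_of_sq_le (by nlinarith [sq_nonneg ‖a‖])

theorem nn_le_add (a b : ℂ) : nn a b ≤ ‖a‖ + ‖b‖ :=
  sqrt_le_iff.2 ⟨by positivity, by nlinarith [norm_nonneg a, norm_nonneg b]⟩

theorem max_le_nn (a b : ℂ) : max ‖a‖ ‖b‖ ≤ nn a b := max_le (le_nn_left a b) (le_nn_right a b)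

theorem nn_le_max (a b : ℂ) : nn a b ≤ 2 * max ‖a‖ ‖b‖ := by
  have := nn_le_add a b
  have := le_max_left ‖a‖ ‖b‖
  have := le_max_right ‖a‖ ‖b‖
  linarith

theorem continuous_nn : Continuous fun q : ℂ × ℂ => nn q.1 q.2 := by
  unfold nn; fun_prop

theorem exists_ker (L : ℂ × ℂ →L[ℂ] ℂ) : ∃ e : ℂ × ℂ, e ≠ 0 ∧ L e = 0 := by
  by_cases h : L (1, 0) = 0
  · exact ⟨(1, 0), by simp, h⟩
  · refine ⟨(L (0, 1), -L (1, 0)), by simp [h], ?_⟩
    have : ((L (0, 1), -L (1, 0)) : ℂ × ℂ) = L (0, 1) • ((1, 0) : ℂ × ℂ) - L (1, 0) • (0, 1) := by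
      simp
    rw [this, map_sub, map_smul, map_smul]
    simp [mul_comm]

theorem SS.log_nn {f g : ℂ × ℂ → ℂ} {x : ℂ × ℂ} (hf : ∀ᶠ y in 𝓝 x, DifferentiableAt ℂ f y)
    (hg : ∀ᶠ y in 𝓝 x, DifferentiableAt ℂ g y) (hx : 0 < nn (f x) (g x)) :
    SS (fun y => log (nn (f y) (g y))) x := by
  have hcn : CN (fun y => nn (f y) (g y)) x := by
    filter_upwards [hf, hg] with y h1 h2
    exact ContinuousAt.comp (f := fun y => (f y, g y)) continuous_nn.continuousAt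
      (h1.continuousAt.prodMk h2.continuousAt)
  set f0 := f x
  set g0 := g x
  set n0 : ℝ := ‖f0‖ ^ 2 + ‖g0‖ ^ 2 with hn0
  have hn0p : 0 < n0 := sqrt_pos.1 hx
  set lam : ℂ × ℂ → ℂ := fun y => (starRingEnd ℂ f0) * f y + (starRingEnd ℂ g0) * g y with hlam
  set mu : ℂ × ℂ → ℂ := fun y => f0 * g y - g0 * f y with hmu
  have hid : ∀ y, n0 * (‖f y‖ ^ 2 + ‖g y‖ ^ 2) = ‖lam y‖ ^ 2 + ‖mu y‖ ^ 2 := by
    intro y
    simp only [hn0, hlam, hmu, Complex.sq_norm, Complex.normSq_apply]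
    simp
    ring
  have hlx : lam x = n0 := by
    simp only [hlam, hn0]
    rw [Complex.conj_mul', Complex.conj_mul']
    push_cast; ring
  have hmx : mu x = 0 := by simp only [hmu]; ring
  have hld : ∀ᶠ y in 𝓝 x, DifferentiableAt ℂ lam y := by
    filter_upwards [hf, hg] with y h1 h2
    exact (h1.const_mul _).add (h2.const_mul _)
  have hmd : DifferentiableAt ℂ mu x :=
    (hg.self_of_nhds.const_mul _).sub (hf.self_of_nhds.const_mul _)
  obtain ⟨e, he, hLe⟩ := exists_ker (fderiv ℂ mu x)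
  refine ⟨hcn.log hx, e, he, fun ε hε => ?_⟩
  have hl0 : lam x ≠ 0 := by rw [hlx]; exact_mod_cast hn0p.ne'
  have hlow : ∀ᶠ y in 𝓝 x, n0 / 2 < ‖lam y‖ := by
    refine hld.self_of_nhds.continuousAt.norm.eventually (lt_mem_nhds ?_)
    simp only [hlx, Complex.norm_real, norm_eq_abs, abs_of_pos hn0p]
    linarith
  have hder : HasDerivAt (fun ζ : ℂ => mu (x + ζ • e)) 0 0 := by
    have h1 : HasDerivAt (fun ζ : ℂ => x + ζ • e) e 0 := by
      simpa using ((hasDerivAt_id (0 : ℂ)).smul_const e).const_add x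
    have h2 : HasFDerivAt mu (fderiv ℂ mu x) (x + (0 : ℂ) • e) := by simpa using hmd.hasFDerivAt
    have h3 := h2.comp_hasDerivAt (0 : ℂ) h1
    rw [hLe] at h3
    exact h3
  set c : ℝ := √ε * n0 / 2 with hc
  have hcp : 0 < c := by positivity
  have hsm : ∀ᶠ ζ in 𝓝 (0 : ℂ), ‖mu (x + ζ • e)‖ ≤ c * ‖ζ‖ := by
    have := (hasDerivAt_iff_isLittleO.1 hder).bound hcp
    simpa [hmx] using this
  have hc2 : c ^ 2 = ε * n0 ^ 2 / 4 := by
    rw [hc, div_pow, mul_pow, sq_sqrt hε.le]; ring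
  filter_upwards [ev_disc hsm (1 : ℂ), ev_disc hlow e, avg_log_norm hld hl0 e, (hcn.log hx).int e,
    ((CN.norm hld).log (norm_pos_iff.2 hl0)).int e, self_mem_nhdsWithin] with ρ h1 h2 h3 h4 h5 hρ
  have hρ' : 0 < ρ := hρ
  have h6 : avg (fun y => log (nn (f y) (g y))) x ((ρ : ℂ) • e) ≤
      circleAverage (fun ζ : ℂ => log ‖lam (x + ζ • (ρ : ℂ) • e)‖ + (ε * ρ ^ 2 - log n0 / 2)) 0 1 := by
    refine circleAverage_mono h4 (h5.add (circleIntegrable_const _ _ _)) fun ζ hζ => ?_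
    have hζ1 : ‖ζ‖ = 1 := by simpa using hζ
    have h7 := h1 ζ hζ1.le
    have h8 := h2 ζ hζ1.le
    have h9 : (0 + ζ • (ρ : ℂ) • (1 : ℂ)) • e = ζ • (ρ : ℂ) • e := by
      rw [zero_add, smul_smul, smul_smul, smul_eq_mul, mul_one]
    rw [h9] at h7
    have h10 : ‖0 + ζ • (ρ : ℂ) • (1 : ℂ)‖ = ρ := by simp [hζ1, abs_of_pos hρ']
    rw [h10] at h7
    set y := x + ζ • (ρ : ℂ) • e
    have hl : 0 < ‖lam y‖ := by linarith
    have h11 : ‖mu y‖ ^ 2 ≤ ε * ρ ^ 2 * ‖lam y‖ ^ 2 := by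
      calc ‖mu y‖ ^ 2 ≤ (c * ρ) ^ 2 := by gcongr
        _ = ε * ρ ^ 2 * (n0 / 2) ^ 2 := by rw [mul_pow, hc2]; ring
        _ ≤ ε * ρ ^ 2 * ‖lam y‖ ^ 2 := by gcongr
    have hpos : 0 < ‖f y‖ ^ 2 + ‖g y‖ ^ 2 := by
      have := hid y
      have : 0 < n0 * (‖f y‖ ^ 2 + ‖g y‖ ^ 2) := by rw [this]; positivity
      exact pos_of_mul_pos_right this hn0p.le
    have h12 : log n0 + log (‖f y‖ ^ 2 + ‖g y‖ ^ 2) ≤ 2 * log ‖lam y‖ + ε * ρ ^ 2 := by
      rw [← log_mul hn0p.ne' hpos.ne', hid y]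
      calc log (‖lam y‖ ^ 2 + ‖mu y‖ ^ 2) ≤ log (‖lam y‖ ^ 2 * (1 + ε * ρ ^ 2)) :=
            log_le_log (by positivity) (by nlinarith)
        _ = 2 * log ‖lam y‖ + log (1 + ε * ρ ^ 2) := by
            rw [log_mul (by positivity) (by positivity), log_pow]; norm_num
        _ ≤ _ := by
            have := log_le_sub_one_of_pos (x := 1 + ε * ρ ^ 2) (by positivity)
            linarith
    simp only [nn]
    rw [log_sqrt hpos.le]
    have : 0 ≤ ε * ρ ^ 2 := by positivity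
    linarith
  rw [circleAverage_fun_add h5 (circleIntegrable_const _ _ _), circleAverage_const] at h6
  have h7 : circleAverage (fun ζ : ℂ => log ‖lam (x + ζ • (ρ : ℂ) • e)‖) 0 1 = log n0 := by
    have := h3
    rw [hlx, Complex.norm_real, norm_eq_abs, abs_of_pos hn0p] at this
    exact this
  simp only [nn]
  rw [log_sqrt hn0p.le]
  simp only [nn] at h6
  linarith

section transfer

variable {F : Type*} [NormedAddCommGroup F] [NormedSpace ℂ F]

theorem CN.comp {u : F → ℝ} (L : E ≃L[ℂ] F) {x : E} (h : CN u (L x)) : CN (fun y => u (L y)) x := by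
  filter_upwards [L.continuous.continuousAt.eventually h] with y hy
  exact hy.comp L.continuous.continuousAt

theorem avg_comp (u : F → ℝ) (L : E ≃L[ℂ] F) (x b : E) (ρ : ℝ) :
    avg (fun y => u (L y)) x ((ρ : ℂ) • b) = avg u (L x) ((ρ : ℂ) • L b) := by
  simp only [avg, map_add, map_smul]

theorem SM.comp {u : F → ℝ} (L : E ≃L[ℂ] F) {x : E} (h : SM u (L x)) : SM (fun y => u (L y)) x :=
  ⟨h.1.comp L, fun b => by simpa only [avg_comp] using h.2 (L b)⟩

theorem LP.comp {u : F → ℝ} (L : E ≃L[ℂ] F) {x : E} (h : LP u (L x)) : LP (fun y => u (L y)) x :=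
  ⟨h.1.comp L, L.continuous.continuousAt.eventually h.2.1, fun h1 => (h.2.2 h1).comp L⟩

theorem SS.comp {u : F → ℝ} (L : E ≃L[ℂ] F) {x : E} (h : SS u (L x)) :
    SS (fun y => u (L y)) x := by
  obtain ⟨h0, e, he, h1⟩ := h
  refine ⟨h0.comp L, L.symm e, by simpa using he, fun ε hε => ?_⟩
  simpa only [avg_comp, L.apply_symm_apply] using h1 ε hε

end transfer

end Pool.Agent.Lib.MP_9cdd18_an.CX
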