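import Pool.Agent.Lib.MP_9cdd18_an.CXWeil4

namespace Pool.Agent.Lib.MP_9cdd18_an.CX

open MeasureTheory Set Real Filter Topology Metric

namespace Ctx2

variable (c : Ctx2)

def Vn : Set ℂ := {z ∈ c.V4 | exp c.X * ‖c.Fn z‖ < exp (3 - c.hn)}

def Tn : Set (ℂ × ℂ) := {x ∈ c.Str c.x3 (c.h + 19 * (c.h / 20)) (1 / 2) |
  exp c.X * ‖c.Fn x.1‖ < exp (3 - c.hn) ∧ ‖c.Pn x‖ < exp (5 - c.hn)}

noncomputable def Wn (x : ℂ × ℂ) : ℝ := c.W x ^ c.n * ‖c.Qb x‖ ^ c.ν * exp (-(72 * c.S))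

theorem ball_V4 {z : ℂ} (h : z ∈ closedBall c.o c.ρ2) : z ∈ c.V4 := by
  obtain ⟨h1, h2⟩ := c.H.ball_sub z (closedBall_subset_closedBall (c.hρ2.trans c.H.a_mem).le h)
  exact ⟨h1, by linarith [c.ball_far h, c.x3_facts.2, c.x2_ϱ, c.x2_pos],
    h2.trans_lt (exp_lt_exp.2 (by linarith [c.H.h_ge]))⟩

theorem A_facts : (1:ℝ) ≤ c.A ∧ 16 * c.X ≤ c.A ∧ 100 * c.hn ≤ c.γ0 * c.A ∧ 200 ≤ c.hn := by
  have h1 : (1:ℝ) ≤ c.A := by exact_mod_cast c.A_pos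
  refine ⟨h1, by nlinarith [c.X_A, c.hγ1], ?_, ?_⟩ <;> simp only [hn]
  · nlinarith [c.hθγ]
  · linarith [c.g1, c.nH_ge]

theorem dist_b {z : ℂ} (hz : ‖z‖ ≤ 1) : ‖z - c.b‖ ≤ 2 := by
  linarith [norm_sub_le z c.b, c.H.V_sub c.b_V1.1.1, c.hRK]

theorem Fn_far {z : ℂ} (hz : z ∈ c.V1) (h : c.r ≤ ‖z - c.b‖) : exp (-(c.C1 * c.A)) ≤ ‖c.Fn z‖ := by
  rw [← le_log_iff_exp_le (c.log_Fn hz (c.far_ne h)).1]
  have h1 := c.Fn_low hz (c.far_ne h)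
  have h2 := mul_le_mul_of_nonneg_left (c.log_B_ge hz.1 h) (Nat.cast_nonneg c.κ)
  simp only [Ctx.A]
  push_cast
  linarith [c.X_pos]

theorem split : ∃ (sh : ℂ × ℂ → ℂ) (u : ℂ → ℂ), sh ∈ Pol ∧
    (∀ x ∈ closedBall (0 : ℂ × ℂ) 1, ‖sh x‖ ≤ exp ((7 + c.CI) * c.X)) ∧
    DifferentiableOn ℂ u c.V4 ∧
    (∀ z ∈ c.V4, ‖u z - exp c.X * c.uFn z‖ ≤ exp c.X * ‖c.uFn z‖ / 2) ∧
    ∀ z ∈ c.Vn, ∀ p : ℂ, ‖p‖ < exp (5 - c.hn) →
      ‖sh (c.Ψn (z, p)) - (z - c.b) ^ c.A * u z‖ ≤ ‖p‖ / 100 := by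
  obtain ⟨f, hf, h1, h2⟩ := c.weil
  obtain ⟨a1, a2, a3, a4⟩ := c.A_facts
  have hC := c.C1_ge
  have h0 := c.ηn_pos
  have h00 : ‖(0:ℂ)‖ ≤ exp (5 - c.hn) := by simpa using (exp_pos _).le
  have hb : ∀ z ∈ closedBall c.b c.r, z ∈ c.V4 := fun z hz =>
    c.ball_V4 (c.ballb (by simpa [dist_eq_norm] using hz))
  obtain ⟨T, g, h3, h4, h5⟩ := taylor_split c.V4_open c.hr c.hr1 hb c.A
    (fun z => f (c.Ψn (z, 0)) - c.Fn z) _
    ((((pol_diff hf).comp_differentiableOn (c.Ψn_slice 0 (by simpa using h0))).sub c.Fn_diff).mono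
      fun z hz => c.V4_V1 hz) fun z hz => (h2 z (hb z (sphere_subset_closedBall hz)) 0 h00).2
      (by simpa [dist_eq_norm] using (mem_sphere.1 hz).le)
  have h6 : ∀ z : ℂ, ‖z‖ ≤ 1 → ‖T.eval z‖ ≤ 3 / 20 * exp (-(c.C1 * c.A)) := fun z hz => by
    refine (h5 z (c.dist_b hz)).trans ?_
    have h6 : 8 / c.r ≤ exp (c.C1 + 1) := by
      have := c.hr
      rw [exp_add, Pre.C1, exp_log (by positivity), show 8 / c.r = 4 / c.r * 2 by ring]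
      gcongr; exact two_le_e
    have h7 : exp (-3) ≤ 1 / 20 := by
      rw [exp_neg, ← one_div]; exact one_div_le_one_div_of_le (by norm_num) le_exp_three
    calc _ ≤ 3 * exp (-(c.C5 * c.A)) * exp (c.C1 + 1) ^ c.A := by have := c.hr; gcongr
      _ ≤ 3 * (exp (-3) * exp (-(c.C1 * c.A))) := by
          rw [mul_assoc, ← exp_nat_mul, ← exp_add, ← exp_add, C5]
          exact mul_le_mul_of_nonneg_left (exp_le_exp.2 (by linarith)) (by norm_num)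
      _ ≤ _ := by nlinarith [exp_pos (-(c.C1 * c.A))]
  have h7 : exp (-(c.C5 * c.A)) ≤ exp (-(c.C1 * c.A)) / 20 := by
    rw [le_div_iff₀ (by norm_num)]
    calc _ ≤ exp (-(c.C5 * c.A)) * exp 3 := by gcongr; exact le_exp_three
      _ ≤ _ := by rw [← exp_add, exp_le_exp, C5]; nlinarith
  have h8 : ∀ z ∈ c.V4, c.r ≤ ‖z - c.b‖ → ‖g z / c.uFn z‖ ≤ 1 / 2 := fun z hz h => by
    have hz1 := c.V4_V1 hz
    have h8 := (h2 z hz 0 h00).1
    have h9 := h6 z ((c.H.V_sub hz.1).trans c.hRK.le)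
    have h10 := c.Fn_far hz1 h
    have h11 : ‖(z - c.b) ^ c.A * g z‖ ≤ ‖c.Fn z‖ / 2 := by
      rw [← sub_eq_iff_eq_add'.2 (h4 z)]
      linarith [norm_sub_le (f (c.Ψn (z, 0)) - c.Fn z) (T.eval z), exp_pos (-(c.C1 * c.A))]
    have h12 : 0 < ‖(z - c.b) ^ c.A‖ := norm_pos_iff.2 (pow_ne_zero _ (sub_ne_zero.2 (c.far_ne h)))
    rw [Ctx.Fn, norm_mul, norm_mul, mul_div_assoc, mul_le_mul_iff_right₀ h12] at h11
    rw [norm_div, div_le_iff₀ (norm_pos_iff.2 (c.uFn_ne hz1))]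
    linarith
  have h9 : ∀ z ∈ c.V4, ‖g z / c.uFn z‖ ≤ 1 / 2 := fun z hz => by
    rcases le_total c.r ‖z - c.b‖ with h | h
    · exact h8 z hz h
    · exact maxmod_ball c.hr ((h3.mono hb).div (c.uFn_diff.mono fun z hz => c.V4_V1 (hb z hz))
        fun z hz => c.uFn_ne (c.V4_V1 (hb z hz))) (fun z hz => h8 z
        (hb z (sphere_subset_closedBall hz)) (by simpa [dist_eq_norm] using (mem_sphere.1 hz).ge))
        z (by simpa [dist_eq_norm] using h)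
  have hα : ‖(exp c.X : ℂ)‖ = exp c.X := by
    rw [Complex.norm_real, norm_eq_abs, abs_of_pos (exp_pos _)]
  refine ⟨fun x => exp c.X * (f x - T.eval x.1), fun z => exp c.X * (c.uFn z + g z),
    pol_mul (const_mem _) (pol_sub hf (pol_eval T)), fun x hx => ?_,
    ((c.uFn_diff.mono fun z hz => c.V4_V1 hz).add h3).const_mul _, fun z hz => ?_,
    fun z hz p hp => ?_⟩
  · have h10 := h6 x.1 ((norm_fst_le x).trans (mem_closedBall_zero_iff.1 hx))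
    have h11 := exp_le_one_iff.2 (show -(c.C1 * c.A) ≤ 0 by nlinarith)
    have h12 : 0 ≤ c.CI * c.X := by have := c.X_pos; positivity
    have h13 := one_le_exp (show 0 ≤ (5 + c.CI) * c.X by linarith [c.X_pos])
    rw [norm_mul, hα]
    calc _ ≤ exp c.X * (exp 1 * exp ((5 + c.CI) * c.X)) := by
          gcongr
          nlinarith [norm_sub_le (f x) (T.eval x.1), h1 x hx, two_le_e]
      _ ≤ _ := by rw [← exp_add, ← exp_add, exp_le_exp]; linarith [c.X_nH, c.nH_ge]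
  · have h10 := h9 z hz
    rw [norm_div, div_le_iff₀ (norm_pos_iff.2 (c.uFn_ne (c.V4_V1 hz)))] at h10
    rw [← mul_sub, add_sub_cancel_left, norm_mul, hα, mul_div_assoc]
    gcongr; linarith
  · have hz1 := c.V4_V1 hz.1
    have h10 := c.ϱn_le'
    have h11 : ∀ q : ℂ, ‖q‖ ≤ exp (5 - c.hn) →
        exp c.X * ‖f (c.Ψn (z, q)) - c.Fn z‖ ≤ exp (5 - c.hn) / 200 := fun q hq => by
      have h11 := mul_le_mul_of_nonneg_left (h2 z hz.1 q hq).1 (exp_pos c.X).le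
      have h12 : exp c.X * exp (-(c.C5 * c.A)) * 8000 ≤ exp (3 - c.hn) := by
        calc _ ≤ exp c.X * exp (-(c.C5 * c.A)) * exp 9 := by gcongr; exact le_exp_nine
          _ ≤ _ := by rw [← exp_add, ← exp_add, exp_le_exp, C5]; nlinarith [c.hγ1]
      have h13 : exp (3 - c.hn) ≤ exp (5 - c.hn) := exp_le_exp.2 (by linarith)
      linarith [hz.2, exp_pos (3 - c.hn)]
    have h12 := Complex.dist_le_div_mul_dist_of_mapsTo_ball
      (f := fun q => exp c.X * f (c.Ψn (z, q))) (R₂ := exp (5 - c.hn) / 100)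
      ((((pol_diff hf).comp_differentiableOn (c.Ψn_q hz1)).mono
        (ball_subset_ball (by linarith))).const_mul _) (fun q hq => by
        rw [mem_closedBall, dist_eq_norm, ← mul_sub, norm_mul, hα]
        have h12 := mul_le_mul_of_nonneg_left (norm_sub_le_norm_sub_add_norm_sub
          (f (c.Ψn (z, q))) (c.Fn z) (f (c.Ψn (z, 0)))) (exp_pos c.X).le
        rw [norm_sub_rev (c.Fn z)] at h12
        linarith [h11 q (mem_ball_zero_iff.1 hq).le, h11 0 h00]) (mem_ball_zero_iff.2 hp)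
    rw [dist_eq_norm, dist_zero_right] at h12
    have h13 : (exp c.X : ℂ) * (f (c.Ψn (z, p)) - T.eval (c.Ψn (z, p)).1) -
        (z - c.b) ^ c.A * (exp c.X * (c.uFn z + g z)) =
        exp c.X * f (c.Ψn (z, p)) - exp c.X * f (c.Ψn (z, 0)) := by
      rw [(c.Ψn_spec hz1 (q := p) (by linarith)).2.1]
      have := h4 z
      simp only [Ctx.Fn] at this
      linear_combination (exp c.X : ℂ) * this
    rw [h13]
    refine h12.trans (le_of_eq ?_)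
    field_simp

theorem Fn_x3 {z : ℂ} (hz : z ∈ c.V1) (h : ‖z - c.a‖ ≤ c.x3) : 1 ≤ exp c.X * ‖c.Fn z‖ := by
  have h1 : ‖z - c.a‖ ≤ c.x2 := by linarith [c.x3_facts.2, c.x2_pos]
  obtain ⟨h2, h3⟩ := c.Fn_near hz h1
  have h4 := c.s_upM (t := exp (c.li + 1)) (h.trans (by
    simp only [x3]; nlinarith [mul_pos (exp_pos (c.li + 1)) c.x0_pos])) h1
  have h5 : log ‖c.γ z‖ ≤ c.M * (c.li + 1) + (c.li + -c.Hh) := by
    rw [log_le_iff_le_exp (c.γ_pos hz), exp_add, exp_add, exp_nat_mul, ← c.hHh]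
    exact (c.γ_spec hz).2.2.2.2.trans h4
  have h6 := mul_le_mul_of_nonneg_left h5 (sq_nonneg (c.n : ℝ))
  rw [← exp_log h2, ← exp_add]
  exact one_le_exp (by nlinarith [c.g7, c.n_ge])

theorem Fn_ball {z : ℂ} (h : z ∈ closedBall c.o c.ρ2) :
    2 * exp c.X * ‖c.Fn z‖ ≤ exp (-(3 * c.hn)) := by
  by_cases hb : z = c.b
  · rw [hb, c.Fn_b, norm_zero, mul_zero]; positivity
  have hz := c.V4_V1 (c.ball_V4 h)
  obtain ⟨a1, a2, a3, a4⟩ := c.A_facts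
  have h1 := c.Fn_up hz hb
  have h2 : ‖c.B z‖ ≤ _ := c.G2 z (closedBall_subset_closedBall c.hρ2.le h)
  rw [← log_le_iff_le_exp (norm_pos_iff.2 (c.B_ne hz.1 hb))] at h2
  have h3 : c.κ * log ‖c.B z‖ ≤ c.κ * -(c.M * c.k1 * c.γ0 / 2) :=
    mul_le_mul_of_nonneg_left h2 (Nat.cast_nonneg _)
  have h4 : -c.lg ≤ log ‖c.γ z‖ := by
    rw [le_log_iff_exp_le (c.γ_pos hz)]
    refine c.hlg.trans (le_trans ?_ (c.γ_spec hz).2.2.2.1)
    have := c.ϱ1_pos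
    have := c.ul_pos
    rw [Data.s, norm_mul, norm_pow, mul_comm]
    gcongr
    · exact c.ball_far h
    · exact c.hul z (c.V1_KV hz)
  have h5 := mul_le_mul_of_nonneg_left h4 (sq_nonneg (c.n : ℝ))
  have h6 : 0 ≤ (c.n:ℝ) ^ 2 * (2 * c.h + 1) := by have := c.H.h_ge; positivity
  have h7 := c.X_A
  rw [← exp_log (c.log_Fn hz hb).1]
  calc _ ≤ exp 1 * exp c.X * exp (log ‖c.Fn z‖) := by gcongr; exact two_le_e
    _ ≤ _ := by
      rw [← exp_add, ← exp_add, exp_le_exp]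
      simp only [Ctx.A] at h7 a3
      push_cast at h7 a3
      linarith [c.g8, c.hX2]

theorem Qb_xs : exp (-(c.D * (c.N * c.C0))) / 6 ≤ ‖c.Qb c.xs‖ := by
  have h1 : exp ((c.D - 1) * c.h) * ‖c.P c.xs‖ ^ c.D ≤ ‖c.Q c.xs‖ := c.hβ ▸ c.hβx
  have h2 : exp (-(c.D * (c.N * c.C0))) ≤ ‖c.P c.xs‖ ^ c.D := by
    rw [← mul_neg, exp_nat_mul]
    gcongr; exact c.H.P_xs
  rw [c.norm_Qb, le_div_iff₀ c.LQ_pos, Pre.LQ]
  nlinarith [exp_pos ((c.D - 1) * c.h)]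

theorem Pn_xs : exp (-(c.n * (c.N * c.C0) + c.S)) ≤ ‖c.Pn c.xs‖ := by
  have h1 := c.Pn_ge c.xs
  have h2 : exp (-(c.n * (c.N * c.C0))) ≤ ‖c.P c.xs‖ ^ c.n := by
    rw [← mul_neg, exp_nat_mul]
    gcongr; exact c.H.P_xs
  have h3 : exp (-(c.D * (c.N * c.C0))) / 6 * exp (-(c.n * (c.N * c.C0))) ≤
      ‖c.Qb c.xs‖ * ‖c.P c.xs‖ ^ c.n := by gcongr; exact c.Qb_xs
  have h4 : 0 ≤ c.N * c.C0 := by
    have := c.H.P_xs.trans (c.H.P_le _ c.hxs)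
    linarith [exp_le_one_iff.1 this]
  have h5 : (c.D : ℝ) ≤ c.n := by nlinarith [c.hH1, c.Hh_ge, c.H.h_ge, c.D_ge]
  have h6 : ∀ t, t + 3 ≤ -(c.D * (c.N * c.C0)) + -(c.n * (c.N * c.C0)) →
      20 * exp t ≤ exp (-(c.D * (c.N * c.C0))) * exp (-(c.n * (c.N * c.C0))) := fun t ht => by
    calc _ ≤ exp 3 * exp t := by gcongr; exact le_exp_three
      _ ≤ _ := by rw [← exp_add, ← exp_add, exp_le_exp]; linarith
  have h7 := h6 (-(c.n * c.Hh)) (by nlinarith [c.g10, c.n_ge])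
  have h8 := h6 (-(c.n * (c.N * c.C0) + c.S)) (by simp only [Ctx.S]; linarith [c.g9])
  rw [c.ηn_eq] at h1
  linarith [exp_pos (-(c.n * (c.N * c.C0) + c.S))]

theorem Wn_xs : exp (-(c.n * (c.N * c.Cv) + 2 * c.θ * c.n * (c.D * (c.N * c.C0) + 2) +
    72 * c.S)) ≤ c.Wn c.xs := by
  have h2 : exp (-(c.n * (c.N * c.Cv))) ≤ c.W c.xs ^ c.n := by
    rw [← mul_neg, exp_nat_mul]
    gcongr; exact c.H.W_xs
  have h4 : 0 ≤ c.N * c.C0 := by
    have := c.H.P_xs.trans (c.H.P_le _ c.hxs)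
    linarith [exp_le_one_iff.1 this]
  have h3 : exp (-(c.D * (c.N * c.C0) + 2)) ≤ ‖c.Qb c.xs‖ := by
    refine le_trans ?_ c.Qb_xs
    rw [neg_add, exp_add, exp_neg 2, ← div_eq_mul_inv]
    gcongr; linarith [le_exp_two]
  calc _ ≤ exp (-(c.n * (c.N * c.Cv))) * exp (-(c.D * (c.N * c.C0) + 2)) ^ c.ν *
        exp (-(72 * c.S)) := by
        rw [← exp_nat_mul, ← exp_add, ← exp_add, exp_le_exp]
        have := mul_le_mul_of_nonneg_right c.hν2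
          (show 0 ≤ c.D * (c.N * c.C0) + 2 by positivity)
        linarith
    _ ≤ _ := by
        have := (exp_pos _).le.trans h2
        unfold Wn; gcongr

theorem Tn_str {x : ℂ × ℂ} (hx : x ∈ c.Tn) {t : ℝ} (ht : t ≤ c.h + 19 * (c.h / 20)) :
    x ∈ c.Str c.x0 t (1 / 2) :=
  ⟨hx.1.1, by linarith [hx.1.2.1, c.x3_facts.1, c.x0_pos],
    hx.1.2.2.1.trans_le (exp_le_exp.2 (by linarith)), hx.1.2.2.2⟩

theorem Tn_Vn {x : ℂ × ℂ} (hx : x ∈ c.Tn) : x.1 ∈ c.Vn :=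
  ⟨⟨(c.H.Ψ_left x hx.1.1).1, hx.1.2.1, hx.1.2.2.1⟩, hx.2.1⟩

theorem Tn_left {x : ℂ × ℂ} (hx : x ∈ c.Tn) : c.Ψn (x.1, c.Pn x) = x :=
  c.Ψn_left hx.1.1 (c.V4_V1 (c.Tn_Vn hx).1) hx.1.2.2.2.le
    (by linarith [hx.2.2, c.ϱn_le', c.ηn_pos])

theorem Tn_open : IsOpen c.Tn := by
  have h0 := c.H.Str_open c.x3 (c.h + 19 * (c.h / 20)) (1 / 2)
  have h1 := isOpen_lt_on h0 (f := fun x => exp c.X * ‖c.Fn x.1‖) (g := fun _ => exp (3 - c.hn))
    (continuousOn_const.mul (c.Fn_diff.continuousOn.comp continuousOn_fst fun x hx =>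
      c.str_V1 hx (by linarith [c.x3_facts.1, c.x0_pos]) (by linarith [c.H.h_ge])).norm)
    continuousOn_const
  have h2 : IsOpen {x | ‖c.Pn x‖ < exp (5 - c.hn)} :=
    isOpen_lt (pol_cont c.Pn_pol).norm continuous_const
  have : c.Tn = _ ∩ _ := Set.ext fun x =>
    ⟨fun h => ⟨(⟨h.1, h.2.1⟩ : x ∈ {x ∈ c.Str c.x3 (c.h + 19 * (c.h / 20)) (1 / 2) |
      exp c.X * ‖c.Fn x.1‖ < exp (3 - c.hn)}), (h.2.2 : x ∈ {x | ‖c.Pn x‖ < exp (5 - c.hn)})⟩,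
      fun h => ⟨h.1.1, h.1.2, h.2⟩⟩
  rw [this]
  exact h1.inter h2

theorem K5 : IsCompact {z ∈ c.Vn | exp c.X * ‖c.Fn z‖ ≤ 2 * exp (-c.hn)} := by
  have hh := c.H.h_ge
  have h1 := c.H.lev_compact (t := c.h + 19 * (c.h / 20)) (by linarith) c.x3
  have h2 : ∀ z ∈ {z ∈ c.V | c.x3 ≤ ‖z - c.a‖ ∧ ‖c.s z‖ ≤ exp (-(c.h + 19 * (c.h / 20)))},
      z ∈ c.V1 := fun z hz => c.Sk_V1 ⟨hz.1, by linarith [hz.2.1, c.x3_facts.1, c.x0_pos],
        hz.2.2.trans (exp_le_exp.2 (by linarith))⟩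
  have h3 := h1.of_isClosed_subset (h1.isClosed.isClosed_le (f := fun z => exp c.X * ‖c.Fn z‖)
    (g := fun _ => 2 * exp (-c.hn)) (continuousOn_const.mul (c.Fn_diff.continuousOn.mono h2).norm)
    continuousOn_const) fun z hz => hz.1
  have h4 : 2 * exp (-c.hn) < 1 := by
    linarith [exp_neg_le (x := c.hn) four_pos (by linarith [c.A_facts.2.2.2])]
  have h5 : 2 * exp (-c.hn) < exp (3 - c.hn) := by
    rw [sub_eq_add_neg, exp_add]
    nlinarith [le_exp_three, exp_pos (-c.hn)]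
  refine (congrArg IsCompact (Set.ext fun z => ?_)).mp h3
  refine ⟨fun hz => ⟨⟨⟨hz.1.1, not_le.1 fun h => ?_, not_le.1 fun h => ?_⟩,
    hz.2.trans_lt h5⟩, hz.2⟩, fun hz => ⟨⟨hz.1.1.1, hz.1.1.2.1.le, hz.1.1.2.2.le⟩, hz.2⟩⟩
  · linarith [c.Fn_x3 (h2 z hz.1) h, hz.2]
  · have h6 := c.Flow (h2 z hz.1).1 ((exp_lt_exp.2 (by linarith)).trans_le h)
    have h7 := one_le_exp (show 0 ≤ c.X / 16 by linarith [c.X_pos])
    nlinarith [hz.2, one_le_exp c.X_pos.le]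

theorem new_data {s : ℝ} (hs : c.ς = s * c.N) : ∃ d : Data,
    IH d c.o c.ρ2 c.RK (c.θ1 + 2 * (7 + c.CI) * (c.θ * c.C1)) c.θ1 (c.C0 + s)
      (c.Cv + 2 * c.θ * (c.D * c.C0 + 2) + 72 * s) c.xs ∧ d.a = c.b ∧ d.N = c.N * c.n ∧
      (∀ x, d.U x ≤ max (c.U x) (exp (-c.N0)) ^ c.n) ∧
      ∀ x ∈ ball (0 : ℂ × ℂ) 1, d.W x ≤ c.W x ^ c.n := by
  obtain ⟨sh, u, s1, s2, s3, s4, s5⟩ := c.split
  obtain ⟨gU, u1, u2, u3, u4, u5, u6, u7⟩ := c.upper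
  obtain ⟨gL, Λn, l1, l2, l3, l4, l5, l6⟩ := c.lower
  obtain ⟨a1, a2, a3, a4⟩ := c.A_facts
  have hh := c.H.h_ge
  have h0 := c.ηn_pos
  have hϱ := c.ϱn_le'
  have hX := c.X_pos
  have hα : ∀ z, ‖(exp c.X : ℂ) * c.uFn z‖ = exp c.X * ‖c.uFn z‖ := fun z => by
    rw [norm_mul, Complex.norm_real, norm_eq_abs, abs_of_pos (exp_pos _)]
  have hu : ∀ z ∈ c.V4, exp c.X * ‖c.uFn z‖ ≤ 2 * ‖u z‖ ∧ ‖u z‖ ≤ 2 * exp c.X * ‖c.uFn z‖ :=
    fun z hz => by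
      have h1 := norm_sub_norm_le (u z) (exp c.X * c.uFn z)
      have h2 := norm_sub_norm_le (exp c.X * c.uFn z) (u z)
      rw [norm_sub_rev] at h2
      have := s4 z hz
      have := hα z
      have := norm_nonneg (u z)
      constructor <;> linarith
  have hsF : ∀ z ∈ c.V4, exp c.X * ‖c.Fn z‖ ≤ 2 * ‖(z - c.b) ^ c.A * u z‖ ∧
      ‖(z - c.b) ^ c.A * u z‖ ≤ 2 * exp c.X * ‖c.Fn z‖ := fun z hz => by
    simp only [Ctx.Fn, norm_mul]
    constructor <;> nlinarith [hu z hz, norm_nonneg ((z - c.b) ^ c.A)]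
  have hW : ∀ x ∈ ball (0 : ℂ × ℂ) 1, 0 ≤ c.W x := fun x hx => (c.H.W_LP x hx).2.1.self_of_nhds
  have hN : (1:ℝ) ≤ c.N := by exact_mod_cast c.H.N_pos
  have hn := c.n_ge
  refine ⟨⟨c.Pn, sh, c.A, c.N * c.n, c.hn, c.hn + (7 + c.CI) * c.X, exp c.X, exp (5 - c.hn), c.En,
    Λn, c.b, c.Vn, c.Tn, c.Ψn, u, c.uFn, gU, gL, c.Wn, c.τn⟩, ⟨c.Pn_pol, s1, fun x => c.Pn_le,
    fun x hx => by simpa using s2 x hx, c.A_pos, Nat.mul_pos c.H.N_pos c.n_pos, a4,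
    by simp only; positivity, ?_, le_rfl, ?_, ?_, l1, isOpen_lt_on c.V4_open
      (continuousOn_const.mul (c.Fn_diff.continuousOn.mono fun z hz => c.V4_V1 hz).norm)
      continuousOn_const, c.Tn_open, fun x hx => c.H.T_sub hx.1.1, c.Ψn_diff.mono (prod_mono
      (fun z hz => c.V4_V1 hz.1) (ball_subset_ball (by simp only; linarith))), fun z hz p hp => ?_,
    fun x hx => ⟨c.Tn_Vn hx, hx.2.2, c.Tn_left hx⟩, s3.mono fun z hz => hz.1,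
    c.uFn_diff.mono fun z hz => c.V4_V1 hz.1, fun z hz => c.uFn_ne (c.V4_V1 hz.1),
    fun z hz => (hu z hz.1).1, fun z hz => (hu z hz.1).2, fun x hx => ?_, ?_,
    by simp only; linarith [c.hb, c.hr], fun z hz => ?_, u1, u2, u3, c.τn_SM, fun x => ?_,
    fun x hx => ?_, fun x hx => u4 x _ (c.below_A hx),
    fun x hx => u5 x (c.Tn_str hx (by linarith)), u6, l2, fun x hx => u4 x _ (l3 x hx),
    fun x hx => l4 x (c.Tn_str hx le_rfl) (hx.2.2.le.trans hϱ), l5, fun x hx => ?_,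
    fun x hx hK => le_trans ?_ (l6 x hx fun h => hK (c.H.T_sub h)), le_trans ?_ c.Wn_xs,
    le_trans ?_ c.Pn_xs⟩, rfl, rfl, u7, fun x hx => ?_⟩
  · have h1 := mul_le_mul_of_nonneg_left c.A_ge c.θ_pos.le
    have h2 := mul_le_mul_of_nonneg_left (show c.X ≤ 2 * (c.θ * c.C1) * c.A by linarith [c.X_le])
      (show (0:ℝ) ≤ 7 + c.CI by positivity)
    simp only [Ctx2.hn]
    linarith
  · linarith [add_one_le_exp c.X, c.X_nH, c.nH_ge]
  · simp only [sub_eq_add_neg, exp_add]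
    nlinarith [add_one_le_exp 5, exp_pos (-c.hn)]
  · have hp' : ‖p‖ ≤ c.η ^ c.n := by simp only at hp; linarith
    obtain ⟨h1, h2, -, h3⟩ := c.Ψn_spec (c.V4_V1 hz.1) hp'
    have h4 := c.Ψn_str (c.V4_V1 hz.1) hp'
    refine ⟨⟨⟨h1, ?_, ?_, ?_⟩, ?_, ?_⟩, h2, h3⟩
    · rw [h2]; exact hz.1.2.1
    · rw [h2]; exact hz.1.2.2
    · linarith [norm_nonneg (c.s (c.Ψn (z, p)).1)]
    · rw [h2]; exact hz.2
    · rw [h3]; exact hp
  · have := s5 x.1 (c.Tn_Vn hx) (c.Pn x) hx.2.2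
    rwa [c.Tn_left hx] at this
  · have h1 := c.K5.of_isClosed_subset (c.K5.isClosed.isClosed_le
      (f := fun z => ‖(z - c.b) ^ c.A * u z‖) (g := fun _ => exp (-c.hn))
      (ContinuousOn.mul (by fun_prop) (s3.continuousOn.mono fun z hz => hz.1.1)).norm
      continuousOn_const) fun z hz => hz.1
    refine (congrArg IsCompact (Set.ext fun z => ?_)).mp h1
    refine ⟨fun hz => ⟨hz.1.1, hz.2⟩, fun hz => ⟨⟨hz.1, ?_⟩, hz.2⟩⟩
    have h2 : ‖(z - c.b) ^ c.A * u z‖ ≤ exp (-c.hn) := hz.2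
    linarith [(hsF z hz.1.1).1]
  · have h1 := c.Fn_ball hz
    have h2 : exp (-(3 * c.hn)) ≤ exp (3 - c.hn) := exp_le_exp.2 (by linarith)
    exact ⟨⟨c.ball_V4 hz, by linarith [exp_pos (3 - c.hn)]⟩, (hsF z (c.ball_V4 hz)).2.trans h1⟩
  · have := c.H.τ_nn x
    have := c.lR_nn x
    have := c.S_pos
    simp only [Ctx.τn]; positivity
  · simp only [Ctx.τn, Ctx.En]
    linarith [c.nτ_le hx, c.lR_le hx, c.S_pos]
  · exact (((c.H.W_LP x hx).pow _).mul ((LP.norm (Eventually.of_forall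
      (pol_diff c.Qb_pol))).pow _)).mul (LP.const (exp_pos _).le x)
  · have h1 := hW x hx
    have h2 := c.H.W_le x hx hK
    have h3 := h1.trans h2
    simp only [Wn, Ctx.fC]
    gcongr
    linarith [c.lR_nn x]
  · have h1 := mul_le_mul_of_nonneg_left hN (show 0 ≤ c.θ * c.n by have := c.θ_pos; positivity)
    simp only [exp_le_exp, Ctx.S, hs]
    push_cast
    linarith
  · simp only [exp_le_exp, Ctx.S, hs]
    push_cast
    linarith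
  · have h1 := pow_nonneg (hW x hx) c.n
    have h2 := c.Qbν_le (ball_subset_closedBall hx)
    have h3 := exp_le_one_iff.2 (show -(72 * c.S) ≤ 0 by linarith [c.S_pos])
    simp only [Wn]
    calc _ ≤ c.W x ^ c.n * 1 * 1 := by gcongr
      _ = _ := by ring

end Ctx2

end Pool.Agent.Lib.MP_9cdd18_an.CX
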