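import Pool.Agent.Lib.MP_9cdd18_an.CXMean

namespace Pool.Agent.Lib.MP_9cdd18_an.CX

open MeasureTheory Set Real Filter Topology Metric

theorem int_of_bdd {f : ℝ → ℝ} {B : ℝ} (hm : Measurable f) (hB : ∀ θ, |f θ| ≤ B) (a b : ℝ) :
    IntervalIntegrable f volume a b :=
  (intervalIntegrable_const (c := B)).mono_fun' hm.aestronglyMeasurable
    (Eventually.of_forall fun θ => hB θ)

theorem rev_fatou {ι : Type*} {l : Filter ι} [l.IsCountablyGenerated] {F : ι → ℝ → ℝ}
    {f : ℝ → ℝ} {B : ℝ} (hF : ∀ᶠ k in l, Measurable (F k) ∧ ∀ θ, |F k θ| ≤ B)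
    (hf : Measurable f) (hfB : ∀ θ, |f θ| ≤ B)
    (hlim : ∀ θ, ∀ ε > 0, ∀ᶠ k in l, F k θ ≤ f θ + ε) {ε : ℝ} (hε : 0 < ε) :
    ∀ᶠ k in l, ∫ θ in (0:ℝ)..(2 * π), F k θ ≤ (∫ θ in (0:ℝ)..(2 * π), f θ) + ε := by
  have h1 : Tendsto (fun k => ∫ θ in (0:ℝ)..(2 * π), max (F k θ - f θ) 0) l
      (𝓝 (∫ θ in (0:ℝ)..(2 * π), (0:ℝ))) := by
    refine intervalIntegral.tendsto_integral_filter_of_dominated_convergence (fun _ => 2 * B)
      ?_ ?_ intervalIntegrable_const ?_
    · filter_upwards [hF] with k hk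
      exact ((hk.1.sub hf).max measurable_const).aestronglyMeasurable
    · filter_upwards [hF] with k hk
      refine Eventually.of_forall fun θ _ => ?_
      have h2 := abs_le.1 (hk.2 θ)
      have h3 := abs_le.1 (hfB θ)
      rw [norm_eq_abs, abs_of_nonneg (le_max_right _ _)]
      exact max_le (by linarith) (by linarith)
    · refine Eventually.of_forall fun θ _ => ?_
      refine tendsto_order.2 ⟨fun a ha => Eventually.of_forall fun k =>
        lt_of_lt_of_le ha (le_max_right _ _), fun a ha => ?_⟩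
      filter_upwards [hlim θ (a / 2) (by linarith)] with k hk
      exact max_lt (by linarith) ha
  simp only [intervalIntegral.integral_zero] at h1
  filter_upwards [hF, h1.eventually (gt_mem_nhds hε)] with k hk h2
  have i1 := int_of_bdd hk.1 hk.2 0 (2 * π)
  have i2 := int_of_bdd hf hfB 0 (2 * π)
  have i3 : IntervalIntegrable (fun θ => max (F k θ - f θ) 0) volume 0 (2 * π) := by
    refine int_of_bdd (f := fun θ => max (F k θ - f θ) 0) (B := 2 * B)
      ((hk.1.sub hf).max measurable_const) (fun θ => ?_) _ _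
    have h2 := abs_le.1 (hk.2 θ)
    have h3 := abs_le.1 (hfB θ)
    rw [abs_of_nonneg (le_max_right _ _)]
    exact max_le (by linarith) (by linarith)
  have h3 : ∫ θ in (0:ℝ)..(2 * π), F k θ ≤
      ∫ θ in (0:ℝ)..(2 * π), (f θ + max (F k θ - f θ) 0) :=
    intervalIntegral.integral_mono_on (by positivity) i1 (i2.add i3) fun θ _ => by
      have := le_max_left (F k θ - f θ) 0
      linarith
  rw [intervalIntegral.integral_add i2 i3] at h3
  linarith

theorem int_normSq (p q : ℂ) :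
    ∫ θ in (0:ℝ)..(2 * π), Complex.normSq (p + Complex.exp (θ * Complex.I) * q) =
      2 * π * (Complex.normSq p + Complex.normSq q) := by
  have hf : ∀ θ : ℝ, Complex.normSq (p + Complex.exp (θ * Complex.I) * q) =
      (Complex.normSq p + Complex.normSq q) + ((2 * (p.re * q.re + p.im * q.im)) * cos θ -
        (2 * (p.re * q.im - p.im * q.re)) * sin θ) := by
    intro θ
    simp only [Complex.normSq_apply, Complex.add_re, Complex.add_im, Complex.mul_re,
      Complex.mul_im, Complex.exp_ofReal_mul_I_re, Complex.exp_ofReal_mul_I_im]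
    linear_combination (q.re ^ 2 + q.im ^ 2) * sin_sq_add_cos_sq θ
  simp only [hf]
  rw [intervalIntegral.integral_add (by simp) (Continuous.intervalIntegrable (by fun_prop) _ _),
    intervalIntegral.integral_sub (Continuous.intervalIntegrable (by fun_prop) _ _)
      (Continuous.intervalIntegrable (by fun_prop) _ _)]
  simp
  ring

theorem meas_of_usc {w : ℂ → ℝ} (hw : UpperSemicontinuousOn w (closedBall 0 1)) {p : ℝ → ℂ}
    (hp : Continuous p) (hp1 : ∀ θ, ‖p θ‖ ≤ 1) : Measurable fun θ => w (p θ) := by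
  have : UpperSemicontinuousOn (w ∘ p) univ :=
    hw.comp hp.continuousOn (fun θ _ => by simpa using hp1 θ)
  exact (upperSemicontinuousOn_univ_iff.1 this).measurable

theorem ev_small {ζ : ℂ} (hζ : ‖ζ‖ < 1) (c : ℂ) : ∀ᶠ ρ : ℝ in 𝓝[>] 0,
    ∀ θ : ℝ, ‖ζ + Complex.exp (θ * Complex.I) * (ρ * c)‖ ≤ 1 := by
  have h : ∀ᶠ y in 𝓝 ζ, ‖y‖ ≤ 1 :=
    (continuous_norm.continuousAt.eventually (gt_mem_nhds hζ)).mono fun _ h => h.le
  filter_upwards [ev_disc h c] with ρ hρ θ
  exact hρ _ (Complex.norm_exp_ofReal_mul_I θ).le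

theorem max_princ {W : ℂ → ℝ} {B : ℝ} (hW : UpperSemicontinuousOn W (closedBall 0 1))
    (hB : ∀ ζ, ‖ζ‖ ≤ 1 → |W ζ| ≤ B)
    (hloc : ∀ ζ, ‖ζ‖ < 1 → ∀ᶠ ρ : ℝ in 𝓝[>] 0, 2 * π * W ζ ≤
      ∫ θ in (0:ℝ)..(2 * π), W (ζ + Complex.exp (θ * Complex.I) * (ρ * 1))) :
    ∃ ζ, ‖ζ‖ = 1 ∧ W 0 ≤ W ζ + 1 := by
  have hc : Continuous fun ζ : ℂ => Complex.normSq ζ := Complex.continuous_normSq
  obtain ⟨ζ, hζ, hmax⟩ := (hW.add hc.continuousOn.upperSemicontinuousOn).exists_isMaxOn
    ⟨0, by simp⟩ (isCompact_closedBall 0 1)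
  have hζ1 : ‖ζ‖ ≤ 1 := by simpa using hζ
  rcases hζ1.eq_or_lt with h | h
  · refine ⟨ζ, h, ?_⟩
    have := hmax (show (0:ℂ) ∈ closedBall 0 1 by simp)
    simp only [mem_ofPred_eq, map_zero, add_zero] at this
    rwa [← Complex.sq_norm, h, one_pow] at this
  · exfalso
    obtain ⟨ρ, h1, h2, h3⟩ := ((hloc ζ h).and ((ev_small h 1).and self_mem_nhdsWithin)).exists
    have hρ : 0 < ρ := h3
    have hp : Continuous fun θ : ℝ => ζ + Complex.exp (θ * Complex.I) * (ρ * 1) := by fun_prop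
    have i1 := int_of_bdd (meas_of_usc hW hp h2) (fun θ => hB _ (h2 θ)) 0 (2 * π)
    have i2 : IntervalIntegrable (fun θ : ℝ =>
        Complex.normSq (ζ + Complex.exp (θ * Complex.I) * (ρ * 1))) volume 0 (2 * π) :=
      (hc.comp hp).intervalIntegrable _ _
    have h4 : ∫ θ in (0:ℝ)..(2 * π), (W (ζ + Complex.exp (θ * Complex.I) * (ρ * 1)) +
        Complex.normSq (ζ + Complex.exp (θ * Complex.I) * (ρ * 1))) ≤
        ∫ θ in (0:ℝ)..(2 * π), (W ζ + Complex.normSq ζ) :=
      intervalIntegral.integral_mono_on (by positivity) (i1.add i2) intervalIntegrable_const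
        fun θ _ => hmax (by simpa using h2 θ)
    rw [intervalIntegral.integral_add i1 i2, int_normSq] at h4
    simp only [mul_one, Complex.normSq_ofReal, intervalIntegral.integral_const, sub_zero,
      smul_eq_mul] at h4 h1
    have : 0 < 2 * π * (ρ * ρ) := by positivity
    nlinarith

theorem int_step (g : ℕ → ℝ) {k : ℕ} (hk : 0 < k) :
    ∫ θ in (0:ℝ)..(2 * π), g ⌊θ / (2 * π / k)⌋₊ = 2 * π / k * ∑ i ∈ Finset.range k, g i := by
  set δ : ℝ := 2 * π / k with hδ
  have hk' : (0:ℝ) < k := by exact_mod_cast hk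
  have hδp : 0 < δ := by positivity
  have key : ∀ i : ℕ, ∀ᵐ θ : ℝ, θ ∈ uIoc ((i:ℝ) * δ) (((i + 1 : ℕ) : ℝ) * δ) →
      g ⌊θ / δ⌋₊ = g i := by
    intro i
    filter_upwards [Measure.ae_ne volume (((i + 1 : ℕ) : ℝ) * δ)] with θ hθ h
    have hle : (i:ℝ) * δ ≤ ((i + 1 : ℕ) : ℝ) * δ := by push_cast; nlinarith
    rw [uIoc_of_le hle] at h
    congr 1
    have h1 : (i:ℝ) ≤ θ / δ := by rw [le_div_iff₀ hδp]; exact h.1.le
    rw [Nat.floor_eq_iff (le_trans (Nat.cast_nonneg i) h1)]
    refine ⟨h1, ?_⟩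
    rw [div_lt_iff₀ hδp]
    have := lt_of_le_of_ne h.2 hθ
    push_cast at this
    exact this
  have h1 := intervalIntegral.sum_integral_adjacent_intervals (μ := volume)
    (f := fun θ => g ⌊θ / δ⌋₊) (a := fun i : ℕ => (i:ℝ) * δ) (n := k) (fun i _ => by
      refine (intervalIntegrable_const (c := g i)).congr_ae ?_
      rw [EventuallyEq, ae_restrict_iff' measurableSet_uIoc]
      filter_upwards [key i] with θ h1 h2 using (h1 h2).symm)
  have h2 : (k:ℝ) * δ = 2 * π := by rw [hδ]; field_simp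
  simp only [Nat.cast_zero, zero_mul, h2] at h1
  rw [← h1, Finset.mul_sum]
  refine Finset.sum_congr rfl fun i _ => ?_
  rw [intervalIntegral.integral_congr_ae (key i), intervalIntegral.integral_const]
  push_cast
  rw [smul_eq_mul]; ring

theorem rot_mean {w : ℂ → ℝ} {B : ℝ} (hw : UpperSemicontinuousOn w (closedBall 0 1))
    (hB : ∀ ζ, ‖ζ‖ ≤ 1 → |w ζ| ≤ B)
    (hloc : ∀ ζ c, ‖ζ‖ < 1 → ∀ᶠ ρ : ℝ in 𝓝[>] 0, 2 * π * w ζ ≤
      ∫ θ in (0:ℝ)..(2 * π), w (ζ + Complex.exp (θ * Complex.I) * (ρ * c))) :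
    2 * π * w 0 ≤ ∫ θ in (0:ℝ)..(2 * π), w (Complex.exp (θ * Complex.I)) := by
  set om : ℕ → ℕ → ℂ := fun k i => Complex.exp ((2 * π / k * i : ℝ) * Complex.I) with hom
  have hom1 : ∀ k i, ‖om k i‖ = 1 := fun k i => Complex.norm_exp_ofReal_mul_I _
  have hstep : ∀ k : ℕ, ∃ ζ : ℂ, ‖ζ‖ = 1 ∧
      k * w 0 ≤ (∑ i ∈ Finset.range k, w (om k i * ζ)) + 1 := by
    intro k
    have h := max_princ (W := fun ζ => ∑ i ∈ Finset.range k, w (om k i * ζ)) (B := k * B)
      (upperSemicontinuousOn_sum fun i _ => hw.comp (by fun_prop) (fun ζ hζ => by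
        simpa [hom1] using hζ)) (fun ζ hζ => ?_) (fun ζ hζ => ?_)
    · simpa using h
    · refine (Finset.abs_sum_le_sum_abs _ _).trans ?_
      refine (Finset.sum_le_card_nsmul _ _ B fun i _ => hB _ (by simpa [hom1] using hζ)).trans ?_
      simp
    · have h1 : ∀ᶠ ρ : ℝ in 𝓝[>] 0, ∀ i ∈ Finset.range k, 2 * π * w (om k i * ζ) ≤
          ∫ θ in (0:ℝ)..(2 * π), w (om k i * ζ + Complex.exp (θ * Complex.I) * (ρ * om k i)) :=
        (Finset.eventually_all _).2 fun i _ => hloc _ _ (by simpa [hom1] using hζ)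
      filter_upwards [h1, ev_small hζ 1] with ρ h2 h3
      rw [intervalIntegral.integral_finsetSum, Finset.mul_sum]
      · refine Finset.sum_le_sum fun i hi => (h2 i hi).trans (le_of_eq ?_)
        congr 1; ext θ; congr 1; ring
      · intro i _
        have h4 : ∀ θ : ℝ, ‖om k i * (ζ + Complex.exp (θ * Complex.I) * (ρ * 1))‖ ≤ 1 :=
          fun θ => by rw [norm_mul, hom1, one_mul]; exact h3 θ
        exact int_of_bdd (meas_of_usc hw (by fun_prop) h4) (fun θ => hB _ (h4 θ)) _ _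
  choose z hz1 hz2 using hstep
  obtain ⟨z0, hz0, φ, hφ, hlim⟩ := (isCompact_sphere (0:ℂ) 1).tendsto_subseq
    (x := z) (fun k => by simpa using hz1 k)
  have hz0' : ‖z0‖ = 1 := by simpa using hz0
  have hφt : Tendsto (fun j => (φ j : ℝ)) atTop atTop :=
    tendsto_natCast_atTop_atTop.comp hφ.tendsto_atTop
  have hδ : Tendsto (fun j => 2 * π / (φ j : ℝ)) atTop (𝓝 0) := hφt.const_div_atTop _
  set F : ℕ → ℝ → ℝ := fun j θ =>
    w (om (φ j) ⌊max θ 0 / (2 * π / (φ j : ℝ))⌋₊ * z (φ j)) with hF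
  set f : ℝ → ℝ := fun θ => w (Complex.exp ((max θ 0 : ℝ) * Complex.I) * z0) with hf
  have hfn : ∀ θ : ℝ, ‖Complex.exp ((max θ 0 : ℝ) * Complex.I) * z0‖ ≤ 1 := fun θ => by
    rw [norm_mul, Complex.norm_exp_ofReal_mul_I, hz0', one_mul]
  have hRF := fun ε hε => rev_fatou (l := atTop) (F := F) (f := f) (B := B)
    (Eventually.of_forall fun j => ⟨by
      exact (measurable_from_nat (f := fun i => w (om (φ j) i * z (φ j)))).comp
        (Nat.measurable_floor.comp (by fun_prop)),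
      fun θ => hB _ (by rw [norm_mul, hom1, hz1, one_mul])⟩)
    (meas_of_usc hw (by fun_prop) hfn) (fun θ => hB _ (hfn θ)) (fun θ ε hε => by
      have h1 : Tendsto (fun j => 2 * π / (φ j : ℝ) * ⌊max θ 0 / (2 * π / (φ j : ℝ))⌋₊) atTop
          (𝓝 (max θ 0)) := by
        have h2 : Tendsto (fun j => max θ 0 - 2 * π / (φ j : ℝ)) atTop (𝓝 (max θ 0)) := by
          simpa using tendsto_const_nhds.sub hδ
        refine tendsto_of_tendsto_of_tendsto_of_le_of_le' h2 tendsto_const_nhds ?_ ?_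
        · filter_upwards [hφt.eventually (eventually_gt_atTop 0)] with j hj
          have hd : 0 < 2 * π / (φ j : ℝ) := by positivity
          have := Nat.lt_floor_add_one (max θ 0 / (2 * π / (φ j : ℝ)))
          rw [div_lt_iff₀ hd] at this
          linarith
        · filter_upwards [hφt.eventually (eventually_gt_atTop 0)] with j hj
          have hd : 0 < 2 * π / (φ j : ℝ) := by positivity
          have := Nat.floor_le (a := max θ 0 / (2 * π / (φ j : ℝ)))
            (div_nonneg (le_max_right _ _) hd.le)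
          rw [le_div_iff₀ hd] at this
          linarith
      have h2 : Tendsto (fun j => om (φ j) ⌊max θ 0 / (2 * π / (φ j : ℝ))⌋₊ * z (φ j)) atTop
          (𝓝[closedBall 0 1] (Complex.exp ((max θ 0 : ℝ) * Complex.I) * z0)) := by
        refine tendsto_nhdsWithin_iff.2 ⟨Tendsto.mul ?_ hlim, Eventually.of_forall fun j => ?_⟩
        · have hc : Continuous fun t : ℝ => Complex.exp (t * Complex.I) := by fun_prop
          exact (hc.tendsto _).comp h1
        · simp [hom1, hz1]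
      have h3 := hw (Complex.exp ((max θ 0 : ℝ) * Complex.I) * z0)
        (mem_closedBall_zero_iff.2 (hfn θ)) (f θ + ε) (by simp only [hf]; linarith)
      exact (h2.eventually h3).mono fun j hj => le_of_lt hj) (ε := ε) hε
  have hint : ∫ θ in (0:ℝ)..(2 * π), f θ = ∫ θ in (0:ℝ)..(2 * π), w (Complex.exp (θ * Complex.I)) := by
    have h1 : z0 = Complex.exp ((z0.arg : ℝ) * Complex.I) := by
      have := Complex.norm_mul_exp_arg_mul_I z0
      rw [hz0'] at this
      simpa using this.symm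
    have hper : Function.Periodic (fun θ : ℝ => w (Complex.exp (θ * Complex.I))) (2 * π) := by
      intro θ
      simp only
      congr 1
      push_cast
      rw [add_mul, Complex.exp_add, Complex.exp_two_pi_mul_I, mul_one]
    have h2 := hper.intervalIntegral_add_eq z0.arg 0
    rw [zero_add] at h2
    rw [← h2]
    have h3 := intervalIntegral.integral_comp_add_right (a := 0) (b := 2 * π)
      (fun θ : ℝ => w (Complex.exp (θ * Complex.I))) z0.arg
    rw [zero_add, add_comm (2 * π)] at h3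
    rw [← h3]
    refine intervalIntegral.integral_congr fun θ hθ => ?_
    rw [uIcc_of_le (by positivity)] at hθ
    simp only [hf, max_eq_left hθ.1]
    congr 1
    conv_lhs => rw [h1]
    rw [← Complex.exp_add]
    push_cast
    ring_nf
  rw [← hint]
  refine le_of_forall_pos_le_add fun ε hε => ?_
  obtain ⟨j, h1, h2, h3⟩ := ((hRF (ε / 2) (by linarith)).and
    ((hφt.eventually (eventually_gt_atTop 0)).and
      (hδ.eventually (gt_mem_nhds (half_pos hε))))).exists
  have hj : 0 < φ j := by exact_mod_cast h2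
  have h4 : ∫ θ in (0:ℝ)..(2 * π), F j θ =
      2 * π / (φ j : ℝ) * ∑ i ∈ Finset.range (φ j), w (om (φ j) i * z (φ j)) := by
    rw [← int_step (fun i => w (om (φ j) i * z (φ j))) hj]
    refine intervalIntegral.integral_congr fun θ hθ => ?_
    rw [uIcc_of_le (by positivity)] at hθ
    simp only [hF, max_eq_left hθ.1]
  have h5 := mul_le_mul_of_nonneg_left (hz2 (φ j)) (show 0 ≤ 2 * π / (φ j : ℝ) by positivity)
  have h6 : 2 * π / (φ j : ℝ) * (φ j * w 0) = 2 * π * w 0 := by field_simp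
  rw [h6, mul_add, ← h4] at h5
  linarith

end Pool.Agent.Lib.MP_9cdd18_an.CX
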