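import Pool.Agent.Lib.MP_9cdd18_an.CXNew

namespace Pool.Agent.Lib.MP_9cdd18_an.CX

open MeasureTheory Set Real Filter Topology Metric

theorem ev_log (K : ℝ) : ∀ᶠ n : ℕ in atTop, K ≤ log n :=
  (tendsto_log_atTop.comp tendsto_natCast_atTop_atTop).eventually_ge_atTop K

theorem ev_lin {t : ℝ} (ht : 0 < t) (K : ℝ) : ∀ᶠ n : ℕ in atTop, K ≤ t * n :=
  (tendsto_natCast_atTop_atTop.const_mul_atTop ht).eventually_ge_atTop K

theorem ev_sub (a b : ℝ) : ∀ᶠ n : ℕ in atTop, a * log n + b ≤ n := by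
  have h1 := (isLittleO_log_id_atTop.const_mul_left a).bound (c := 1 / 2) (by norm_num)
  filter_upwards [tendsto_natCast_atTop_atTop.eventually h1, ev_lin (t := 1 / 2) (by norm_num) b]
    with n h2 h3
  simp only [id, norm_eq_abs, Nat.abs_cast] at h2
  linarith [le_abs_self (a * log n)]

theorem ev_tiny (u : ℝ) {ε : ℝ} (hε : 0 < ε) : ∀ᶠ n : ℕ in atTop, u * exp (-(2 * log n)) ≤ ε := by
  have h1 : Tendsto (fun n : ℕ => u * exp (-(2 * log n))) atTop (𝓝 (u * 0)) :=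
    (tendsto_exp_neg_atTop_nhds_zero.comp ((tendsto_log_atTop.comp
      tendsto_natCast_atTop_atTop).const_mul_atTop two_pos)).const_mul u
  exact h1.eventually_le_const (by simpa using hε)

theorem Pre.next (c : Pre) {CI : ℕ} (hCI1 : 2 * c.C ≤ CI) (hCI2 : 2 * c.C1 + 4 ≤ CI * c.γ0)
    {θ1 s : ℝ} (hθ : 0 < θ1) (hθγ : θ1 ≤ c.γ0 / 100) (hs : 100 ≤ s * c.N) (N0 : ℝ) (Nm : ℕ) :
    ∃ (d : Data) (n : ℕ), IH d c.o c.ρ2 c.RK (θ1 + 2 * (7 + CI) * (c.θ * c.C1)) θ1 (c.C0 + s)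
      (c.Cv + 2 * c.θ * (c.D * c.C0 + 2) + 72 * s) c.xs ∧ d.a = c.b ∧ d.N = c.N * n ∧ Nm ≤ n ∧
      (∀ x, d.U x ≤ max (c.U x) (exp (-N0)) ^ n) ∧
      ∀ x ∈ ball (0 : ℂ × ℂ) 1, d.W x ≤ c.W x ^ n := by
  obtain ⟨t1, t2, ht1, ht2, hPt⟩ := hefer c.H.hP
  obtain ⟨q1, q2, hq1, hq2, hQq⟩ := hefer c.Qb_pol
  obtain ⟨Δm, hΔ⟩ := ((isCompact_closedBall (0 : ℂ × ℂ) 1).prod
    (isCompact_closedBall (0 : ℂ × ℂ) 1)).exists_bound_of_continuousOn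
    ((ht1.mul hq2).sub (ht2.mul hq1)).diff.continuous.continuousOn
  have hh := c.H.h_ge
  obtain ⟨χo, hχo, o1, o2⟩ := exists_cut
    (c.H.lev_compact (t := c.h + 3 * (c.h / 20)) (by linarith) 0).isClosed
    (isOpen_lt_on c.H.V_open c.H.s_diff.continuousOn.norm
      (g := fun _ => exp (-(c.h + 2 * (c.h / 20)))) continuousOn_const)
    fun z hz => ⟨hz.1, hz.2.2.trans_lt (exp_lt_exp.2 (by linarith))⟩
  obtain ⟨Wo, hWo0, hWo⟩ := dbar_bdd hχo c.H.KV_compact fun z hz =>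
    ⟨(o1 z hz).1, (o1 z hz).2.le.trans (exp_le_exp.2 (by linarith))⟩
  obtain ⟨Wi, hWi0, hWi⟩ := exists_bump
  obtain ⟨li, hli⟩ : ∃ li, 2 * c.uu * 3 ^ c.M ≤ c.um * exp li := ⟨2 * c.uu * 3 ^ c.M / c.um, by
    rw [← div_le_iff₀' c.um_pos]; linarith [add_one_le_exp (2 * c.uu * 3 ^ c.M / c.um)]⟩
  obtain ⟨lg, hlg⟩ : ∃ lg, exp (-lg) ≤ c.ul * c.ϱ1 ^ c.M / 2 := ⟨-log (c.ul * c.ϱ1 ^ c.M / 2), by
    have := c.ul_pos
    have := c.ϱ1_pos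
    rw [neg_neg, exp_log (by positivity)]⟩
  obtain ⟨Ci, hCi⟩ := exists_nat_ge (max (li + 2) ((8 * (2 * c.C1 + 4) + 2) / c.γ0))
  obtain ⟨J, hJ⟩ := exists_nat_ge (2 * (5 + CI + (2 * c.C1 + 4)) / θ1)
  obtain ⟨c0, hc0, hc1⟩ : ∃ c0, 0 ≤ c0 ∧ c.um = exp (-c0) :=
    ⟨-log c.um, neg_nonneg.2 (log_nonpos c.um_pos.le c.um_le), by rw [neg_neg, exp_log c.um_pos]⟩
  have hM : (1:ℝ) ≤ c.M := by exact_mod_cast c.H.M_pos
  have hk : (1:ℝ) ≤ c.k1 := by exact_mod_cast c.hk1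
  have hθ0 := c.θ_pos
  have hC := c.C1_ge
  obtain ⟨ℓ, hℓ, hℓ0, hℓ1⟩ : ∃ ℓ, ℓ = -log ‖c.B c.a‖ ∧ 0 < ℓ ∧ ℓ ≤ c.M * c.k1 * c.C1 := by
    refine ⟨_, rfl, ?_, ?_⟩
    · have h1 : ‖c.B c.a‖ ≤ _ := c.G2 c.a (by simp [dist_eq_norm])
      rw [← log_le_iff_le_exp (norm_pos_iff.2 c.Ba_ne)] at h1
      have := c.hγ0
      have : 0 < c.M * c.k1 * c.γ0 / 2 := by positivity
      linarith
    · have h1 := log_le_log (by have := c.hr; positivity) (c.G1 _ c.a_Vout c.a_ne_b.le)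
      rw [log_pow, ← inv_div, log_inv] at h1
      push_cast at h1
      simp only [Pre.C1, Pre.B]
      linarith
  have evH : ∀ K, ∀ᶠ n : ℕ in atTop, K ≤ 8 * c.M * log n + c0 := fun K => by
    filter_upwards [ev_log K, ev_log 0] with n h1 h2
    nlinarith only [h1, h2, hM, hc0]
  have evX : ∀ K, ∀ᶠ n : ℕ in atTop, K ≤ c.θ * (8 * c.M * log n + c0) := fun K => by
    filter_upwards [evH (K / c.θ)] with n h1
    rwa [div_le_iff₀' hθ0] at h1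
  obtain ⟨n, e1, e2, e3, e4, e5, e6, e7, e8, e9, e10, e11, e12, e13, e14, e15, e16, e17, e18, e19,
      e20, e21, e22, e23, e24, e25⟩ := ((ev_log 3).and ((ev_log c.Λ).and ((ev_log (li + 1)).and
    ((ev_log (1 + c0)).and ((ev_tiny c.uu (div_pos c.ϱ1_pos four_pos)).and
    ((ev_tiny c.uu (exp_pos (-(2 * c.h)))).and ((ev_tiny c.uu (exp_pos (-N0))).and
    ((ev_tiny 1 c.mU_pos).and ((ev_sub (8 * c.M) (c0 + c.D * c.h + 5)).and
    ((evH (20 * c.h + 20)).and ((evH (8 * li)).and ((evH (2 * (c.N * c.C0) + 1)).and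
    ((ev_lin hθ0 (4 * J + 30)).and ((evX (32 * |log (8 * c.α) + c.Λ + 3 + 27 * (s * c.N)|)).and
    ((evX (8 * (2 * c.h + 1 + c.M * c.k1 * c.C1))).and ((evX (2 * ((li + 1) * Ci))).and
    ((evX (li + c.M * (li + 1) + 1)).and ((evX (8 * (1 + lg))).and
    ((ev_sub 0 (Δm * max Wo Wi)).and ((ev_sub 0 (log c.α + 3)).and
    ((ev_sub 0 (c.D * (c.N * c.C0) + 3)).and ((ev_lin hθ (3 * c.C1)).and
    ((ev_sub (c.Lip * (16 * c.M / ℓ)) (c.Lip * (2 * c0 / ℓ + 1))).and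
    ((eventually_ge_atTop Nm).and (eventually_ge_atTop 1))))))))))))))))))))))))).exists
  have hn : (1:ℝ) ≤ n := by exact_mod_cast e25
  obtain ⟨y, hy⟩ : ∃ y, y = log n := ⟨_, rfl⟩
  rw [← hy] at e1 e2 e3 e4 e5 e6 e7 e8 e9 e10 e11 e12 e14 e15 e16 e17 e18 e23
  obtain ⟨x2, hx2⟩ : ∃ x2, x2 = exp (-(2 * y)) := ⟨_, rfl⟩
  have hx3 : x2 * n ^ 2 = 1 := by
    rw [hx2, ← exp_log (show (0:ℝ) < n by linarith), ← hy, ← exp_nat_mul, ← exp_add]; simp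
  have hx0 : 0 < x2 := hx2 ▸ exp_pos _
  have hx1 : x2 ^ 4 ≤ x2 := pow_le_of_le_one hx0.le
    (hx2 ▸ exp_le_one_iff.2 (by linarith)) (by norm_num)
  rw [← hx2] at e5 e6 e7 e8
  obtain ⟨H, hH⟩ : ∃ H, H = 8 * c.M * y + c0 := ⟨_, rfl⟩
  rw [← hH] at e10 e11 e12 e14 e15 e16 e17 e18
  have hη : c.um * (x2 ^ 4) ^ c.M = exp (-H) := by
    rw [hc1, hx2, ← exp_nat_mul, ← exp_nat_mul, ← exp_add, hH]
    push_cast; ring_nf
  have hν1 := Nat.le_ceil (c.θ * n)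
  have hν2 := (Nat.ceil_lt_add_one (show 0 ≤ c.θ * n by positivity)).le
  obtain ⟨X, hX⟩ : ∃ X, X = ⌈c.θ * n⌉₊ * n * H := ⟨_, rfl⟩
  have hJ0 : (0:ℝ) ≤ J := Nat.cast_nonneg _
  have hH0 : 4000 ≤ H := by linarith only [e10, hh]
  have hnH : 4000 ≤ n * H := by nlinarith only [hH0, hn]
  have hX1 : c.θ * n * (n * H) ≤ X := by rw [hX, mul_assoc _ (n:ℝ) H]; gcongr
  have hX2 : X ≤ n ^ 2 * H := by
    have : (⌈c.θ * n⌉₊ : ℝ) ≤ n := by nlinarith only [c.θ_le, hν2, hn, e13, hJ0]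
    rw [hX, sq]; gcongr
  have hX0 : 0 ≤ X := le_trans (by positivity) hX1
  have hXK : ∀ K, K ≤ c.θ * H → K * n ^ 2 ≤ X := fun K hK => by
    linarith only [mul_le_mul_of_nonneg_right hK (sq_nonneg (n:ℝ)), hX1]
  have hμ1 := Nat.le_ceil (X / (15 * (c.h / 20)))
  have hμ2 := (Nat.ceil_lt_add_one (show 0 ≤ X / (15 * (c.h / 20)) by positivity)).le
  have hnn : 0 ≤ (n:ℝ) ^ 2 * H := by positivity
  have hκ1 := Nat.le_ceil ((n ^ 2 * H + X / 4) / ℓ)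
  have hκ2 := (Nat.ceil_lt_add_one (show 0 ≤ (n ^ 2 * H + X / 4) / ℓ by positivity)).le
  obtain ⟨κ, hκ⟩ : ∃ κ, κ = ⌈(n ^ 2 * H + X / 4) / ℓ⌉₊ := ⟨_, rfl⟩
  rw [← hκ] at hκ1 hκ2
  rw [div_le_iff₀ hℓ0] at hκ1
  rw [div_add_one hℓ0.ne', le_div_iff₀ hℓ0] at hκ2
  rw [div_le_iff₀ (by positivity)] at hμ1
  rw [div_add_one (by positivity), le_div_iff₀ (by positivity)] at hμ2
  have hκ0 : (0:ℝ) ≤ κ := Nat.cast_nonneg _
  have hn2 : (n:ℝ) ≤ n ^ 2 := by nlinarith only [hn]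
  obtain ⟨χi, hχi, i1, i2, i3⟩ := hWi c.a (x2 ^ 4) (by positivity)
  have f1 : H + c.D * c.h + 5 ≤ n := by linarith only [hH, e9]
  have f2 : 5 / 8 * H ≤ c.M * (6 * y - 1) := by nlinarith only [hH, hM, e4, hc0]
  have f3 : exp (-H) ≤ c.mU := by
    rw [← hη]
    have h1 := pow_le_of_le_one (n := c.M) (show 0 ≤ x2 ^ 4 by positivity)
      (hx1.trans (hx2 ▸ exp_le_one_iff.2 (by linarith only [e1]))) (by have := c.H.M_pos; omega)
    linarith only [mul_le_of_le_one_left (pow_pos (pow_pos hx0 4) c.M).le c.um_le, h1, hx1, e8]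
  have f4 : c.uu * x2 ^ 4 ≤ exp (-N0) :=
    (mul_le_mul_of_nonneg_left hx1 (by linarith only [c.uu_ge])).trans e7
  have f5 : (⌈c.θ * n⌉₊ : ℝ) ≤ 2 * c.θ * n := by linarith only [hν2, e13, hJ0]
  have f6 : 30 ≤ ⌈c.θ * n⌉₊ := by
    exact_mod_cast (by linarith only [hν1, e13, hJ0] : (30:ℝ) ≤ ⌈c.θ * n⌉₊)
  have f7 : n ^ 2 * H + X / 4 ≤ κ * -log ‖c.B c.a‖ := hℓ ▸ hκ1
  have f8 : κ * -log ‖c.B c.a‖ ≤ n ^ 2 * H + X / 4 + c.M * c.k1 * c.C1 := by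
    rw [← hℓ]; linarith only [hκ2, hℓ1]
  have f9 : κ * c.Lip * x2 ≤ n := by
    have h1 : κ * x2 ≤ 2 * H / ℓ + 1 := by
      rw [div_add_one hℓ0.ne', le_div_iff₀ hℓ0]
      have h0 := mul_le_mul_of_nonneg_left (hn.trans hn2) hℓ0.le
      have h2 := mul_le_mul_of_nonneg_right (show κ * ℓ ≤ (2 * H + ℓ) * n ^ 2 by
        linarith only [h0, hκ2, hX2, hnn]) hx0.le
      rw [mul_assoc (_ + _), mul_comm (_ ^ 2), hx3] at h2
      linarith only [h2]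
    have h2 := mul_le_mul_of_nonneg_left h1 c.Lip_nn
    have h3 : c.Lip * (2 * H / ℓ + 1) = c.Lip * (16 * c.M / ℓ) * y + c.Lip * (2 * c0 / ℓ + 1) := by
      rw [hH]; ring
    linarith only [h2, h3, e23]
  have f10 : 32 * n * (log (8 * c.α) + c.Λ + 3 + 27 * (s * c.N)) ≤ X := by
    have h2 := mul_le_mul_of_nonneg_left (le_abs_self (log (8 * c.α) + c.Λ + 3 + 27 * (s * c.N)))
      (Nat.cast_nonneg n)
    have h4 := mul_le_mul_of_nonneg_left hn2 (abs_nonneg (log (8 * c.α) + c.Λ + 3 + 27 * (s * c.N)))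
    linarith only [hXK _ e14, h2, h4]
  have f11 : 8 * (n ^ 2 * (2 * c.h + 1) + c.M * c.k1 * c.C1) ≤ X := by
    linarith only [hXK _ e15, mul_le_mul_of_nonneg_left (hn.trans hn2) (hℓ0.le.trans hℓ1)]
  have f12 : Δm * max Wo Wi ≤ exp n := by linarith only [add_one_le_exp (n:ℝ), e19]
  have f13 : 2 * (n * H) + 200 ≤ θ1 * (c.M * c.k1 * κ : ℕ) := by
    push_cast
    refine le_of_mul_le_mul_right ?_ (show 0 < c.C1 by linarith only [hC])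
    have h1 := mul_le_mul_of_nonneg_left hℓ1 hκ0
    have h2 := mul_le_mul_of_nonneg_left (show n ^ 2 * H ≤ κ * (c.M * c.k1 * c.C1) by
      linarith only [h1, hκ1, hX0]) hθ.le
    have h3 := mul_le_mul_of_nonneg_right e22 (show 0 ≤ n * H by positivity)
    have h4 := mul_le_mul_of_nonneg_left hnH (show 0 ≤ c.C1 by positivity)
    linarith only [h2, h3, h4, hC]
  have f14 : J * (n * H + 3) + 2 ≤ X := by
    have h3 := mul_le_mul_of_nonneg_right e13 (show 0 ≤ n * H by positivity)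
    have h4 := mul_le_mul_of_nonneg_left hnH hJ0
    linarith only [h3, h4, hX1, hnH, hJ0]
  have f15 : log c.α + 3 ≤ n := by linarith only [e20]
  have f16 : 2 * ((li + 1) * (Ci * n * n)) ≤ X := by linarith only [hXK _ e16]
  have f17 : n ^ 2 * (li + c.M * (li + 1) + 1) ≤ X := by linarith only [hXK _ e17]
  have f18 : 8 * (n ^ 2 * (1 + lg)) ≤ X := by linarith only [hXK _ e18]
  have f19 : c.D * (c.N * c.C0) + 3 ≤ n * (s * c.N) := by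
    linarith only [e21, mul_le_mul_of_nonneg_left hs (Nat.cast_nonneg n), hn]
  obtain ⟨d, hd⟩ := Ctx2.new_data ⟨⟨c, n, y, s * c.N, N0, ⌈c.θ * n⌉₊, ⌈X / (15 * (c.h / 20))⌉₊, κ,
    x2, exp (-H), H, X, hx2, hη.symm, rfl, hX, hs, e1, e2, e5, e6, f1, e10, f2, f3, f4, hν1, f5, f6,
    hμ1, hμ2, f7, f8, f9, f10, f11⟩,
    t1, t2, q1, q2, ht1, ht2, hq1, hq2, hPt, hQq, Δm, fun ξ h1 x h2 => hΔ (ξ, x) ⟨h1, h2⟩, χo, χi,
    max Wo Wi, hχo, hχi, fun z hz => ⟨(o1 z hz).1, (o1 z hz).2.le⟩,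
    fun z h1 h2 => o2 z ⟨h1, norm_nonneg _, h2⟩, i1, i2, fun z => le_max_of_le_left (hWo z),
    fun z => (i3 z).trans (mul_le_mul_of_nonneg_right (le_max_right _ _)
      (inv_pos.2 (pow_pos hx0 4)).le), f12, li, lg, hli, hlg, CI, Ci, J, θ1, hCI1, hCI2,
    (le_max_left _ _).trans hCi, (div_le_iff₀ c.hγ0).1 ((le_max_right _ _).trans hCi),
    (div_le_iff₀ hθ).1 hJ, hθγ, f13, f14, f15, e11, e3, f16, f17, f18, f19, e12⟩ (s := s) rfl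
  exact ⟨d, n, hd.1, hd.2.1, hd.2.2.1, e24, hd.2.2.2⟩

theorem IH.mono {d : Data} {o : ℂ} {ρ RK σ0 θ0 C0 Cv σ' C' Cv' : ℝ} {xs : ℂ × ℂ}
    (H : IH d o ρ RK σ0 θ0 C0 Cv xs) (h1 : σ0 ≤ σ') (h2 : C0 ≤ C') (h3 : Cv ≤ Cv') :
    IH d o ρ RK σ' θ0 C' Cv' xs :=
  { H with
    σ_le := H.σ_le.trans (by gcongr)
    W_xs := le_trans (by gcongr) H.W_xs
    P_xs := le_trans (by gcongr) H.P_xs }

theorem min_pos {K : Set ℂ} (hK : IsCompact K) {f : ℂ → ℂ} (hf : ContinuousOn f K)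
    (h : ∀ z ∈ K, f z ≠ 0) : ∃ m, 0 < m ∧ m ≤ 1 ∧ ∀ z ∈ K, m ≤ ‖f z‖ := by
  rcases K.eq_empty_or_nonempty with rfl | h1
  · exact ⟨1, one_pos, le_rfl, by simp⟩
  · obtain ⟨x, h2, h3⟩ := hK.exists_isMinOn h1 hf.norm
    exact ⟨min 1 ‖f x‖, lt_min one_pos (norm_pos_iff.2 (h x h2)), min_le_left _ _,
      fun z hz => min_le_of_right_le (h3 hz)⟩

theorem ev_rad {a : ℂ} {p : ℂ → Prop} (h : ∀ᶠ z in 𝓝 a, p z) :
    ∀ᶠ r in 𝓝[>] (0:ℝ), ∀ z, ‖z - a‖ ≤ r → p z := by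
  obtain ⟨ε, hε, h2⟩ := Metric.eventually_nhds_iff.1 h
  filter_upwards [Ioo_mem_nhdsGT hε] with r hr z hz
  exact h2 (by rw [dist_eq_norm]; exact hz.trans_lt hr.2)

theorem step {ρ ρ1 r : ℝ} (h0 : 0 ≤ ρ1) (h1 : ρ1 < ρ) (hr : 0 < r) (hr1 : r ≤ 1) :
    ∃ G : ℝ, 1 ≤ G ∧ ∀ (d : Data) (o b : ℂ) (ρ2 RK σ0 θ0 C0 Cv θ1 s N0 : ℝ) (xs : ℂ × ℂ) (Nm : ℕ),
      IH d o ρ RK σ0 θ0 C0 Cv xs → RK < 1 → xs ∈ closedBall (0 : ℂ × ℂ) 1 → ‖d.a - o‖ = ρ1 →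
      ρ2 < ρ1 → ‖b - o‖ + r ≤ ρ2 → G * θ0 ≤ 1 → 0 < θ1 → G * θ1 ≤ 1 → 100 ≤ s * d.N → C0 ≤ 2 →
      ∃ (d' : Data) (n : ℕ), IH d' o ρ2 RK (θ1 + G * θ0) θ1 (C0 + s)
        (Cv + G * (σ0 + θ0) + 72 * s) xs ∧ d'.a = b ∧ d'.N = d.N * n ∧ Nm ≤ n ∧
        (∀ x, d'.U x ≤ max (d.U x) (exp (-N0)) ^ n) ∧
        ∀ x ∈ ball (0 : ℂ × ℂ) 1, d'.W x ≤ d.W x ^ n := by
  obtain ⟨γ, g0, g1, hS⟩ := schwarz_zero h0 h1
  obtain ⟨C, hC⟩ := exists_nat_ge (max 1 (4 / r / γ))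
  obtain ⟨CI, hCI⟩ := exists_nat_ge (max (2 * C : ℝ) ((2 * log (4 / r) + 4) / γ))
  have hC1 : (1:ℝ) ≤ C := (le_max_left _ _).trans hC
  have hL : 1 ≤ log (4 / r) := by
    rw [le_log_iff_exp_le (by positivity), le_div_iff₀ hr]
    nlinarith [e_le_three]
  obtain ⟨K, hK⟩ : ∃ K, K = 40 * C / γ := ⟨_, rfl⟩
  have hK1 : 40 ≤ K := by rw [hK, le_div_iff₀ g0]; nlinarith
  have hγ : 1 ≤ γ⁻¹ := (one_le_inv₀ g0).2 g1
  have hI : (0:ℝ) ≤ CI := Nat.cast_nonneg _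
  obtain ⟨G, hG⟩ : ∃ G, G = 200 * (7 + CI) * K * log (4 / r) * γ⁻¹ := ⟨_, rfl⟩
  have G1 : 200 * (7 + CI) * K * log (4 / r) ≤ G := hG ▸ le_mul_of_one_le_right (by positivity) hγ
  have G2 : 200 * (7 + CI) * K ≤ G := (le_mul_of_one_le_right (by positivity) hL).trans G1
  have G3 : 1400 * K ≤ G := by nlinarith only [G2, hI, hK1]
  have G4 : 32 * K * log (4 / r) ≤ G * γ := by
    rw [hG, inv_mul_cancel_right₀ g0.ne']
    gcongr; linarith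
  refine ⟨G, by linarith, fun d o b ρ2 RK σ0 θ0 C0 Cv θ1 s N0 xs Nm H hRK hxs ha hρ2 hb hθ0 hθ1 hθ2
    hs hC0 => ?_⟩
  subst ha
  have hh := H.h_ge
  have hM : (1:ℝ) ≤ d.M := by exact_mod_cast H.M_pos
  have t0 : 0 < θ0 := pos_of_mul_pos_left (show 0 < θ0 * d.M by linarith [H.h_le]) (by linarith)
  obtain ⟨θ, hθ⟩ : ∃ θ, θ = K * (d.h / d.M) := ⟨_, rfl⟩
  have t1 : θ ≤ K * θ0 := by
    rw [hθ]; gcongr; rw [div_le_iff₀ (by linarith)]; exact H.h_le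
  have t2 : 0 < θ := by rw [hθ]; positivity
  have t3 : 32 * K * log (4 / r) * θ0 ≤ γ := by
    nlinarith only [mul_le_mul_of_nonneg_right G4 t0.le, mul_le_mul_of_nonneg_right hθ0 g0.le]
  obtain ⟨k1, hk1, uB, b1, b2, b3, b4, b5, b6⟩ := H.exists_green hRK hr (b := b) (by linarith) hS
    (C := C) (by exact_mod_cast hC1) (by
      have := (div_le_iff₀ g0).1 ((le_max_right _ _).trans hC)
      linarith [add_one_le_exp (C * γ)]) (by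
      have h2 : K * θ0 ≤ γ := by nlinarith only [t3, hL, mul_pos (show 0 < K by linarith) t0]
      have h3 : C * θ0 ≤ γ := by
        have : (C:ℝ) ≤ K := by rw [hK, le_div_iff₀ g0]; nlinarith only [g1, hC1]
        nlinarith only [this, h2, t0]
      nlinarith only [mul_le_mul_of_nonneg_left H.h_le (show (0:ℝ) ≤ C by positivity),
        mul_le_mul_of_nonneg_right h3 (show (0:ℝ) ≤ d.M by positivity), hM, g0])
  have hσ : 0 ≤ 40 * d.σ / d.h := by have := H.σ_nn; positivity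
  obtain ⟨D, hD1, hD2⟩ : ∃ D : ℕ, 40 * d.σ / d.h + 2 ≤ D ∧ D ≤ 40 * d.σ / d.h + 3 :=
    ⟨⌈40 * d.σ / d.h⌉₊ + 2, by push_cast; linarith [Nat.le_ceil (40 * d.σ / d.h)],
      by push_cast; linarith [Nat.ceil_lt_add_one hσ]⟩
  obtain ⟨β, hβ, hβx⟩ : ∃ β : ℂ, ‖β‖ = exp ((D - 1) * d.h) ∧
      ‖β‖ * ‖d.P xs‖ ^ D ≤ ‖d.sh xs - d.P xs + β * d.P xs ^ D‖ := by
    have h2 : ‖(exp ((D - 1) * d.h) : ℂ)‖ = exp ((D - 1) * d.h) := by
      rw [Complex.norm_real, norm_eq_abs, abs_of_pos (exp_pos _)]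
    by_contra h
    push Not at h
    have h3 := h _ h2
    have h4 := h (-_) ((norm_neg _).trans h2)
    have h5 := norm_sub_le (d.sh xs - d.P xs + exp ((D - 1) * d.h) * d.P xs ^ D)
      (d.sh xs - d.P xs + -exp ((D - 1) * d.h) * d.P xs ^ D)
    rw [add_sub_add_left_eq_sub, ← sub_mul, sub_neg_eq_add, ← two_mul, norm_mul, norm_mul,
      norm_pow, Complex.norm_two] at h5
    rw [norm_neg] at h4
    linarith
  obtain ⟨um, m1, m2, m3⟩ := min_pos H.KV_compact (H.uF_diff.continuousOn.mono fun z hz => hz.1)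
    fun z hz => H.uF_ne z hz.1
  obtain ⟨ul, m4, -, m5⟩ := min_pos H.KV_compact (H.u_diff.continuousOn.mono fun z hz => hz.1)
    fun z hz => H.u_ne hz.1
  obtain ⟨uu, m6⟩ := H.KV_compact.exists_bound_of_continuousOn
    (H.u_diff.continuousOn.mono fun z hz => hz.1)
  have haV : d.a ∈ d.Vout := ⟨H.a_V, by rw [H.s_a, norm_zero]; exact exp_pos _⟩
  have hBa : (d.a - b) ^ (d.M * k1) * uB d.a ≠ 0 := mul_ne_zero (pow_ne_zero _ fun h => by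
    have := norm_sub_le_norm_sub_add_norm_sub d.a b o
    rw [h, norm_zero] at this
    linarith) (b2 _ haV)
  have hBd : DifferentiableAt ℂ (fun z => (z - b) ^ (d.M * k1) * uB z) d.a :=
    DifferentiableAt.mul (by fun_prop) (b1.differentiableAt (H.Vout_open.mem_nhds haV))
  obtain ⟨Lip, hLip0, hLip⟩ := (((hBd.restrictScalars ℝ).norm ℝ hBa).log
    (norm_pos_iff.2 hBa).ne').isBigO_sub.exists_nonneg
  obtain ⟨ϱ1, ⟨r1, r2⟩, r3, r4, r5, r6, r7⟩ := (Filter.Eventually.and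
    (Ioc_mem_nhdsGT (show 0 < exp (-d.h) / 100 by positivity))
    (Filter.Eventually.and (Ioc_mem_nhdsGT (sub_pos.2 hρ2))
    ((ev_rad (H.Vout_open.mem_nhds haV)).and ((H.exists_box H.U_eq).and
    ((H.exists_box H.L_near).and (ev_rad hLip.bound)))))).exists
  obtain ⟨mU, u1, u2⟩ := H.U_lower (H.Box_open ϱ1 ϱ1) ⟨H.ah_spec.1,
    by rw [H.ah_spec.2.1, sub_self, norm_zero]; exact r1, by rw [H.ah_spec.2.2, norm_zero]; exact r1⟩
  obtain ⟨d', n, k2, k3⟩ := Pre.next ⟨d, o, ρ, RK, σ0, θ0, C0, Cv, xs, H, hRK, hxs, b, r, ρ2, γ, hr,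
    hr1, hρ2, hb, g0, g1, hS, C, by exact_mod_cast hC1, θ, by rw [hθ, hK]; field_simp,
    by rw [le_div_iff₀ (by positivity)]; nlinarith only [t1, t3, hL], k1, hk1, uB, b1, b2, b3, b4,
    b5, b6, D, hD1, β, hβ, hβx, um, ul, max uu 1, m1, m2, m4, le_max_right _ _, m3, m5,
    fun z hz => le_max_of_le_left (m6 z hz), ϱ1, r1, r2, r3.2, fun z hz => by
      have := r4 z (by simpa [dist_eq_norm] using hz)
      exact ⟨this.1, this.2.le.trans (exp_le_exp.2 (by linarith only [hh]))⟩,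
    r5, r6, Lip, hLip0, r7, mU, u1, u2⟩ (CI := CI)
    (by exact_mod_cast (le_max_left _ _).trans hCI)
    ((div_le_iff₀ g0).1 ((le_max_right _ _).trans hCI)) hθ1 (by
      have h2 : 100 ≤ G * γ := by nlinarith only [G4, hK1, hL]
      nlinarith only [mul_le_mul_of_nonneg_right h2 hθ1.le, mul_le_mul_of_nonneg_right hθ2 g0.le])
    hs N0 Nm
  refine ⟨d', n, k2.mono ?_ le_rfl ?_, k3⟩
  · have h2 := mul_le_mul_of_nonneg_left t1 (show 0 ≤ 2 * (7 + CI) * log (4 / r) by positivity)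
    have h3 := mul_le_mul_of_nonneg_right G1 t0.le
    have h4 : 0 ≤ (7 + CI) * K * log (4 / r) * θ0 := by positivity
    simp only [Pre.C1]
    linarith only [h2, h3, h4]
  · have s0 : 0 ≤ σ0 := nonneg_of_mul_nonneg_left (H.σ_nn.trans H.σ_le) (by linarith)
    have h2 : θ * (40 * d.σ / d.h) ≤ 40 * K * σ0 := by
      have h3 : d.σ / d.M ≤ σ0 := by rw [div_le_iff₀ (by linarith)]; exact H.σ_le
      calc _ = 40 * K * (d.σ / d.M) := by rw [hθ]; field_simp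
        _ ≤ _ := by gcongr
    have h3 := mul_le_mul_of_nonneg_left hD2 t2.le
    have h4 := mul_le_mul_of_nonneg_left hC0 (show 0 ≤ θ * D by positivity)
    have h5 := mul_le_mul_of_nonneg_right G3 (add_nonneg s0 t0.le)
    have h6 : 0 ≤ K * σ0 := by positivity
    have h7 : 0 ≤ K * θ0 := by positivity
    simp only
    linarith only [h2, h3, h4, h5, h6, h7, t1]

end Pool.Agent.Lib.MP_9cdd18_an.CX
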