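import Pool.Agent.Lib.MP_9cdd18_an.CXCtx

namespace Pool.Agent.Lib.MP_9cdd18_an.CX

open MeasureTheory Set Real Filter Topology Metric

namespace Ctx

variable (c : Ctx)

def V1 : Set ℂ := {z ∈ c.Vout | c.x0 < ‖z - c.a‖}

noncomputable def Θ (z q p : ℂ) : ℂ := c.Q (c.Ψ (z, p)) + p - c.LQ * (q - c.η ^ c.n) / p ^ c.n

noncomputable def Γ (q : ℂ × ℂ) : ℂ :=
  Classical.epsilon fun p => ‖p - c.s q.1‖ ≤ ‖c.s q.1‖ / 20 ∧ c.Θ q.1 q.2 p = p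

noncomputable def Ψn (q : ℂ × ℂ) : ℂ × ℂ := c.Ψ (q.1, c.Γ q)

noncomputable def γ (z : ℂ) : ℂ := c.Γ (z, 0)

noncomputable def G0 (z : ℂ) : ℂ := (c.LQ * c.η ^ c.n / c.α) ^ c.n * (c.γ z)⁻¹ ^ (c.n * c.n)

noncomputable def Y (z : ℂ) : ℂ := (c.B z / c.B c.a) ^ c.κ

def A : ℕ := c.M * c.k1 * c.κ

noncomputable def uFn (z : ℂ) : ℂ := c.G0 z * (c.uB z / c.B c.a) ^ c.κ

noncomputable def Fn (z : ℂ) : ℂ := (z - c.b) ^ c.A * c.uFn z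

theorem V1_open : IsOpen c.V1 := isOpen_lt_on c.H.Vout_open continuousOn_const (by fun_prop)

theorem V1_KV {z : ℂ} (hz : z ∈ c.V1) : z ∈ c.KV :=
  ⟨hz.1.1, hz.1.2.le.trans (exp_le_exp.2 (by linarith [c.H.h_ge]))⟩

theorem V1_s {z : ℂ} (hz : z ∈ c.V1) : 50 * c.η ≤ ‖c.s z‖ := by
  linarith [c.F_low (c.V1_KV hz) le_rfl (by linarith [hz.2]), c.H.F50 hz.1.1]

theorem tiny {t : ℝ} (ht : 12 * c.η ≤ t) : c.LQ * c.η ^ c.n / t ^ c.n * (2 * c.n) ≤ c.η := by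
  have h0 := c.η_pos
  have h1 : c.LQ ≤ exp 1 ^ c.n * c.η := by
    rw [c.hHh, ← exp_nat_mul, ← exp_add]
    exact c.LQ_le.trans (exp_le_exp.2 (by linarith [c.hH1]))
  have h2 : (2 * c.n : ℝ) ≤ 4 ^ c.n := by
    have h3 : (c.n : ℝ) ≤ 2 ^ c.n := by exact_mod_cast Nat.lt_two_pow_self.le
    have h4 : (2:ℝ) ≤ 2 ^ c.n := le_self_pow₀ one_le_two (by have := c.n_pos; omega)
    calc (2 * c.n : ℝ) ≤ 2 ^ c.n * 2 ^ c.n := by gcongr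
      _ = _ := by rw [← mul_pow]; norm_num
  have := e_le_three
  calc _ ≤ 3 ^ c.n * c.η * c.η ^ c.n / (12 * c.η) ^ c.n * 4 ^ c.n := by
        gcongr
        exact h1.trans (by gcongr)
    _ = c.η * ((3 * 4) ^ c.n / 12 ^ c.n) := by rw [mul_pow, mul_pow]; field_simp
    _ = c.η := by norm_num

theorem disc_facts {z p : ℂ} (hz : z ∈ c.V1) (hp : ‖p - c.s z‖ ≤ 3 / 4 * ‖c.s z‖) :
    12 * c.η ≤ ‖p‖ ∧ ‖p‖ < c.ϱ ∧ ‖p‖ ≤ exp (-c.h) / 100 := by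
  have h1 := c.V1_s hz
  have h2 := norm_le_norm_add_norm_sub' p (c.s z)
  have h3 := norm_sub_norm_le (c.s z) p
  rw [norm_sub_rev] at h3
  have h4 := (c.V1_KV hz).2
  have h5 : ‖p‖ < c.ϱ := by linarith [c.H.ϱ_ge, exp_pos (-c.h)]
  obtain ⟨h6, h7, h8⟩ := c.H.Ψ_right z hz.1.1 p h5
  have := c.str_good (x := c.Ψ (z, p)) le_rfl (by rw [h7]; exact hz.1.2.le) (by rwa [h7, h8])
  rw [h8] at this
  exact ⟨by linarith [c.η_pos], h5, this⟩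

theorem Pn_Θ {z p : ℂ} (q : ℂ) (hz : z ∈ c.V) (hp : ‖p‖ < c.ϱ) (hp0 : p ≠ 0) :
    c.Pn (c.Ψ (z, p)) - q = p ^ c.n / c.LQ * (c.Θ z q p - p) := by
  have : (c.LQ : ℂ) ≠ 0 := by exact_mod_cast c.LQ_pos.ne'
  rw [Pn, (c.H.Ψ_right z hz p hp).2.2, Θ, Pre.Qb]
  field_simp
  ring

theorem Ψ_slice {z p : ℂ} (hz : z ∈ c.V) (hp : ‖p‖ < c.ϱ) :
    DifferentiableAt ℂ (fun p => c.Ψ (z, p)) p :=
  (c.H.Ψ_diff.differentiableAt ((c.H.V_open.prod isOpen_ball).mem_nhds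
    ⟨hz, by simpa using hp⟩)).comp p (by fun_prop)

theorem Θ_fix {z q : ℂ} (hz : z ∈ c.V1) (hq : ‖q‖ ≤ c.η ^ c.n) :
    (∀ p p', ‖p - c.s z‖ ≤ 1 / 2 * ‖c.s z‖ → ‖p' - c.s z‖ ≤ 1 / 2 * ‖c.s z‖ →
      ‖c.Θ z q p - c.Θ z q p'‖ ≤ ‖p - p'‖ / 5) ∧
    (∀ p, ‖p - c.s z‖ ≤ 1 / 2 * ‖c.s z‖ → ∃ d : ℂ, HasDerivAt (c.Θ z q) d p ∧ ‖d‖ ≤ 1 / 5) ∧
    ∃ p, ‖p - c.s z‖ ≤ ‖c.s z‖ / 20 ∧ c.Θ z q p = p := by
  have h0 := c.η_pos
  have h1 := c.V1_s hz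
  obtain ⟨h2, h3, p, h4, h5⟩ := root_fix (Θ := c.Θ z q) (s := c.s z) (R := ‖c.s z‖ / 4)
    (by linarith) (fun p hp => by
      rw [mem_closedBall, dist_eq_norm] at hp
      obtain ⟨h2, h3, -⟩ := c.disc_facts hz (p := p) (by linarith)
      have h4 : p ≠ 0 := norm_pos_iff.1 (by linarith)
      exact ((((pol_diff c.Q_pol _).comp p (c.Ψ_slice hz.1.1 h3)).add differentiableAt_id).sub
        ((differentiableAt_const _).div (differentiableAt_id.pow c.n)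
          (pow_ne_zero _ h4))).differentiableWithinAt) (fun p hp => by
      rw [mem_closedBall, dist_eq_norm] at hp
      obtain ⟨h2, h3, h4⟩ := c.disc_facts hz (p := p) (by linarith)
      obtain ⟨h5, h6, h7⟩ := c.H.Ψ_right z hz.1.1 p h3
      have h8 := c.Q_near h5 (by rwa [h7])
      rw [h6, h7] at h8
      have h9 : ‖c.LQ * (q - c.η ^ c.n) / p ^ c.n‖ ≤ c.LQ * c.η ^ c.n / ‖p‖ ^ c.n * 2 := by
        rw [norm_div, norm_mul, norm_pow, Complex.norm_real, norm_eq_abs, abs_of_pos c.LQ_pos,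
          div_mul_eq_mul_div, mul_assoc]
        have := c.LQ_pos
        gcongr
        linarith [norm_sub_le q ((c.η : ℂ) ^ c.n), c.norm_ηn]
      have h10 := c.tiny h2
      have h11 : 0 ≤ c.LQ * c.η ^ c.n / ‖p‖ ^ c.n := by have := c.LQ_pos; positivity
      have h12 : c.Θ z q p - c.s z =
          (c.Q (c.Ψ (z, p)) - (c.s z - p)) - c.LQ * (q - c.η ^ c.n) / p ^ c.n := by
        rw [Θ]; ring
      have h13 := norm_le_norm_add_norm_sub' p (c.s z)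
      rw [h12]
      refine (norm_sub_le _ _).trans ?_
      nlinarith [c.n_ge])
  refine ⟨fun p p' hp hp' => h2 p ?_ p' ?_, fun p hp => h3 p ?_, p, ?_, h5⟩
  all_goals simp only [mem_closedBall, dist_eq_norm] at h4 ⊢; linarith

theorem Γ_spec {z q : ℂ} (hz : z ∈ c.V1) (hq : ‖q‖ ≤ c.η ^ c.n) :
    ‖c.Γ (z, q) - c.s z‖ ≤ ‖c.s z‖ / 20 ∧ c.Θ z q (c.Γ (z, q)) = c.Γ (z, q) :=
  Classical.epsilon_spec (p := fun p => ‖p - c.s z‖ ≤ ‖c.s z‖ / 20 ∧ c.Θ z q p = p)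
    (c.Θ_fix hz hq).2.2

theorem Ψn_spec {z q : ℂ} (hz : z ∈ c.V1) (hq : ‖q‖ ≤ c.η ^ c.n) :
    c.Ψn (z, q) ∈ c.T ∧ (c.Ψn (z, q)).1 = z ∧ c.P (c.Ψn (z, q)) = c.Γ (z, q) ∧
      c.Pn (c.Ψn (z, q)) = q := by
  obtain ⟨h1, h2⟩ := c.Γ_spec hz hq
  obtain ⟨h3, h4, -⟩ := c.disc_facts hz (p := c.Γ (z, q)) (by linarith [norm_nonneg (c.s z)])
  obtain ⟨h5, h6, h7⟩ := c.H.Ψ_right z hz.1.1 _ h4
  refine ⟨h5, h6, h7, ?_⟩
  have := c.Pn_Θ q hz.1.1 h4 (norm_pos_iff.1 (by linarith [c.η_pos]))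
  rw [h2, sub_self, mul_zero, sub_eq_zero] at this
  exact this

theorem Θ_of {x : ℂ × ℂ} (hx : x ∈ c.T) (hz : x.1 ∈ c.V1)
    (hw : ‖c.P x - c.s x.1‖ ≤ 1 / 2 * ‖c.s x.1‖) : c.Θ x.1 (c.Pn x) (c.P x) = c.P x := by
  obtain ⟨h3, h4, -⟩ := c.disc_facts hz (p := c.P x) (by linarith [norm_nonneg (c.s x.1)])
  have h0 : c.P x ≠ 0 := norm_pos_iff.1 (by linarith [c.η_pos])
  have := c.Pn_Θ (c.Pn x) hz.1.1 h4 h0
  rw [(c.H.Ψ_left x hx).2.2, sub_self] at this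
  have h1 : (c.LQ : ℂ) ≠ 0 := by exact_mod_cast c.LQ_pos.ne'
  exact sub_eq_zero.1 ((mul_eq_zero.1 this.symm).resolve_left (div_ne_zero (pow_ne_zero _ h0) h1))

theorem Ψn_left {x : ℂ × ℂ} (hx : x ∈ c.T) (hz : x.1 ∈ c.V1)
    (hw : ‖c.P x - c.s x.1‖ ≤ 1 / 2 * ‖c.s x.1‖) (hm : ‖c.Pn x‖ ≤ c.η ^ c.n) :
    c.Ψn (x.1, c.Pn x) = x := by
  obtain ⟨h1, h2⟩ := c.Γ_spec hz hm
  have h3 := (c.Θ_fix hz hm).1 _ _ hw (h1.trans (by linarith [norm_nonneg (c.s x.1)]))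
  rw [h2, c.Θ_of hx hz hw] at h3
  have h4 : c.P x = c.Γ (x.1, c.Pn x) :=
    sub_eq_zero.1 (norm_le_zero_iff.1 (by linarith))
  rw [Ψn, ← h4]
  exact (c.H.Ψ_left x hx).2.2

theorem str_V1 {x : ℂ × ℂ} {r t w : ℝ} (hx : x ∈ c.Str r t w) (hr : c.x0 ≤ r)
    (ht : c.h + c.h / 20 ≤ t) : x.1 ∈ c.V1 :=
  ⟨⟨(c.H.Ψ_left x hx.1).1, hx.2.2.1.trans_le (exp_le_exp.2 (by linarith))⟩, hr.trans_lt hx.2.1⟩

theorem Ψn_str {z q : ℂ} (hz : z ∈ c.V1) (hq : ‖q‖ ≤ c.η ^ c.n) :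
    ‖c.P (c.Ψn (z, q)) - c.s (c.Ψn (z, q)).1‖ < 1 / 3 * ‖c.s (c.Ψn (z, q)).1‖ := by
  obtain ⟨-, h2, h3, -⟩ := c.Ψn_spec hz hq
  rw [h2, h3]
  linarith [(c.Γ_spec hz hq).1, c.V1_s hz, c.η_pos]

theorem Ψn_diff : DifferentiableOn ℂ c.Ψn (c.V1 ×ˢ ball 0 (c.η ^ c.n)) := by
  rintro ⟨z, q⟩ ⟨hz, hq⟩
  have hq' : ‖q‖ < c.η ^ c.n := by simpa using hq
  obtain ⟨h1, h2, h3, h4⟩ := c.Ψn_spec hz hq'.le
  obtain ⟨h5, h6⟩ := c.Γ_spec hz hq'.le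
  have hs := norm_nonneg (c.s z)
  obtain ⟨h7, h8, -⟩ := c.disc_facts hz (p := c.Γ (z, q)) (by linarith)
  have h0 : c.Γ (z, q) ≠ 0 := norm_pos_iff.1 (by linarith [c.η_pos])
  have key := inverse_diff c.Pn_pol (Ψ := c.Ψn) (x := c.Ψn (z, q)) (by
    have h9 : c.Ψn (z, q) ∈ c.Str c.x0 (c.h + c.h / 20) (1 / 2) :=
      ⟨h1, by rw [h2]; exact hz.2, by rw [h2]; exact hz.1.2, by
        have := c.Ψn_str hz hq'.le
        nlinarith [norm_nonneg (c.s (c.Ψn (z, q)).1)]⟩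
    filter_upwards [(c.H.Str_open _ _ _).mem_nhds h9,
      (pol_cont c.Pn_pol).norm.continuousAt.eventually (gt_mem_nhds (h4.symm ▸ hq'))] with x a b
    exact c.Ψn_left a.1 (c.str_V1 a le_rfl le_rfl) a.2.2.2.le b.le) (by
    intro hd
    have hv := (c.Ψ_slice hz.1.1 h8).hasDerivAt
    set v := deriv (fun p => c.Ψ (z, p)) (c.Γ (z, q))
    have hev : ∀ᶠ p in 𝓝 (c.Γ (z, q)), ‖p‖ < c.ϱ ∧ p ≠ 0 :=
      (continuous_norm.continuousAt.eventually (gt_mem_nhds h8)).and (isOpen_ne.mem_nhds h0)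
    have hv1 : v.1 = 0 := by
      have hv0 : HasDerivAt (fun p => (c.Ψ (z, p)).1) v.1 (c.Γ (z, q)) :=
        (ContinuousLinearMap.fst ℂ ℂ ℂ).hasFDerivAt.comp_hasDerivAt _ hv
      refine hv0.unique ((hasDerivAt_const _ z).congr_of_eventuallyEq ?_)
      filter_upwards [hev] with p hp using (c.H.Ψ_right z hz.1.1 p hp.1).2.1
    have hg := ((pol_diff c.Pn_pol (c.Ψn (z, q))).hasFDerivAt.comp_hasDerivAt _ hv).sub_const q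
    have hv2 : v = v.2 • ((0, 1) : ℂ × ℂ) := by ext <;> simp [hv1]
    rw [hv2, map_smul, hd, smul_zero] at hg
    obtain ⟨d, hd1, hd2⟩ := (c.Θ_fix hz hq'.le).2.1 (c.Γ (z, q)) (by linarith)
    have hg2 := (((hasDerivAt_pow c.n (c.Γ (z, q))).div_const (c.LQ : ℂ)).mul
      (hd1.sub (hasDerivAt_id _))).congr_of_eventuallyEq
      (f₁ := fun p => c.Pn (c.Ψ (z, p)) - q) (by
        filter_upwards [hev] with p hp using c.Pn_Θ q hz.1.1 hp.1 hp.2)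
    have h9 := hg.unique hg2
    simp only [Pi.sub_apply, id, h6, sub_self, mul_zero, zero_add] at h9
    have h10 : (c.LQ : ℂ) ≠ 0 := by exact_mod_cast c.LQ_pos.ne'
    have h11 := (mul_eq_zero.1 h9.symm).resolve_left (div_ne_zero (pow_ne_zero _ h0) h10)
    rw [sub_eq_zero.1 h11, norm_one] at hd2
    linarith)
  rw [h2, h4] at key
  exact key.differentiableWithinAt

theorem γ_spec {z : ℂ} (hz : z ∈ c.V1) : ‖c.γ z - c.s z‖ ≤ ‖c.s z‖ / 20 ∧ 12 * c.η ≤ ‖c.γ z‖ ∧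
    ‖c.γ z‖ ≤ 1 ∧ ‖c.s z‖ / 2 ≤ ‖c.γ z‖ ∧ ‖c.γ z‖ ≤ 2 * ‖c.s z‖ := by
  have h1 := (c.Γ_spec hz (q := 0) (by simpa using c.ηn_pos.le)).1
  obtain ⟨h2, -, h3⟩ := c.disc_facts hz (p := c.Γ (z, 0)) (by linarith [norm_nonneg (c.s z)])
  have := exp_le_one_iff.2 (show -c.h ≤ 0 by linarith [c.H.h_ge])
  have h4 := norm_sub_norm_le (c.s z) (c.Γ (z, 0))
  have h5 := norm_sub_norm_le (c.Γ (z, 0)) (c.s z)
  rw [norm_sub_rev] at h4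
  have := norm_nonneg (c.s z)
  exact ⟨h1, h2, by simp only [γ]; linarith, by simp only [γ]; linarith, by simp only [γ]; linarith⟩

theorem γ_pos {z : ℂ} (hz : z ∈ c.V1) : 0 < ‖c.γ z‖ := by linarith [(c.γ_spec hz).2.1, c.η_pos]

theorem Ψn_slice (q : ℂ) (hq : ‖q‖ < c.η ^ c.n) :
    DifferentiableOn ℂ (fun z => c.Ψn (z, q)) c.V1 :=
  c.Ψn_diff.comp (by fun_prop) fun z hz => ⟨hz, by simpa using hq⟩

theorem γ_diff : DifferentiableOn ℂ c.γ c.V1 :=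
  ((pol_diff c.H.hP).comp_differentiableOn (c.Ψn_slice 0 (by simpa using c.ηn_pos))).congr
    fun z hz => (c.Ψn_spec hz (by simpa using c.ηn_pos.le)).2.2.1.symm

theorem G0_diff : DifferentiableOn ℂ c.G0 c.V1 :=
  ((c.γ_diff.inv fun _ hz => norm_pos_iff.1 (c.γ_pos hz)).pow _).const_mul _

theorem uFn_diff : DifferentiableOn ℂ c.uFn c.V1 :=
  c.G0_diff.mul (((c.uB_diff.mono fun _ hz => hz.1).div_const _).pow _)

theorem Fn_diff : DifferentiableOn ℂ c.Fn c.V1 := DifferentiableOn.mul (by fun_prop) c.uFn_diff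

theorem Y_diff : DifferentiableOn ℂ c.Y c.Vout := (c.B_diff.div_const _).pow _

theorem Fn_eq (z : ℂ) : c.Fn z = c.G0 z * c.Y z := by
  simp only [Fn, uFn, Y, Pre.B, A, pow_mul _ (c.M * c.k1), div_pow, mul_pow]
  ring

theorem norm_G0 (z : ℂ) : ‖c.G0 z‖ = (c.LQ * c.η ^ c.n / ‖c.γ z‖ ^ c.n / c.α) ^ c.n := by
  have := c.H.α_ge
  rw [G0, norm_mul, norm_pow, norm_pow, norm_div, norm_mul, c.norm_ηn, Complex.norm_real,
    Complex.norm_real, norm_eq_abs, norm_eq_abs, abs_of_pos c.LQ_pos, abs_of_pos (by linarith),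
    norm_inv, pow_mul, ← mul_pow, inv_pow]
  congr 1; ring

theorem G0_pos {z : ℂ} (hz : z ∈ c.V1) : 0 < ‖c.G0 z‖ := by
  have := c.H.α_ge
  have := c.LQ_pos
  have := c.η_pos
  have := c.γ_pos hz
  rw [norm_G0]; positivity

theorem uFn_ne {z : ℂ} (hz : z ∈ c.V1) : c.uFn z ≠ 0 :=
  mul_ne_zero (norm_pos_iff.1 (c.G0_pos hz)) (pow_ne_zero _ (div_ne_zero (c.uB_ne z hz.1) c.Ba_ne))

theorem log_G0 {z : ℂ} (hz : z ∈ c.V1) : log ‖c.G0 z‖ =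
    c.n * (log c.LQ - c.n * c.Hh - c.n * log ‖c.γ z‖ - log c.α) := by
  have := c.H.α_ge
  have := c.LQ_pos
  have := c.η_pos
  have := c.γ_pos hz
  rw [norm_G0, log_pow, log_div (by positivity) (by positivity),
    log_div (by positivity) (by positivity), log_mul (by positivity) (by positivity), ηn_eq,
    log_exp, log_pow]
  ring

theorem close_γ {x : ℂ × ℂ} (hx : x ∈ c.T) (hz : x.1 ∈ c.V1)
    (hw : ‖c.P x - c.s x.1‖ ≤ 1 / 2 * ‖c.s x.1‖) :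
    ‖c.Pn x‖ ≤ c.η ^ c.n → c.n * |log ‖c.P x‖ - log ‖c.γ x.1‖| ≤ 1 := by
  intro hm
  have h0 := c.η_pos
  have hn := c.n_ge
  obtain ⟨h1, h2⟩ := c.Γ_spec hz (q := 0) (by simpa using c.ηn_pos.le)
  have h3 := (c.Θ_fix hz (q := 0) (by simpa using c.ηn_pos.le)).1 _ _ hw
    (h1.trans (by linarith [norm_nonneg (c.s x.1)]))
  obtain ⟨h4, -, -⟩ := c.disc_facts hz (p := c.P x) (by linarith [norm_nonneg (c.s x.1)])
  have h5 := c.tiny h4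
  have h6 : c.P x - c.γ x.1 = (c.Θ x.1 0 (c.P x) - c.Θ x.1 0 (c.Γ (x.1, 0))) -
      c.LQ * c.Pn x / c.P x ^ c.n := by
    rw [h2]
    have := c.Θ_of hx hz hw
    simp only [Θ, γ] at this ⊢
    linear_combination -this
  have h7 : ‖c.LQ * c.Pn x / c.P x ^ c.n‖ ≤ c.LQ * c.η ^ c.n / ‖c.P x‖ ^ c.n := by
    rw [norm_div, norm_mul, norm_pow, Complex.norm_real, norm_eq_abs, abs_of_pos c.LQ_pos]
    have := c.LQ_pos
    gcongr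
  have h8 : ‖c.P x - c.γ x.1‖ * c.n ≤ c.η := by
    have h9 := norm_sub_le (c.Θ x.1 0 (c.P x) - c.Θ x.1 0 (c.Γ (x.1, 0)))
      (c.LQ * c.Pn x / c.P x ^ c.n)
    rw [← h6] at h9
    simp only [γ] at h9 ⊢
    nlinarith [norm_nonneg (c.P x - c.Γ (x.1, 0))]
  have h9 := (c.γ_spec hz).2.1
  have key : ∀ s t : ℝ, 12 * c.η ≤ s → 12 * c.η ≤ t → (s - t) * c.n ≤ c.η →
      c.n * (log s - log t) ≤ 1 := by
    intro s t hs ht h
    have ht0 : 0 < t := by linarith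
    rw [← log_div (by linarith) ht0.ne']
    have h10 := log_le_sub_one_of_pos (div_pos (by linarith : 0 < s) ht0)
    have h11 : c.n * (s / t - 1) ≤ 1 := by
      rw [div_sub_one ht0.ne', mul_div_assoc', div_le_one ht0]; linarith
    nlinarith
  have h10 := norm_sub_norm_le (c.P x) (c.γ x.1)
  have h11 := norm_sub_norm_le (c.γ x.1) (c.P x)
  rw [norm_sub_rev] at h11
  rcases abs_cases (log ‖c.P x‖ - log ‖c.γ x.1‖) with h | h <;> rw [h.1]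
  · exact key _ _ h4 h9 (by nlinarith)
  · rw [neg_sub]; exact key _ _ h9 h4 (by nlinarith)

theorem Qb_two {x : ℂ × ℂ} (hm : ‖c.Pn x‖ ≤ c.η ^ c.n / 2) :
    c.η ^ c.n / 2 ≤ ‖c.Qb x‖ * ‖c.P x‖ ^ c.n ∧ ‖c.Qb x‖ * ‖c.P x‖ ^ c.n ≤ 2 * c.η ^ c.n := by
  constructor <;> linarith [c.Pn_ge x, c.Pn_ge' x, c.ηn_pos]

theorem log_Qb {x : ℂ × ℂ} (hm : ‖c.Pn x‖ ≤ c.η ^ c.n / 2) : 0 < ‖c.Qb x‖ ∧ 0 < ‖c.P x‖ ∧
    |log ‖c.Qb x‖ + c.n * log ‖c.P x‖ + c.n * c.Hh| ≤ 1 := by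
  obtain ⟨h1, h2⟩ := c.Qb_two hm
  have h0 := c.ηn_pos
  have h3 : 0 < ‖c.Qb x‖ * ‖c.P x‖ ^ c.n := by linarith
  have h4 : 0 < ‖c.Qb x‖ := pos_of_mul_pos_left h3 (by positivity)
  have h5 : 0 < ‖c.P x‖ ^ c.n := pos_of_mul_pos_right h3 h4.le
  have h6 : 0 < ‖c.P x‖ :=
    norm_pos_iff.2 fun h => by
      rw [h, norm_zero, zero_pow (by have := c.n_pos; omega)] at h5; exact lt_irrefl _ h5
  refine ⟨h4, h6, ?_⟩
  have h7 := log_le_log (by positivity) h1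
  have h8 := log_le_log h3 h2
  have h9 : log 2 ≤ 1 := by linarith [log_le_sub_one_of_pos two_pos]
  rw [log_mul h4.ne' h5.ne', log_pow] at h7 h8
  rw [log_div h0.ne' two_ne_zero, ηn_eq, log_exp] at h7
  rw [log_mul two_ne_zero h0.ne', ηn_eq, log_exp] at h8
  exact abs_le.2 ⟨by linarith, by linarith⟩

theorem norm_Qα (x : ℂ × ℂ) : ‖c.Q x / c.α‖ = ‖c.Qb x‖ * c.LQ / c.α := by
  have := c.H.α_ge
  have := c.LQ_pos
  rw [c.norm_Qb, norm_div, Complex.norm_real, norm_eq_abs, abs_of_pos (by linarith)]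
  field_simp

theorem close {x : ℂ × ℂ} (hx : x ∈ c.T) (hz : x.1 ∈ c.V1)
    (hw : ‖c.P x - c.s x.1‖ ≤ 1 / 2 * ‖c.s x.1‖) (hm : ‖c.Pn x‖ ≤ c.η ^ c.n / 2) :
    ‖c.Q x / c.α‖ ^ c.n ≤ exp (2 * c.n) * ‖c.G0 x.1‖ ∧
      ‖c.G0 x.1‖ ≤ exp (2 * c.n) * ‖c.Q x / c.α‖ ^ c.n := by
  obtain ⟨h1, h2, h3⟩ := c.log_Qb hm
  have h4 := c.close_γ hx hz hw (by linarith [c.ηn_pos])
  have h5 := c.log_G0 hz
  have h6 := c.G0_pos hz
  have := c.H.α_ge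
  have := c.LQ_pos
  have hn := c.n_ge
  have h7 : 0 < ‖c.Q x / c.α‖ := by rw [norm_Qα]; positivity
  have h8 : log ‖c.Q x / c.α‖ = log ‖c.Qb x‖ + log c.LQ - log c.α := by
    rw [norm_Qα, log_div (by positivity) (by positivity), log_mul (by positivity) (by positivity)]
  have h9 := abs_le.1 h3
  have h10 : |c.n * log ‖c.P x‖ - c.n * log ‖c.γ x.1‖| ≤ 1 := by
    rwa [← mul_sub, abs_mul, abs_of_pos (by linarith : (0:ℝ) < c.n)]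
  have h11 := abs_le.1 h10
  constructor
  · rw [← log_le_log_iff (by positivity) (by positivity), log_mul (by positivity) h6.ne', log_exp,
      log_pow, h5, h8]
    nlinarith
  · rw [← log_le_log_iff h6 (by positivity), log_mul (by positivity) (by positivity), log_exp,
      log_pow, h5, h8]
    nlinarith

theorem near_far {z : ℂ} (hz : ‖z - c.a‖ ≤ c.ϱ1) : c.r ≤ ‖z - c.b‖ := by
  have h1 := norm_sub_le_norm_sub_add_norm_sub c.a z c.o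
  have h2 := norm_sub_le_norm_sub_add_norm_sub z c.b c.o
  rw [norm_sub_rev c.a z] at h1
  linarith [c.ϱ1_g, c.hb]

theorem far_ne {z : ℂ} (hz : c.r ≤ ‖z - c.b‖) : z ≠ c.b := fun h => by
  rw [h, sub_self, norm_zero] at hz
  linarith [c.hr]

theorem near_Vout {z : ℂ} (hz : ‖z - c.a‖ ≤ c.x2) : z ∈ c.Vout :=
  ⟨(c.near_KV hz).1, (c.s_x2 hz).2.trans_lt (exp_lt_exp.2 (by linarith [c.H.h_ge]))⟩

theorem log_Y {z : ℂ} (hz : z ∈ c.Vout) (h : z ≠ c.b) :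
    0 < ‖c.Y z‖ ∧ log ‖c.Y z‖ = c.κ * (log ‖c.B z‖ - log ‖c.B c.a‖) := by
  have h1 := norm_pos_iff.2 (c.B_ne hz h)
  have h2 := norm_pos_iff.2 c.Ba_ne
  rw [Y, norm_pow, norm_div, log_pow, log_div h1.ne' h2.ne']
  exact ⟨by positivity, rfl⟩

theorem Y_near {z : ℂ} (hz : ‖z - c.a‖ ≤ c.x2) : ‖c.Y z‖ ≤ exp c.n ∧ exp (-c.n) ≤ ‖c.Y z‖ := by
  have h0 : ‖z - c.a‖ ≤ c.ϱ1 := by linarith [c.x2_ϱ, c.ϱ1_pos]
  obtain ⟨h1, h2⟩ := c.log_Y (c.near_Vout hz) (c.far_ne (c.near_far h0))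
  have h3 : |log ‖c.B z‖ - log ‖c.B c.a‖| ≤ c.Lip * c.x2 :=
    (c.G5 z h0).trans (by gcongr; exact c.Lip_nn)
  have h4 := abs_le.1 h3
  have h5 := c.hY
  have h6 : (0:ℝ) ≤ c.κ := Nat.cast_nonneg _
  rw [← log_le_iff_le_exp h1, ← le_log_iff_exp_le h1, h2]
  constructor <;> nlinarith

theorem Fsmall {z : ℂ} (hz : z ∈ c.V1) (h : ‖z - c.a‖ ≤ c.x2) : ‖c.Fn z‖ ≤ c.η ^ c.n / 2 := by
  have h1 := c.tiny (c.γ_spec hz).2.1
  have h2 := (c.Y_near h).1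
  have hn := c.n_ge
  have hα := c.H.α_ge
  have h0 := c.η_pos
  have h3 : 0 ≤ c.LQ * c.η ^ c.n / ‖c.γ z‖ ^ c.n := by have := c.LQ_pos; positivity
  have h4 : c.LQ * c.η ^ c.n / ‖c.γ z‖ ^ c.n / c.α ≤ c.η / 6 := by
    rw [div_le_iff₀ (by linarith)]; nlinarith
  rw [Fn_eq, norm_mul, norm_G0]
  calc _ ≤ (c.η / 6) ^ c.n * 3 ^ c.n := by
        gcongr
        refine h2.trans ?_
        rw [← mul_one (c.n : ℝ), exp_nat_mul]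
        gcongr; exact e_le_three
    _ = c.η ^ c.n * (1 / 2) ^ c.n := by rw [← mul_pow, ← mul_pow]; congr 1; ring
    _ ≤ c.η ^ c.n * (1 / 2) := by
        gcongr
        exact pow_le_of_le_one (by norm_num) (by norm_num) (by have := c.n_pos; omega)
    _ = _ := by ring

theorem X_ge : c.θ * (c.n ^ 2 * c.Hh) ≤ c.X := by
  have := mul_le_mul_of_nonneg_right c.hν1 (show 0 ≤ c.n * c.Hh by nlinarith [c.n_ge, c.Hh_ge])
  rw [c.hX]; nlinarith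

theorem X_le : c.X ≤ 2 * c.θ * (c.n ^ 2 * c.Hh) := by
  have := mul_le_mul_of_nonneg_right c.hν2 (show 0 ≤ c.n * c.Hh by nlinarith [c.n_ge, c.Hh_ge])
  rw [c.hX]; nlinarith

theorem X_nH : 30 * (c.n * c.Hh) ≤ c.X := by
  have h : (30:ℝ) ≤ c.ν := by exact_mod_cast c.hν3
  have := mul_le_mul_of_nonneg_right h (show 0 ≤ c.n * c.Hh by nlinarith [c.n_ge, c.Hh_ge])
  rw [c.hX]; nlinarith

theorem X_νn : 4000 * (c.ν * c.n) ≤ c.X := by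
  have := mul_le_mul_of_nonneg_left c.Hh_ge (show (0:ℝ) ≤ c.ν * c.n by positivity)
  rw [c.hX]; nlinarith

theorem nH_ge : 4000 * 4000 ≤ c.n * c.Hh := by nlinarith [c.n_ge, c.Hh_ge]

theorem X_pos : 0 < c.X := by linarith [c.X_nH, c.nH_ge]

theorem kC1_nn : 0 ≤ (c.M : ℝ) * c.k1 * c.C1 := by have := c.C1_ge; positivity

theorem A_le : c.A * c.γ0 ≤ 4 * (c.n ^ 2 * c.Hh) := by
  have h1 : ‖c.B c.a‖ ≤ _ := c.G2 c.a (by simp [dist_eq_norm])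
  rw [← log_le_iff_le_exp (norm_pos_iff.2 c.Ba_ne)] at h1
  have h2 : c.κ * log ‖c.B c.a‖ ≤ c.κ * -(c.M * c.k1 * c.γ0 / 2) :=
    mul_le_mul_of_nonneg_left h1 (Nat.cast_nonneg _)
  have h3 := c.hκ2
  have h4 := c.hX2
  have h5 := c.X_le
  have h6 : 0 ≤ (c.n:ℝ) ^ 2 * c.Hh := by have := c.Hh_ge; positivity
  have h7 : 0 ≤ (c.n:ℝ) ^ 2 * (2 * c.h + 1) := by have := c.H.h_ge; positivity
  have h8 := mul_le_mul_of_nonneg_right c.θ_le h6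
  simp only [A]
  push_cast
  nlinarith

theorem log_B_ge {z : ℂ} (hz : z ∈ c.Vout) (h : c.r ≤ ‖z - c.b‖) :
    -(c.M * c.k1 * c.C1) ≤ log ‖c.B z‖ := by
  have h1 := log_le_log (by have := c.hr; positivity) (c.G1 z hz h)
  rw [log_pow, ← inv_div, log_inv] at h1
  push_cast at h1
  simp only [Pre.C1, Pre.B]
  linarith

theorem A_ge : c.n ^ 2 * c.Hh ≤ c.A * c.C1 := by
  have h1 := mul_le_mul_of_nonneg_left (c.log_B_ge c.a_Vout c.a_ne_b.le) (Nat.cast_nonneg c.κ)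
  have := c.hκ1
  simp only [A]
  push_cast
  nlinarith [c.X_pos]

theorem κCh : 10 * (c.κ * (c.C * c.k1 * c.h)) ≤ c.X := by
  have h1 := c.A_le
  have h2 := c.hθ
  have h3 := c.X_ge
  have h4 := mul_le_mul_of_nonneg_left h1 c.θ_pos.le
  have h5 : c.θ * (c.A * c.γ0) = 40 * (c.κ * (c.C * c.k1 * c.h)) := by
    simp only [A]; push_cast
    linear_combination (c.k1 * c.κ : ℝ) * h2
  linarith

theorem log_Fn {z : ℂ} (hz : z ∈ c.V1) (h : z ≠ c.b) : 0 < ‖c.Fn z‖ ∧ log ‖c.Fn z‖ =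
    c.n * (log c.LQ - c.n * c.Hh - c.n * log ‖c.γ z‖ - log c.α) +
      c.κ * (log ‖c.B z‖ - log ‖c.B c.a‖) := by
  obtain ⟨h1, h2⟩ := c.log_Y hz.1 h
  have h3 := c.G0_pos hz
  rw [Fn_eq, norm_mul, log_mul h3.ne' h1.ne', h2, c.log_G0 hz]
  exact ⟨by positivity, rfl⟩

theorem logα : 1 ≤ log c.α ∧ log c.α ≤ log (8 * c.α) := by
  have := c.H.α_ge
  exact ⟨by rw [le_log_iff_exp_le (by linarith)]; linarith [e_le_three],
    log_le_log (by linarith) (by linarith)⟩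

theorem nα_le : 32 * (c.n * log c.α) ≤ c.X := by
  have h1 := c.hX1
  have h2 := c.logα.2
  have h3 := c.H.Λ_nn
  have h4 := c.hς
  have h5 := c.n_ge
  nlinarith

theorem Fn_low {z : ℂ} (hz : z ∈ c.V1) (h : z ≠ c.b) :
    c.X / 5 + c.κ * log ‖c.B z‖ ≤ log ‖c.Fn z‖ := by
  rw [(c.log_Fn hz h).2]
  have h1 : 0 ≤ log c.LQ := log_nonneg (by linarith [c.LQ_ge])
  have h2 : log ‖c.γ z‖ ≤ 0 := log_nonpos (norm_nonneg _) (c.γ_spec hz).2.2.1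
  have h3 := c.hκ1
  have h4 := c.nα_le
  have h5 := c.n_ge
  have h6 : 0 ≤ c.n * log c.LQ := by positivity
  have h7 : 0 ≤ c.n * (c.n * -log ‖c.γ z‖) := by
    have := neg_nonneg.2 h2; positivity
  nlinarith [c.X_pos]

theorem Fn_up {z : ℂ} (hz : z ∈ c.V1) (h : z ≠ c.b) : log ‖c.Fn z‖ ≤
    c.n ^ 2 * (1 - log ‖c.γ z‖) + c.X / 4 + c.M * c.k1 * c.C1 + c.κ * log ‖c.B z‖ := by
  rw [(c.log_Fn hz h).2]
  have h1 : log c.LQ ≤ c.n := by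
    rw [log_le_iff_le_exp c.LQ_pos]
    exact c.LQ_le.trans (exp_le_exp.2 (by linarith [c.hH1, c.Hh_ge]))
  have h3 := c.hκ2
  have h4 := c.logα.1
  have h5 := c.n_ge
  nlinarith

theorem far_of_s {z : ℂ} (hs : exp (-(2 * c.h)) < ‖c.s z‖) :
    c.x2 < ‖z - c.a‖ ∧ c.r ≤ ‖z - c.b‖ := by
  refine ⟨not_le.1 fun h => by linarith [(c.s_x2 h).2], not_lt.1 fun h => ?_⟩
  have h1 := (c.H.ball_sub z (by
    rw [mem_closedBall, dist_eq_norm]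
    linarith [norm_sub_le_norm_sub_add_norm_sub z c.b c.o, c.hb, c.hρ2, c.H.a_mem])).2
  linarith [exp_le_exp.2 (show -(3 * c.h) ≤ -(2 * c.h) by linarith [c.H.h_ge])]

theorem log_B_ge' {z : ℂ} (hz : z ∈ c.V1) (h : c.r ≤ ‖z - c.b‖) :
    c.C * c.k1 * (log ‖c.s z‖ + c.h) ≤ log ‖c.B z‖ := by
  have h0 : 0 < ‖c.s z‖ := by linarith [c.V1_s hz, c.η_pos]
  have h1 := log_le_log (by positivity) (c.G4 z hz.1 h)
  rw [log_mul (by positivity) (by positivity), log_pow, log_exp] at h1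
  push_cast at h1
  simp only [Pre.B]
  linarith

theorem Flow {z : ℂ} (hz : z ∈ c.Vout) (hs : exp (-(2 * c.h)) < ‖c.s z‖) :
    exp (c.X / 16) ≤ ‖c.Fn z‖ := by
  obtain ⟨h1, h2⟩ := c.far_of_s hs
  have hz1 : z ∈ c.V1 := ⟨hz, by linarith [c.x0_le, c.x1_le, c.x2_pos, c.x1_pos]⟩
  have h3 := c.Fn_low hz1 (c.far_ne h2)
  have h4 := c.log_B_ge' hz1 h2
  have h5 : -(2 * c.h) ≤ log ‖c.s z‖ := by
    rw [le_log_iff_exp_le ((exp_pos _).trans hs)]; exact hs.le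
  have h6 := c.κCh
  have h7 : c.C * c.k1 * (-c.h) ≤ c.C * c.k1 * (log ‖c.s z‖ + c.h) := by gcongr; linarith
  have h8 := mul_le_mul_of_nonneg_left (h7.trans h4) (Nat.cast_nonneg c.κ)
  rw [← le_log_iff_exp_le (c.log_Fn hz1 (c.far_ne h2)).1]
  nlinarith [c.X_pos]

theorem Fup {z : ℂ} (hz : z ∈ c.V1) (hs : ‖c.s z‖ ≤ exp (-(c.h + 2 * (c.h / 20)))) :
    ‖c.Fn z‖ ≤ exp (c.X / 2) := by
  have hh := c.H.h_ge
  have hsm : ∀ w ∈ c.V1, ‖w - c.a‖ ≤ c.x2 → ‖c.Fn w‖ ≤ exp (c.X / 2) := fun w hw h => by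
    have h1 := c.Fsmall hw h
    have h2 : c.η ^ c.n ≤ 1 := pow_le_one₀ c.η_pos.le
      (by linarith [c.η_le, c.x0_le, c.x1_le, c.x2_le])
    linarith [one_le_exp (show 0 ≤ c.X / 2 by linarith [c.X_pos])]
  by_cases h : ‖z - c.a‖ ≤ c.x2
  · exact hsm z hz h
  have hK := c.H.lev_compact (t := c.h + 2 * (c.h / 20)) (by linarith) c.x2
  have hKV : ∀ w ∈ {z ∈ c.V | c.x2 ≤ ‖z - c.a‖ ∧ ‖c.s z‖ ≤ exp (-(c.h + 2 * (c.h / 20)))},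
      w ∈ c.V1 := fun w hw => ⟨⟨hw.1, hw.2.2.trans_lt (exp_lt_exp.2 (by linarith))⟩,
        by linarith [hw.2.1, c.x0_le, c.x1_le, c.x2_pos, c.x1_pos]⟩
  have hU1 := isOpen_lt_on c.H.V_open c.H.s_diff.continuousOn.norm
    (g := fun _ => exp (-(c.h + 2 * (c.h / 20)))) continuousOn_const
  have hU2 : IsOpen {w : ℂ | c.x2 < ‖w - c.a‖} := isOpen_lt continuous_const (by fun_prop)
  refine maxmod_open (hU1.inter hU2) hK (fun w hw => ⟨hw.1.1, le_of_lt hw.2, hw.1.2.le⟩)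
    (c.Fn_diff.mono hKV) (fun w hw hw2 => ?_) z ⟨hz.1.1, (not_le.1 h).le, hs⟩
  by_cases h1 : ‖w - c.a‖ ≤ c.x2
  · exact hsm w (hKV w hw) h1
  have h2 : exp (-(c.h + 2 * (c.h / 20))) ≤ ‖c.s w‖ :=
    not_lt.1 fun h2 => hw2 ⟨⟨hw.1, h2⟩, not_le.1 h1⟩
  have h3 := (c.far_of_s ((exp_lt_exp.2 (by linarith)).trans_le h2)).2
  have h4 := c.Fn_up (hKV w hw) (c.far_ne h3)
  have h5 : ‖c.B w‖ ≤ _ := c.G3 w hw.1 hw.2.2
  rw [← log_le_iff_le_exp (norm_pos_iff.2 (c.B_ne (hKV w hw).1 (c.far_ne h3)))] at h5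
  have h6 : c.κ * log ‖c.B w‖ ≤ c.κ * (c.C * c.k1 * (c.h / 20)) :=
    mul_le_mul_of_nonneg_left h5 (Nat.cast_nonneg _)
  have h7 : -(2 * c.h) ≤ log ‖c.γ w‖ := by
    rw [le_log_iff_exp_le (c.γ_pos (hKV w hw))]
    have h8 : exp (-(2 * c.h)) * exp 1 ≤ exp (-(c.h + 2 * (c.h / 20))) := by
      rw [← exp_add, exp_le_exp]; linarith
    nlinarith [(c.γ_spec (hKV w hw)).2.2.2.1, two_le_e, exp_pos (-(2 * c.h))]
  have h8 := mul_le_mul_of_nonneg_left h7 (sq_nonneg (c.n : ℝ))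
  rw [← log_le_iff_le_exp (c.log_Fn (hKV w hw) (c.far_ne h3)).1]
  nlinarith [c.hX2, c.κCh, c.X_pos]

end Ctx

end Pool.Agent.Lib.MP_9cdd18_an.CX
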