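import Pool.Agent.Lib.MP_9cdd18_an.CXStrand

namespace Pool.Agent.Lib.MP_9cdd18_an.CX

open MeasureTheory Set Real Filter Topology Metric

theorem key_le {a b s t u : ℝ} (hb : 0 ≤ b) (h : a ≤ exp s * b) (h' : s + t ≤ u) :
    a * exp t ≤ b * exp u := by
  calc a * exp t ≤ exp s * b * exp t := by gcongr
    _ = b * exp (s + t) := by rw [exp_add]; ring
    _ ≤ _ := by gcongr

theorem pow_le_exp {a b k : ℝ} (ha : 0 ≤ a) (h : a ≤ exp k * b) (n : ℕ) :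
    a ^ n ≤ exp (k * n) * b ^ n := by
  calc a ^ n ≤ (exp k * b) ^ n := by gcongr
    _ = _ := by rw [mul_pow, ← exp_nat_mul, mul_comm k]

theorem nn_cmp {f g g' : ℂ} {K : ℝ} (hK : 1 ≤ K) (h : ‖g'‖ ≤ K * ‖g‖ ∨ ‖g'‖ ≤ K * ‖f‖) :
    nn f g' ≤ 2 * K * nn f g := by
  have h1 := nn_le_add f g'
  have h2 := le_nn_left f g
  have h3 := le_nn_right f g
  have h4 := nn_nonneg f g
  rcases h with h | h <;> nlinarith

theorem SS.log_mul_exp {f t : ℂ × ℂ → ℝ} {x : ℂ × ℂ} (h : SS (fun y => log (f y)) x)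
    (hf : ContinuousAt f x) (hx : 0 < f x) (ht : SM t x) :
    SS (fun y => log (f y * exp (-t y))) x := by
  refine (h.sub ht).congr ?_
  filter_upwards [hf.eventually (lt_mem_nhds hx)] with y hy
  rw [log_mul hy.ne' (exp_pos _).ne', log_exp, sub_eq_add_neg]

namespace Ctx

variable (c : Ctx)

noncomputable def τn (x : ℂ × ℂ) : ℝ := c.n * c.τ x + c.S + c.lR x

noncomputable def En : ℝ := c.n * c.E + 40 * c.S

noncomputable def bh : ℂ × ℂ := c.Ψn (c.b, 0)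

noncomputable def U0 (x : ℂ × ℂ) : ℝ := c.U x ^ c.n * exp (-(2 * c.lR x))

noncomputable def W1 (x : ℂ × ℂ) : ℝ :=
  nn (c.Pn x) ((c.Q x / c.α) ^ c.n) * exp (-(c.n * c.τ x + 4 * c.S))

noncomputable def W2 (x : ℂ × ℂ) : ℝ := nn (c.Pn x) (c.Fn x.1) * exp (-c.τn x)

noncomputable def fA (x : ℂ × ℂ) : ℝ := ‖c.Pn x‖ * exp (-c.En)

def Below (x : ℂ × ℂ) (l : ℝ) : Prop :=
  (x ∉ c.Box (2 * c.x0) (2 * c.η) → l ≤ c.U0 x) ∧
  (x ∈ c.cBox (c.x2 / 2) (c.ϱ1 / 2) → l ≤ c.W1 x) ∧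
  (x ∈ c.cStr (2 * c.x0) (c.h + 3 * (c.h / 20)) (1 / 3) → l ≤ c.W2 x)

theorem scales : 0 < c.η ∧ c.η ≤ c.x0 ∧ c.x0 ≤ c.x1 / 400 ∧ c.x1 ≤ c.x2 / 400 ∧
    c.x2 ≤ c.ϱ1 / 4 ∧ c.ϱ1 ≤ exp (-c.h) / 100 ∧ 2 * exp (-c.h) ≤ c.ϱ :=
  ⟨c.η_pos, c.η_le, c.x0_le, c.x1_le, c.x2_ϱ, c.ϱ1_le, c.H.ϱ_ge⟩

theorem cBox_closed {r p : ℝ} (hr : r ≤ c.ϱ1) (hp : p ≤ c.ϱ1) : IsClosed (c.cBox r p) :=
  (c.H.cBox_compact (fun z hz => (c.ball_KV (closedBall_subset_closedBall hr hz)).1)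
    (by linarith [c.ϱ1_le, c.H.ϱ_ge, exp_pos (-c.h)])).isClosed

theorem cStr_closed (r : ℝ) {t : ℝ} (ht : c.h ≤ t) : IsClosed (c.cStr r t (1 / 3)) :=
  (c.H.cStr_compact ht (by norm_num) (by norm_num) r).isClosed

theorem str_p {x : ℂ × ℂ} (hw : ‖c.P x - c.s x.1‖ ≤ 1 / 2 * ‖c.s x.1‖) :
    ‖c.s x.1‖ ≤ 2 * ‖c.P x‖ ∧ ‖c.P x‖ ≤ 3 / 2 * ‖c.s x.1‖ := by
  have h2 := norm_sub_norm_le (c.P x) (c.s x.1)
  have h3 := norm_sub_norm_le (c.s x.1) (c.P x)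
  rw [norm_sub_rev] at h3
  constructor <;> linarith

theorem Qα_Pn {x : ℂ × ℂ} (hx : x ∈ c.T) (hz : x.1 ∈ c.V1)
    (hw : ‖c.P x - c.s x.1‖ ≤ 1 / 2 * ‖c.s x.1‖) (hm : c.η ^ c.n / 2 ≤ ‖c.Pn x‖) :
    ‖c.Q x / c.α‖ ^ c.n ≤ exp c.n * ‖c.Pn x‖ := by
  obtain ⟨h1, -, h2⟩ := c.disc_facts hz (p := c.P x) (by linarith [norm_nonneg (c.s x.1)])
  have h3 := c.Qα_up hx h2
  have h4 := c.H.F50 hz.1.1
  have h5 := (c.str_p hw).1
  have h0 := c.η_pos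
  have hα := c.H.α_ge
  have h6 : ‖c.Q x / c.α‖ ≤ ‖c.P x‖ := by linarith
  obtain ⟨k, hk⟩ : ∃ k, c.n = k + 1 := ⟨c.n - 1, by have := c.n_pos; omega⟩
  have h7 : ‖c.Qb x‖ * ‖c.P x‖ ^ c.n ≤ 3 * ‖c.Pn x‖ := by linarith [c.Pn_ge x]
  have h8 : c.LQ ≤ exp c.n * c.η := by
    rw [c.hHh, ← exp_add]
    exact c.LQ_le.trans (exp_le_exp.2 (by linarith [c.hH1]))
  have h9 : c.LQ / c.α ≤ exp c.n / 3 * ‖c.P x‖ := by
    rw [div_le_iff₀ (by linarith)]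
    have : exp c.n * c.η ≤ exp c.n * ‖c.P x‖ := by gcongr; linarith
    nlinarith [mul_nonneg (exp_pos (c.n : ℝ)).le (norm_nonneg (c.P x))]
  calc ‖c.Q x / c.α‖ ^ c.n = ‖c.Q x / c.α‖ ^ k * (‖c.Qb x‖ * (c.LQ / c.α)) := by
        rw [hk, pow_succ, ← mul_div_assoc, ← c.norm_Qα]
    _ ≤ ‖c.P x‖ ^ k * (‖c.Qb x‖ * (exp c.n / 3 * ‖c.P x‖)) := by
        have := c.LQ_pos
        have : 0 < c.α := by linarith
        gcongr
    _ = exp c.n / 3 * (‖c.Qb x‖ * ‖c.P x‖ ^ c.n) := by rw [hk, pow_succ, ← hk]; ring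
    _ ≤ exp c.n / 3 * (3 * ‖c.Pn x‖) := by gcongr
    _ = _ := by ring

theorem close_Fn {x : ℂ × ℂ} (hx : x ∈ c.T) (hz : x.1 ∈ c.V1)
    (hw : ‖c.P x - c.s x.1‖ ≤ 1 / 2 * ‖c.s x.1‖) (hm : ‖c.Pn x‖ ≤ c.η ^ c.n / 2) :
    ‖c.Q x / c.α‖ ^ c.n * ‖c.Y x.1‖ ≤ exp (2 * c.n) * ‖c.Fn x.1‖ ∧
      ‖c.Fn x.1‖ ≤ exp (2 * c.n) * (‖c.Q x / c.α‖ ^ c.n * ‖c.Y x.1‖) := by
  obtain ⟨h1, h2⟩ := c.close hx hz hw hm
  rw [Fn_eq, norm_mul, ← mul_assoc, ← mul_assoc]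
  constructor <;> gcongr

theorem overlap {x : ℂ × ℂ} (hx : x ∈ c.T) (hz : x.1 ∈ c.V1)
    (hw : ‖c.P x - c.s x.1‖ ≤ 1 / 2 * ‖c.s x.1‖) (hr : ‖x.1 - c.a‖ ≤ c.x2) :
    nn (c.Pn x) (c.Fn x.1) ≤ exp c.S * nn (c.Pn x) ((c.Q x / c.α) ^ c.n) ∧
    nn (c.Pn x) ((c.Q x / c.α) ^ c.n) ≤ exp c.S * nn (c.Pn x) (c.Fn x.1) := by
  have hn := c.n_ge
  have hK : 1 ≤ exp (3 * c.n) := one_le_exp (by linarith)
  have h0 : 2 * exp (3 * c.n) ≤ exp c.S := by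
    calc _ ≤ exp 1 * exp (3 * c.n) := by gcongr; exact two_le_e
      _ ≤ _ := by rw [← exp_add, exp_le_exp]; linarith [c.S_ge]
  have h3 : exp (3 * c.n) = exp (2 * c.n) * exp c.n := by rw [← exp_add]; ring_nf
  obtain ⟨h4, h5⟩ := c.Y_near hr
  constructor
  · refine (nn_cmp hK ?_).trans (mul_le_mul_of_nonneg_right h0 (nn_nonneg _ _))
    rcases le_total ‖c.Pn x‖ (c.η ^ c.n / 2) with hm | hm
    · left
      refine (c.close_Fn hx hz hw hm).2.trans ?_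
      rw [h3, norm_pow, mul_assoc, mul_comm (exp c.n)]
      gcongr
    · right
      nlinarith [c.Fsmall hz hr, norm_nonneg (c.Pn x)]
  · refine (nn_cmp hK ?_).trans (mul_le_mul_of_nonneg_right h0 (nn_nonneg _ _))
    rw [norm_pow]
    rcases le_total ‖c.Pn x‖ (c.η ^ c.n / 2) with hm | hm
    · left
      have h6 := (c.close_Fn hx hz hw hm).1
      calc _ = exp c.n * (‖c.Q x / c.α‖ ^ c.n * exp (-c.n)) := by
            rw [mul_left_comm, ← exp_add]; simp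
        _ ≤ exp c.n * (‖c.Q x / c.α‖ ^ c.n * ‖c.Y x.1‖) := by gcongr
        _ ≤ exp c.n * (exp (2 * c.n) * ‖c.Fn x.1‖) := by gcongr
        _ = _ := by rw [h3]; ring
    · right
      refine (c.Qα_Pn hx hz hw hm).trans ?_
      gcongr; linarith

theorem Un_le {x : ℂ × ℂ} (hx : x ∈ c.T) {a k : ℝ} (h : nn (c.P x) (c.F x.1) ^ c.n ≤ exp k * a) :
    c.U x ^ c.n ≤ exp (k - c.n * c.τ x) * a := by
  calc c.U x ^ c.n ≤ (nn (c.P x) (c.F x.1) * exp (-c.τ x)) ^ c.n := by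
        gcongr
        · exact c.H.U_nn x
        · exact c.H.U_le x hx
    _ = nn (c.P x) (c.F x.1) ^ c.n * exp (-(c.n * c.τ x)) := by
        rw [mul_pow, ← exp_nat_mul]; ring_nf
    _ ≤ exp k * a * exp (-(c.n * c.τ x)) := by gcongr
    _ = _ := by rw [sub_eq_add_neg, exp_add]; ring

theorem nn_low {x : ℂ × ℂ} (hx : x ∈ c.T) (hr : ‖x.1 - c.a‖ ≤ c.ϱ1) {t : ℝ} (ht : 1 ≤ t)
    (h : x ∉ c.cBox (t * c.x0) (t * c.η)) : t * c.η ≤ max ‖c.P x‖ ‖c.F x.1‖ := by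
  by_cases h3 : ‖x.1 - c.a‖ ≤ t * c.x0
  · exact le_max_of_le_left (not_le.1 fun h4 => h ⟨hx, h3, h4⟩).le
  · exact le_max_of_le_right (c.F_low (c.ball_KV (by simpa [dist_eq_norm] using hr)) ht
      (not_le.1 h3).le)

theorem collar_a {x : ℂ × ℂ} (h1 : x ∈ c.Box (2 * c.x0) (2 * c.η)) (h2 : x ∉ c.cBox c.x0 c.η) :
    c.W1 x ≤ c.U0 x := by
  obtain ⟨s0, s1, s2, s3, s4, s5, s6⟩ := c.scales
  obtain ⟨hx, hr, hp⟩ := h1
  have h3 := c.nn_low hx (by linarith) le_rfl (by simpa using h2)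
  have h4 := max_le_nn (c.P x) (c.F x.1)
  have h5 := le_nn_left (c.P x) (c.F x.1)
  have h6 := le_nn_right (c.P x) (c.F x.1)
  set m := nn (c.P x) (c.F x.1)
  have h7 : ‖c.P x‖ ^ c.n ≤ m ^ c.n := by gcongr
  have h8 : c.η ^ c.n ≤ m ^ c.n := by gcongr; linarith
  have h9 := pow_le_exp (a := ‖c.Q x / c.α‖) (b := m) (k := 2) (norm_nonneg _)
    (by nlinarith [c.Qα_up hx (by linarith), le_exp_two]) c.n
  have h10 : 1 ≤ exp (2 * c.n) := one_le_exp (by positivity)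
  have h11 : nn (c.Pn x) ((c.Q x / c.α) ^ c.n) ≤ exp (2 * c.n + 2) * m ^ c.n := by
    have := nn_le_add (c.Pn x) ((c.Q x / c.α) ^ c.n)
    rw [norm_pow] at this
    have h12 := c.Pn_up' (c.T_cball hx)
    have h13 : 0 ≤ m ^ c.n := by linarith [c.ηn_pos]
    rw [exp_add]
    nlinarith [le_exp_two, mul_le_mul_of_nonneg_right h10 h13]
  rw [U0, c.box_U x ⟨hx, by linarith, by linarith⟩, mul_pow, ← exp_nat_mul, mul_assoc, ← exp_add,
    c.lR_zero (by linarith) (by linarith)]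
  exact key_le (by linarith [c.ηn_pos]) h11 (by linarith [c.S_ge, c.n_ge])

theorem half_box {x : ℂ × ℂ} (h1 : x ∈ c.Box c.x2 c.ϱ1) (h2 : x ∉ c.cBox (c.x2 / 2) (c.ϱ1 / 2)) :
    5 * c.S ≤ c.lR x ∧ 4 * c.η ≤ max ‖c.P x‖ ‖c.F x.1‖ ∧ x ∉ c.Box c.x1 c.x1 ∧
    (‖c.P x - c.s x.1‖ < 1 / 3 * ‖c.s x.1‖ →
      x ∈ c.cStr (2 * c.x0) (c.h + 3 * (c.h / 20)) (1 / 3) ∧ x.1 ∈ c.V1) := by
  obtain ⟨s0, s1, s2, s3, s4, s5, s6⟩ := c.scales
  obtain ⟨hx, hr, hp⟩ := h1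
  have h3 : c.x2 / 2 ≤ ‖x.1 - c.a‖ ∨ c.ϱ1 / 2 ≤ ‖c.P x‖ := by
    by_contra h
    push Not at h
    exact h2 ⟨hx, h.1.le, h.2.le⟩
  refine ⟨c.lR_ge h3, c.nn_low hx (by linarith) (by norm_num) fun h =>
    h2 ⟨hx, by linarith [h.2.1], by linarith [h.2.2]⟩, fun h =>
    h2 ⟨hx, by linarith [h.2.1], by linarith [h.2.2]⟩, fun hw => ?_⟩
  obtain ⟨h4, h5⟩ := c.s_x2 hr.le
  have h6 := norm_sub_norm_le (c.P x) (c.s x.1)
  have h7 : c.x2 / 2 ≤ ‖x.1 - c.a‖ := h3.resolve_right (by linarith)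
  exact ⟨⟨hx, by linarith, h5.trans (exp_le_exp.2 (by linarith [c.H.h_ge])), hw.le⟩,
    c.near_Vout hr.le, by linarith⟩

theorem collar_b {x : ℂ × ℂ} (h1 : x ∈ c.Box c.x2 c.ϱ1) (h2 : x ∉ c.cBox (c.x2 / 2) (c.ϱ1 / 2)) :
    (x ∉ c.Box (2 * c.x0) (2 * c.η) ∧ c.U0 x ≤ c.W1 x) ∨
    (x ∈ c.cStr (2 * c.x0) (c.h + 3 * (c.h / 20)) (1 / 3) ∧ c.W2 x ≤ c.W1 x) := by
  obtain ⟨s0, s1, s2, s3, s4, s5, s6⟩ := c.scales
  obtain ⟨h3, h4, h5, h6⟩ := c.half_box h1 h2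
  obtain ⟨hx, hr, hp⟩ := h1
  have hS := c.S_ge
  have hn := c.n_ge
  rcases le_or_gt (1 / 3 * ‖c.s x.1‖) ‖c.P x - c.s x.1‖ with hw | hw
  · refine Or.inl ⟨fun h => h5 ⟨hx, by linarith [h.2.1], by linarith [h.2.2]⟩, ?_⟩
    have h7 : max ‖c.P x‖ ‖c.F x.1‖ ^ c.n ≤ exp (3 * c.n) * nn (c.Pn x) ((c.Q x / c.α) ^ c.n) := by
      rcases le_total ‖c.P x‖ ‖c.F x.1‖ with h | h
      · rw [max_eq_right h]
        refine (pow_le_exp (b := ‖c.Q x / c.α‖) (k := 3) (norm_nonneg _) (by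
          nlinarith [(c.Qα_low hx (by linarith) hw).1, le_exp_three,
            norm_nonneg (c.Q x / c.α)]) c.n).trans ?_
        gcongr
        rw [← norm_pow]; exact le_nn_right _ _
      · rw [max_eq_left h] at h4 ⊢
        have h8 := key_le (nn_nonneg _ _) (s := 0) (t := c.n) (u := 3 * c.n)
          (by simpa using ((c.big hx (by linarith) hw h4).2.trans (le_nn_left _ _)))
          (by linarith) (b := nn (c.Pn x) ((c.Q x / c.α) ^ c.n))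
        rwa [mul_assoc, ← exp_add, neg_add_cancel, exp_zero, mul_one, mul_comm] at h8
    have h8 := pow_le_exp (a := nn (c.P x) (c.F x.1)) (b := max ‖c.P x‖ ‖c.F x.1‖) (k := 1)
      (nn_nonneg _ _) (by nlinarith [nn_le_max (c.P x) (c.F x.1), two_le_e]) c.n
    have h9 := c.Un_le hx (k := 4 * c.n) (a := nn (c.Pn x) ((c.Q x / c.α) ^ c.n)) (by
      refine h8.trans ((mul_le_mul_of_nonneg_left h7 (exp_pos _).le).trans (le_of_eq ?_))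
      rw [← mul_assoc, ← exp_add]; ring_nf)
    exact key_le (nn_nonneg _ _) h9 (by linarith)
  · obtain ⟨h7, h8⟩ := h6 hw
    refine Or.inr ⟨h7, key_le (nn_nonneg _ _)
      (c.overlap hx h8 (by linarith [norm_nonneg (c.s x.1)]) hr.le).1 ?_⟩
    simp only [τn]; linarith

theorem collar_c {x : ℂ × ℂ} (h1 : x ∈ c.Str c.x0 (c.h + 2 * (c.h / 20)) (1 / 2))
    (h2 : x ∉ c.cStr (2 * c.x0) (c.h + 3 * (c.h / 20)) (1 / 3)) :
    (x ∉ c.Box (2 * c.x0) (2 * c.η) ∧ c.U0 x ≤ c.W2 x) ∨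
    (x ∈ c.cBox (c.x2 / 2) (c.ϱ1 / 2) ∧ c.W1 x ≤ c.W2 x) := by
  obtain ⟨s0, s1, s2, s3, s4, s5, s6⟩ := c.scales
  have hh := c.H.h_ge
  have hz := c.str_V1 h1 le_rfl (by linarith)
  obtain ⟨hx, hr, ht, hw⟩ := h1
  have hS := c.S_ge
  have hn := c.n_ge
  obtain ⟨h3, h4⟩ := c.str_p hw.le
  obtain ⟨h5, -, h6⟩ := c.disc_facts hz (p := c.P x) (by linarith [norm_nonneg (c.s x.1)])
  have h7 := c.H.F50 hz.1.1
  have hB : ‖x.1 - c.a‖ ≤ c.x2 / 2 → ‖c.P x‖ ≤ c.ϱ1 / 2 → c.lR x ≤ 2 * c.S →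
      x ∈ c.cBox (c.x2 / 2) (c.ϱ1 / 2) ∧ c.W1 x ≤ c.W2 x := fun a b e =>
    ⟨⟨hx, a, b⟩, key_le (nn_nonneg _ _) (c.overlap hx hz hw.le (by linarith)).2 (by
      simp only [τn]; linarith)⟩
  rcases lt_or_ge ‖x.1 - c.a‖ (2 * c.x0) with h8 | h8
  · have h9 := c.s_x0 h8.le
    exact Or.inr (hB (by linarith) (by linarith)
      (by rw [c.lR_zero (by linarith) (by linarith)]; linarith))
  have hC : x ∉ c.Box (2 * c.x0) (2 * c.η) := fun h => by linarith [h.2.1]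
  rcases lt_or_ge (exp (-(c.h + 3 * (c.h / 20)))) ‖c.s x.1‖ with h9 | h9
  · have h10 := (exp_lt_exp.2 (show -(2 * c.h) < -(c.h + 3 * (c.h / 20)) by linarith)).trans h9
    have h11 := (one_le_exp (show 0 ≤ c.X / 16 by linarith [c.X_pos])).trans (c.Flow hz.1 h10)
    have h12 := c.lR_ge (x := x) (Or.inl (by linarith [(c.far_of_s h10).1]))
    have h13 := exp_le_one_iff.2 (show -c.h ≤ 0 by linarith)
    have h14 := c.Un_le hx (k := 0) (a := nn (c.Pn x) (c.Fn x.1)) (by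
      rw [exp_zero, one_mul]
      exact (pow_le_one₀ (nn_nonneg _ _) (by linarith [nn_le_add (c.P x) (c.F x.1)])).trans
        (h11.trans (le_nn_right _ _)))
    exact Or.inl ⟨hC, key_le (nn_nonneg _ _) h14 (by simp only [τn]; linarith)⟩
  have h10 : 1 / 3 * ‖c.s x.1‖ < ‖c.P x - c.s x.1‖ := not_le.1 fun h => h2 ⟨hx, h8, h9, h⟩
  rcases le_or_gt (2 * c.S) (c.lR x) with h11 | h11
  · have h12 := pow_le_exp (a := nn (c.P x) (c.F x.1)) (b := ‖c.P x‖) (k := 1)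
      (nn_nonneg _ _) (by nlinarith [nn_le_add (c.P x) (c.F x.1), two_le_e]) c.n
    have h13 := (c.big hx h6 h10.le (by linarith)).2.trans (le_nn_left _ (c.Fn x.1))
    have h14 := c.Un_le hx (k := 2 * c.n) (a := nn (c.Pn x) (c.Fn x.1)) (by
      refine h12.trans ?_
      calc _ = exp (2 * c.n) * (‖c.P x‖ ^ c.n * exp (-c.n)) := by
            rw [mul_left_comm, ← exp_add]; ring_nf
        _ ≤ _ := by gcongr)
    exact Or.inl ⟨hC, key_le (nn_nonneg _ _) h14 (by simp only [τn]; linarith)⟩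
  · have h12 : ¬(c.x2 / 2 ≤ ‖x.1 - c.a‖ ∨ c.ϱ1 / 2 ≤ ‖c.P x‖) := fun h => by
      linarith [c.lR_ge h]
    push Not at h12
    exact Or.inr (hB h12.1.le h12.2.le h11.le)

theorem nτ_le {x : ℂ × ℂ} (hx : x ∈ closedBall (0 : ℂ × ℂ) 1) : c.n * c.τ x ≤ c.n * c.E :=
  mul_le_mul_of_nonneg_left (c.H.τ_le x hx) (Nat.cast_nonneg _)

theorem U0_ge {x : ℂ × ℂ} (hx : x ∈ closedBall (0 : ℂ × ℂ) 1) {a : ℝ} (ha : 0 ≤ a)
    (h : a * exp (-c.E) ≤ c.U x) : a ^ c.n * exp (-(c.n * c.E + 30 * c.S)) ≤ c.U0 x := by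
  refine key_le (pow_nonneg (c.H.U_nn x) _) (pow_le_exp (k := c.E) ha ?_ c.n)
    (by linarith [c.lR_le hx])
  calc a = exp c.E * (a * exp (-c.E)) := by rw [mul_left_comm, ← exp_add]; simp
    _ ≤ _ := by gcongr

theorem W1_ge {x : ℂ × ℂ} (hx : x ∈ closedBall (0 : ℂ × ℂ) 1) :
    nn (c.Pn x) ((c.Q x / c.α) ^ c.n) * exp (-(c.n * c.E + 4 * c.S)) ≤ c.W1 x :=
  key_le (s := 0) (nn_nonneg _ _) (by simp) (by linarith [c.nτ_le hx])

theorem W2_ge {x : ℂ × ℂ} (hx : x ∈ closedBall (0 : ℂ × ℂ) 1) :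
    nn (c.Pn x) (c.Fn x.1) * exp (-(c.n * c.E + 16 * c.S)) ≤ c.W2 x :=
  key_le (s := 0) (nn_nonneg _ _) (by simp) (by simp only [τn]; linarith [c.nτ_le hx, c.lR_le hx])

theorem out_box {x : ℂ × ℂ} (h : x ∉ c.Box (2 * c.x0) (2 * c.η)) : x ∉ c.cBox c.x0 c.η :=
  fun h1 => h ⟨h1.1, by linarith [h1.2.1, c.x0_pos], by linarith [h1.2.2, c.η_pos]⟩

theorem below_A {x : ℂ × ℂ} (hx : x ∈ closedBall (0 : ℂ × ℂ) 1) : c.Below x (c.fA x) := by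
  have hS := c.S_ge
  have hn := c.n_ge
  refine ⟨fun h => ?_, fun _ => le_trans ?_ (c.W1_ge hx), fun _ => le_trans ?_ (c.W2_ge hx)⟩
  · refine le_trans ?_ (c.U0_ge hx (a := max ‖c.P x‖ c.η) (le_max_of_le_left (norm_nonneg _)) ?_)
    · refine key_le (s := 1) (pow_nonneg (le_max_of_le_left (norm_nonneg _)) _) ?_
        (by simp only [En]; linarith)
      have h1 : ‖c.P x‖ ^ c.n ≤ max ‖c.P x‖ c.η ^ c.n := by gcongr; exact le_max_left _ _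
      have h2 : c.η ^ c.n ≤ max ‖c.P x‖ c.η ^ c.n := by
        have := c.η_pos; gcongr; exact le_max_right _ _
      nlinarith [c.Pn_up' hx, two_le_e, c.ηn_pos]
    · rcases le_total ‖c.P x‖ c.η with h1 | h1
      · rw [max_eq_right h1]; exact c.U_low hx (c.out_box h)
      · rw [max_eq_left h1]; exact c.H.U_ge x hx
  · exact key_le (s := 0) (nn_nonneg _ _) (by simpa using le_nn_left _ _)
      (by simp only [En]; linarith)
  · exact key_le (s := 0) (nn_nonneg _ _) (by simpa using le_nn_left _ _)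
      (by simp only [En]; linarith)

theorem b_far : c.ϱ1 < ‖c.b - c.a‖ := not_le.1 fun h => c.far_ne (c.near_far h) rfl

theorem b_ball : c.b ∈ closedBall c.o c.ρ := by
  rw [mem_closedBall, dist_eq_norm]
  linarith [c.hb, c.hρ2, c.H.a_mem, c.hr]

theorem b_V1 : c.b ∈ c.V1 := by
  obtain ⟨s0, s1, s2, s3, s4, s5, s6⟩ := c.scales
  exact ⟨c.H.ball_Vout c.b_ball, by linarith [c.b_far]⟩

theorem bh_spec : c.bh ∈ c.Str c.x2 (2 * c.h) (1 / 3) ∧ c.bh.1 = c.b ∧ c.Pn c.bh = 0 := by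
  have h0 : ‖(0:ℂ)‖ ≤ c.η ^ c.n := by simpa using c.ηn_pos.le
  obtain ⟨h1, h2, -, h3⟩ := c.Ψn_spec c.b_V1 h0
  refine ⟨⟨h1, ?_, ?_, c.Ψn_str c.b_V1 h0⟩, h2, h3⟩
  · rw [bh, h2]; linarith [c.b_far, c.x2_ϱ, c.ϱ1_pos]
  · rw [bh, h2]
    exact (c.H.ball_sub _ c.b_ball).2.trans_lt (exp_lt_exp.2 (by linarith [c.H.h_ge]))

theorem A_pos : 1 ≤ c.A := by
  have h1 := c.A_ge
  have : 0 < (c.n:ℝ) ^ 2 * c.Hh := by have := c.n_ge; have := c.Hh_ge; positivity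
  by_contra h
  have h2 : c.A = 0 := by omega
  rw [h2] at h1
  simp only [Nat.cast_zero, zero_mul] at h1
  linarith

theorem Fn_b : c.Fn c.b = 0 := by
  have := c.A_pos
  simp [Fn, zero_pow (by omega : c.A ≠ 0)]

theorem τn_SM (x : ℂ × ℂ) : SM c.τn x :=
  (((c.H.τ_SM x).mul (Nat.cast_nonneg c.n)).add (SM.const c.S x)).add (c.lR_SM x)

theorem Fn_fst {x : ℂ × ℂ} (hz : x.1 ∈ c.V1) :
    ∀ᶠ y in 𝓝 x, DifferentiableAt ℂ (fun y : ℂ × ℂ => c.Fn y.1) y := by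
  filter_upwards [continuous_fst.continuousAt.eventually (c.V1_open.mem_nhds hz)] with y hy
  exact (c.Fn_diff.differentiableAt (c.V1_open.mem_nhds hy)).comp y differentiableAt_fst

theorem U0_cont (x : ℂ × ℂ) : ContinuousAt c.U0 x :=
  (c.H.U_cont.continuousAt.pow _).mul ((c.lR_SM x).1.at.const_mul 2).neg.rexp

theorem Qn_diff : Differentiable ℂ fun x => (c.Q x / c.α) ^ c.n := by
  simp only [div_eq_mul_inv]
  exact ((pol_diff c.Q_pol).mul_const _).pow _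

theorem W1_cont (x : ℂ × ℂ) : ContinuousAt c.W1 x :=
  (continuous_nn.comp ((pol_cont c.Pn_pol).prodMk c.Qn_diff.continuous)).continuousAt.mul
    (((c.H.τ_SM x).1.at.const_mul _).add continuousAt_const).neg.rexp

theorem nn2_cont {x : ℂ × ℂ} (hz : x.1 ∈ c.V1) :
    ContinuousAt (fun x => nn (c.Pn x) (c.Fn x.1)) x :=
  ContinuousAt.comp (f := fun x => (c.Pn x, c.Fn x.1)) continuous_nn.continuousAt
    ((pol_cont c.Pn_pol).continuousAt.prodMk (c.Fn_fst hz).self_of_nhds.continuousAt)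

theorem W2_cont {x : ℂ × ℂ} (hz : x.1 ∈ c.V1) : ContinuousAt c.W2 x :=
  (c.nn2_cont hz).mul (c.τn_SM x).1.at.neg.rexp

theorem core_str {x : ℂ × ℂ} (h : x ∈ c.cStr (2 * c.x0) (c.h + 3 * (c.h / 20)) (1 / 3)) :
    x ∈ c.Str c.x0 (c.h + 2 * (c.h / 20)) (1 / 2) := by
  have h1 : c.x0 < ‖x.1 - c.a‖ := by linarith [h.2.1, c.x0_pos]
  have h2 := h.2.2.1.trans_lt (exp_lt_exp.2 (show -(c.h + 3 * (c.h / 20)) <
    -(c.h + 2 * (c.h / 20)) by linarith [c.H.h_ge]))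
  have h3 := c.V1_s (z := x.1) ⟨⟨(c.H.Ψ_left x h.1).1,
    h2.trans (exp_lt_exp.2 (by linarith [c.H.h_ge]))⟩, h1⟩
  exact ⟨h.1, h1, h2, by linarith [h.2.2.2, c.η_pos]⟩

theorem U0_S {x : ℂ × ℂ} (h : x ≠ c.ah) : 0 < c.U0 x ∧ SS (fun y => log (c.U0 y)) x := by
  obtain ⟨h1, h2⟩ := c.H.U_S x h
  refine ⟨mul_pos (pow_pos h1 _) (exp_pos _), SS.log_mul_exp (f := fun y => c.U y ^ c.n) ?_
    (c.H.U_cont.continuousAt.pow _) (pow_pos h1 _) ((c.lR_SM x).mul two_pos.le)⟩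
  simp only [log_pow]
  exact h2.mul (by linarith [c.n_ge])

theorem W1_S (x : ℂ × ℂ) : 0 < c.W1 x ∧ SS (fun y => log (c.W1 y)) x := by
  have h1 : 0 < nn (c.Pn x) ((c.Q x / c.α) ^ c.n) := by
    by_cases h : c.Q x = 0
    · have := c.Pn_ge' x
      rw [c.norm_Qb, h, norm_zero, zero_div, zero_mul, sub_zero] at this
      linarith [c.ηn_pos, le_nn_left (c.Pn x) ((c.Q x / c.α) ^ c.n)]
    · have : (c.α : ℂ) ≠ 0 := by exact_mod_cast (by linarith [c.H.α_ge] : c.α ≠ 0)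
      exact (norm_pos_iff.2 (pow_ne_zero _ (div_ne_zero h this))).trans_le (le_nn_right _ _)
  exact ⟨mul_pos h1 (exp_pos _), SS.log_mul_exp
    (SS.log_nn (Eventually.of_forall (pol_diff c.Pn_pol)) (Eventually.of_forall c.Qn_diff) h1)
    (continuous_nn.comp ((pol_cont c.Pn_pol).prodMk c.Qn_diff.continuous)).continuousAt h1
    (((c.H.τ_SM x).mul (Nat.cast_nonneg c.n)).add (SM.const _ x))⟩

theorem W2_S {x : ℂ × ℂ} (h : x ∈ c.Str c.x0 (c.h + 2 * (c.h / 20)) (1 / 2)) (hb : x ≠ c.bh) :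
    0 < c.W2 x ∧ SS (fun y => log (c.W2 y)) x := by
  have hz := c.str_V1 h le_rfl (by linarith [c.H.h_ge])
  have h1 : 0 < nn (c.Pn x) (c.Fn x.1) := by
    by_cases h2 : c.Pn x = 0
    · have h3 := c.Ψn_left h.1 hz h.2.2.2.le (by rw [h2]; simpa using c.ηn_pos.le)
      have h4 : x.1 ≠ c.b := fun h4 => hb (by rw [← h3, h2, h4]; rfl)
      exact (c.log_Fn hz h4).1.trans_le (le_nn_right _ _)
    · exact (norm_pos_iff.2 h2).trans_le (le_nn_left _ _)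
  exact ⟨mul_pos h1 (exp_pos _), SS.log_mul_exp
    (SS.log_nn (Eventually.of_forall (pol_diff c.Pn_pol)) (c.Fn_fst hz) h1)
    (c.nn2_cont hz) h1 (c.τn_SM x)⟩

theorem W1_small {x : ℂ × ℂ} (h : x ∈ c.cBox c.x0 c.η) : c.W1 x ≤ exp (-c.N0) ^ c.n := by
  obtain ⟨s0, s1, s2, s3, s4, s5, s6⟩ := c.scales
  obtain ⟨hx, hr, hp⟩ := h
  have h0 : c.uu * c.x0 ≤ exp (-c.N0) := c.hN0
  have h1 : c.x0 ≤ exp (-c.N0) := by nlinarith [c.uu_ge]
  have h2 : ‖c.s x.1‖ ≤ exp (-c.N0) :=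
    (c.s_up (by linarith)).trans (le_trans (by gcongr; linarith [c.uu_ge]) h0)
  have h3 := c.H.F50 (c.H.Ψ_left x hx).1
  have h4 := c.Qα_up hx (by linarith)
  have h5 : ‖c.Q x / c.α‖ ^ c.n ≤ exp (-c.N0) ^ c.n := by gcongr; linarith
  have h6 : ‖c.P x‖ ^ c.n ≤ exp (-c.N0) ^ c.n := by gcongr; linarith
  have h7 : c.η ^ c.n ≤ exp (-c.N0) ^ c.n := by gcongr; linarith
  have h8 := nn_le_add (c.Pn x) ((c.Q x / c.α) ^ c.n)
  rw [norm_pow] at h8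
  have := key_le (a := nn (c.Pn x) ((c.Q x / c.α) ^ c.n)) (b := exp (-c.N0) ^ c.n) (s := 2)
    (t := -(c.n * c.τ x + 4 * c.S)) (u := 0) (by positivity)
    (by nlinarith [c.Pn_up' (c.T_cball hx), le_exp_two, c.ηn_pos])
    (by linarith [c.S_ge, c.n_ge, mul_nonneg (Nat.cast_nonneg c.n) (c.H.τ_nn x)])
  rwa [exp_zero, mul_one] at this

theorem upper : ∃ g : ℂ × ℂ → ℝ, Continuous g ∧ (∀ x, 0 ≤ g x) ∧
    (∀ x, x ≠ c.bh → 0 < g x ∧ SS (fun y => log (g y)) x) ∧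
    (∀ x l, c.Below x l → l ≤ g x) ∧
    (∀ x ∈ c.Str c.x0 (c.h + 2 * (c.h / 20)) (1 / 2), g x ≤ c.W2 x) ∧
    (∀ᶠ x in 𝓝 c.bh, g x = c.W2 x) ∧
    ∀ x, g x ≤ max (c.U x) (exp (-c.N0)) ^ c.n := by
  obtain ⟨s0, s1, s2, s3, s4, s5, s6⟩ := c.scales
  have hh := c.H.h_ge
  set G : Fin 3 → Set (ℂ × ℂ) := ![(c.cBox c.x0 c.η)ᶜ, c.Box c.x2 c.ϱ1,
    c.Str c.x0 (c.h + 2 * (c.h / 20)) (1 / 2)] with hG
  set C : Fin 3 → Set (ℂ × ℂ) := ![(c.Box (2 * c.x0) (2 * c.η))ᶜ, c.cBox (c.x2 / 2) (c.ϱ1 / 2),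
    c.cStr (2 * c.x0) (c.h + 3 * (c.h / 20)) (1 / 3)] with hC
  set f : Fin 3 → ℂ × ℂ → ℝ := ![c.U0, c.W1, c.W2] with hf
  have hGo : ∀ i, IsOpen (G i) := by
    intro i
    fin_cases i
    · exact (c.cBox_closed (by linarith) (by linarith)).isOpen_compl
    · exact c.H.Box_open _ _
    · exact c.H.Str_open _ _ _
  have hCG : ∀ i, ∀ x ∈ univ, x ∈ C i → x ∈ G i := by
    intro i x _ hx
    fin_cases i
    · exact c.out_box hx
    · exact ⟨hx.1, by linarith [hx.2.1], by linarith [hx.2.2]⟩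
    · exact c.core_str hx
  have hin : ∀ x ∈ c.Box (2 * c.x0) (2 * c.η), x ∈ c.cBox (c.x2 / 2) (c.ϱ1 / 2) :=
    fun x h => ⟨h.1, by linarith [h.2.1], by linarith [h.2.2]⟩
  obtain ⟨g, h1, h2, h3⟩ := glue_min (S := univ) (G := G) (C := C) (f := f) (by
    intro i
    fin_cases i
    · exact (c.H.Box_open _ _).isClosed_compl
    · exact c.cBox_closed (by linarith) (by linarith)
    · exact c.cStr_closed _ (by linarith)) hGo hCG (by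
    intro i x _ hx
    fin_cases i
    · exact c.U0_cont x
    · exact c.W1_cont x
    · exact c.W2_cont (c.str_V1 hx le_rfl (by linarith))) (by
    intro x _
    by_cases h : x ∈ c.Box (2 * c.x0) (2 * c.η)
    · exact ⟨1, hin x h⟩
    · exact ⟨0, h⟩) (by
    intro i x _ hx hx'
    fin_cases i
    · exact ⟨1, hin x (not_not.1 hx'), c.collar_a (not_not.1 hx') hx⟩
    · rcases c.collar_b hx hx' with h | h
      · exact ⟨0, h⟩
      · exact ⟨2, h⟩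
    · rcases c.collar_c hx hx' with h | h
      · exact ⟨0, h⟩
      · exact ⟨1, h⟩)
  have hgc : Continuous g := continuousOn_univ.1 h3
  have hbel : ∀ x l, c.Below x l → l ≤ g x := by
    intro x l hl
    obtain ⟨i, h4, h5⟩ := h2 x trivial
    rw [h5]
    fin_cases i
    · exact hl.1 h4
    · exact hl.2.1 h4
    · exact hl.2.2 h4
  have hah : c.ah ∈ c.Box (2 * c.x0) (2 * c.η) :=
    ⟨c.H.ah_spec.1, by rw [c.H.ah_spec.2.1]; simpa using by linarith,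
      by rw [c.H.ah_spec.2.2]; simpa using s0⟩
  obtain ⟨b1, b2, b3⟩ := c.bh_spec
  refine ⟨g, hgc, fun x => hbel x 0 ⟨fun _ => mul_nonneg (pow_nonneg (c.H.U_nn x) _) (exp_pos _).le,
    fun _ => mul_nonneg (nn_nonneg _ _) (exp_pos _).le,
    fun _ => mul_nonneg (nn_nonneg _ _) (exp_pos _).le⟩, fun x hx => ?_, hbel,
    fun x hx => h1 x trivial 2 hx, ?_, fun x => ?_⟩
  · obtain ⟨i, h4, h5⟩ := h2 x trivial
    have h6 : 0 < f i x ∧ SS (fun y => log (f i y)) x := by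
      fin_cases i
      · exact c.U0_S fun h => h4 (h ▸ hah)
      · exact c.W1_S x
      · exact c.W2_S (c.core_str h4) hx
    have h7 : 0 < g x := h5 ▸ h6.1
    refine ⟨h7, h6.2.of_le ((CN.of_continuous hgc x).log h7) ?_ (by simp only [h5])⟩
    filter_upwards [(hGo i).mem_nhds (hCG i x trivial h4),
      hgc.continuousAt.eventually (lt_mem_nhds h7)] with y h8 h9
    exact log_le_log h9 (h1 y trivial i h8)
  · have h4 : c.W2 c.bh < c.U0 c.bh := by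
      have h5 : c.W2 c.bh = 0 := by simp [W2, b2, b3, c.Fn_b, nn]
      rw [h5]
      exact (c.U0_S fun h => by
        have := b1.2.1
        rw [h, c.H.ah_spec.2.1, sub_self, norm_zero] at this
        linarith).1
    filter_upwards [(c.W2_cont (b2.symm ▸ c.b_V1)).eventually_lt (c.U0_cont _) h4,
      (c.H.Str_open _ _ _).mem_nhds b1] with x h5 h6
    obtain ⟨i, h7, h8⟩ := h2 x trivial
    have h9 := h1 x trivial 2 ⟨h6.1, by linarith [h6.2.1],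
      h6.2.2.1.trans (exp_lt_exp.2 (by linarith)), by linarith [h6.2.2.2, norm_nonneg (c.s x.1)]⟩
    fin_cases i
    · exact absurd (h8.symm.trans_le h9) (not_le.2 h5)
    · exact absurd h7.2.1 (by linarith [h6.2.1])
    · exact h8
  · by_cases h : x ∈ c.cBox c.x0 c.η
    · refine (h1 x trivial 1 ⟨h.1, by linarith [h.2.1], by linarith [h.2.2]⟩).trans
        ((c.W1_small h).trans ?_)
      gcongr; exact le_max_right _ _
    · refine (h1 x trivial 0 h).trans ((mul_le_of_le_one_right (pow_nonneg (c.H.U_nn x) _)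
        (exp_le_one_iff.2 (by linarith [c.lR_nn x]))).trans ?_)
      have := c.H.U_nn x
      gcongr; exact le_max_left _ _

end Ctx

end Pool.Agent.Lib.MP_9cdd18_an.CX
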