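import Pool.Agent.Lib.MP_9cdd18_an.CXPoly
import Pool.Agent.Lib.MP_9cdd18_an.CXPompeiu

namespace Pool.Agent.Lib.MP_9cdd18_an.CX

open MeasureTheory Set Real Filter Topology Metric

theorem cauchy_trunc {g : ℂ → ℂ} {R K : ℝ} (hR : 0 < R) (hg : DifferentiableOn ℂ g (closedBall 0 R))
    (hK : ∀ q ∈ sphere (0:ℂ) R, ‖g q‖ ≤ K) {p : ℂ} (hp : ‖p‖ ≤ R / 2) (J : ℕ) :
    ‖(∫ θ in Icc 0 (2 * π), g (circleMap 0 R θ) *
      ((∑ l ∈ Finset.range J, (p * (circleMap 0 R θ)⁻¹) ^ l) * (2 * π : ℂ)⁻¹)) - g p‖ ≤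
      2 * K * (‖p‖ / R) ^ J := by
  have hq : ∀ θ, circleMap 0 R θ ∈ sphere (0:ℂ) R := fun θ => circleMap_mem_sphere 0 hR.le θ
  have hqn : ∀ θ, ‖circleMap 0 R θ‖ = R := fun θ => by simpa using hq θ
  have hq0 : ∀ θ, circleMap 0 R θ ≠ 0 := fun θ => norm_pos_iff.1 (by rw [hqn]; exact hR)
  have hqp : ∀ θ, R / 2 ≤ ‖circleMap 0 R θ - p‖ := fun θ => by
    linarith [norm_sub_norm_le (circleMap 0 R θ) p, hqn θ]
  have hqp0 : ∀ θ, circleMap 0 R θ - p ≠ 0 := fun θ => norm_pos_iff.1 (by linarith [hqp θ])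
  have h1 := DiffContOnCl.circleAverage_smul_div (f := g) (c := 0) (R := R) (w := p)
    (by rw [abs_of_pos hR]; exact hg.diffContOnCl_ball le_rfl)
    (by rw [abs_of_pos hR, mem_ball_zero_iff]; linarith)
  have hgc : Continuous fun θ => g (circleMap 0 R θ) :=
    hg.continuousOn.comp_continuous (continuous_circleMap 0 R) fun θ =>
      sphere_subset_closedBall (hq θ)
  have hc := continuous_circleMap 0 R
  have h2 : g p = ∫ θ in Icc 0 (2 * π), g (circleMap 0 R θ) *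
      (circleMap 0 R θ / (circleMap 0 R θ - p) * (2 * π : ℂ)⁻¹) := by
    rw [← h1, circleAverage_def, integral_Icc_eq_integral_Ioc,
      ← intervalIntegral.integral_of_le (by positivity), ← intervalIntegral.integral_smul]
    refine intervalIntegral.integral_congr fun θ _ => ?_
    simp only [sub_zero, smul_eq_mul, Complex.real_smul]
    push_cast
    ring
  rw [h2, ← integral_sub]
  · refine (norm_setIntegral_le_of_norm_le_const (C := K * ((‖p‖ / R) ^ J * 2 * (2 * π)⁻¹))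
      measure_Icc_lt_top fun θ _ => ?_).trans (le_of_eq ?_)
    · have h3 : (∑ l ∈ Finset.range J, (p * (circleMap 0 R θ)⁻¹) ^ l) -
          circleMap 0 R θ / (circleMap 0 R θ - p) =
          -((p * (circleMap 0 R θ)⁻¹) ^ J * (circleMap 0 R θ / (circleMap 0 R θ - p))) := by
        have h4 := mul_neg_geom_sum (p * (circleMap 0 R θ)⁻¹) J
        have h5 := hq0 θ
        have h6 := hqp0 θ
        have h7 : 1 - p * (circleMap 0 R θ)⁻¹ = (circleMap 0 R θ - p) / circleMap 0 R θ := by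
          field_simp
        rw [h7, div_mul_eq_mul_div, div_eq_iff h5] at h4
        rw [sub_eq_iff_eq_add, ← mul_left_inj' h6, mul_comm, h4]
        field_simp
        ring
      rw [← mul_sub, ← sub_mul, h3, norm_mul, norm_mul, norm_neg, norm_mul, norm_pow, norm_mul,
        norm_inv, norm_div, hqn, norm_inv, ← div_eq_mul_inv ‖p‖]
      have h4 : R / ‖circleMap 0 R θ - p‖ ≤ 2 := by
        rw [div_le_iff₀ (by linarith [hqp θ])]; linarith [hqp θ]
      have h5 : ‖(2 * π : ℂ)‖ = 2 * π := by simp [abs_of_pos pi_pos]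
      have := (norm_nonneg _).trans (hK _ (hq θ))
      rw [h5]
      gcongr
      exact hK _ (hq θ)
    · rw [Real.volume_real_Icc_of_le (by positivity)]
      field_simp
      ring
  · exact (hgc.mul (Continuous.mul (continuous_finsetSum _ fun l _ =>
      (continuous_const.mul (hc.inv₀ hq0)).pow _) continuous_const)).integrableOn_Icc
  · exact (hgc.mul ((hc.div (hc.sub continuous_const) hqp0).mul continuous_const)).integrableOn_Icc

theorem area_le {S : Set ℂ} (hS : S ⊆ closedBall 0 1) : volume S < ⊤ ∧ volume.real S ≤ 4 := by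
  have h1 : volume (closedBall (0:ℂ) 1) < ⊤ := measure_closedBall_lt_top
  refine ⟨(measure_mono hS).trans_lt h1, (measureReal_mono hS h1.ne).trans ?_⟩
  simp [Measure.real, Complex.volume_closedBall, pi_le_four]

theorem weil_int {S : Set ℂ} (hS : IsCompact S) (hS1 : S ⊆ closedBall 0 1) {R : ℝ} (hR : 0 < R)
    (hR1 : R ≤ 1) {k : ℂ → ℂ → ℂ × ℂ → ℂ} {P : ℂ × ℂ → ℂ} (hP : P ∈ Pol) (J : ℕ)
    (hk : Ker (COn (S ×ˢ Icc 0 (2 * π)) : Set (ℂ × ℝ → ℂ))
      fun t x => k t.1 (circleMap 0 R t.2) x) :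
    ∃ f ∈ Pol, ∀ (x : ℂ × ℂ) (K : ℝ), 0 ≤ K → (∀ ζ ∈ S, ∀ q ∈ sphere (0:ℂ) R, ‖k ζ q x‖ ≤ K) →
      (‖P x‖ ≤ 1 → ‖f x‖ ≤ 4 * (K * (J * R⁻¹ ^ J))) ∧
      ∀ (e : ℝ) (m : ℂ → ℂ), 0 ≤ e →
        (∀ ζ ∈ S, DifferentiableOn ℂ (fun q => k ζ q x) (closedBall 0 R)) →
        ‖P x‖ ≤ R / 2 → ContinuousOn m S → (∀ ζ ∈ S, ‖k ζ (P x) x - m ζ‖ ≤ e) →
        ‖f x - ∫ ζ in S, m ζ‖ ≤ 4 * (e + 2 * K * (‖P x‖ / R) ^ J) := by
  have hq : ∀ θ, circleMap 0 R θ ∈ sphere (0:ℂ) R := fun θ => circleMap_mem_sphere 0 hR.le θ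
  have hqn : ∀ θ, ‖circleMap 0 R θ‖ = R := fun θ => by simpa using hq θ
  have hq0 : ∀ θ, circleMap 0 R θ ≠ 0 := fun θ => norm_pos_iff.1 (by rw [hqn]; exact hR)
  have h1 : (fun t : ℂ × ℝ => (circleMap 0 R t.2)⁻¹) ∈ COn (S ×ˢ Icc 0 (2 * π)) :=
    (((continuous_circleMap 0 R).comp continuous_snd).inv₀ fun t => hq0 _).continuousOn
  obtain ⟨h2, h3⟩ := Ker.integral (μ := volume.prod volume) (hS.prod isCompact_Icc)
    (hk.mul ((Ker.sum (fun l => ((Ker.pol hP).mul (Ker.par h1)).pow l) J).mul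
      (Ker.const (2 * π : ℂ)⁻¹)))
  obtain ⟨h4, h5⟩ := area_le hS1
  refine ⟨_, h3, fun x K hK0 hK => ⟨fun hx => ?_, fun e m he hd hx hm hb => ?_⟩⟩
  · rw [setIntegral_prod _ (h2 x)]
    refine (norm_setIntegral_le_of_norm_le_const (C := K * (J * R⁻¹ ^ J)) h4 fun ζ hζ => ?_).trans
      (by rw [mul_comm]; gcongr)
    refine (norm_setIntegral_le_of_norm_le_const (C := K * (J * R⁻¹ ^ J * (2 * π)⁻¹))
      measure_Icc_lt_top fun θ _ => ?_).trans (le_of_eq ?_)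
    · have h5 : ‖(2 * π : ℂ)‖ = 2 * π := by simp [abs_of_pos pi_pos]
      have h6 : 1 ≤ R⁻¹ := one_le_inv₀ hR |>.2 hR1
      rw [norm_mul, norm_mul, norm_inv, h5]
      gcongr
      · exact hK ζ hζ _ (hq θ)
      · refine (norm_sum_le _ _).trans ((Finset.sum_le_card_nsmul _ _ (R⁻¹ ^ J)
          fun l hl => ?_).trans (by simp))
        rw [norm_pow, norm_mul, norm_inv, hqn]
        calc _ ≤ (1 * R⁻¹) ^ l := by gcongr
          _ ≤ _ := by rw [one_mul]; exact pow_le_pow_right₀ h6 (Finset.mem_range.1 hl).le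
    · rw [Real.volume_real_Icc_of_le (by positivity)]
      field_simp
      ring
  · have h6 := h2 x
    rw [setIntegral_prod _ h6, ← integral_sub]
    · refine (norm_setIntegral_le_of_norm_le_const (C := e + 2 * K * (‖P x‖ / R) ^ J) h4
        fun ζ hζ => ?_).trans (by rw [mul_comm]; gcongr)
      have h7 := cauchy_trunc hR (hd ζ hζ) (hK ζ hζ) hx J
      linarith [norm_sub_le_norm_sub_add_norm_sub (∫ θ in Icc 0 (2 * π), k ζ (circleMap 0 R θ) x *
        ((∑ l ∈ Finset.range J, (P x * (circleMap 0 R θ)⁻¹) ^ l) * (2 * π : ℂ)⁻¹))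
        (k ζ (P x) x) (m ζ), hb ζ hζ]
    · rw [IntegrableOn, ← Measure.prod_restrict] at h6
      exact h6.integral_prod_left
    · exact hm.integrableOn_compact hS

theorem dbar_cont {χ : ℂ → ℂ} (h : ContDiff ℝ 1 χ) : Continuous (dbar χ) := by
  have := h.continuous_fderiv one_ne_zero
  unfold dbar
  fun_prop

theorem dbar_zero {χ : ℂ → ℂ} {z v : ℂ} (h : ∀ᶠ w in 𝓝 z, χ w = v) : dbar χ z = 0 := by
  have : χ =ᶠ[𝓝 z] fun _ => v := h
  simp [dbar, this.fderiv_eq]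

theorem dbar_sub {χ ψ : ℂ → ℂ} (h : ContDiff ℝ 1 χ) (h' : ContDiff ℝ 1 ψ) (z : ℂ) :
    dbar (fun w => χ w - ψ w) z = dbar χ z - dbar ψ z := by
  simp only [dbar, fderiv_fun_sub (h.differentiable one_ne_zero z) (h'.differentiable one_ne_zero z),
    sub_apply]
  ring

theorem dbar_bdd {χ : ℂ → ℂ} (h : ContDiff ℝ 1 χ) {K : Set ℂ} (hK : IsCompact K)
    (hs : ∀ z, χ z ≠ 0 → z ∈ K) : ∃ W, 0 ≤ W ∧ ∀ z, ‖dbar χ z‖ ≤ W := by
  obtain ⟨W, hW⟩ := hK.exists_bound_of_continuousOn (dbar_cont h).continuousOn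
  refine ⟨max W 0, le_max_right _ _, fun z => ?_⟩
  by_cases hz : z ∈ K
  · exact le_max_of_le_left (hW z hz)
  · rw [dbar_zero (v := 0), norm_zero]
    · exact le_max_right _ _
    · filter_upwards [hK.isClosed.isOpen_compl.mem_nhds hz] with w hw
      exact not_not.1 fun h => hw (hs w h)

theorem exists_cut {K U : Set ℂ} (hK : IsClosed K) (hU : IsOpen U) (h : K ⊆ U) :
    ∃ χ : ℂ → ℂ, ContDiff ℝ 1 χ ∧ (∀ z, χ z ≠ 0 → z ∈ U) ∧ ∀ z ∈ K, ∀ᶠ w in 𝓝 z, χ w = 1 := by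
  obtain ⟨f, h1, h2, -⟩ := exists_contMDiffMap_zero_one_nhds_of_isClosed (n := 1)
    (modelWithCornersSelf ℝ ℂ) hU.isClosed_compl hK (disjoint_compl_left_iff_subset.2 h)
  refine ⟨fun z => (f z : ℂ), Complex.ofRealCLM.contDiff.comp f.contMDiff.contDiff,
    fun z hz => not_not.1 fun h => hz ?_, fun z hz => ?_⟩
  · simp [h1.self_of_nhdsSet z h]
  · filter_upwards [h2.filter_mono (nhds_le_nhdsSet hz)] with w hw
    simp [hw]

theorem exists_bump : ∃ W : ℝ, 0 ≤ W ∧ ∀ (a : ℂ) (t : ℝ), 0 < t → ∃ χ : ℂ → ℂ, ContDiff ℝ 1 χ ∧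
    (∀ z, χ z ≠ 0 → ‖z - a‖ < 3 * t) ∧ (∀ z, ‖z - a‖ ≤ 2 * t → χ z = 1) ∧
    ∀ z, ‖dbar χ z‖ ≤ W * t⁻¹ := by
  obtain ⟨χ, h1, h2, h3⟩ := exists_cut (isClosed_closedBall (x := (0:ℂ)) (ε := 2)) isOpen_ball
    (closedBall_subset_ball (by norm_num : (2:ℝ) < 3))
  obtain ⟨W, hW0, hW⟩ := dbar_bdd h1 (isCompact_closedBall 0 3)
    fun z hz => ball_subset_closedBall (h2 z hz)
  refine ⟨W, hW0, fun a t ht => ⟨fun z => χ (t⁻¹ • (z - a)), h1.comp (by fun_prop),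
    fun z hz => ?_, fun z hz => (h3 _ ?_).self_of_nhds, fun z => ?_⟩⟩
  · have := h2 _ hz
    rw [mem_ball_zero_iff, norm_smul, norm_inv, norm_eq_abs, abs_of_pos ht,
      inv_mul_lt_iff₀ ht] at this
    linarith
  · rw [mem_closedBall_zero_iff, norm_smul, norm_inv, norm_eq_abs, abs_of_pos ht,
      inv_mul_le_iff₀ ht]
    linarith
  · have h4 : HasFDerivAt (fun z : ℂ => t⁻¹ • (z - a)) (t⁻¹ • ContinuousLinearMap.id ℝ ℂ) z :=
      ((hasFDerivAt_id z).sub_const a).const_smul t⁻¹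
    have h5 := (h1.differentiable one_ne_zero (t⁻¹ • (z - a))).hasFDerivAt.comp z h4
    have h6 : dbar (fun z => χ (t⁻¹ • (z - a))) z = t⁻¹ • dbar χ (t⁻¹ • (z - a)) := by
      have h7 : fderiv ℝ (fun z => χ (t⁻¹ • (z - a))) z = _ := h5.fderiv
      rw [dbar, h7, dbar]
      simp only [ContinuousLinearMap.comp_apply, smul_apply,
        ContinuousLinearMap.id_apply, map_smul]
      simp only [Complex.real_smul]
      ring
    rw [h6, norm_smul, norm_inv, norm_eq_abs, abs_of_pos ht, mul_comm]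
    gcongr
    exact hW _

end Pool.Agent.Lib.MP_9cdd18_an.CX
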