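import Pool.Agent.Lib.MP_9cdd18_an.CXWeil0
import Pool.Agent.Lib.MP_9cdd18_an.CXLower

namespace Pool.Agent.Lib.MP_9cdd18_an.CX

open MeasureTheory Set Real Filter Topology Metric

/-- Parameters of the polynomial approximation on the new strand. -/
structure Ctx2 extends Ctx where
  t1 : ℂ × ℂ → ℂ × ℂ → ℂ
  t2 : ℂ × ℂ → ℂ × ℂ → ℂ
  q1 : ℂ × ℂ → ℂ × ℂ → ℂ
  q2 : ℂ × ℂ → ℂ × ℂ → ℂ
  ht1 : Ker (Pol : Set (ℂ × ℂ → ℂ)) t1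
  ht2 : Ker (Pol : Set (ℂ × ℂ → ℂ)) t2
  hq1 : Ker (Pol : Set (ℂ × ℂ → ℂ)) q1
  hq2 : Ker (Pol : Set (ℂ × ℂ → ℂ)) q2
  hPt : ∀ ξ x, P ξ - P x = (ξ.1 - x.1) * t1 ξ x + (ξ.2 - x.2) * t2 ξ x
  hQq : ∀ ξ x, toPre.Qb ξ - toPre.Qb x = (ξ.1 - x.1) * q1 ξ x + (ξ.2 - x.2) * q2 ξ x
  Δm : ℝ
  hΔ : ∀ ξ ∈ closedBall (0 : ℂ × ℂ) 1, ∀ x ∈ closedBall (0 : ℂ × ℂ) 1,
    ‖t1 ξ x * q2 ξ x - t2 ξ x * q1 ξ x‖ ≤ Δm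
  χo : ℂ → ℂ
  χi : ℂ → ℂ
  Wd : ℝ
  hχo : ContDiff ℝ 1 χo
  hχi : ContDiff ℝ 1 χi
  χo_supp : ∀ z, χo z ≠ 0 → z ∈ V ∧ ‖toData.s z‖ ≤ exp (-(h + 2 * (h / 20)))
  χo_one : ∀ z ∈ V, ‖toData.s z‖ ≤ exp (-(h + 3 * (h / 20))) → ∀ᶠ w in 𝓝 z, χo w = 1
  χi_supp : ∀ z, χi z ≠ 0 → ‖z - a‖ < 3 * toCtx.x0
  χi_one : ∀ z, ‖z - a‖ ≤ 2 * toCtx.x0 → χi z = 1
  hWo : ∀ z, ‖dbar χo z‖ ≤ Wd
  hWi : ∀ z, ‖dbar χi z‖ ≤ Wd * toCtx.x0⁻¹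
  hΔW : Δm * Wd ≤ exp n
  li : ℝ
  lg : ℝ
  hli : 2 * uu * 3 ^ M ≤ um * exp li
  hlg : exp (-lg) ≤ ul * ϱ1 ^ M / 2
  CI : ℕ
  Ci : ℕ
  J : ℕ
  θ1 : ℝ
  hCI1 : 2 * C ≤ CI
  hCI2 : 2 * toPre.C1 + 4 ≤ CI * γ0
  hCi1 : li + 2 ≤ Ci
  hCi2 : 8 * (2 * toPre.C1 + 4) + 2 ≤ Ci * γ0
  hJ : 2 * (5 + CI + (2 * toPre.C1 + 4)) ≤ J * θ1
  hθγ : θ1 ≤ γ0 / 100
  g1 : 2 * (n * Hh) + 200 ≤ θ1 * toCtx.A
  g2 : J * (n * Hh + 3) + 2 ≤ X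
  g3 : log α + 3 ≤ n
  g4 : 8 * li ≤ Hh
  g5 : li + 1 ≤ y
  g6 : 2 * ((li + 1) * (Ci * n * n)) ≤ X
  g7 : n ^ 2 * (li + M * (li + 1) + 1) ≤ X
  g8 : 8 * (n ^ 2 * (1 + lg)) ≤ X
  g9 : D * (N * C0) + 3 ≤ n * ς
  g10 : 2 * (N * C0) + 1 ≤ Hh

namespace Ctx2

variable (c : Ctx2)

noncomputable def C5 : ℝ := 2 * c.C1 + 4

noncomputable def x3 : ℝ := exp (c.li + 1) * c.x0

noncomputable def hn : ℝ := c.θ1 * c.A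

def V4 : Set ℂ := {z ∈ c.V | c.x3 < ‖z - c.a‖ ∧ ‖c.s z‖ < exp (-(c.h + 19 * (c.h / 20)))}

def Sk : Set ℂ := {z ∈ c.V | 2 * c.x0 ≤ ‖z - c.a‖ ∧ ‖c.s z‖ ≤ exp (-(c.h + 2 * (c.h / 20)))}

noncomputable def Nn (ξ x : ℂ × ℂ) : ℂ :=
  ∑ j ∈ Finset.range c.n, c.P ξ ^ j * c.P x ^ (c.n - 1 - j)

noncomputable def π2 (ξ x : ℂ × ℂ) : ℂ := c.q2 ξ x * c.P ξ ^ c.n + c.Qb x * c.Nn ξ x * c.t2 ξ x

noncomputable def Δ (ξ x : ℂ × ℂ) : ℂ :=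
  (c.t1 ξ x * c.q2 ξ x - c.t2 ξ x * c.q1 ξ x) * c.P ξ ^ c.n

def Io : ℕ := c.μ + c.CI * c.k1 * c.κ

noncomputable def So (ξ x : ℂ × ℂ) : ℂ :=
  ∑ l ∈ Finset.range c.Io, c.P x ^ l * (c.P ξ)⁻¹ ^ (l + 1)

noncomputable def Si (ξ : ℂ × ℂ) (q : ℂ) (x : ℂ × ℂ) : ℂ := c.Nn ξ x *
  ∑ l ∈ Finset.range (c.Ci * c.n), (c.P ξ ^ c.n) ^ l * (c.Qb x * (q - c.η ^ c.n)⁻¹) ^ (l + 1)

noncomputable def k (ζ q : ℂ) (x : ℂ × ℂ) : ℂ :=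
  c.Fn ζ * (c.π2 (c.Ψn (ζ, q)) (c.Ψn (ζ, q)))⁻¹ * (-(2 * π : ℂ)⁻¹) * c.Δ (c.Ψn (ζ, q)) x *
    (dbar c.χo ζ * c.So (c.Ψn (ζ, q)) x + dbar c.χi ζ * c.Si (c.Ψn (ζ, q)) q x)

theorem Nn_mul (ξ x : ℂ × ℂ) : c.Nn ξ x * (c.P ξ - c.P x) = c.P ξ ^ c.n - c.P x ^ c.n :=
  geom_sum₂_mul _ _ _

theorem hefer_n (ξ x : ℂ × ℂ) : c.Pn ξ - c.Pn x =
    (ξ.1 - x.1) * (c.q1 ξ x * c.P ξ ^ c.n + c.Qb x * c.Nn ξ x * c.t1 ξ x) +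
      (ξ.2 - x.2) * c.π2 ξ x := by
  simp only [Ctx.Pn, π2]
  linear_combination c.P ξ ^ c.n * c.hQq ξ x + c.Qb x * c.Nn ξ x * c.hPt ξ x -
    c.Qb x * c.Nn_mul ξ x

theorem Δ_eq {ξ x : ℂ × ℂ} (h : c.Pn ξ = c.Pn x) :
    (ξ.1 - x.1) * c.Δ ξ x = (c.P ξ - c.P x) * c.π2 ξ x := by
  have h1 := c.hefer_n ξ x
  rw [h, sub_self] at h1
  rw [c.hPt ξ x]
  simp only [Δ, π2] at h1 ⊢
  linear_combination c.t2 ξ x * h1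

theorem P_ker : Ker (Pol : Set (ℂ × ℂ → ℂ)) fun ξ _ => c.P ξ := Ker.par c.H.hP

theorem Nn_ker : Ker (Pol : Set (ℂ × ℂ → ℂ)) c.Nn :=
  Ker.sum (fun j => (c.P_ker.pow j).mul ((Ker.pol c.H.hP).pow _)) _

theorem π2_ker : Ker (Pol : Set (ℂ × ℂ → ℂ)) c.π2 :=
  Ker.add _ _ (c.hq2.mul (c.P_ker.pow _)) (((Ker.pol c.Qb_pol).mul c.Nn_ker).mul c.ht2)

theorem Δ_ker : Ker (Pol : Set (ℂ × ℂ → ℂ)) c.Δ :=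
  ((c.ht1.mul c.hq2).sub (c.ht2.mul c.hq1)).mul (c.P_ker.pow _)

theorem ξ_spec {ζ q : ℂ} (hz : ζ ∈ c.V1) (hq : ‖q‖ ≤ c.η ^ c.n) :
    c.Ψn (ζ, q) ∈ closedBall (0 : ℂ × ℂ) 1 ∧ ‖c.s ζ‖ / 2 ≤ ‖c.P (c.Ψn (ζ, q))‖ ∧
      ‖c.P (c.Ψn (ζ, q))‖ ≤ 2 * ‖c.s ζ‖ ∧ 0 < ‖c.P (c.Ψn (ζ, q))‖ := by
  obtain ⟨h1, h2, -, -⟩ := c.Ψn_spec hz hq
  have h3 := c.Ψn_str hz hq
  obtain ⟨h4, h5⟩ := c.str_p (x := c.Ψn (ζ, q)) (by linarith [norm_nonneg (c.s (c.Ψn (ζ, q)).1)])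
  rw [h2] at h4 h5
  refine ⟨c.T_cball h1, by linarith, by linarith [norm_nonneg (c.s ζ)], ?_⟩
  linarith [c.V1_s hz, c.η_pos]

theorem Ψn_q {ζ : ℂ} (hz : ζ ∈ c.V1) :
    DifferentiableOn ℂ (fun q => c.Ψn (ζ, q)) (ball 0 (c.η ^ c.n)) :=
  c.Ψn_diff.comp (by fun_prop) fun q hq => ⟨hz, hq⟩

theorem π2_low {ζ q : ℂ} (hz : ζ ∈ c.V1) (hq : ‖q‖ ≤ c.η ^ c.n / 2) :
    c.η ^ c.n / 4 ≤ ‖c.π2 (c.Ψn (ζ, q)) (c.Ψn (ζ, q))‖ := by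
  have h0 := c.ηn_pos
  have hsub : ball q (c.η ^ c.n / 2) ⊆ ball 0 (c.η ^ c.n) :=
    ball_subset_ball' (by rw [dist_zero_right]; linarith)
  have hd := (c.Ψn_q hz).mono hsub
  have hb : ∀ w : ℂ, ‖w‖ ≤ c.η ^ c.n → ‖(c.Ψn (ζ, w)).2‖ ≤ 1 := fun w hw =>
    (norm_snd_le _).trans (mem_closedBall_zero_iff.1 (c.ξ_spec hz hw).1)
  have hc : ContinuousAt (fun w => ‖c.π2 (c.Ψn (ζ, q)) (c.Ψn (ζ, w))‖) q :=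
    (ContinuousAt.comp (f := fun w => (c.Ψn (ζ, q), c.Ψn (ζ, w)))
      c.π2_ker.diff.continuous.continuousAt (continuousAt_const.prodMk
        (hd.continuousOn.continuousAt (ball_mem_nhds _ (by linarith))))).norm
  refine ge_of_tendsto (hc.tendsto.mono_left (nhdsWithin_le_nhds (s := {q}ᶜ))) ?_
  filter_upwards [mem_nhdsWithin_of_mem_nhds (ball_mem_nhds q (half_pos h0)),
    self_mem_nhdsWithin] with w hw hwq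
  have hw1 : ‖w‖ ≤ c.η ^ c.n := (mem_ball_zero_iff.1 (hsub hw)).le
  have h1 := Complex.dist_le_div_mul_dist_of_mapsTo_ball (f := fun w => (c.Ψn (ζ, w)).2)
    (R₂ := 2) hd.snd (fun v hv => by
      rw [mem_closedBall, dist_eq_norm]
      linarith [norm_sub_le (c.Ψn (ζ, v)).2 (c.Ψn (ζ, q)).2,
        hb v (mem_ball_zero_iff.1 (hsub hv)).le, hb q (by linarith)]) hw
  have h2 := c.hefer_n (c.Ψn (ζ, q)) (c.Ψn (ζ, w))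
  obtain ⟨-, h3, -, h4⟩ := c.Ψn_spec hz hw1
  obtain ⟨-, h5, -, h6⟩ := c.Ψn_spec hz (q := q) (by linarith)
  rw [h3, h4, h5, h6, sub_self, zero_mul, zero_add] at h2
  have h7 : 0 < ‖q - w‖ := norm_pos_iff.2 (sub_ne_zero.2 (Ne.symm hwq))
  rw [dist_comm, dist_eq_norm, dist_comm, dist_eq_norm] at h1
  have h8 : ‖q - w‖ ≤ 2 / (c.η ^ c.n / 2) * ‖q - w‖ * ‖c.π2 (c.Ψn (ζ, q)) (c.Ψn (ζ, w))‖ := by
    conv_lhs => rw [h2, norm_mul]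
    gcongr
  rw [mul_right_comm, le_mul_iff_one_le_left h7, div_mul_eq_mul_div, one_le_div (by linarith)] at h8
  linarith

theorem Sk_compact : IsCompact c.Sk := c.H.lev_compact (by linarith [c.H.h_ge]) _

theorem Sk_V1 {z : ℂ} (hz : z ∈ c.Sk) : z ∈ c.V1 :=
  ⟨⟨hz.1, hz.2.2.trans_lt (exp_lt_exp.2 (by linarith [c.H.h_ge]))⟩, by linarith [hz.2.1, c.x0_pos]⟩

theorem sub_ηn {q : ℂ} (hq : ‖q‖ ≤ c.η ^ c.n / 2) : c.η ^ c.n / 2 ≤ ‖q - c.η ^ c.n‖ := by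
  have := norm_sub_norm_le ((c.η : ℂ) ^ c.n) q
  rw [c.norm_ηn, norm_sub_rev] at this
  linarith

theorem k_ker : Ker (COn (c.Sk ×ˢ Icc 0 (2 * π)) : Set (ℂ × ℝ → ℂ))
    fun t x => c.k t.1 (circleMap 0 (c.η ^ c.n / 4) t.2) x := by
  have h0 := c.ηn_pos
  have hq : ∀ θ, ‖circleMap 0 (c.η ^ c.n / 4) θ‖ = c.η ^ c.n / 4 := fun θ => by
    rw [norm_circleMap_zero, abs_of_pos (by linarith)]
  have hc : Continuous fun t : ℂ × ℝ => circleMap 0 (c.η ^ c.n / 4) t.2 :=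
    (continuous_circleMap _ _).comp continuous_snd
  have hξ : ContinuousOn (fun t : ℂ × ℝ => c.Ψn (t.1, circleMap 0 (c.η ^ c.n / 4) t.2))
      (c.Sk ×ˢ Icc 0 (2 * π)) :=
    c.Ψn_diff.continuousOn.comp (continuous_fst.prodMk hc).continuousOn fun t ht =>
      ⟨c.Sk_V1 ht.1, by rw [mem_ball_zero_iff, hq]; linarith⟩
  have h1 : (fun t : ℂ × ℝ => c.Fn t.1) ∈ COn (c.Sk ×ˢ Icc 0 (2 * π)) :=
    c.Fn_diff.continuousOn.comp continuousOn_fst fun t ht => c.Sk_V1 ht.1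
  have h2 : (fun t : ℂ × ℝ => (c.π2 (c.Ψn (t.1, circleMap 0 (c.η ^ c.n / 4) t.2))
      (c.Ψn (t.1, circleMap 0 (c.η ^ c.n / 4) t.2)))⁻¹) ∈ COn (c.Sk ×ˢ Icc 0 (2 * π)) :=
    (c.π2_ker.diff.continuous.comp_continuousOn (hξ.prodMk hξ)).inv₀ fun t ht => norm_pos_iff.1
      (lt_of_lt_of_le (by linarith) (c.π2_low (c.Sk_V1 ht.1) (by rw [hq]; linarith)))
  have h3 : ∀ χ : ℂ → ℂ, ContDiff ℝ 1 χ →
      (fun t : ℂ × ℝ => dbar χ t.1) ∈ COn (c.Sk ×ˢ Icc 0 (2 * π)) := fun χ h =>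
    ((dbar_cont h).comp continuous_fst).continuousOn
  have h4 : (fun t : ℂ × ℝ => (c.P (c.Ψn (t.1, circleMap 0 (c.η ^ c.n / 4) t.2)))⁻¹) ∈
      COn (c.Sk ×ˢ Icc 0 (2 * π)) :=
    (c.H.P_cont.comp_continuousOn hξ).inv₀ fun t ht => norm_pos_iff.1
      (c.ξ_spec (c.Sk_V1 ht.1) (by rw [hq]; linarith)).2.2.2
  have h5 : (fun t : ℂ × ℝ => (circleMap 0 (c.η ^ c.n / 4) t.2 - c.η ^ c.n)⁻¹) ∈
      COn (c.Sk ×ˢ Icc 0 (2 * π)) :=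
    ((hc.sub continuous_const).inv₀ fun t => norm_pos_iff.1
      (lt_of_lt_of_le (by linarith) (c.sub_ηn (by rw [hq]; linarith)))).continuousOn
  exact ((((Ker.par h1).mul (Ker.par h2)).mul (Ker.const _)).mul (c.Δ_ker.comp hξ)).mul
    (Ker.add _ _ ((Ker.par (h3 _ c.hχo)).mul
      (Ker.sum (fun l => ((Ker.pol c.H.hP).pow l).mul ((Ker.par h4).pow _)) _))
      ((Ker.par (h3 _ c.hχi)).mul ((c.Nn_ker.comp hξ).mul (Ker.sum (fun l =>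
        (((c.P_ker.comp hξ).pow _).pow l).mul (((Ker.pol c.Qb_pol).mul (Ker.par h5)).pow _)) _))))

theorem k_diff {ζ : ℂ} (hz : ζ ∈ c.V1) (x : ℂ × ℂ) :
    DifferentiableOn ℂ (fun q => c.k ζ q x) (closedBall 0 (c.η ^ c.n / 4)) := by
  have h0 := c.ηn_pos
  have hξ : DifferentiableOn ℂ (fun q => c.Ψn (ζ, q)) (closedBall 0 (c.η ^ c.n / 4)) :=
    (c.Ψn_q hz).mono (closedBall_subset_ball (by linarith))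
  have hk : ∀ g, Ker (Pol : Set (ℂ × ℂ → ℂ)) g →
      DifferentiableOn ℂ (fun q => g (c.Ψn (ζ, q)) x) (closedBall 0 (c.η ^ c.n / 4)) :=
    fun g hg => hg.diff.comp_differentiableOn (hξ.prodMk (differentiableOn_const x))
  have h2 : DifferentiableOn ℂ (fun q => (c.π2 (c.Ψn (ζ, q)) (c.Ψn (ζ, q)))⁻¹)
      (closedBall 0 (c.η ^ c.n / 4)) :=
    (c.π2_ker.diff.comp_differentiableOn (hξ.prodMk hξ)).inv fun q hq => norm_pos_iff.1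
      (lt_of_lt_of_le (by linarith) (c.π2_low hz (by linarith [mem_closedBall_zero_iff.1 hq])))
  have h4 : DifferentiableOn ℂ (fun q => (c.P (c.Ψn (ζ, q)))⁻¹) (closedBall 0 (c.η ^ c.n / 4)) :=
    (hk _ c.P_ker).inv fun q hq => norm_pos_iff.1
      (c.ξ_spec hz (by linarith [mem_closedBall_zero_iff.1 hq])).2.2.2
  have h5 : DifferentiableOn ℂ (fun q : ℂ => (q - c.η ^ c.n)⁻¹) (closedBall 0 (c.η ^ c.n / 4)) :=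
    (differentiableOn_id.sub_const _).inv fun q hq => norm_pos_iff.1
      (lt_of_lt_of_le (by linarith) (c.sub_ηn (by linarith [mem_closedBall_zero_iff.1 hq])))
  exact (((h2.const_mul _).mul_const _).mul (hk _ c.Δ_ker)).mul
    (((DifferentiableOn.fun_sum fun l _ => (h4.pow _).const_mul _).const_mul _).add
      (((hk _ c.Nn_ker).mul (DifferentiableOn.fun_sum fun l _ =>
        (((hk _ c.P_ker).pow _).pow l).mul ((h5.const_mul _).pow _))).const_mul _))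

end Ctx2

end Pool.Agent.Lib.MP_9cdd18_an.CX
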