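import Pool.Agent.Lib.MP_9cdd18_an.CXWeil1

namespace Pool.Agent.Lib.MP_9cdd18_an.CX

open MeasureTheory Set Real Filter Topology Metric

theorem geo_fin (a : ℂ) {b : ℂ} (hb : b ≠ 0) (I : ℕ) :
    (b - a) * ∑ l ∈ Finset.range I, a ^ l * b⁻¹ ^ (l + 1) = 1 - (a * b⁻¹) ^ I := by
  rw [← mul_neg_geom_sum, Finset.mul_sum, Finset.mul_sum]
  refine Finset.sum_congr rfl fun l _ => ?_
  rw [mul_pow, pow_succ]
  field_simp

theorem nat_le_exp (k : ℕ) {t : ℝ} (ht : 1 ≤ t) : (k : ℝ) ≤ exp (k * t) := by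
  have := add_one_le_exp (k * t)
  nlinarith [(Nat.cast_nonneg k : (0:ℝ) ≤ k)]

namespace Ctx2

variable (c : Ctx2)

theorem Δm_nn : 0 ≤ c.Δm := (norm_nonneg _).trans (c.hΔ 0 (by simp) 0 (by simp))

theorem Wd_nn : 0 ≤ c.Wd := (norm_nonneg _).trans (c.hWo 0)

theorem li_ge : 1 ≤ c.li := by
  have h1 : (3:ℝ) ≤ 3 ^ c.M := le_self_pow₀ (by norm_num) (by have := c.H.M_pos; omega)
  have h2 := mul_le_of_le_one_left (exp_pos c.li).le c.um_le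
  rw [← exp_le_exp]
  nlinarith [c.hli, c.uu_ge, e_le_three]

theorem x0_eq : c.x0 = exp (-(8 * c.y)) := by
  rw [Ctx.x0, c.hx2, ← exp_nat_mul]; ring_nf

theorem x3_facts : 3 * c.x0 < c.x3 ∧ c.x3 ≤ c.x2 / 2 := by
  constructor
  · have : exp 2 ≤ exp (c.li + 1) := exp_le_exp.2 (by linarith [c.li_ge])
    simp only [x3]; nlinarith [le_exp_two, c.x0_pos]
  · rw [x3, x0_eq, c.hx2, ← exp_add, le_div_iff₀ two_pos]
    calc _ ≤ exp (c.li + 1 + -(8 * c.y)) * exp 1 := by gcongr; exact two_le_e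
      _ ≤ _ := by rw [← exp_add, exp_le_exp]; linarith [c.g5, c.hy3]

theorem V4_Sk {z : ℂ} (hz : z ∈ c.V4) : z ∈ c.Sk :=
  ⟨hz.1, by linarith [hz.2.1, c.x3_facts.1, c.x0_pos],
    hz.2.2.le.trans (exp_le_exp.2 (by linarith [c.H.h_ge]))⟩

theorem V4_V1 {z : ℂ} (hz : z ∈ c.V4) : z ∈ c.V1 := c.Sk_V1 (c.V4_Sk hz)

theorem V4_open : IsOpen c.V4 := by
  have hU1 := isOpen_lt_on c.H.V_open c.H.s_diff.continuousOn.norm
    (g := fun _ => exp (-(c.h + 19 * (c.h / 20)))) continuousOn_const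
  have hU2 : IsOpen {w : ℂ | c.x3 < ‖w - c.a‖} := isOpen_lt continuous_const (by fun_prop)
  have : c.V4 = _ ∩ _ := Set.ext fun z =>
    ⟨fun h => ⟨(⟨h.1, h.2.2⟩ : z ∈ {z ∈ c.V | ‖c.s z‖ < exp (-(c.h + 19 * (c.h / 20)))}),
      (h.2.1 : z ∈ {w : ℂ | c.x3 < ‖w - c.a‖})⟩, fun h => ⟨h.1.1, h.2, h.1.2⟩⟩
  rw [this]
  exact hU1.inter hU2

theorem s_upM {z : ℂ} {t : ℝ} (h : ‖z - c.a‖ ≤ t * (3 * c.x0)) (h2 : ‖z - c.a‖ ≤ c.x2) :
    2 * ‖c.s z‖ ≤ t ^ c.M * (exp c.li * c.η) := by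
  have h1 := c.huu z (c.near_KV h2)
  have h0 := c.x0_pos
  have ht : 0 ≤ t := by nlinarith [norm_nonneg (z - c.a)]
  rw [Data.s, norm_mul, norm_pow, c.hη]
  calc _ ≤ 2 * ((t * (3 * c.x0)) ^ c.M * c.uu) := by gcongr
    _ = t ^ c.M * (2 * c.uu * 3 ^ c.M * c.x0 ^ c.M) := by rw [mul_pow, mul_pow]; ring
    _ ≤ t ^ c.M * (c.um * exp c.li * c.x0 ^ c.M) := by have := c.hli; gcongr
    _ = _ := by rw [Ctx.x0]; ring

theorem dbar_o {ζ : ℂ} (hz : ζ ∈ c.V) (h : dbar c.χo ζ ≠ 0) :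
    exp (-(c.h + 3 * (c.h / 20))) < ‖c.s ζ‖ :=
  not_le.1 fun h1 => h (dbar_zero (c.χo_one ζ hz h1))

theorem χi_zero {ζ : ℂ} (h : 3 * c.x0 < ‖ζ - c.a‖) : ∀ᶠ w in 𝓝 ζ, c.χi w = 0 := by
  have : ContinuousAt (fun w : ℂ => ‖w - c.a‖) ζ := by fun_prop
  filter_upwards [this.eventually (lt_mem_nhds h)] with w hw
  exact not_not.1 fun h1 => by linarith [c.χi_supp w h1]

theorem dbar_i {ζ : ℂ} (h : dbar c.χi ζ ≠ 0) : ‖ζ - c.a‖ ≤ c.x2 ∧ 2 * ‖c.s ζ‖ ≤ exp c.li * c.η := by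
  have h1 : ‖ζ - c.a‖ ≤ 3 * c.x0 := not_lt.1 fun h1 => h (dbar_zero (c.χi_zero h1))
  have h2 : ‖ζ - c.a‖ ≤ c.x2 := by linarith [c.x3_facts, c.x2_pos]
  exact ⟨h2, by simpa using c.s_upM (t := 1) (by linarith) h2⟩

theorem dbar_i_le (ζ : ℂ) : ‖dbar c.χi ζ‖ ≤ c.Wd * exp c.Hh := by
  refine (c.hWi ζ).trans (mul_le_mul_of_nonneg_left ?_ c.Wd_nn)
  rw [inv_le_comm₀ c.x0_pos (exp_pos _), ← exp_neg, ← c.hHh]
  exact c.η_le

theorem pref {ζ q : ℂ} (hz : ζ ∈ c.V1) (hq : ‖q‖ ≤ c.η ^ c.n / 2) :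
    ‖c.Fn ζ * (c.π2 (c.Ψn (ζ, q)) (c.Ψn (ζ, q)))⁻¹ * (-(2 * π : ℂ)⁻¹)‖ ≤
      ‖c.Fn ζ‖ * exp (c.n * c.Hh) := by
  have h1 := c.π2_low hz hq
  have h0 := c.ηn_pos
  have h5 : ‖(2 * π : ℂ)‖ = 2 * π := by simp [abs_of_pos pi_pos]
  rw [norm_mul, norm_mul, norm_neg, norm_inv, norm_inv, h5, mul_assoc]
  gcongr
  calc _ ≤ (c.η ^ c.n / 4)⁻¹ * 4⁻¹ := by gcongr; linarith [pi_gt_three]
    _ = _ := by rw [c.ηn_eq, exp_neg]; field_simp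

theorem Δ_le {ξ x : ℂ × ℂ} (h : ξ ∈ closedBall (0 : ℂ × ℂ) 1) (hx : x ∈ closedBall (0 : ℂ × ℂ) 1) :
    ‖c.Δ ξ x‖ ≤ c.Δm * ‖c.P ξ‖ := by
  rw [Δ, norm_mul, norm_pow]
  have := c.Δm_nn
  gcongr
  · exact c.hΔ ξ h x hx
  · exact pow_le_of_le_one (norm_nonneg _) (c.H.P_le ξ h) (by have := c.n_pos; omega)

theorem kκ : 10 * (c.k1 * c.κ * c.h) ≤ c.X := by
  have h1 : (1:ℝ) ≤ c.C := by exact_mod_cast c.hC1
  have h2 : 0 ≤ c.k1 * c.κ * c.h := by have := c.H.h_ge; positivity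
  nlinarith [c.κCh]

theorem So_le {ζ q : ℂ} {x : ℂ × ℂ} (hz : ζ ∈ c.V1) (hq : ‖q‖ ≤ c.η ^ c.n)
    (hx : x ∈ closedBall (0 : ℂ × ℂ) 1) (h : dbar c.χo ζ ≠ 0) :
    ‖c.So (c.Ψn (ζ, q)) x‖ ≤ exp ((2 + c.CI) * c.X) := by
  have hh := c.H.h_ge
  have h1 := c.dbar_o hz.1.1 h
  obtain ⟨-, h2, -, h3⟩ := c.ξ_spec hz hq
  have h4 : ‖c.P (c.Ψn (ζ, q))‖⁻¹ ≤ exp (24 * (c.h / 20)) := by
    rw [inv_le_comm₀ h3 (exp_pos _), ← exp_neg]
    have : exp (-(24 * (c.h / 20))) * exp 1 ≤ exp (-(c.h + 3 * (c.h / 20))) := by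
      rw [← exp_add, exp_le_exp]; linarith
    nlinarith [two_le_e, exp_pos (-(24 * (c.h / 20)))]
  refine (norm_sum_le _ _).trans ((Finset.sum_le_card_nsmul _ _ (exp (24 * (c.h / 20)) ^ c.Io)
    fun l hl => ?_).trans ?_)
  · rw [norm_mul, norm_pow, norm_pow, norm_inv]
    calc _ ≤ 1 ^ l * exp (24 * (c.h / 20)) ^ (l + 1) := by gcongr; exact c.H.P_le x hx
      _ ≤ _ := by
        rw [one_pow, one_mul]
        exact pow_le_pow_right₀ (one_le_exp (by linarith)) (Finset.mem_range.1 hl)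
  · rw [Finset.card_range, nsmul_eq_mul, ← exp_nat_mul]
    calc _ ≤ exp (c.Io * (c.h / 20)) * exp (c.Io * (24 * (c.h / 20))) := by
          gcongr; exact nat_le_exp _ (by linarith)
      _ ≤ _ := by
        rw [← exp_add, exp_le_exp, Io]
        push_cast
        have h5 := mul_le_mul_of_nonneg_left c.kκ (Nat.cast_nonneg c.CI)
        have h6 : 0 ≤ c.CI * c.X := by have := c.X_pos; positivity
        nlinarith [c.hμ2, c.X_nH, c.hH2, c.n_ge, c.Hh_ge]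

theorem Nn_le {ξ x : ℂ × ℂ} (h : ξ ∈ closedBall (0 : ℂ × ℂ) 1) (hx : x ∈ closedBall (0 : ℂ × ℂ) 1) :
    ‖c.Nn ξ x‖ ≤ c.n := by
  refine (norm_sum_le _ _).trans ((Finset.sum_le_card_nsmul _ _ 1 fun l _ => ?_).trans (by simp))
  rw [norm_mul, norm_pow, norm_pow]
  exact mul_le_one₀ (pow_le_one₀ (norm_nonneg _) (c.H.P_le ξ h)) (by positivity)
    (pow_le_one₀ (norm_nonneg _) (c.H.P_le x hx))

theorem Si_le {ζ q : ℂ} {x : ℂ × ℂ} (hz : ζ ∈ c.V1) (hq : ‖q‖ ≤ c.η ^ c.n / 2)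
    (hx : x ∈ closedBall (0 : ℂ × ℂ) 1) (h : dbar c.χi ζ ≠ 0) :
    ‖c.Si (c.Ψn (ζ, q)) q x‖ ≤ exp (c.X / 2 + c.n * c.Hh) := by
  have h0 := c.ηn_pos
  have hl := c.li_ge
  obtain ⟨h1, -, h2, -⟩ := c.ξ_spec hz (q := q) (by linarith)
  have h3 := h2.trans (c.dbar_i h).2
  have h4 : ‖c.Qb x * (q - c.η ^ c.n)⁻¹‖ ≤ (c.η ^ c.n)⁻¹ := by
    rw [norm_mul, norm_inv]
    calc _ ≤ 1 / 2 * (c.η ^ c.n / 2)⁻¹ := by
          gcongr
          · exact c.Qb_le hx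
          · exact c.sub_ηn hq
      _ = _ := by field_simp
  rw [Si, norm_mul]
  calc _ ≤ c.n * ((c.Ci * c.n : ℕ) * (exp (c.n * c.li) ^ (c.Ci * c.n) * (c.η ^ c.n)⁻¹)) := by
        gcongr
        · exact c.Nn_le h1 hx
        refine (norm_sum_le _ _).trans ((Finset.sum_le_card_nsmul _ _
          (exp (c.n * c.li) ^ (c.Ci * c.n) * (c.η ^ c.n)⁻¹) fun l hl => ?_).trans (by simp))
        rw [norm_mul, norm_pow, norm_pow, norm_pow]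
        calc _ ≤ ((exp c.li * c.η) ^ c.n) ^ l * (c.η ^ c.n)⁻¹ ^ (l + 1) := by
              have := c.η_pos; gcongr
          _ = exp (c.n * c.li) ^ l * (c.η ^ c.n)⁻¹ := by
            rw [mul_pow, ← exp_nat_mul, mul_pow, pow_succ, inv_pow]; field_simp
          _ ≤ _ := by
            gcongr
            · exact one_le_exp (by positivity)
            · exact (Finset.mem_range.1 hl).le
    _ = ((c.Ci * c.n * c.n : ℕ) : ℝ) * exp (c.Ci * c.n * c.n * c.li + c.n * c.Hh) := by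
        rw [← exp_nat_mul, c.ηn_eq, ← exp_neg, neg_neg, ← exp_add]
        push_cast; ring_nf
    _ ≤ exp (((c.Ci * c.n * c.n : ℕ) : ℝ) * 1) * exp (c.Ci * c.n * c.n * c.li + c.n * c.Hh) := by
        gcongr; exact nat_le_exp _ le_rfl
    _ ≤ _ := by
        rw [← exp_add, exp_le_exp]
        push_cast
        linarith [c.g6]

theorem k_le {ζ q : ℂ} {x : ℂ × ℂ} (hz : ζ ∈ c.Sk) (hq : ‖q‖ ≤ c.η ^ c.n / 2)
    (hx : x ∈ closedBall (0 : ℂ × ℂ) 1) : ‖c.k ζ q x‖ ≤ exp ((4 + c.CI) * c.X) := by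
  have h0 := c.ηn_pos
  have hz1 := c.Sk_V1 hz
  have hW := c.Wd_nn
  have hΔ := c.Δm_nn
  have hX := c.X_nH
  have hn := c.n_ge
  have hH := c.Hh_ge
  have hC : 0 ≤ c.CI * c.X := by have := c.X_pos; positivity
  obtain ⟨h1, -⟩ := c.ξ_spec hz1 (q := q) (by linarith)
  have h2 := (c.pref hz1 hq).trans
    (mul_le_mul_of_nonneg_right (c.Fup hz1 hz.2.2) (exp_pos _).le)
  have h3 := (c.Δ_le h1 hx).trans (mul_le_of_le_one_right hΔ (c.H.P_le _ h1))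
  have h4 : ‖dbar c.χo ζ * c.So (c.Ψn (ζ, q)) x‖ ≤ c.Wd * exp ((2 + c.CI) * c.X) := by
    by_cases h : dbar c.χo ζ = 0
    · rw [h, zero_mul, norm_zero]; positivity
    · rw [norm_mul]
      gcongr
      · exact c.hWo ζ
      · exact c.So_le hz1 (by linarith) hx h
  have h5 : ‖dbar c.χi ζ * c.Si (c.Ψn (ζ, q)) q x‖ ≤ c.Wd * exp ((2 + c.CI) * c.X) := by
    by_cases h : dbar c.χi ζ = 0
    · rw [h, zero_mul, norm_zero]; positivity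
    · rw [norm_mul]
      calc _ ≤ c.Wd * exp c.Hh * exp (c.X / 2 + c.n * c.Hh) := by
            gcongr
            · exact c.dbar_i_le ζ
            · exact c.Si_le hz1 hq hx h
        _ ≤ _ := by
            rw [mul_assoc, ← exp_add]
            gcongr
            nlinarith
  rw [k, norm_mul, norm_mul]
  calc _ ≤ exp (c.X / 2) * exp (c.n * c.Hh) * c.Δm * (2 * (c.Wd * exp ((2 + c.CI) * c.X))) := by
        gcongr
        exact (norm_add_le _ _).trans (by linarith)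
    _ = exp (c.X / 2) * exp (c.n * c.Hh) * (c.Δm * c.Wd) * 2 * exp ((2 + c.CI) * c.X) := by ring
    _ ≤ exp (c.X / 2) * exp (c.n * c.Hh) * exp c.n * exp 1 * exp ((2 + c.CI) * c.X) := by
        gcongr
        · exact c.hΔW
        · exact two_le_e
    _ ≤ _ := by
        rw [← exp_add, ← exp_add, ← exp_add, ← exp_add, exp_le_exp]
        nlinarith

end Ctx2

end Pool.Agent.Lib.MP_9cdd18_an.CX
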