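import Pool.Agent.Lib.MP_9cdd18_an.CXWeil2

namespace Pool.Agent.Lib.MP_9cdd18_an.CX

open MeasureTheory Set Real Filter Topology Metric

theorem le_exp_nine : (8000:ℝ) ≤ exp 9 := by
  have : exp 9 = exp 3 * exp 3 * exp 3 := by rw [← exp_add, ← exp_add]; norm_num
  have h := le_exp_three
  have h2 : 400 ≤ exp 3 * exp 3 := by nlinarith
  nlinarith

namespace Ctx2

variable (c : Ctx2)

noncomputable def Φ (z p ζ : ℂ) : ℂ :=
  c.Fn ζ * (c.π2 (c.Ψn (ζ, p)) (c.Ψn (ζ, p)))⁻¹ * (-(2 * π : ℂ)⁻¹) *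
    c.π2 (c.Ψn (ζ, p)) (c.Ψn (z, p))

noncomputable def mn (z p ζ : ℂ) : ℂ :=
  c.Φ z p ζ * dbar (fun w => c.χo w - c.χi w) ζ / (ζ - z)

noncomputable def eo (z : ℂ) : ℝ := exp (c.X / 2 + c.n * c.Hh + c.n + 1) *
  (‖c.s z‖ * exp (c.h + 4 * (c.h / 20))) ^ c.Io

noncomputable def ei (x : ℂ × ℂ) : ℝ := exp (c.n + c.Hh) *
  (exp c.li * c.η * ‖c.P x‖⁻¹) ^ (c.n * (c.Ci * c.n))

theorem Φ_diff {z p : ℂ} (hp : ‖p‖ ≤ c.η ^ c.n / 2) : DifferentiableOn ℂ (c.Φ z p) c.V1 := by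
  have h0 := c.ηn_pos
  have hξ := c.Ψn_slice p (by linarith)
  exact ((c.Fn_diff.mul ((c.π2_ker.diff.comp_differentiableOn (hξ.prodMk hξ)).inv
    fun ζ hζ => norm_pos_iff.1 (lt_of_lt_of_le (by linarith) (c.π2_low hζ hp)))).mul_const _).mul
    (c.π2_ker.diff.comp_differentiableOn (hξ.prodMk (differentiableOn_const _)))

theorem χ_supp {z : ℂ} (h : c.χo z - c.χi z ≠ 0) : z ∈ c.Sk := by
  have hh := c.H.h_ge
  have key : ‖z - c.a‖ ≤ c.x2 → z ∈ c.V ∧ ‖c.s z‖ ≤ exp (-(c.h + 3 * (c.h / 20))) := fun h1 =>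
    ⟨(c.near_KV h1).1, (c.s_x2 h1).2.trans (exp_le_exp.2 (by linarith))⟩
  have h1 : 2 * c.x0 ≤ ‖z - c.a‖ := not_lt.1 fun h1 => h (by
    obtain ⟨h2, h3⟩ := key (by linarith [c.x3_facts, c.x0_pos, c.x2_pos])
    rw [(c.χo_one z h2 h3).self_of_nhds, c.χi_one z h1.le, sub_self])
  by_cases h2 : c.χo z = 0
  · have h3 := c.χi_supp z fun h3 => h (by rw [h2, h3, sub_self])
    obtain ⟨h4, h5⟩ := key (by linarith [c.x3_facts, c.x2_pos])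
    exact ⟨h4, h1, h5.trans (exp_le_exp.2 (by linarith))⟩
  · exact ⟨(c.χo_supp z h2).1, h1, (c.χo_supp z h2).2⟩

theorem χ_one {z : ℂ} (hz : z ∈ c.V4) : ∀ᶠ w in 𝓝 z, c.χo w - c.χi w = 1 := by
  filter_upwards [c.χo_one z hz.1 (hz.2.2.le.trans (exp_le_exp.2 (by linarith [c.H.h_ge]))),
    c.χi_zero (c.x3_facts.1.trans hz.2.1)] with w h1 h2
  rw [h1, h2, sub_zero]

theorem mn_int {z p : ℂ} (hz : z ∈ c.V4) (hp : ‖p‖ ≤ c.η ^ c.n / 2) :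
    ∫ ζ in c.Sk, c.mn z p ζ = c.Fn z := by
  have h1 : tsupport (fun w => c.χo w - c.χi w) ⊆ c.Sk :=
    closure_minimal (fun w hw => c.χ_supp hw) c.Sk_compact.isClosed
  rw [setIntegral_eq_integral_of_forall_compl_eq_zero fun ζ hζ => by
    rw [mn, dbar_zero (notMem_tsupport_iff_eventuallyEq.1 fun h => hζ (h1 h)), mul_zero, zero_div]]
  simp only [mn]
  rw [pompeiu (c.hχo.sub c.hχi) (c.Sk_compact.of_isClosed_subset (isClosed_tsupport _) h1) c.V1_open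
    (fun w hw => c.Sk_V1 (h1 hw)) (c.Φ_diff hp), (c.χ_one hz).self_of_nhds, Φ]
  have h2 : c.π2 (c.Ψn (z, p)) (c.Ψn (z, p)) ≠ 0 := norm_pos_iff.1
    (lt_of_lt_of_le (by linarith [c.ηn_pos]) (c.π2_low (c.V4_V1 hz) hp))
  have h3 : (π : ℂ) ≠ 0 := by exact_mod_cast pi_pos.ne'
  field_simp

theorem mn_cont {z p : ℂ} (hz : z ∈ c.V4) (hp : ‖p‖ ≤ c.η ^ c.n / 2) :
    ContinuousOn (c.mn z p) c.Sk := by
  intro ζ hζ
  refine ContinuousAt.continuousWithinAt ?_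
  by_cases h : ζ = z
  · refine (continuousAt_const (y := (0:ℂ))).congr ?_
    filter_upwards [(c.χ_one (h ▸ hz)).eventually_nhds] with w hw
    rw [mn, dbar_zero hw, mul_zero, zero_div]
  · exact (((c.Φ_diff hp).continuousOn.continuousAt (c.V1_open.mem_nhds (c.Sk_V1 hζ))).mul
      (dbar_cont (c.hχo.sub c.hχi)).continuousAt).div (by fun_prop) (sub_ne_zero.2 h)

theorem π2_div {z p ζ : ℂ} (hz : z ∈ c.V1) (hζ : ζ ∈ c.V1) (hp : ‖p‖ ≤ c.η ^ c.n)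
    (h : c.P (c.Ψn (ζ, p)) - c.P (c.Ψn (z, p)) ≠ 0) :
    c.π2 (c.Ψn (ζ, p)) (c.Ψn (z, p)) / (ζ - z) =
      c.Δ (c.Ψn (ζ, p)) (c.Ψn (z, p)) / (c.P (c.Ψn (ζ, p)) - c.P (c.Ψn (z, p))) := by
  obtain ⟨-, h1, -, h2⟩ := c.Ψn_spec hz hp
  obtain ⟨-, h3, -, h4⟩ := c.Ψn_spec hζ hp
  have h5 := c.Δ_eq (h4.trans h2.symm)
  rw [h1, h3] at h5
  rw [div_eq_div_iff (sub_ne_zero.2 fun h6 => h (by rw [h6, sub_self])) h]
  linear_combination -h5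

theorem P_low {z p : ℂ} (hz : z ∈ c.V4) (hp : ‖p‖ ≤ c.η ^ c.n) :
    exp (c.li + 4) * c.η ≤ ‖c.s z‖ / 2 := by
  have h1 := c.F_low (c.V1_KV (c.V4_V1 hz)) (one_le_exp (by linarith [c.li_ge])) hz.2.1.le
  have h2 := c.H.F50 hz.1
  have h3 : exp (c.li + 4) = exp (c.li + 1) * exp 3 := by rw [← exp_add]; ring_nf
  have h4 : exp 3 ≤ 25 := by
    have : exp 3 = exp 1 * exp 1 * exp 1 := by rw [← exp_add, ← exp_add]; norm_num
    have h := exp_one_lt_d9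
    have h5 : exp 1 * exp 1 ≤ 7.4 := by nlinarith [exp_pos 1]
    nlinarith [exp_pos 1]
  have h5 := mul_le_mul_of_nonneg_left h4 (mul_pos (exp_pos (c.li + 1)) c.η_pos).le
  rw [h3]
  linarith

theorem err_pt {z p ζ : ℂ} (hz : z ∈ c.V4) (hp : ‖p‖ ≤ c.η ^ c.n / 2) (hζ : ζ ∈ c.Sk) :
    ‖c.k ζ p (c.Ψn (z, p)) - c.mn z p ζ‖ ≤ c.eo z + c.ei (c.Ψn (z, p)) := by
  have h0 := c.ηn_pos
  have hh := c.H.h_ge
  have hz1 := c.V4_V1 hz
  have hζ1 := c.Sk_V1 hζ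
  have hΔ := c.Δm_nn
  have hW := c.Wd_nn
  obtain ⟨x1, x2, x3, x4⟩ := c.ξ_spec hz1 (q := p) (by linarith)
  obtain ⟨y1, y2, y3, y4⟩ := c.ξ_spec hζ1 (q := p) (by linarith)
  have hd := c.π2_div hz1 hζ1 (p := p) (by linarith)
  have hpre := c.pref hζ1 hp
  have hx := (c.Ψn_spec hz1 (q := p) (by linarith)).2.2.2
  set x := c.Ψn (z, p)
  set ξ := c.Ψn (ζ, p) with hξ
  have hΔ1 := c.Δ_le y1 x1
  set w := c.Fn ζ * (c.π2 ξ ξ)⁻¹ * (-(2 * π : ℂ)⁻¹) with hw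
  have h1 : c.k ζ p x - c.mn z p ζ =
      w * (dbar c.χo ζ * (c.Δ ξ x * c.So ξ x - c.π2 ξ x / (ζ - z))) +
      w * (dbar c.χi ζ * (c.Δ ξ x * c.Si ξ p x + c.π2 ξ x / (ζ - z))) := by
    rw [k, mn, Φ, dbar_sub c.hχo c.hχi, ← hξ, ← hw]; ring
  rw [h1]
  clear_value w
  refine (norm_add_le _ _).trans (add_le_add ?_ ?_)
  · by_cases h : dbar c.χo ζ = 0
    · rw [h, zero_mul, mul_zero, norm_zero, eo]; positivity
    have h2 := c.dbar_o hζ.1 h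
    have h3 : ‖c.P x‖ * ‖c.P ξ‖⁻¹ ≤ ‖c.s z‖ * exp (c.h + 4 * (c.h / 20)) := by
      rw [← div_eq_mul_inv, div_le_iff₀ y4]
      have h3 : exp 2 ≤ exp (c.h + 4 * (c.h / 20)) * exp (-(c.h + 3 * (c.h / 20))) := by
        rw [← exp_add, exp_le_exp]; linarith
      have h4 : 2 ≤ exp (c.h + 4 * (c.h / 20)) * ‖c.P ξ‖ := by
        nlinarith [le_exp_two, exp_pos (c.h + 4 * (c.h / 20))]
      nlinarith [norm_nonneg (c.s z)]
    have h4 : ‖c.s z‖ * exp (c.h + 4 * (c.h / 20)) ≤ 1 / 2 := by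
      calc _ ≤ exp (-(c.h + 19 * (c.h / 20))) * exp (c.h + 4 * (c.h / 20)) := by
            gcongr; exact hz.2.2.le
        _ ≤ exp (-1) := by rw [← exp_add, exp_le_exp]; linarith
        _ ≤ _ := exp_neg_le two_pos (by norm_num)
    have h5 : ‖c.P ξ‖ / 2 ≤ ‖c.P ξ - c.P x‖ := by
      have := h3.trans h4
      rw [← div_eq_mul_inv, div_le_iff₀ y4] at this
      linarith [norm_sub_norm_le (c.P ξ) (c.P x)]
    have h6 : c.P ξ - c.P x ≠ 0 := norm_pos_iff.1 (by linarith)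
    have h7 : c.Δ ξ x * c.So ξ x - c.π2 ξ x / (ζ - z) =
        -(c.Δ ξ x / (c.P ξ - c.P x) * (c.P x * (c.P ξ)⁻¹) ^ c.Io) := by
      rw [hd h6, So, ← mul_right_inj' h6, mul_sub, mul_left_comm,
        geo_fin _ (norm_pos_iff.1 y4)]
      field_simp
      ring
    have h8 : ‖c.Δ ξ x‖ / ‖c.P ξ - c.P x‖ ≤ 2 * c.Δm := by
      rw [div_le_iff₀ (by linarith)]; nlinarith
    rw [h7, norm_mul, norm_mul, norm_neg, norm_mul, norm_div, norm_pow, norm_mul, norm_inv]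
    calc _ ≤ exp (c.X / 2) * exp (c.n * c.Hh) * (c.Wd * (2 * c.Δm *
          (‖c.s z‖ * exp (c.h + 4 * (c.h / 20))) ^ c.Io)) := by
          gcongr
          · exact hpre.trans (by gcongr; exact c.Fup hζ1 hζ.2.2)
          · exact c.hWo ζ
      _ = exp (c.X / 2) * exp (c.n * c.Hh) * (c.Δm * c.Wd) * 2 *
          (‖c.s z‖ * exp (c.h + 4 * (c.h / 20))) ^ c.Io := by ring
      _ ≤ exp (c.X / 2) * exp (c.n * c.Hh) * exp c.n * exp 1 *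
          (‖c.s z‖ * exp (c.h + 4 * (c.h / 20))) ^ c.Io := by
          gcongr
          · exact c.hΔW
          · exact two_le_e
      _ = _ := by rw [eo, ← exp_add, ← exp_add, ← exp_add]
  · have hη := c.η_pos
    by_cases h : dbar c.χi ζ = 0
    · rw [h, zero_mul, mul_zero, norm_zero, ei]; positivity
    obtain ⟨h2, h3⟩ := c.dbar_i h
    have h4 := c.P_low hz (p := p) (by linarith)
    have h5 : ‖c.P ξ‖ ≤ ‖c.P ξ - c.P x‖ := by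
      have h5 : exp c.li * exp 1 ≤ exp (c.li + 4) := by rw [← exp_add, exp_le_exp]; linarith
      have h6 := norm_sub_norm_le (c.P x) (c.P ξ)
      rw [norm_sub_rev] at h6
      nlinarith [two_le_e, mul_pos (exp_pos c.li) hη]
    have h6 : c.P ξ - c.P x ≠ 0 := norm_pos_iff.1 (by linarith)
    have h9 : c.P x ^ c.n ≠ 0 := pow_ne_zero _ (norm_pos_iff.1 x4)
    have h10 : c.Qb x * (p - c.η ^ c.n)⁻¹ = (c.P x ^ c.n)⁻¹ := by
      have h11 : p - c.η ^ c.n ≠ 0 := norm_pos_iff.1 (lt_of_lt_of_le (by linarith) (c.sub_ηn hp))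
      rw [← div_eq_mul_inv, inv_eq_one_div, div_eq_div_iff h11 h9, ← hx, Ctx.Pn]
      ring
    have h7 : c.Δ ξ x * c.Si ξ p x + c.π2 ξ x / (ζ - z) =
        c.Δ ξ x / (c.P ξ - c.P x) * (c.P ξ * (c.P x)⁻¹) ^ (c.n * (c.Ci * c.n)) := by
      have h11 := geo_fin (c.P ξ ^ c.n) h9 (c.Ci * c.n)
      rw [← inv_pow, ← mul_pow, ← pow_mul, inv_pow] at h11
      rw [hd h6, Si, h10, ← mul_right_inj' h6]
      field_simp
      have h12 := c.Nn_mul ξ x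
      simp only [one_div]
      linear_combination c.Δ ξ x * (∑ l ∈ Finset.range (c.Ci * c.n),
        (c.P ξ ^ c.n) ^ l * (c.P x ^ c.n)⁻¹ ^ (l + 1)) * h12 - c.Δ ξ x * h11
    have h8 : ‖c.Δ ξ x‖ / ‖c.P ξ - c.P x‖ ≤ c.Δm := by
      rw [div_le_iff₀ (by linarith)]; nlinarith
    have h11 : ‖w‖ ≤ 1 := by
      refine hpre.trans ((mul_le_mul_of_nonneg_right (c.Fsmall hζ1 h2) (exp_pos _).le).trans ?_)
      rw [c.ηn_eq, div_mul_eq_mul_div, ← exp_add]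
      norm_num
    rw [h7, norm_mul, norm_mul, norm_mul, norm_div, norm_pow, norm_mul, norm_inv]
    calc _ ≤ 1 * (c.Wd * exp c.Hh * (c.Δm *
          (exp c.li * c.η * ‖c.P x‖⁻¹) ^ (c.n * (c.Ci * c.n)))) := by
          gcongr
          · exact c.dbar_i_le ζ
          · linarith
      _ = c.Δm * c.Wd * exp c.Hh * (exp c.li * c.η * ‖c.P x‖⁻¹) ^ (c.n * (c.Ci * c.n)) := by ring
      _ ≤ exp c.n * exp c.Hh * (exp c.li * c.η * ‖c.P x‖⁻¹) ^ (c.n * (c.Ci * c.n)) := by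
          gcongr; exact c.hΔW
      _ = _ := by rw [ei, ← exp_add]

end Ctx2

end Pool.Agent.Lib.MP_9cdd18_an.CX
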