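import Pool.Agent.Lib.MP_9cdd18_an.CXWeil3

namespace Pool.Agent.Lib.MP_9cdd18_an.CX

open MeasureTheory Set Real Filter Topology Metric

theorem of_log {K e a b f : ℝ} (hK : K ≤ exp a) (he : e = exp b) (hf : 0 < f)
    (h : a + b ≤ log f) : K * e ≤ f := by
  rw [le_log_iff_exp_le hf, exp_add] at h
  rw [he]
  exact le_trans (by gcongr) h

namespace Ctx2

variable (c : Ctx2)

theorem s_pos {z : ℂ} (hz : z ∈ c.V1) : 0 < ‖c.s z‖ := by linarith [c.V1_s hz, c.η_pos]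

theorem eo_eq {z : ℂ} (hz : z ∈ c.V4) : c.eo z = exp (c.X / 2 + c.n * c.Hh + c.n + 1 +
    (c.μ + c.CI * c.k1 * c.κ) * (log ‖c.s z‖ + c.h + 4 * (c.h / 20))) ∧
    log ‖c.s z‖ + c.h ≤ -(19 * (c.h / 20)) ∧ c.μ * (log ‖c.s z‖ + c.h + 4 * (c.h / 20)) ≤ -c.X := by
  have h0 := c.s_pos (c.V4_V1 hz)
  have h1 : log ‖c.s z‖ + c.h ≤ -(19 * (c.h / 20)) := by
    have := (log_le_iff_le_exp h0).2 hz.2.2.le
    linarith
  refine ⟨?_, h1, ?_⟩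
  · have h2 : ‖c.s z‖ * exp (c.h + 4 * (c.h / 20)) = exp (log ‖c.s z‖ + c.h + 4 * (c.h / 20)) := by
      rw [add_assoc, exp_add (log _), exp_log h0]
    rw [eo, h2, ← exp_nat_mul, ← exp_add, Io]
    push_cast
    rfl
  · have := mul_le_mul_of_nonneg_left (show log ‖c.s z‖ + c.h + 4 * (c.h / 20) ≤
      -(15 * (c.h / 20)) by linarith) (Nat.cast_nonneg c.μ)
    linarith [c.hμ1]

theorem slack : 30 * (c.n * c.Hh) ≤ c.X ∧ 4000 * c.n ≤ c.n * c.Hh ∧ 4000 * c.Hh ≤ c.n * c.Hh ∧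
    (4000:ℝ) ≤ c.n ∧ c.Hh + 405 ≤ c.n := by
  have h1 := c.n_ge
  have h2 := c.Hh_ge
  exact ⟨c.X_nH, by nlinarith, by nlinarith, h1, by nlinarith [c.hH1, c.D_ge, c.H.h_ge]⟩

theorem eo_far {z : ℂ} (hz : z ∈ c.V4) (h : c.r ≤ ‖z - c.b‖) : 8000 * c.eo z ≤ ‖c.Fn z‖ := by
  obtain ⟨h1, h2, h3⟩ := c.eo_eq hz
  have hz1 := c.V4_V1 hz
  refine of_log le_exp_nine h1 (c.log_Fn hz1 (c.far_ne h)).1 ?_
  have h4 := c.Fn_low hz1 (c.far_ne h)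
  have h5 := mul_le_mul_of_nonneg_left (c.log_B_ge' hz1 h) (Nat.cast_nonneg c.κ)
  have h6 : (2:ℝ) * c.C ≤ c.CI := by exact_mod_cast c.hCI1
  have h7 : c.CI * (log ‖c.s z‖ + c.h + 4 * (c.h / 20)) ≤ c.C * (log ‖c.s z‖ + c.h) := by
    have : (0:ℝ) ≤ c.C := Nat.cast_nonneg _
    nlinarith [c.H.h_ge]
  have h8 := mul_le_mul_of_nonneg_left h7 (show (0:ℝ) ≤ c.k1 * c.κ by positivity)
  obtain ⟨s1, s2, s3, s4, s5⟩ := c.slack
  nlinarith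

theorem eo_near {z : ℂ} (hz : z ∈ c.V4) (h : z ∈ closedBall c.o ‖c.a - c.o‖) :
    4 * c.eo z ≤ exp (-(c.C5 * c.A)) := by
  obtain ⟨h1, h2, h3⟩ := c.eo_eq hz
  refine of_log (a := 2) (by linarith [le_exp_two]) h1 (exp_pos _) ?_
  have h4 := c.H.s_small c.hS h
  rw [← exp_add, ← log_le_iff_le_exp (c.s_pos (c.V4_V1 hz))] at h4
  have h5 : c.CI * c.k1 * c.κ * (log ‖c.s z‖ + c.h + 4 * (c.h / 20)) ≤
      c.CI * c.k1 * c.κ * -(c.γ0 * c.M) := by gcongr; linarith [c.H.h_ge]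
  have h6 := mul_le_mul_of_nonneg_right c.hCI2 (Nat.cast_nonneg c.A)
  obtain ⟨s1, s2, s3, s4, s5⟩ := c.slack
  simp only [log_exp, C5, Ctx.A] at h6 ⊢
  push_cast at h6 ⊢
  nlinarith

theorem ei_eq {x : ℂ × ℂ} (hx : 0 < ‖c.P x‖) : c.ei x =
    exp (c.n + c.Hh + c.n * (c.Ci * c.n) * (c.li - c.Hh - log ‖c.P x‖)) := by
  rw [ei, exp_add (_ + _), c.hHh, ← exp_log hx, ← exp_neg, ← exp_add, ← exp_add, ← exp_nat_mul,
    log_exp]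
  push_cast
  rfl

theorem Fn_near {z : ℂ} (hz : z ∈ c.V1) (h : ‖z - c.a‖ ≤ c.x2) : 0 < ‖c.Fn z‖ ∧
    -(c.n ^ 2 * (c.Hh + log ‖c.γ z‖ + 1)) + 2 * c.n ≤ log ‖c.Fn z‖ := by
  have h1 := c.G0_pos hz
  have h2 := (c.Y_near h).2
  have h3 := (exp_pos _).trans_le h2
  rw [← le_log_iff_exp_le h3] at h2
  rw [c.Fn_eq, norm_mul, log_mul h1.ne' h3.ne', c.log_G0 hz]
  have h4 : 0 ≤ log c.LQ := log_nonneg (by linarith [c.LQ_ge])
  refine ⟨by positivity, ?_⟩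
  nlinarith [c.g3, c.n_ge]

theorem ei_near {z p : ℂ} (hz : z ∈ c.V4) (hp : ‖p‖ ≤ c.η ^ c.n) (h : ‖z - c.a‖ ≤ c.x2) :
    8000 * c.ei (c.Ψn (z, p)) ≤ ‖c.Fn z‖ := by
  have hz1 := c.V4_V1 hz
  obtain ⟨-, x2, -, x4⟩ := c.ξ_spec hz1 hp
  obtain ⟨h1, h2⟩ := c.Fn_near hz1 h
  refine of_log le_exp_nine (c.ei_eq x4) h1 ?_
  obtain ⟨-, -, -, h3, h4⟩ := c.γ_spec hz1
  have h5 : c.li + 4 - c.Hh ≤ log ‖c.γ z‖ := by
    rw [le_log_iff_exp_le (c.γ_pos hz1), sub_eq_add_neg, exp_add, ← c.hHh]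
    exact (c.P_low hz hp).trans h3
  have h6 : log ‖c.γ z‖ ≤ 2 + log ‖c.P (c.Ψn (z, p))‖ := by
    rw [log_le_iff_le_exp (c.γ_pos hz1), exp_add, exp_log x4]
    nlinarith [le_exp_two]
  have h7 : c.Ci * (c.li - c.Hh - log ‖c.P (c.Ψn (z, p))‖) ≤ -(c.Hh + log ‖c.γ z‖ + 1) := by
    nlinarith [c.hCi1, c.li_ge]
  have h8 := mul_le_mul_of_nonneg_left h7 (sq_nonneg (c.n : ℝ))
  obtain ⟨s1, s2, s3, s4, s5⟩ := c.slack
  nlinarith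

theorem ei_far {z p : ℂ} (hz : z ∈ c.V4) (hp : ‖p‖ ≤ c.η ^ c.n) (h : c.x2 ≤ ‖z - c.a‖) :
    4 * c.ei (c.Ψn (z, p)) ≤ exp (-(c.C5 * c.A)) := by
  have hz1 := c.V4_V1 hz
  obtain ⟨-, x2, -, x4⟩ := c.ξ_spec hz1 hp
  refine of_log (a := 2) (by linarith [le_exp_two]) (c.ei_eq x4) (exp_pos _) ?_
  have h1 := c.F_lowM (c.V1_KV hz1) (t := exp (6 * c.y)) (exp_pos _).le (by
    rw [c.x0_eq, ← exp_add]
    exact le_trans (by rw [c.hx2, exp_le_exp]; linarith) h)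
  have h2 : c.M * (6 * c.y) - c.Hh ≤ log ‖c.P (c.Ψn (z, p))‖ := by
    rw [le_log_iff_exp_le x4, sub_eq_add_neg, exp_add, ← c.hHh, exp_nat_mul]
    linarith [c.H.F50 hz.1, norm_nonneg (c.F z)]
  have h3 : c.li - c.Hh - log ‖c.P (c.Ψn (z, p))‖ ≤ -(c.Hh / 2) := by
    have : (0:ℝ) ≤ c.M := Nat.cast_nonneg _
    linarith [c.hH3, c.g4]
  have h4 := mul_le_mul_of_nonneg_left h3 (show (0:ℝ) ≤ c.n * (c.Ci * c.n) by positivity)
  obtain ⟨s1, s2, s3, s4, s5⟩ := c.slack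
  have h5 : 0 ≤ (c.n : ℝ) ^ 2 * c.Hh := by have := c.Hh_ge; positivity
  have h6 := mul_le_mul_of_nonneg_right c.hCi2 h5
  have h7 := mul_le_mul_of_nonneg_left c.A_le (show 0 ≤ c.C5 by simp only [C5]; linarith [c.C1_ge])
  have h8 : c.C5 * c.A + c.n ^ 2 * c.Hh ≤ c.Ci * (c.n ^ 2 * c.Hh) / 2 := by
    refine le_of_mul_le_mul_right ?_ c.hγ0
    have := mul_le_of_le_one_right h5 c.hγ1
    simp only [C5] at h7 ⊢
    linarith
  rw [log_exp]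
  nlinarith [c.Hh_ge]

theorem X_A : 16 * c.X ≤ c.γ0 * c.A := by
  have h1 := mul_le_mul_of_nonneg_left c.A_ge c.θ_pos.le
  have h2 := mul_le_mul_of_nonneg_right c.θ_C1 (Nat.cast_nonneg c.A)
  linarith [c.X_le]

theorem ϱn_le : exp (5 - c.hn) ≤ exp (-(c.hn / 2)) * (c.η ^ c.n / 4) ∧
    exp (-(c.hn / 2)) ≤ 1 / 2 := by
  have h1 := c.g1
  have h2 := c.nH_ge
  refine ⟨?_, exp_neg_le two_pos (by simp only [hn]; linarith)⟩
  rw [c.ηn_eq, ← mul_div_assoc, ← exp_add, le_div_iff₀ four_pos]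
  calc _ ≤ exp (5 - c.hn) * exp 2 := by gcongr; linarith [le_exp_two]
    _ ≤ _ := by rw [← exp_add, exp_le_exp]; simp only [hn]; linarith

theorem ϱn_le' : exp (5 - c.hn) ≤ c.η ^ c.n / 8 := by
  nlinarith [c.ϱn_le, c.ηn_pos]

theorem eJ {p : ℂ} (hp : ‖p‖ ≤ exp (5 - c.hn)) :
    4 * (2 * exp ((4 + c.CI) * c.X) * (‖p‖ / (c.η ^ c.n / 4)) ^ c.J) ≤ exp (-(c.C5 * c.A)) := by
  have h0 := c.ηn_pos
  have h1 : ‖p‖ / (c.η ^ c.n / 4) ≤ exp (-(c.hn / 2)) := by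
    rw [div_le_iff₀ (by linarith)]; exact hp.trans c.ϱn_le.1
  calc _ = 8 * exp ((4 + c.CI) * c.X) * (‖p‖ / (c.η ^ c.n / 4)) ^ c.J := by ring
    _ ≤ exp 3 * exp ((4 + c.CI) * c.X) * exp (-(c.hn / 2)) ^ c.J := by
        gcongr; linarith [le_exp_three]
    _ ≤ _ := by
        rw [← exp_nat_mul, ← exp_add, ← exp_add, exp_le_exp, hn, C5]
        have hA : (0:ℝ) ≤ c.A := Nat.cast_nonneg _
        have h2 := mul_le_mul_of_nonneg_right c.hJ hA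
        have h3 : c.X ≤ c.A := by nlinarith [c.X_A, c.hγ1, c.X_pos]
        have h4 := mul_le_mul_of_nonneg_left h3 (Nat.cast_nonneg c.CI)
        nlinarith [c.X_nH, c.nH_ge]

theorem ballb {z : ℂ} (h : ‖z - c.b‖ ≤ c.r) : z ∈ closedBall c.o c.ρ2 := by
  rw [mem_closedBall, dist_eq_norm]
  linarith [norm_sub_le_norm_sub_add_norm_sub z c.b c.o, c.hb]

theorem ball_far {z : ℂ} (h : z ∈ closedBall c.o c.ρ2) : c.ϱ1 ≤ ‖z - c.a‖ := by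
  rw [mem_closedBall, dist_eq_norm] at h
  have h1 := norm_sub_le_norm_sub_add_norm_sub c.a z c.o
  rw [norm_sub_rev c.a z] at h1
  linarith [c.ϱ1_g]

theorem weil : ∃ f ∈ Pol, (∀ x ∈ closedBall (0 : ℂ × ℂ) 1, ‖f x‖ ≤ exp ((5 + c.CI) * c.X)) ∧
    ∀ z ∈ c.V4, ∀ p : ℂ, ‖p‖ ≤ exp (5 - c.hn) →
      ‖f (c.Ψn (z, p)) - c.Fn z‖ ≤ ‖c.Fn z‖ / 1000 + 3 * exp (-(c.C5 * c.A)) ∧
      (‖z - c.b‖ ≤ c.r → ‖f (c.Ψn (z, p)) - c.Fn z‖ ≤ 3 * exp (-(c.C5 * c.A))) := by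
  have h0 := c.ηn_pos
  have h1 : c.η ^ c.n ≤ 1 := pow_le_one₀ c.η_pos.le
    (by linarith [c.η_le, c.x0_le, c.x1_le, c.x2_le])
  obtain ⟨f, hf, h2⟩ := weil_int c.Sk_compact (fun z hz => mem_closedBall_zero_iff.2
    ((c.H.V_sub hz.1).trans c.hRK.le)) (R := c.η ^ c.n / 4) (by linarith) (by linarith)
    c.Pn_pol c.J c.k_ker
  have h3 := fun x hx => h2 x _ (exp_pos ((4 + c.CI) * c.X)).le fun ζ hζ q hq =>
    c.k_le hζ (by linarith [mem_sphere_zero_iff_norm.1 hq]) hx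
  refine ⟨f, hf, fun x hx => ((h3 x hx).1 (c.Pn_le hx)).trans ?_, fun z hz p hp => ?_⟩
  · have h4 : (c.η ^ c.n / 4)⁻¹ ≤ exp (c.n * c.Hh + 2) := by
      rw [c.ηn_eq, inv_div, exp_neg, div_inv_eq_mul, exp_add, mul_comm]
      gcongr; linarith [le_exp_two]
    calc _ ≤ exp 2 * (exp ((4 + c.CI) * c.X) * (exp (c.J * 1) * exp (c.n * c.Hh + 2) ^ c.J)) := by
          gcongr
          · linarith [le_exp_two]
          · exact nat_le_exp _ le_rfl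
      _ ≤ _ := by
          rw [← exp_nat_mul, ← exp_add, ← exp_add, ← exp_add, exp_le_exp]
          linarith [c.g2]
  · have hz1 := c.V4_V1 hz
    have h4 := hp.trans c.ϱn_le'
    have h5 : ‖p‖ ≤ c.η ^ c.n := by linarith
    have hx := (c.Ψn_spec hz1 h5).2.2.2
    have ho : 0 ≤ c.eo z := by rw [(c.eo_eq hz).1]; positivity
    have hi : 0 ≤ c.ei (c.Ψn (z, p)) := by rw [c.ei_eq (c.ξ_spec hz1 h5).2.2.2]; positivity
    have h6 := (h3 _ (c.ξ_spec hz1 h5).1).2 _ (c.mn z p) (add_nonneg ho hi)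
      (fun ζ hζ => c.k_diff (c.Sk_V1 hζ) _) (by rw [hx]; linarith) (c.mn_cont hz (by linarith))
      fun ζ hζ => by rw [hx]; exact c.err_pt hz (by linarith) hζ
    rw [c.mn_int hz (by linarith), hx] at h6
    have h7 := c.eJ hp
    have h8 : ‖z - c.b‖ ≤ c.r → 4 * c.eo z ≤ exp (-(c.C5 * c.A)) := fun h =>
      c.eo_near hz (closedBall_subset_closedBall c.hρ2.le (c.ballb h))
    have := norm_nonneg (c.Fn z)
    have := exp_pos (-(c.C5 * c.A))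
    refine ⟨?_, fun h => ?_⟩
    · rcases le_total c.r ‖z - c.b‖ with h | h <;> rcases le_total c.x2 ‖z - c.a‖ with h' | h'
      · linarith [c.eo_far hz h, c.ei_far hz h5 h']
      · linarith [c.eo_far hz h, c.ei_near hz h5 h']
      · linarith [h8 h, c.ei_far hz h5 h']
      · linarith [h8 h, c.ei_near hz h5 h']
    · linarith [h8 h, c.ei_far hz h5 (by linarith [c.ball_far (c.ballb h), c.x2_ϱ, c.x2_pos])]

end Ctx2

end Pool.Agent.Lib.MP_9cdd18_an.CX
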