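import Mathlib

namespace Pool.Agent.Lib.MP_9cdd18_an

/-- Plurisubharmonic on `U` (the definition of the frozen statement). -/
def PSH {n : ℕ} (U : Set (Fin n → ℂ)) (u : (Fin n → ℂ) → EReal) : Prop :=
  UpperSemicontinuousOn u U ∧ (∀ x ∈ U, u x ≠ ⊤) ∧
    ∀ a b : Fin n → ℂ, (∀ z : ℂ, ‖z‖ ≤ 1 → a + z • b ∈ U) →
      ∀ M : ℝ, u a ≤
        ((((2 * Real.pi)⁻¹ *
          ∫ θ in (0:ℝ)..(2 * Real.pi),
            (max (u (a + Complex.exp ((θ : ℂ) * Complex.I) • b)) (M : EReal)).toReal) : ℝ) : EReal)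

/-- Maximal on `U` (the definition of the frozen statement). -/
def Maximal {n : ℕ} (U : Set (Fin n → ℂ)) (φ : (Fin n → ℂ) → EReal) : Prop :=
  PSH U φ ∧
    ∀ v : (Fin n → ℂ) → EReal, PSH U v →
      (∃ K : Set (Fin n → ℂ), IsCompact K ∧ K ⊆ U ∧ ∀ x ∈ U \ K, v x ≤ φ x) →
      ∀ x ∈ U, v x ≤ φ x

end Pool.Agent.Lib.MP_9cdd18_an
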