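import Pool.Agent.Lib.MP_9cdd18_an.Core

namespace Pool.Agent.Lib.MP_9cdd18_an

open MeasureTheory Set Real Filter Topology

variable {n : ℕ}

theorem polar_null {Z : Set ℂ} (hZ : MeasurableSet Z) :
    (volume : Measure ℂ) Z = 0 ↔ ∀ᵐ (ρ : ℝ) ∂(volume.restrict (Ioi (0 : ℝ))),
      ∀ᵐ (θ : ℝ) ∂(volume.restrict (Ioc 0 (2 * π))),
        -((ρ : ℂ) * Complex.exp ((θ : ℝ) * Complex.I)) ∉ Z := by
  have hsymm : ∀ p : ℝ × ℝ, Complex.polarCoord.symm p =
      (p.1 : ℂ) * Complex.exp ((p.2 : ℂ) * Complex.I) := by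
    intro p
    rw [Complex.polarCoord_symm_apply, Complex.exp_mul_I]
    simp
  have hmeas : MeasurableSet
      {p : ℝ × ℝ | (p.1 : ℂ) * Complex.exp ((p.2 : ℂ) * Complex.I) ∉ Z} := by
    have : Measurable (fun p : ℝ × ℝ => (p.1 : ℂ) * Complex.exp ((p.2 : ℂ) * Complex.I)) := by
      fun_prop
    exact this hZ.compl
  have h1 : (volume : Measure ℂ) Z = 0 ↔ ∀ᵐ (p : ℝ × ℝ) ∂(volume.restrict (Ioi (0 : ℝ) ×ˢ Ioo (-π) π)),
      (p.1 : ℂ) * Complex.exp ((p.2 : ℂ) * Complex.I) ∉ Z := by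
    rw [← lintegral_indicator_one hZ, ← Complex.lintegral_comp_polarCoord_symm,
      lintegral_eq_zero_iff]
    · change (∀ᵐ p ∂(volume.restrict (Ioi (0 : ℝ) ×ˢ Ioo (-π) π)), _) ↔ _
      refine eventually_congr ?_
      filter_upwards [ae_restrict_mem (measurableSet_Ioi.prod measurableSet_Ioo)] with p hp
      rw [hsymm]
      have : 0 < p.1 := hp.1
      by_cases h : (p.1 : ℂ) * Complex.exp ((p.2 : ℂ) * Complex.I) ∈ Z <;> simp [h, this]
    · simp only [hsymm, smul_eq_mul]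
      refine Measurable.mul (by fun_prop) ((measurable_one.indicator hZ).comp ?_)
      fun_prop
  rw [h1, Measure.volume_eq_prod, ← Measure.prod_restrict, Measure.ae_prod_iff_ae_ae hmeas]
  refine eventually_congr (Eventually.of_forall fun ρ => ?_)
  have hmp : MeasurePreserving (fun θ : ℝ => θ + -π) (volume.restrict (Ioc 0 (2 * π)))
      (volume.restrict (Ioo (-π) π)) := by
    rw [Measure.restrict_congr_set (Ioo_ae_eq_Ioc (a := -π) (b := π))]
    have := (measurePreserving_add_right volume (-π)).restrict_preimage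
      (measurableSet_Ioc (a := -π) (b := π))
    convert this using 2
    ext θ
    simp only [mem_preimage, mem_Ioc]
    constructor <;> rintro ⟨a, b⟩ <;> constructor <;> linarith
  have hm2 : MeasurableSet {θ : ℝ | (ρ : ℂ) * Complex.exp ((θ : ℂ) * Complex.I) ∉ Z} := by
    have : Measurable (fun θ : ℝ => (ρ : ℂ) * Complex.exp ((θ : ℂ) * Complex.I)) := by fun_prop
    exact this hZ.compl
  rw [← hmp.map_eq, ae_map_iff hmp.measurable.aemeasurable hm2]
  refine eventually_congr (Eventually.of_forall fun θ => ?_)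
  have : Complex.exp (((θ + -π : ℝ) : ℂ) * Complex.I) = -Complex.exp ((θ : ℂ) * Complex.I) := by
    push_cast
    rw [add_mul, Complex.exp_add, neg_mul, Complex.exp_neg, Complex.exp_pi_mul_I]
    ring
  rw [this, mul_neg]

theorem le_of_le_off_polar {U : Set (Fin n → ℂ)} (hU : IsOpen U)
    {v φ ψ : (Fin n → ℂ) → EReal} (hv : PSH U v) (hψ : PSH U ψ)
    (hd : U ⊆ closure {x | x ∈ U ∧ ψ x ≠ ⊥}) (hφ : UpperSemicontinuousOn φ U)
    (h : ∀ x ∈ U, ψ x ≠ ⊥ → v x ≤ φ x) : ∀ x ∈ U, v x ≤ φ x := by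
  intro x hx
  refine EReal.le_of_forall_lt_iff_le.1 ?_
  intro c hc
  have h1 : ∀ᶠ z in 𝓝 x, z ∈ U ∧ φ z < c := by
    have := hφ x hx c hc
    rw [hU.nhdsWithin_eq hx] at this
    exact (hU.eventually_mem hx).and this
  obtain ⟨r, hr, hball⟩ := Metric.eventually_nhds_iff.1 h1
  obtain ⟨y, hy, hyx⟩ := Metric.mem_closure_iff.1 (hd hx) (r / 4) (by positivity)
  set d := x - y with hdd
  have hdn : ‖d‖ < r / 4 := by rw [hdd, ← dist_eq_norm]; exact hyx
  have hin : ∀ ζ : ℂ, ‖ζ‖ ≤ 2 → dist (y + ζ • d) x < r := by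
    intro ζ hζ
    have : y + ζ • d - x = (ζ - 1) • d := by rw [hdd]; module
    rw [dist_eq_norm, this, norm_smul]
    have h2 : ‖ζ - 1‖ ≤ 3 := (norm_sub_le _ _).trans (by rw [norm_one]; linarith)
    have := norm_nonneg d
    nlinarith
  set Z : Set ℂ := {ζ | ‖ζ‖ ≤ 2 ∧ ψ (y + ζ • d) = ⊥} with hZ
  have hZm : MeasurableSet Z := by
    have h2 : UpperSemicontinuousOn (ψ ∘ fun ζ : ℂ => y + ζ • d) (Metric.closedBall 0 2) :=
      hψ.1.comp (by fun_prop) (fun ζ hζ => (hball (hin ζ (by simpa using hζ))).1)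
    have h3 := (upperSemicontinuousOn_iff_restrict.2 h2).measurable (measurableSet_singleton ⊥)
    have h4 := (MeasurableEmbedding.subtype_coe
      (measurableSet_closedBall (x := (0 : ℂ)) (ε := 2))).measurableSet_image.2 h3
    convert h4 using 1
    ext ζ
    simp [hZ, and_comm]
  have hZ0 : volume Z = 0 := by
    rw [polar_null hZm]
    filter_upwards [ae_restrict_mem measurableSet_Ioi] with ρ hρ
    have hρ0 : 0 < ρ := hρ
    by_cases h2 : ρ ≤ 2
    · have h3 := hψ.ae_ne_bot (a := y) (b := (-(ρ : ℂ)) • d) (fun z hz => by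
        rw [smul_smul]
        refine (hball (hin _ ?_)).1
        rw [norm_mul, norm_neg, Complex.norm_real, Real.norm_eq_abs, abs_of_pos hρ0]
        nlinarith [norm_nonneg z]) hy.2
      filter_upwards [h3] with θ hθ hmem
      apply hθ
      have := hmem.2
      simp only [circ, smul_smul]
      convert this using 4
      ring
    · refine Eventually.of_forall fun θ hmem => h2 ?_
      have := hmem.1
      rwa [norm_neg, norm_mul, Complex.norm_exp_ofReal_mul_I, mul_one, Complex.norm_real,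
        Real.norm_eq_abs, abs_of_pos hρ0] at this
  have hZ1 : volume ((fun ζ : ℂ => 1 + ζ) ⁻¹' Z) = 0 := by
    rw [measure_preimage_add]; exact hZ0
  rw [polar_null (hZm.preimage (by fun_prop))] at hZ1
  have hex : ∃ ρ : ℝ, ρ ∈ Ioo (0 : ℝ) 1 ∧ ∀ᵐ (θ : ℝ) ∂(volume.restrict (Ioc 0 (2 * π))),
      -((ρ : ℂ) * Complex.exp ((θ : ℝ) * Complex.I)) ∉ (fun ζ : ℂ => 1 + ζ) ⁻¹' Z := by
    have h2 := ae_restrict_of_ae_restrict_of_subset
      (show Ioo (0 : ℝ) 1 ⊆ Ioi 0 from fun x hx => hx.1) hZ1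
    have h3 := (ae_restrict_mem (μ := volume) (measurableSet_Ioo (a := (0:ℝ)) (b := 1))).and h2
    have : (ae (volume.restrict (Ioo (0 : ℝ) 1))).NeBot := by
      rw [ae_restrict_neBot]; simp
    exact h3.exists
  obtain ⟨ρ, hρ, hρ2⟩ := hex
  have hrw : ∀ z : ℂ, x + z • ((-(ρ : ℂ)) • d) = y + (1 + -((ρ : ℂ) * z)) • d := by
    intro z
    rw [hdd]
    module
  have hnorm : ∀ z : ℂ, ‖z‖ ≤ 1 → ‖1 + -((ρ : ℂ) * z)‖ ≤ 2 := by
    intro z hz
    refine (norm_add_le _ _).trans ?_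
    rw [norm_one, norm_neg, norm_mul, Complex.norm_real, Real.norm_eq_abs, abs_of_pos hρ.1]
    nlinarith [norm_nonneg z, hρ.1, hρ.2]
  refine hv.le_of_ae (a := x) (b := (-(ρ : ℂ)) • d) (fun z hz => ?_) ?_
  · rw [hrw]; exact (hball (hin _ (hnorm z hz))).1
  · filter_upwards [hρ2] with θ hθ
    have h2 := hnorm _ (Complex.norm_exp_ofReal_mul_I θ).le
    have h3 := hball (hin _ h2)
    simp only [circ]
    rw [hrw]
    exact (h _ h3.1 (fun hb => hθ ⟨h2, hb⟩)).trans h3.2.le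

theorem main {Ω : Set (Fin n → ℂ)} {φ : (Fin n → ℂ) → EReal} (hφ : PSH Ω φ)
    (hloc : ∀ x ∈ Ω, ∃ V : Set (Fin n → ℂ), IsOpen V ∧ x ∈ V ∧ IsCompact (closure V) ∧
      closure V ⊆ Ω ∧ Maximal V φ)
    (hsing : ∀ K : Set (Fin n → ℂ), IsCompact K → K ⊆ Ω →
      ∃ (U : Set (Fin n → ℂ)) (g ψ : (Fin n → ℂ) → EReal), IsOpen U ∧ K ⊆ U ∧ U ⊆ Ω ∧
        Maximal U g ∧ PSH U ψ ∧ U ⊆ closure {x | x ∈ U ∧ ψ x ≠ ⊥} ∧ (∀ x ∈ U, φ x ≤ g x) ∧
        ∀ ε : ℝ, 0 < ε → ∃ C : ℝ, ∀ x ∈ K, g x + ε * ψ x ≤ φ x + C) :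
    Maximal Ω φ := by
  refine ⟨hφ, ?_⟩
  rintro v hv ⟨K, hK, hKΩ, hvK⟩
  choose! V hVo hxV hVc hVΩ hVm using hloc
  obtain ⟨t, htK, hcover⟩ := hK.elim_nhds_subcover V
    (fun x hx => (hVo x (hKΩ hx)).mem_nhds (hxV x (hKΩ hx)))
  set K1 := ⋃ x ∈ t, closure (V x) with hK1
  have hK1c : IsCompact K1 := t.isCompact_biUnion fun x hx => hVc x (hKΩ (htK x hx))
  have hK1Ω : K1 ⊆ Ω := iUnion₂_subset fun x hx => hVΩ x (hKΩ (htK x hx))
  have hVK1 : ∀ x ∈ t, V x ⊆ K1 := fun x hx =>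
    subset_closure.trans (subset_biUnion_of_mem (u := fun x => closure (V x)) hx)
  have hKK1 : K ⊆ K1 := hcover.trans (iUnion₂_subset hVK1)
  obtain ⟨U, g, ψ, hUo, hK1U, hUΩ, hg, hψ, hd, hφg, hsm⟩ := hsing K1 hK1c hK1Ω
  have hvU := hv.mono hUΩ
  have hvg : ∀ x ∈ U, v x ≤ g x := hg.2 v hvU ⟨K, hK, hKK1.trans hK1U, fun x hx =>
    (hvK x ⟨hUΩ hx.1, hx.2⟩).trans (hφg x hx.1)⟩
  obtain ⟨A, -, hA⟩ := exists_bound hK1c hK1U hψ.1 hψ.2.1
  have hstep : ∀ ε : ℝ, 0 < ε → ∀ x ∈ K,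
      v x + ε * ψ x + ((-(ε * A) : ℝ) : EReal) ≤ φ x := by
    intro ε hε
    have hw : PSH U (fun x => v x + ε * ψ x + ((-(ε * A) : ℝ) : EReal)) := by
      have := (hvU.add (hψ.smul hε)).add (psh_affine (U := U) 0 (-(ε * A)))
      simpa using this
    obtain ⟨C, hC⟩ := hsm ε hε
    refine core (C := C - ε * A) hK hw (fun x hx => hφ.2.1 x (hKΩ hx)) (hKK1.trans hK1U) ?_ ?_
    · intro x hx
      obtain ⟨y, hy, hxy⟩ := mem_iUnion₂.1 (hcover hx)
      have hyΩ := hKΩ (htK y hy)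
      refine ⟨V y, hVo y hyΩ, hxy, (hVK1 y hy).trans hK1U,
        (hVc y hyΩ).isBounded.subset subset_closure, hVm y hyΩ, fun z hz => ?_⟩
      have hz1 := hVK1 y hy hz.1
      refine ereal_shift (s := ε * A) (add_le_add (hvK z ⟨hK1Ω hz1, hz.2⟩) ?_) (by linarith)
      rw [EReal.coe_mul]
      exact mul_le_mul_of_nonneg_left (hA z hz1) (EReal.coe_nonneg.2 hε.le)
    · intro x hx
      have h1 : v x + ε * ψ x ≤ φ x + C :=
        (add_le_add (hvg x (hK1U (hKK1 hx))) le_rfl).trans (hC x (hKK1 hx))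
      calc _ ≤ φ x + C + ((-(ε * A) : ℝ) : EReal) := add_le_add h1 le_rfl
        _ = _ := by rw [add_assoc, ← EReal.coe_add, sub_eq_add_neg]
  have hU : ∀ x ∈ U, v x ≤ φ x := by
    refine le_of_le_off_polar hUo hvU hψ hd (hφ.1.mono hUΩ) fun x hx hψx => ?_
    by_cases hxK : x ∈ K
    swap
    · exact hvK x ⟨hUΩ hx, hxK⟩
    by_cases hvx : v x = ⊥
    · rw [hvx]; exact bot_le
    lift v x to ℝ using ⟨hvU.2.1 x hx, hvx⟩ with p hp
    lift ψ x to ℝ using ⟨hψ.2.1 x hx, hψx⟩ with s hs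
    refine EReal.ge_of_forall_gt_iff_ge.1 fun c hc => ?_
    rw [EReal.coe_lt_coe_iff] at hc
    have hε : 0 < (p - c) / (|s - A| + 1) := div_pos (by linarith) (by positivity)
    have h1 := hstep _ hε x hxK
    rw [← hp, ← hs, ← EReal.coe_mul, ← EReal.coe_add, ← EReal.coe_add] at h1
    refine le_trans (EReal.coe_le_coe_iff.2 ?_) h1
    have h2 : (p - c) / (|s - A| + 1) * (|s - A| + 1) = p - c := by field_simp
    have h3 := neg_abs_le (s - A)
    nlinarith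
  intro x hx
  by_cases hxK : x ∈ K
  · exact hU x (hK1U (hKK1 hxK))
  · exact hvK x ⟨hx, hxK⟩

end Pool.Agent.Lib.MP_9cdd18_an
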